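import Pool.Agent.MP_b834b3_ag.h.SpecC

/-! Genus eighteen: the four charts form an atlas. -/

namespace Pool.Agent.MP_b834b3_ag.G18

open AlgebraicGeometry CategoryTheory Algebra IsLocalRing Limits MvPolynomial Matrix

namespace AtlasL

variable {L : Type} [Field L] [Algebra K L] {M : Matrix (Fin 3) (Fin 9) L} {X : Scheme.{0}}
  {s : X ⟶ Spec (CommRingCat.of K)}

theorem glued {ι : Type} {A : ι → Subalgebra K L} (h : IsGlued A s) :
    ∃ j : ∀ c, Spec (CommRingCat.of (A c)) ⟶ X, (∀ c, IsOpenImmersion (j c)) ∧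
      (∀ p : X, ∃ c q, j c q = p) ∧ (∀ c, j c ≫ s = sp (algebraMap K (A c))) ∧
      ∀ c c', sp (A c).val.toRingHom ≫ j c = sp (A c').val.toRingHom ≫ j c' := h

theorem det_map {R S : Type} [CommRing R] [CommRing S] (σ : R →+* S)
    (N : Matrix (Fin 3) (Fin 9) R) (f : Fin 3 → Fin 9) :
    σ (N.submatrix id f).det = ((N.map σ).submatrix id f).det := RingHom.map_det σ _

theorem one_map {R S : Type} [CommRing R] [CommRing S] (σ : R →+* S)
    {N : Matrix (Fin 3) (Fin 9) R} {f : Fin 3 → Fin 9} (h : N.submatrix id f = 1) :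
    (N.map σ).submatrix id f = 1 := by
  rw [submatrix_map, h, Matrix.map_one _ (map_zero σ) (map_one σ)]

theorem inv_ne {F : Type} [Field F] {g : Matrix (Fin 3) (Fin 3) F} (h : g.det ≠ 0) :
    g⁻¹.det ≠ 0 := by
  rw [det_nonsing_inv, Ring.inverse_eq_inv']
  exact inv_ne_zero h

theorem tr (hB : Base) (hC : ChAt M) {f f' : Fin 3 → Fin 9} (hf : (M.submatrix id f).det ≠ 0)
    (hf' : (M.submatrix id f').det ≠ 0) (c : Spec (CommRingCat.of (chart M f)) ⟶ X)
    (c' : Spec (CommRingCat.of (chart M f')) ⟶ X) [IsOpenImmersion c']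
    (hg : sp (chart M f).val.toRingHom ≫ c = sp (chart M f').val.toRingHom ≫ c')
    {F : Type} [Field F] (β : chart M f →+* F) (β' : chart M f' →+* F)
    (h : sp β ≫ c = sp β' ≫ c') : (((el M f).map β).submatrix id f').det ≠ 0 ∧
      (el M f').map β' = nm f' ((el M f).map β) := by
  have h1 := trans_mul c c' hg β β' h (a₁ := ((el M f).submatrix id f').det)
    (b₁ := ((el M f').submatrix id f).det) (a₂ := 1) (b₂ := 1) (by
      rw [hC.det, hC.det]
      field_simp
      simp)
  rw [map_one, map_one, mul_one] at h1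
  have h2 : β ((el M f).submatrix id f').det ≠ 0 := left_ne_zero_of_mul_eq_one h1
  have h3 : ((nm f M).submatrix id f').det ≠ 0 := by
    rw [hB.pt.det_nm]
    exact div_ne_zero hf' hf
  have h4 := (hB.pt.nm_one L f' (nm f M) h3).2
  rw [show nm f' (nm f M) = nm f' M from hB.pt.nm_mul L f' _ M (inv_ne hf)] at h4
  have h5 : ((nm f M).submatrix id f').det • nm f' M =
      ((nm f M).submatrix id f').adjugate * nm f M := by
    conv_rhs => rw [h4, ← Matrix.mul_assoc, ← h4, adjugate_mul, Matrix.smul_mul, Matrix.one_mul]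
  refine ⟨by rwa [← det_map], ?_⟩
  ext a x
  have h6 := trans_mul c c' hg β β' h (a₁ := ((el M f).submatrix id f').det) (b₁ := el M f' a x)
    (a₂ := (((el M f).submatrix id f').adjugate * el M f) a x) (b₂ := 1) (by
      have e1 := det_map (chart M f).val.toRingHom (el M f) f'
      have e2 : (((el M f).submatrix id f').adjugate * el M f).map (chart M f).val.toRingHom =
          ((nm f M).submatrix id f').adjugate * nm f M := by
        rw [Matrix.map_mul, ← RingHom.mapMatrix_apply, RingHom.map_adjugate]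
        rfl
      have e3 := congrFun (congrFun (h5.trans e2.symm) a) x
      rw [OneMemClass.coe_one, mul_one]
      exact (congrArg (· * _) e1).trans e3)
  have e4 : (((el M f).submatrix id f').adjugate * el M f).map β =
      (((el M f).map β).submatrix id f').adjugate * (el M f).map β := by
    rw [Matrix.map_mul, ← RingHom.mapMatrix_apply, RingHom.map_adjugate]
    rfl
  rw [map_one, mul_one] at h6
  rw [nm, inv_def, Ring.inverse_eq_inv', Matrix.smul_mul, ← e4, ← det_map, Matrix.smul_apply,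
    map_apply, map_apply, ← h6, smul_eq_mul, inv_mul_cancel_left₀ h2]

theorem indep (hB : Base) (hC : ChAt M) {f f' : Fin 3 → Fin 9} (hf : (M.submatrix id f).det ≠ 0)
    (hf' : (M.submatrix id f').det ≠ 0) (c : Spec (CommRingCat.of (chart M f)) ⟶ X)
    (c' : Spec (CommRingCat.of (chart M f')) ⟶ X) [IsOpenImmersion c']
    (hg : sp (chart M f).val.toRingHom ≫ c = sp (chart M f').val.toRingHom ≫ c')
    (hs : c ≫ s = sp (algebraMap K _)) (hs' : c' ≫ s = sp (algebraMap K _))
    {F F' : Type} [Field F] [Algebra K F] [Field F'] [Algebra K F'] (β : chart M f →ₐ[K] F)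
    (β' : chart M f' →ₐ[K] F')
    (h : (sp β.toRingHom ≫ c) (closedPoint F) = (sp β'.toRingHom ≫ c') (closedPoint F')) :
    pt ((el M f).map β) = pt ((el M f').map β') := by
  obtain ⟨α, hα⟩ := lift_chart c' (sp β.toRingHom ≫ c) ⟨sp β'.toRingHom (closedPoint F'),
    (h.trans (Scheme.Hom.comp_apply _ _ _)).symm⟩
  have h1 : α.comp (algebraMap K _) = algebraMap K F := sp_inj (by
    rw [sp_comp, ← hs', ← Category.assoc, ← hα, Category.assoc, hs, ← sp_comp]
    exact congrArg sp β.comp_algebraMap)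
  let α' : chart M f' →ₐ[K] F := ⟨α, RingHom.congr_fun h1⟩
  obtain ⟨h2, h3⟩ := tr hB hC hf hf' c c' hg _ α hα
  have h4 : sp α (closedPoint F) = sp β'.toRingHom (closedPoint F') :=
    c'.isOpenEmbedding.injective ((Scheme.Hom.comp_apply _ _ _).symm.trans
      ((hα ▸ h).trans (Scheme.Hom.comp_apply _ _ _)))
  have h5 : (maximalIdeal F).comap α = (maximalIdeal F').comap β'.toRingHom :=
    congrArg PrimeSpectrum.asIdeal h4
  rw [maximalIdeal_eq_bot, maximalIdeal_eq_bot] at h5
  rw [← hB.pt.pt_ker _ F F' α' β' (el M f') fun r => SetLike.ext_iff.1 h5 r]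
  exact (hB.pt.pt_mul F _ _ (inv_ne h2)).symm.trans (congrArg pt h3.symm)

/-- The residue map of a point of a chart. -/
noncomputable abbrev res {A : Type} [CommRing A] [Algebra K A] (P : PrimeSpectrum A) :
    A →ₐ[K] P.asIdeal.ResidueField := IsScalarTower.toAlgHom K A P.asIdeal.ResidueField

theorem snd_pt (hB : Base) (hC : ChAt M) (j : Fin 4) (P : Spec (CommRingCat.of (Ach M j)))
    (h : (pt ((el M (ff j)).map (res P))).1 = j) :
    (pt ((el M (ff j)).map (res P))).2 = P.asIdeal.comap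
      (aeval fun x : Fin 3 × Fin 9 => el M (ff j) x.1 x.2 : MvPolynomial _ K →ₐ[K] Ach M j) := by
  have h1 : cellOf ((el M (ff j)).map (res P)) = j := h
  have h2 := hB.pt.nm_self _ _ _ (one_map (res P).toRingHom (hC.one _ (hC.ne j)))
  simp only [pt, h1]
  rw [show nm (ff j) ((el M (ff j)).map (res P)) = (el M (ff j)).map (res P) from h2]
  ext p
  rw [RingHom.mem_ker, Ideal.mem_comap, ← Ideal.algebraMap_residueField_eq_zero]
  refine Eq.congr_left ?_
  change _ = ((res P).comp (aeval fun x : Fin 3 × Fin 9 => el M (ff j) x.1 x.2)) p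
  rw [comp_aeval]
  rfl

end AtlasL

open AtlasL in
theorem atl_s (hB : Base) : AtlS := by
  intro L _ _ M X s hC hsep hG
  obtain ⟨c, op, cov, hs, hg⟩ := glued hG
  choose i P hP using cov
  let key : X → Pt := fun x => pt ((el M (i x).1).map (res (P x)))
  have hk : ∀ (f : {f : Fin 3 → Fin 9 // (M.submatrix id f).det ≠ 0}) (F : Type) [Field F]
      [Algebra K F] (β : chart M f.1 →ₐ[K] F),
      key ((sp β.toRingHom ≫ c f) (closedPoint F)) = pt ((el M f.1).map β) := by
    intro f F _ _ β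
    obtain ⟨x, hx⟩ : ∃ x, (sp β.toRingHom ≫ c f) (closedPoint F) = x := ⟨_, rfl⟩
    rw [hx]
    exact indep hB hC (i x).2 f.2 (c (i x)) (c f) (hg (i x) f) (hs (i x)) (hs f) (res (P x)) β
      ((sp_res_point (c (i x)) (P x)).trans ((hP x).trans hx.symm))
  let ch : ∀ j, Spec (CommRingCat.of (Ach M j)) ⟶ X := fun j => c ⟨ff j, hC.ne j⟩
  have hk' : ∀ j Q, key (ch j Q) = pt ((el M (ff j)).map (res Q)) := fun j Q => by
    rw [← sp_res_point (ch j) Q]
    exact hk ⟨ff j, hC.ne j⟩ _ (res Q)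
  have hm : ∀ x, x ∈ Set.range (ch (key x).1) := by
    intro x
    have h1 := one_map (res (P x)).toRingHom (hC.one _ (i x).2)
    have h2 : mn (key x).1 ((el M (i x).1).map (res (P x))) ≠ 0 :=
      hB.ech _ _ ((hB.pt.iso_map _ _ (res (P x)) _).1 (hC.iso _ (i x).2))
        ((hB.pt.rk_det _ _).2 ⟨(i x).1, by
          rw [show ((el M (i x).1).map (res (P x))).submatrix id (i x).1 = 1 from h1, det_one]
          exact one_ne_zero⟩)
    generalize (key x).1 = j at h2 ⊢
    have h3 : ((el M (i x).1).submatrix id (ff j)).det ∉ (P x).asIdeal := fun h =>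
      h2 ((det_map (res (P x)).toRingHom _ _).symm.trans
        (Ideal.algebraMap_residueField_eq_zero.2 h))
    refine hP x ▸ overlap (c (i x)) (c ⟨ff j, hC.ne j⟩) (hg (i x) ⟨ff j, hC.ne j⟩) (hs (i x))
      (hs ⟨ff j, hC.ne j⟩) (P x) fun b hb => ?_
    obtain ⟨n, a, ha, -⟩ := (hC.loc _ _ (i x).2 (hC.ne j)).1 ⟨b, hb⟩
    refine ⟨((el M (i x).1).submatrix id (ff j)).det ^ n,
      fun h => h3 ((P x).isPrime.mem_of_pow_mem n h), ?_⟩
    rw [SubmonoidClass.coe_pow, hC.det, ← ha]
    exact a.2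
  have op' : ∀ j, IsOpenImmersion (ch j) := fun j => op ⟨ff j, hC.ne j⟩
  have hg' : ∀ j j', sp (chart M (ff j)).val.toRingHom ≫ ch j =
      sp (chart M (ff j')).val.toRingHom ≫ ch j' := fun j j' =>
    hg ⟨ff j, hC.ne j⟩ ⟨ff j', hC.ne j'⟩
  have hs' : ∀ j, ch j ≫ s = sp (algebraMap K (Ach M j)) := fun j => hs ⟨ff j, hC.ne j⟩
  have hk2 : ∀ j (F : Type) [Field F] [Algebra K F] (β : Ach M j →ₐ[K] F),
      key ((sp β.toRingHom ≫ ch j) (closedPoint F)) = pt ((el M (ff j)).map β) :=
    fun j => hk ⟨ff j, hC.ne j⟩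
  clear_value key ch
  refine ⟨⟨ch, key, op', hs', hg', fun x x' h => ?_, hm, fun x x' h => ?_, hk2,
    fun j j' F _ β β' h => tr hB hC (hC.ne j) (hC.ne j') (ch j) (ch j') (hg' j j') β β' h⟩⟩
  · have h1 := hm x
    have h2 := hm x'
    rw [← h] at h2
    obtain ⟨j, hj⟩ : ∃ j, (key x).1 = j := ⟨_, rfl⟩
    rw [hj] at h1 h2
    obtain ⟨Q, rfl⟩ := h1
    obtain ⟨Q', rfl⟩ := h2
    have hj' := (congrArg Prod.fst h).symm.trans hj
    rw [hk'] at hj hj'
    rw [hk', hk'] at h
    have h3 := congrArg Prod.snd h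
    rw [snd_pt hB hC j Q hj, snd_pt hB hC j Q' hj'] at h3
    have h4 : Function.Surjective (aeval fun x : Fin 3 × Fin 9 => el M (ff j) x.1 x.2 :
        MvPolynomial _ K →ₐ[K] Ach M j) := by
      rw [← AlgHom.range_eq_top, aeval_range]
      exact hC.gen _
    rw [PrimeSpectrum.ext (Ideal.comap_injective_of_surjective _ h4 h3)]
  · obtain ⟨Q, rfl⟩ := h.mem_open (ch (key x').1).isOpenEmbedding.isOpen_range (hm x')
    rw [hk']
    refine (hB.pt.cell_iff _ _ _ ?_).1
    rw [mn, show ((el M (ff (key x').1)).map (res Q)).submatrix id (ff (key x').1) = 1 from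
      one_map (res Q).toRingHom (hC.one _ (hC.ne _)), det_one]
    exact one_ne_zero

end Pool.Agent.MP_b834b3_ag.G18
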