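import Pool.Agent.MP_b834b3_ag.h.SpecA

/-! Genus eighteen: pairs of planes with dependent conditions. -/

namespace Pool.Agent.MP_b834b3_ag.G18

open Algebra Matrix

namespace BfL

variable {F : Type} [Field F]

theorem card_tf4 : ∀ a b : Fin 9, a < b → ∀ c, b < c → ∀ d, c < d →
    (∀ i j, (![a, b, c, d] i).val + (![a, b, c, d] j).val ≠ 8) → (Tf ![a, b, c, d]).card ≤ 10 := by
  decide +kernel

theorem card_tf {f : Fin 4 → Fin 9} (h : StrictMono f) (h' : ∀ a b, (f a).val + (f b).val ≠ 8) :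
    (Tf f).card ≤ 10 := by
  have e : f = ![f 0, f 1, f 2, f 3] := by
    funext i
    fin_cases i <;> rfl
  rw [e] at h' ⊢
  exact card_tf4 _ _ (h (by decide)) _ (h (by decide)) _ (h (by decide)) h'

theorem miss : ∀ q : Fin 3 → Fin 4, Function.Injective q → ∃ j, ∀ i, i = j ∨ ∃ a, q a = i := by
  decide +kernel

theorem ent_mem (L : Subfield F) {h : Matrix (Fin 3) (Fin 3) F} {M : Matrix (Fin 3) (Fin 9) F}
    (hd : h.det ≠ 0) (h1 : ∀ a b, h a b ∈ L) (h2 : ∀ a b, (h * M) a b ∈ L) (a : Fin 3)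
    (b : Fin 9) : M a b ∈ L := by
  let h0 : Matrix (Fin 3) (Fin 3) L := of fun a b => ⟨h a b, h1 a b⟩
  let R0 : Matrix (Fin 3) (Fin 9) L := of fun a b => ⟨(h * M) a b, h2 a b⟩
  have e1 : h0.map L.subtype = h := rfl
  have e2 : R0.map L.subtype = h * M := rfl
  have hd0 : h0.det ≠ 0 := fun e => hd (by
    rw [← e1, ← RingHom.mapMatrix_apply, ← RingHom.map_det, e, map_zero])
  have e3 : (h0⁻¹ * R0).map L.subtype = M := by
    rw [Matrix.map_mul, e2, ← e1, ← Matrix.mul_assoc, ← Matrix.map_mul,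
      nonsing_inv_mul _ (isUnit_iff_ne_zero.2 hd0), Matrix.map_one _ (map_zero _) (map_one _),
      Matrix.one_mul]
  rw [← e3]
  exact ((h0⁻¹ * R0) a b).2

theorem rk_of {M : Matrix (Fin 3) (Fin 9) F} {f : Fin 3 → Fin 9} (h : M.submatrix id f = 1) :
    Rk M := fun c hc => by
  funext k
  have : (c ᵥ* M) (f k) = (c ᵥ* M.submatrix id f) k := rfl
  rw [hc, h, vecMul_one] at this
  exact this.symm

theorem three (hL : LinS) {W : Matrix (Fin 4) (Fin 9) F} {g : Matrix (Fin 3) (Fin 4) F}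
    {f : Fin 3 → Fin 9} (h : (g * W).submatrix id f = 1) :
    ∃ t : Fin 3 → F, ∀ L : Subfield F, (∀ a, t a ∈ L) → (∀ a c, W a c ∈ L) →
      ∀ a c, (g * W) a c ∈ L := by
  obtain ⟨q, hq, hd⟩ := (hL.piv F _ _ g).1 fun c hc =>
    rk_of h c (by rw [← vecMul_vecMul, hc, zero_vecMul])
  obtain ⟨j, hj⟩ := miss q hq
  have hu := isUnit_iff_ne_zero.2 hd
  set u := g.submatrix id q with hu'
  refine ⟨fun a => (u⁻¹ * g) a j, fun L ht hW => ?_⟩
  have h1 : ∀ a i, (u⁻¹ * g) a i ∈ L := fun a i => by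
    rcases hj i with rfl | ⟨b, rfl⟩
    · exact ht a
    · have : (u⁻¹ * g) a (q b) = (u⁻¹ * u) a b := rfl
      rw [this, nonsing_inv_mul _ hu, one_apply]
      split_ifs
      exacts [L.one_mem, L.zero_mem]
  have h2 : ∀ a c, (u⁻¹ * g * W) a c ∈ L := fun a c => by
    rw [mul_apply]
    exact L.sum_mem fun i _ => L.mul_mem (h1 a i) (hW i c)
  have e : (u⁻¹ * g * W).submatrix id f = u⁻¹ := by
    have : (u⁻¹ * g * W).submatrix id f = u⁻¹ * (g * W).submatrix id f := by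
      rw [Matrix.mul_assoc]
      rfl
    rw [this, h, Matrix.mul_one]
  refine ent_mem L (h := u⁻¹) (isUnit_nonsing_inv_det u hu).ne_zero (fun a b => ?_) fun a b => ?_
  · rw [← e]
    exact h2 a (f b)
  · rw [← Matrix.mul_assoc]
    exact h2 a b

theorem am_mem (L : Subfield F) {M : Matrix (Fin 3) (Fin 9) F} (h : ∀ a c, M a c ∈ L)
    (s k : Fin 16) : am M s k ∈ L := by
  let M0 : Matrix (Fin 3) (Fin 9) L := of fun a c => ⟨M a c, h a c⟩
  have e : M0.map L.subtype = M := rfl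
  rw [← e, ← am_map]
  exact (am M0 s k).2

theorem count [Algebra K F] (hL : LinS) (hE : EchGS) (hN : CntS)
    {M M' : Matrix (Fin 3) (Fin 9) F} {f f' : Fin 3 → Fin 9} (h : M.submatrix id f = 1)
    (h' : M'.submatrix id f' = 1) (hI : Iso M) (hI' : Iso M') {W : Matrix (Fin 4) (Fin 9) F}
    {g g' : Matrix (Fin 3) (Fin 4) F} (w1 : Tot W) (w2 : Rk W) (e : M = g * W) (e' : M' = g' * W)
    {p : Fin 3 → Fin 16 ⊕ Fin 16} (hp : Rk (of fun s => Sum.elim (am M) (am M') (p s)))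
    {δ : Type} [Fintype δ] {D : δ → F} (hD : AlgebraicIndependent K D)
    (hd : ∀ d, D d ∈ ent M ∪ ent M') : Fintype.card δ ≤ 1 := by
  obtain ⟨r, k, hr, hk, -, hr', hW⟩ := hE 4 F W w1 w2
  have hu := isUnit_iff_ne_zero.2 hk
  have ek : ∀ g : Matrix (Fin 3) (Fin 4) F, g * W = g * k⁻¹ * (k * W) := fun g => by
    rw [Matrix.mul_assoc, ← Matrix.mul_assoc k⁻¹, nonsing_inv_mul _ hu, Matrix.one_mul]
  rw [ek] at e e'
  obtain ⟨t, ht⟩ := three hL (e ▸ h)
  obtain ⟨t', ht'⟩ := three hL (e' ▸ h')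
  let ν : Tf r ⊕ Fin 3 ⊕ Fin 3 → F :=
    Sum.elim (fun x => (k * W) x.1.1 x.1.2) (Sum.elim t t')
  have h1 : ∀ a c, (k * W) a c ∈ Subfield.closure (Set.range ν) := fun a c =>
    Subfield.closure_mono (by
      rintro _ ⟨x, rfl⟩
      exact ⟨.inl x, rfl⟩) (hW a c)
  have m1 : ∀ a c, M a c ∈ Subfield.closure (Set.range ν) :=
    e ▸ ht _ (fun a => Subfield.subset_closure ⟨.inr (.inl a), rfl⟩) h1
  have m2 : ∀ a c, M' a c ∈ Subfield.closure (Set.range ν) :=
    e' ▸ ht' _ (fun a => Subfield.subset_closure ⟨.inr (.inr a), rfl⟩) h1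
  have c1 : ∀ s c, (of fun s => Sum.elim (am M) (am M') (p s)) s c ∈
      Subfield.closure (Set.range ν) := fun s c => by
    rw [of_apply]
    rcases p s with x | x
    exacts [am_mem _ m1 x c, am_mem _ m2 x c]
  have c2 : (of fun s => Sum.elim (am M) (am M') (p s)) * psi F = 0 := by
    funext s
    have : ((of fun s => Sum.elim (am M) (am M') (p s)) * psi F) s =
      Sum.elim (am M * psi F) (am M' * psi F) (p s) := by
      have : ((of fun s => Sum.elim (am M) (am M') (p s)) * psi F) s =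
        Sum.elim (am M) (am M') (p s) ᵥ* psi F := rfl
      rw [this]
      rcases p s with x | x <;> rfl
    rw [this, ((iso_iff _).1 hI).2, ((iso_iff _).1 hI').2]
    rcases p s with x | x <;> rfl
  have := hN F (Fin 3) (Fin 3) _ δ _ _ ν D hp hp (funext fun s => congrFun (congrFun c2 s) 0) c2
    c1 c1 hD fun d => by
      rcases hd d with ⟨x, hx⟩ | ⟨x, hx⟩ <;> rw [← hx]
      exacts [m1 _ _, m2 _ _]
  have h3 := card_tf hr hr'
  simp only [Fintype.card_sum, Fintype.card_fin, Fintype.card_coe] at this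
  omega

end BfL

open BfL

theorem bf_s (hC : CliffS) (hL : LinS) (hT : ThrS) (hE : EchGS) (hN : CntS) : BfS := by
  intro F B _ _ _ _ β N N' f f' hadj hN₀ hN' hI hI' hLI
  have _ := hC
  have h : (N.map β).submatrix id f = 1 := by
    rw [submatrix_map, hN₀, Matrix.map_one _ (map_zero _) (map_one _)]
  have h' : (N'.map β).submatrix id f' = 1 := by
    rw [submatrix_map, hN', Matrix.map_one _ (map_zero _) (map_one _)]
  rcases hT F _ _ hI.1 (rk_of h) hI'.1 (rk_of h') hLI with h5 | ⟨⟨W, g, g', w1, w2, e, e'⟩, p, hp⟩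
  · exact Or.inl h5
  right
  have : (RingHom.ker β).IsPrime := RingHom.ker_isPrime β
  have hs : adjoin K (Ideal.Quotient.mkₐ K (RingHom.ker β) '' (ent N ∪ ent N')) = ⊤ := by
    rw [← AlgHom.map_adjoin, hadj, Algebra.map_top, AlgHom.range_eq_top]
    exact Ideal.Quotient.mkₐ_surjective K _
  have : Algebra.IsAlgebraic
      (adjoin K (Ideal.Quotient.mkₐ K (RingHom.ker β) '' (ent N ∪ ent N'))) (B ⧸ RingHom.ker β) :=
    ⟨fun x => isAlgebraic_algebraMap (⟨x, hs ▸ Algebra.mem_top⟩ :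
      adjoin K (Ideal.Quotient.mkₐ K (RingHom.ker β) '' (ent N ∪ ent N')))⟩
  obtain ⟨t, ht, hb⟩ := exists_isTranscendenceBasis_subset (R := K)
    (Ideal.Quotient.mkₐ K (RingHom.ker β) '' (ent N ∪ ent N'))
  have : Fintype t :=
    ((((Set.finite_range _).union (Set.finite_range _)).image _).subset ht).fintype
  have hD := hb.1.map' (f := Ideal.kerLiftAlg β) (Ideal.kerLiftAlg_injective β)
  have hd : ∀ d : t, (Ideal.kerLiftAlg β ∘ (↑)) d ∈ ent (N.map β) ∪ ent (N'.map β) := by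
    intro d
    obtain ⟨y, hy, e⟩ := ht d.2
    have e' : (Ideal.kerLiftAlg β ∘ (↑)) d = β y := by
      rw [Function.comp_apply, ← e]
      exact Ideal.kerLiftAlg_mk β y
    rw [e']
    rcases hy with ⟨x, rfl⟩ | ⟨x, rfl⟩
    · exact Or.inl ⟨x, rfl⟩
    · exact Or.inr ⟨x, rfl⟩
  have hc : Fintype.card t ≤ 1 := count hL hE hN h h' hI hI' w1 w2 e e' hp (δ := t) hD hd
  rw [← hb.cardinalMk_eq_trdeg, Cardinal.mk_fintype]
  exact_mod_cast hc

end Pool.Agent.MP_b834b3_ag.G18
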