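import Pool.Agent.MP_b834b3_ag.h.SpecB

/-! Genus eighteen: closed points of total ramification lie in every set that is closed under
rational equivalence and contains the degeneracy locus. -/

namespace Pool.Agent.MP_b834b3_ag.G18

open Algebra Matrix MvPolynomial

namespace CgL

section
variable {R S : Type} [CommRing R] [CommRing S] [Algebra K R] [Algebra K S]

theorem psi_comp (σ : R →ₐ[K] S) (u : Fin 5 → R) : σ ∘ (psi R *ᵥ u) = psi S *ᵥ (σ ∘ u) := by
  funext i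
  rw [← psi_map σ]
  exact (σ : R →+* S).map_mulVec _ _ i

theorem psi_one : psi R *ᵥ Pi.single 0 1 = p0 R := by
  funext i
  simp [p0]

omit [Algebra K R] in
theorem zd_smul {ψ ξ : Fin 16 → R} {M : Matrix (Fin 3) (Fin 9) R} (a : R) (h : ZD ψ M ξ) :
    ZD (a • ψ) M ξ :=
  ⟨h.1, h.2.1, fun x => by rw [dotProduct_smul, h.2.2, smul_zero]⟩

/-- The three equations. -/
noncomputable def ex (j : Fin 4) (w : Fin 5 → R) (v : Fin 12 → R) (y : Option (Fin 2) → R)
    (a : Fin 3) : R := (y ∘ some) ᵥ* cv j (par j v) ᵥ* gam (ev R (ff j a).rev) ⬝ᵥ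
      psi R *ᵥ (w + y none • Pi.single 0 1)

theorem ex_map (hB : Base) (σ : R →ₐ[K] S) (j : Fin 4) (w : Fin 5 → R)
    (v : Fin 12 → R) (y : Option (Fin 2) → R) (a : Fin 3) :
    σ (ex j w v y a) = ex j (σ ∘ w) (σ ∘ v) (σ ∘ y) a := by
  have m : ∀ {m n : Type} [Fintype m] (c : m → R) (M : Matrix m n R),
      (σ : R →+* S) ∘ (c ᵥ* M) = ((σ : R →+* S) ∘ c) ᵥ* M.map (σ : R →+* S) := fun c M =>
    funext fun i => (σ : R →+* S).map_vecMul M c i
  have e1 : (σ : R →+* S) ∘ ev R (ff j a).rev = ev S (ff j a).rev := by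
    funext i
    simp [ev, Pi.single_apply, apply_ite σ]
  have e2 : σ ∘ (w + y none • Pi.single 0 1 : Fin 5 → R) =
      σ ∘ w + σ (y none) • Pi.single 0 1 := by
    funext i
    simp [Pi.single_apply, apply_ite σ]
  refine ((σ : R →+* S).map_dotProduct _ _).trans ?_
  rw [m, m, gam_map, e1, hB.eq.cv_map, hB.par.map]
  exact congrArg _ ((psi_comp σ _).trans (congrArg _ e2))

omit [Algebra K R] in
theorem piv (hB : Base) (j : Fin 4) (v : Fin 12 → R) (d : Fin 2 → R) :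
    (d ᵥ* cv j (par j v)) ∘ pcl j = d := by
  have := hB.eq.cv_one R j _ (hB.par.one R j v)
  conv_rhs => rw [← vecMul_one d, ← this]
  rfl

end

theorem core (hB : Base) (hS : SpecS) (hC : CurS) (P Q : Set Pt) (hV : VR P Q) (hZ : ZIn P)
    (E : Type) [Field E] [Algebra K E] [Algebra.IsAlgebraic K E] (j : Fin 4) (v : Fin 12 → E)
    (hI : Iso (par j v)) (hq : UQ (par j v)) : pt (par j v) ∈ P := by
  by_contra hx
  obtain ⟨w, ξ, hD, hU⟩ := hq
  have hξ := (hB.eq.cv_an E j _ ξ (hB.par.one E j v) hI.1).1 hD.2.1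
  have hc : ξ ∘ pcl j ≠ 0 := fun h => hD.1 (by rw [hξ, h, zero_vecMul])
  obtain ⟨ρ, hρ⟩ := Function.ne_iff.1 hc
  let ι := IsScalarTower.toAlgHom K E (MvPolynomial (Fin 12 ⊕ Option (Fin 2)) E)
  have key : ∀ (F : Type) [Field F] [Algebra K F] [Algebra E F] [IsScalarTower K E F]
      (V : Fin 12 → F) (Y : Option (Fin 2) → F) (a : Fin 3),
      aeval (Sum.elim V Y) (ex j (ι ∘ w) (X ∘ .inl) (X ∘ .inr) a) =
        ex j (IsScalarTower.toAlgHom K E F ∘ w) V Y a := by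
    intro F _ _ _ _ V Y a
    refine (ex_map hB ((aeval (R := E) (Sum.elim V Y)).restrictScalars K) j _ _ _ a).trans ?_
    congr 1 <;> funext i <;> simp [ι]
  obtain ⟨F, _, _, _, _, V, Y, htr, hVI, hG, hna, p₀, N₀, hN₀, hp₀, hz⟩ :=
    hC E (Option (Fin 2)) (Option (Fin 3)) j v (fun o => o.elim 0 (ξ ∘ pcl j))
      (fun o => o.elim (X (.inr (some ρ)) - C (ξ (pcl j ρ))) (ex j (ι ∘ w) (X ∘ .inl) (X ∘ .inr)))
      (by simp) hI (by
        rintro (_ | a)
        · simp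
        · refine (key E _ _ a).trans ?_
          have := hD.2.2 (ev E (ff j a).rev)
          rw [hξ] at this
          rw [ex, Option.elim_none, zero_smul, add_zero]
          exact this)
  let σ : E →ₐ[K] F := IsScalarTower.toAlgHom K E F
  have hσ : ∀ (p : Pl F) (e : E), σ e ∈ p.O := fun p e =>
    hB.pl.alg_mem F p _ ((Algebra.IsAlgebraic.isAlgebraic e).algHom σ)
  have h1 := hB.par.one F j V
  have hR : Rk (par j V) := (hB.pt.rk_det F _).2 ⟨_, by rw [h1, det_one]; exact one_ne_zero⟩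
  have hY : Y (some ρ) = σ (ξ (pcl j ρ)) := by simpa [sub_eq_zero, σ] using hG none
  have hY0 : Y (some ρ) ≠ 0 := hY ▸ (map_ne_zero σ).2 hρ
  have hpv := piv hB j V (Y ∘ some)
  have hAn : An (par j V) ((Y ∘ some) ᵥ* cv j (par j V)) :=
    (hB.eq.cv_an F j _ _ h1 hVI.1).2 (by rw [hpv])
  have hZD : ZD (psi F *ᵥ (σ ∘ w + Y none • Pi.single 0 1)) (par j V)
      ((Y ∘ some) ᵥ* cv j (par j V)) := by
    refine ⟨fun h => hY0 ?_, hAn, hB.eq.zd F j _ _ _ h1 hVI.1 hAn ?_ fun a => ?_⟩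
    · rw [h] at hpv
      exact (congrFun hpv ρ).symm
    · rw [mulVec_mulVec, ((hB.eq.iso' F j _ h1).1 hVI).2, zero_mulVec]
    · have := (key F V Y a).symm.trans (hG (some a))
      rwa [ex] at this
  have hs : Y none ≠ 0 := by
    intro h0
    rw [h0, zero_smul, add_zero] at hZD
    obtain ⟨⟨g, hg⟩, a, ha⟩ := hU F σ _ _ hVI hR hZD
    have e : (par j v).map σ = par j (σ ∘ v) := hB.par.map E F σ j v
    have hg1 : g = 1 := by
      have h2 : (g * par j (σ ∘ v)).submatrix id (ff j) =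
        g * (par j (σ ∘ v)).submatrix id (ff j) := rfl
      rw [hB.par.one, Matrix.mul_one, ← e, ← hg, h1] at h2
      exact h2.symm
    rw [hg1, Matrix.one_mul, e] at hg
    rw [ha] at hpv
    have ha' : ∀ i, Y (some i) = a * σ (ξ (pcl j i)) := fun i => (congrFun hpv i).symm
    have ha1 : a = 1 := by
      have := ha' ρ
      rw [← hY] at this
      exact mul_right_cancel₀ hY0 (this.symm.trans (one_mul _).symm)
    refine hna ?_
    rintro (x | _ | i)
    · have : V x = σ (v x) := by rw [← hB.par.sec F j V x, hg, hB.par.sec]; rfl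
      rw [Sum.elim_inl, this]
      exact isAlgebraic_algebraMap _
    · rw [Sum.elim_inr, h0]
      exact isAlgebraic_zero
    · rw [Sum.elim_inr, ha', ha1, one_mul]
      exact isAlgebraic_algebraMap _
  have red : ∀ (p : Pl F) N', Cen p (par j V) N' → ∀ (u : Fin 5 → p.O) (a : F),
      p.O.val ∘ u = a • (σ ∘ w + Y none • Pi.single 0 1) →
      ∃ ξ', ZD (psi p.E *ᵥ (p.π ∘ u)) (N'.map p.π) ξ' := fun p N' hN' u a hu => by
    rw [← psi_comp]
    refine (hS F p _ N' _ ((Y ∘ some) ᵥ* cv j (par j V)) hN').1 ?_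
    rw [psi_comp, hu, mulVec_smul]
    exact zd_smul a hZD
  refine hx (hV F (par j V) (Y none) _ ⟨?_, hVI, hR, hs, ?_, ?_, ?_, p₀, N₀, hN₀, ?_, hp₀⟩)
  · rw [← trdeg_add_eq K E (A := F), trdeg_eq_zero, htr, zero_add]
  · exact (hB.pt.alg E _).2 fun _ _ => Algebra.IsAlgebraic.isAlgebraic _
  · intro p N' hN' hp
    obtain ⟨-, hi, hπ⟩ := (hB.pl.zero F p _).1 hp
    obtain ⟨ξ', h⟩ := red p N' hN'
      (fun i => ⟨_, hi⟩ * ⟨_, hσ p (w i)⟩ + (Pi.single 0 1 : Fin 5 → p.O) i) (Y none)⁻¹ (by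
        funext i
        simp [Pi.single_apply, mul_add, apply_ite ((↑) : p.O → F), hs])
    have e : (p.π ∘ fun i => ⟨_, hi⟩ * ⟨_, hσ p (w i)⟩ + (Pi.single 0 1 : Fin 5 → p.O) i) =
        Pi.single 0 1 := by
      funext i
      rw [Function.comp_apply, map_add, map_mul, hπ, zero_mul, zero_add]
      simp [Pi.single_apply, apply_ite p.π]
    rw [e, psi_one] at h
    have := hZ p.E _ (hB.pl.iso F p _ N' hVI hN') hN'.2 ⟨_, h⟩
    exact ⟨this, fun k => hx (k ▸ this)⟩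
  · intro p N' hN' hp
    obtain ⟨-, hi, hπ⟩ := (hB.pl.zero F p _).1 hp
    let τ : E →ₐ[K] p.O := σ.codRestrict p.O (hσ p)
    obtain ⟨ξ', h⟩ := red p N' hN'
      (fun i => τ (w i) + ⟨_, hi⟩ * (Pi.single 0 1 : Fin 5 → p.O) i) 1 (by
        funext i
        simp [τ, Pi.single_apply, apply_ite ((↑) : p.O → F)])
    have e : (p.π ∘ fun i => τ (w i) + ⟨_, hi⟩ * (Pi.single 0 1 : Fin 5 → p.O) i) =
        p.π.comp τ ∘ w := by
      funext i
      rw [Function.comp_apply, map_add, map_mul, hπ, zero_mul, add_zero]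
      rfl
    rw [e] at h
    obtain ⟨⟨g, hg⟩, -⟩ := hU p.E _ _ _ (hB.pl.iso F p _ N' hVI hN') hN'.2 h
    left
    rw [hg, hB.pt.pt_mul _ g _ ((hB.pt.rk_mul _ g _).2 (hg ▸ hN'.2)).1, hB.pt.pt_map]
  · simpa using hz none (by simpa using hs)

end CgL

/-- Closed points of total ramification lie in `P`. -/
theorem cg (hB : Base) (hS : SpecS) (hC : CurS) : CgS := by
  intro P Q hV hZ E _ _ _ N hI hR hq
  have hf : (N.submatrix id (ff (cellOf N))).det ≠ 0 := hB.ech E N hI hR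
  have hg : ((N.submatrix id (ff (cellOf N)))⁻¹).det ≠ 0 := by
    rw [det_nonsing_inv, Ring.inverse_eq_inv']
    exact inv_ne_zero hf
  have hI' : Iso (nm (ff (cellOf N)) N) := hB.pt.iso_mul E _ N hI
  have hq' : UQ (nm (ff (cellOf N)) N) := hB.pt.uq_mul E _ N hg hq
  have hp : pt (nm (ff (cellOf N)) N) = pt N := hB.pt.pt_mul E _ N hg
  obtain ⟨v, e⟩ : ∃ v, nm (ff (cellOf N)) N = par (cellOf N) v :=
    ⟨_, hB.par.eq E _ _ (hB.pt.nm_one E _ N hf).1 hI'.1⟩
  rw [e] at hI' hq' hp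
  exact hp ▸ CgL.core hB hS hC P Q hV hZ E _ _ hI' hq'

end Pool.Agent.MP_b834b3_ag.G18
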