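import Pool.Agent.MP_b834b3_ag.h.SpecB

/-! Genus eighteen: properties of the chart rings. -/

namespace Pool.Agent.MP_b834b3_ag.G18

open Algebra MvPolynomial Matrix

namespace ChL

/-- The linear system in a chart. -/
noncomputable abbrev mj (j : Fin 4) : Rw → Ix → MvPolynomial (Fin 12) ℂ := mm j (par j X)

/-- The ideal of a point of a chart. -/
noncomputable abbrev id' {F : Type} [Field F] [Algebra K F] (v : Fin 12 → F) :
    Ideal (MvPolynomial (Fin 12) K) := RingHom.ker (aeval v : MvPolynomial (Fin 12) K →ₐ[K] F)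

/-- Evaluation of polynomials with constant coefficients. -/
noncomputable def evl {F : Type} [Field F] [Algebra K F] (v : Fin 12 → F) :
    MvPolynomial (Fin 12) ℂ →+* F :=
  (aeval v : MvPolynomial (Fin 12) K →ₐ[K] F).toRingHom.comp
    (aeval ((X : Fin 12 → MvPolynomial (Fin 12) K) ∘ id) :
      MvPolynomial (Fin 12) ℂ →ₐ[ℂ] MvPolynomial (Fin 12) K).toRingHom

theorem ev_par (hB : Base) {F : Type} [Field F] [Algebra K F] (j : Fin 4) (v : Fin 12 → F) :
    (par j X).map (evl v) = par j v := by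
  rw [hB.par.map]
  congr 1
  funext x
  simp [evl]

theorem mn_map {R S : Type} [CommRing R] [CommRing S] (σ : R →+* S) (j : Fin 4)
    (N : Matrix (Fin 3) (Fin 9) R) : σ (mn j N) = mn j (N.map σ) := σ.map_det _

theorem pdet_dvd (hB : Base) (j : Fin 4) : pdet (mj j) (pv j) ∣ 1 := by
  rw [pdet, hB.eq.one _ _ j (hB.par.one _ j _), det_one]

theorem mem_st {F : Type} [Field F] [Algebra K F] (v : Fin 12 → F) :
    id' v ∈ St (X : Fin 12 → MvPolynomial (Fin 12) K) id (X : Fin 12 → MvPolynomial (Fin 12) ℂ) 1 :=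
  ⟨RingHom.ker_isPrime _, fun x => by simp, by
    rw [map_one]; exact (RingHom.ker_isPrime _).one_notMem⟩

theorem eqn (hB : Base) {F : Type} [Field F] [Algebra K F] {j : Fin 4} {v : Fin 12 → F}
    (h : Iso (par j v)) (s : Rw) : ∑ i, algebraMap K (MvPolynomial (Fin 12) K) (cf ℂ K i) *
      aeval ((X : Fin 12 → MvPolynomial (Fin 12) K) ∘ id) (mj j s i) ∈ id' v := by
  rw [RingHom.mem_ker, map_sum, ← ((hB.eq.iso F j _ (hB.par.one _ j v)).1 h).2 s]
  refine Finset.sum_congr rfl fun i _ => ?_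
  rw [map_mul, AlgHom.commutes, ← ev_par hB j v, ← hB.eq.map]
  rfl

theorem le_of (hB : Base) {L F : Type} [Field L] [Algebra K L] [Field F] [Algebra K F] {j : Fin 4}
    {v : Fin 12 → L} {v' : Fin 12 → F} (h : Iso (par j v)) (h' : Iso (par j v'))
    (hd : trdeg K (MvPolynomial (Fin 12) K ⧸ id' v) = (2 : ℕ)) : id' v ≤ id' v' := by
  refine (dim_build (m := mj j) (sec := id) (ρ := X) (hB.eq.inj j) adjoin_range_X (pdet_dvd hB j)
    (S := {id' v, id' v'}) ?_ ?_ (Or.inl rfl) hd).2 (by rw [hB.eq.card.1]; simp) _ (Or.inr rfl)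
  · rintro _ (rfl | rfl) <;> exact mem_st _
  · rintro _ (rfl | rfl)
    exacts [eqn hB h, eqn hB h']

theorem ev_inj (hB : Base) {L : Type} [Field L] [Algebra K L] {j : Fin 4} {v : Fin 12 → L}
    (h : Iso (par j v)) (hd : trdeg K (MvPolynomial (Fin 12) K ⧸ id' v) = (2 : ℕ))
    (Q : MvPolynomial (Fin 12) ℂ) (hQ : evl v Q = 0) : Q = 0 := by
  classical
  have := RingHom.ker_isPrime (aeval v : MvPolynomial (Fin 12) K →ₐ[K] L)
  have gen := gen_build (m := mj j) (hB.eq.inj j) adjoin_range_X (pdet_dvd hB j) (S := {id' v})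
    (by rintro _ rfl; exact mem_st _) (by rintro _ rfl; exact eqn hB h)
  have h2 := card_fr (τ' := Fin 12) (hB.eq.inj j)
  rw [hB.eq.card.1, hB.eq.card.2, Fintype.card_fin] at h2
  have h1 := (dim_strat _ gen rfl (trdeg_par ℂ Ix K) hd).2.1 (by rw [hB.eq.card.2]; omega)
  refine rename_injective (Sum.inl : Fin 12 → Fr (Fin 12) (pv j)) Sum.inl_injective ?_
  rw [map_zero, ← Ideal.mem_bot, ← h1, Ideal.mem_comap, par_inl]
  exact hQ

variable {L : Type} [Field L] [Algebra K L] {M : Matrix (Fin 3) (Fin 9) L}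

theorem gen (f : Fin 3 → Fin 9) : adjoin K (ent (el M f)) = ⊤ := by
  refine Eq.trans (congrArg _ (Set.ext fun y => ?_)) adjoin_adjoin_coe_preimage
  exact ⟨fun ⟨x, hx⟩ => ⟨x, congrArg Subtype.val hx⟩, fun ⟨x, hx⟩ => ⟨x, Subtype.ext hx⟩⟩

theorem one (hB : Base) {f : Fin 3 → Fin 9} (h : (M.submatrix id f).det ≠ 0) :
    (el M f).submatrix id f = 1 := by
  refine Matrix.map_injective (f := (chart M f).val) Subtype.val_injective ?_
  exact (hB.pt.nm_one L f M h).1.trans (Matrix.map_one _ (map_zero _) (map_one _)).symm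

theorem iso (hB : Base) (hM : Iso M) (f : Fin 3 → Fin 9) : Iso (el M f) :=
  (hB.pt.iso_map _ _ (chart M f).val _).2 Subtype.val_injective (hB.pt.iso_mul L _ M hM)

theorem frac (hB : Base) (hM : IsGenField M) {f : Fin 3 → Fin 9} (h : (M.submatrix id f).det ≠ 0)
    (z : L) : ∃ a ∈ chart M f, ∃ b ∈ chart M f, b ≠ 0 ∧ z * b = a := by
  let T := IntermediateField.adjoin K (Set.range fun x : Fin 3 × Fin 9 => nm f M x.1 x.2)
  let N : Matrix (Fin 3) (Fin 9) T :=
    of fun a c => ⟨nm f M a c, IntermediateField.subset_adjoin _ _ ⟨(a, c), rfl⟩⟩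
  have e : M = (nm ![0, 1, 2] N).map T.val.toRingHom := by
    rw [← hB.pt.nm_map, show N.map T.val.toRingHom = nm f M from rfl, ← hB.pt.nm_mul L _ _ _ h,
      ← (hB.pt.nm_one L f M h).2, hB.pt.nm_self L _ M hM.2.1]
  have hT : z ∈ T := by
    refine (IntermediateField.adjoin_le_iff.2 ?_ : _ ≤ T) (hM.2.2.1.ge (x := z) trivial)
    rintro _ ⟨x, rfl⟩
    have e' : M x.1 x.2 = nm ![0, 1, 2] N x.1 x.2 := congrFun (congrFun e x.1) x.2
    simp only [e']
    exact SetLike.coe_mem _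
  obtain ⟨p, hp, q, hq, rfl⟩ := IntermediateField.mem_adjoin_iff_div.1 hT
  rcases eq_or_ne q 0 with rfl | h
  · exact ⟨0, zero_mem _, 1, one_mem _, one_ne_zero, by simp⟩
  · exact ⟨p, hp, q, hq, h, div_mul_cancel₀ _ h⟩

/-- The coordinates of a chart. -/
theorem coord (hB : Base) (hM : IsGenField M) {j : Fin 4} (h : mn j M ≠ 0) :
    ∃ u : Fin 12 → Ach M j, el M (ff j) = par j u ∧
      Function.Surjective (aeval u : MvPolynomial (Fin 12) K →ₐ[K] Ach M j) ∧
      RingHom.ker (aeval u : MvPolynomial (Fin 12) K →ₐ[K] Ach M j) = id' (fun x => (u x : L)) ∧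
      nm (ff j) M = par j (fun x => (u x : L)) ∧
      trdeg K (MvPolynomial (Fin 12) K ⧸ id' fun x => (u x : L)) = (2 : ℕ) := by
  obtain ⟨u, hu⟩ : ∃ u, el M (ff j) = par j u :=
    ⟨_, hB.par.eq _ j _ (one hB h) (iso hB hM.1 _).1⟩
  have hs : Function.Surjective (aeval u : MvPolynomial (Fin 12) K →ₐ[K] Ach M j) := by
    rw [← AlgHom.range_eq_top, _root_.eq_top_iff, ← gen (ff j)]
    refine adjoin_le ?_
    rintro _ ⟨x, rfl⟩
    refine ⟨par j X x.1 x.2, ?_⟩
    have e := hB.par.map _ _ (aeval u : MvPolynomial (Fin 12) K →ₐ[K] Ach M j).toRingHom j X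
    rw [show ((aeval u : MvPolynomial (Fin 12) K →ₐ[K] Ach M j).toRingHom ∘ X) = u from
      funext fun y => aeval_X u y, ← hu] at e
    exact congrFun (congrFun e x.1) x.2
  have hc : ∀ r, aeval (fun x => (u x : L)) r =
      ((aeval u : MvPolynomial (Fin 12) K →ₐ[K] Ach M j) r : L) := fun r =>
    (comp_aeval_apply u (chart M (ff j)).val r).symm
  refine ⟨u, hu, hs, Ideal.ext fun r => ?_, ?_, ?_⟩
  · rw [RingHom.mem_ker, RingHom.mem_ker, hc, ZeroMemClass.coe_eq_zero]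
  · exact (congrArg (fun N => N.map (chart M (ff j)).val.toRingHom) hu).trans
      (hB.par.map _ _ _ j u)
  · rw [← trdeg_of_frac _ fun d => ?_, hM.2.2.2]
    · rfl
    obtain ⟨a, ha, b, hb, b0, e⟩ := frac hB hM h d
    obtain ⟨r, hr⟩ := hs ⟨a, ha⟩
    obtain ⟨s, hs⟩ := hs ⟨b, hb⟩
    exact ⟨r, s, by rw [hc, hs]; exact b0, by rw [hc, hc, hr, hs, mul_comm]; exact e⟩

theorem ne (hB : Base) (hM : IsGenField M) (j : Fin 4) : mn j M ≠ 0 := by
  have h0 : mn 0 M ≠ 0 := by
    rw [mn, show M.submatrix id (ff 0) = 1 from hM.2.1, det_one]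
    exact one_ne_zero
  obtain ⟨u, -, -, -, h1, h2⟩ := coord hB hM h0
  rw [hB.pt.nm_self L (ff 0) M hM.2.1] at h1
  intro h
  have h3 := ev_inj hB (h1 ▸ hM.1) h2 (mn j (par 0 X)) (by rw [mn_map, ev_par hB, ← h1, h])
  obtain ⟨v, hv⟩ := hB.par.ne0 j
  have h4 := congrArg (eval v) h3
  rw [mn_map, hB.par.map, show eval v ∘ X = v from funext fun y => eval_X y, map_zero] at h4
  exact hv h4

end ChL

open ChL in
theorem ch_s (hB : Base) (hL : LocS) : ChS := by
  intro L _ _ M hM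
  refine ⟨ne hB hM, gen, fun f => .of_surjective _ (surj_of_adjoin (gen f)), fun f => rfl,
    fun f h => one hB h, fun f _ => iso hB hM.1 f, fun f f' => ?_, fun f h => frac hB hM h,
    fun j => ?_, fun j F _ _ N hN h => ?_, hL L M, fun p => ?_⟩
  · rw [← hB.pt.det_nm]
    exact (chart M f).val.toRingHom.map_det ((el M f).submatrix id f')
  · obtain ⟨u, -, hs, hk, -, h2⟩ := coord hB hM (ne hB hM j)
    rw [← hk, (Ideal.quotientKerAlgEquivOfSurjective hs).trdeg_eq] at h2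
    exact h2
  · obtain ⟨u, hu, hs, hk, h1, h2⟩ := coord hB hM (ne hB hM j)
    have hN' : Iso (nm (ff j) N) := hB.pt.iso_mul F _ N hN
    obtain ⟨v, hv⟩ : ∃ v, nm (ff j) N = par j v :=
      ⟨_, hB.par.eq _ j _ (hB.pt.nm_one F _ N h).1 hN'.1⟩
    have hle := le_of hB (h1 ▸ hB.pt.iso_mul L _ M hM.1) (hv ▸ hN') h2
    rw [← hk] at hle
    refine ⟨AlgHom.liftOfSurjective _ hs (aeval v) hle, ?_⟩
    rw [hu, hv]
    refine (hB.par.map _ _ (AlgHom.liftOfSurjective _ hs (aeval v) hle).toRingHom j u).trans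
      (congrArg _ (funext fun x => ?_))
    have e := AlgHom.liftOfSurjective_apply _ hs (aeval v) hle (X x)
    rw [aeval_X, aeval_X] at e
    exact e
  · obtain ⟨N, hN⟩ := hB.pl.prop L p M ((hB.pt.rk_det L M).2 ⟨_, ne hB hM 0⟩)
    have h := hB.ech _ _ (hB.pl.iso L p M N hM.1 hN) hN.2
    obtain ⟨-, h1, h2⟩ := hB.pl.cen L p M N _ hN h
    have hle : chart M (ff (cellOf (N.map p.π))) ≤ p.O := adjoin_le (by
      rintro _ ⟨x, rfl⟩
      simp only [← h1]
      exact SetLike.coe_mem _)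
    refine ⟨_, Subalgebra.inclusion hle, fun b => rfl, ?_⟩
    have e : (el M (ff (cellOf (N.map p.π)))).map (p.π.comp (Subalgebra.inclusion hle)) =
        nm (ff (cellOf (N.map p.π))) (N.map p.π) := by
      rw [← h2]
      ext a c
      exact congrArg p.π (Subtype.ext (congrFun (congrFun h1 a) c).symm)
    rw [e]
    have e2 := congrArg Prod.fst (hB.pt.pt_mul _ _ (nm (ff (cellOf (N.map p.π))) (N.map p.π)) h)
    rw [← (hB.pt.nm_one _ _ _ h).2] at e2
    exact e2.symm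

end Pool.Agent.MP_b834b3_ag.G18
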