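import Pool.Agent.MP_b834b3_ag.h.SpecA
import Pool.Agent.MP_b834b3_ag.g.Lin

/-! Genus eighteen: facts on the Clifford module. -/

namespace Pool.Agent.MP_b834b3_ag.G18

open Matrix

namespace CliffL

section ring

variable {R : Type} [CommRing R]

theorem anti {x y : Fin 9 → R} (h : bf x y = 0) : gam x * gam y = -(gam y * gam x) := by
  rw [gam_swap, h, zero_smul, zero_sub]

theorem keep {x y : Fin 9 → R} {ξ : Fin 16 → R} (h : bf x y = 0) (k : ξ ᵥ* gam x = 0) :
    (ξ ᵥ* gam y) ᵥ* gam x = 0 := by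
  rw [vecMul_vecMul, anti ((bf_comm y x).trans h), vecMul_neg, ← vecMul_vecMul, k, zero_vecMul,
    neg_zero]

theorem step {x y : Fin 9 → R} {ξ : Fin 16 → R} (h : bf x y = 1) (k : ξ ᵥ* gam x = 0) :
    ξ = (ξ ᵥ* gam y) ᵥ* gam x := by
  rw [vecMul_vecMul, gam_swap, bf_comm, h, one_smul, vecMul_sub, vecMul_one, ← vecMul_vecMul, k,
    zero_vecMul, sub_zero]

theorem an_row (M : Matrix (Fin 3) (Fin 9) R) (c : Fin 16 → R) (h : Tot M) :
    An M (c ᵥ* am M) := by
  obtain ⟨h1, h2⟩ := (tot_iff M).1 h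
  have s : ∀ a (η : Fin 16 → R), (η ᵥ* gam (M a)) ᵥ* gam (M a) = 0 := fun a η => by
    rw [vecMul_vecMul, gam_sq, h1, zero_smul, vecMul_zero]
  intro a
  rw [am, ← vecMul_vecMul, ← vecMul_vecMul]
  fin_cases a
  · exact keep (h2 0 2) (keep (h2 0 1) (s 0 c))
  · exact keep (h2 1 2) (s 1 _)
  · exact s 2 _

theorem an_span {m : Type} [Fintype m] (M : Matrix m (Fin 9) R) (ξ : Fin 16 → R) (c : m → R)
    (h : An M ξ) : ξ ᵥ* gam (c ᵥ* M) = 0 := by
  rw [gam_vecMul]
  exact Finset.sum_induction _ (fun X => ξ ᵥ* X = 0)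
    (fun a b ha hb => by rw [vecMul_add, ha, hb, add_zero]) (vecMul_zero _)
    fun a _ => by rw [vecMul_smul, h a, smul_zero]

theorem am_perp (M : Matrix (Fin 3) (Fin 9) R) (y : Fin 9 → R) (h : ∀ a, bf (M a) y = 0) :
    am M * gam y = -(gam y * am M) := by
  rw [am, Matrix.mul_assoc, anti (h 2), mul_neg, ← Matrix.mul_assoc,
    Matrix.mul_assoc (gam (M 0)), anti (h 1), mul_neg, ← Matrix.mul_assoc, anti (h 0)]
  simp only [neg_mul, neg_neg, Matrix.mul_assoc]

end ring

section field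

variable {F : Type} [Field F]

theorem ann (ξ : Fin 16 → F) (x y : Fin 9 → F) (h0 : ξ ≠ 0) (hx : ξ ᵥ* gam x = 0)
    (hy : ξ ᵥ* gam y = 0) : qf x = 0 ∧ bf x y = 0 := by
  have a := congrArg (ξ ᵥ* ·) (gam_sq x)
  have b := congrArg (ξ ᵥ* ·) (gam_anti x y)
  simp only [vecMul_add, ← vecMul_vecMul, hx, hy, zero_vecMul, vecMul_smul, vecMul_one,
    add_zero] at a b
  exact ⟨(smul_eq_zero.1 a.symm).resolve_right h0, (smul_eq_zero.1 b.symm).resolve_right h0⟩

variable [Algebra K F]

theorem two_ne : (2 : F) ≠ 0 := by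
  have := (map_ne_zero ((algebraMap K F).comp (algebraMap ℂ K))).2 (two_ne_zero (α := ℂ))
  rwa [map_ofNat] at this

theorem dual {m : Type} [Fintype m] [DecidableEq m] (M : Matrix m (Fin 9) F) (h : Rk M) :
    ∃ s : Matrix m (Fin 9) F, ∀ a b, bf (M a) (s b) = if a = b then 1 else 0 := by
  obtain ⟨p, -, hp⟩ := (G20.Lin.piv F m (Fin 9) M).1 h
  obtain ⟨T, hT⟩ : ∃ T : Matrix (Fin 9) m F, M * T = 1 := by
    refine ⟨(1 : Matrix (Fin 9) (Fin 9) F).submatrix id p * (M.submatrix id p)⁻¹, ?_⟩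
    have e : M * (1 : Matrix (Fin 9) (Fin 9) F).submatrix id p = M.submatrix id p := by
      ext a b
      simp [mul_apply, one_apply]
    rw [← Matrix.mul_assoc, e, mul_nonsing_inv _ (Ne.isUnit hp)]
  refine ⟨of fun b => ![T 8 b, T 7 b, T 6 b, T 5 b, T 4 b / 2, T 3 b, T 2 b, T 1 b, T 0 b],
    fun a b => ?_⟩
  have e := congrFun (congrFun hT a) b
  rw [one_apply, mul_apply] at e
  rw [← e, bf_eq]
  have t := two_ne (F := F)
  simp [Fin.sum_univ_succ]
  field_simp
  ring

theorem row_an (M : Matrix (Fin 3) (Fin 9) F) (ξ : Fin 16 → F) (h : Rk M) (k : An M ξ) :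
    ∃ c, ξ = c ᵥ* am M := by
  obtain ⟨s, hs⟩ := dual M h
  have a2 := step (y := s 2) ((hs 2 2).trans (if_pos rfl)) (k 2)
  have a1 := step (y := s 1) ((hs 1 1).trans (if_pos rfl))
    (keep (y := s 2) ((hs 1 2).trans (if_neg (by decide))) (k 1))
  have a0 := step (y := s 0) ((hs 0 0).trans (if_pos rfl))
    (keep (y := s 1) ((hs 0 1).trans (if_neg (by decide)))
      (keep (y := s 2) ((hs 0 2).trans (if_neg (by decide))) (k 0)))
  refine ⟨((ξ ᵥ* gam (s 2)) ᵥ* gam (s 1)) ᵥ* gam (s 0), ?_⟩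
  rw [am, ← vecMul_vecMul, ← vecMul_vecMul, ← a0, ← a1, ← a2]

theorem iso4 (W : Submodule F (Fin 9 → F)) (h : ∀ x ∈ W, ∀ y ∈ W, bf x y = 0) :
    Module.finrank F W ≤ 4 := by
  let b := Module.finBasis F W
  let M : Matrix (Fin (Module.finrank F W)) (Fin 9) F := of fun a => (b a : Fin 9 → F)
  have li : LinearIndependent F fun a => M a := b.linearIndependent.map' W.subtype W.ker_subtype
  have rk : Rk M := fun c hc => by
    rw [vecMul_eq_sum] at hc
    exact funext (Fintype.linearIndependent_iff.1 li c hc)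
  obtain ⟨s, hs⟩ := dual M rk
  have l2 : LinearIndependent F (Sum.elim (fun a => M a) fun a => s a) := by
    rw [Fintype.linearIndependent_iff]
    intro g hg
    rw [Fintype.sum_sum_type] at hg
    simp only [Sum.elim_inl, Sum.elim_inr] at hg
    have e : (g ∘ Sum.inl) ᵥ* M + (g ∘ Sum.inr) ᵥ* s = 0 := by
      rw [vecMul_eq_sum, vecMul_eq_sum]
      exact hg
    have r : ∀ a, g (Sum.inr a) = 0 := fun a => by
      have k : bf ((g ∘ Sum.inl) ᵥ* M + (g ∘ Sum.inr) ᵥ* s) (M a) = 0 := by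
        rw [e]
        exact zero_dotProduct _
      rw [bf_add, bf_vecMul, bf_vecMul,
        Finset.sum_eq_zero fun c _ => by rw [h (M c) (b c).2 (M a) (b a).2, mul_zero], zero_add] at k
      simpa [bf_comm (s _), hs] using k
    have r' : g ∘ Sum.inr = 0 := funext r
    rw [r', zero_vecMul, add_zero] at e
    rintro (a | a)
    · exact congrFun (rk _ e) a
    · exact r a
  have := l2.fintype_card_le_finrank
  simp only [Fintype.card_sum, Fintype.card_fin, Module.finrank_fintype_fun_eq_card] at this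
  omega

theorem am_ne (M : Matrix (Fin 3) (Fin 9) F) (h : Rk M) : am M ≠ 0 := by
  obtain ⟨s, hs⟩ := dual M h
  intro z
  have one : ∀ a, gam (M a) * gam (s a) + gam (s a) * gam (M a) = 1 := fun a => by
    rw [gam_anti, hs, if_pos rfl, one_smul]
  have an : ∀ a b, a ≠ b → gam (M a) * gam (s b) = -(gam (s b) * gam (M a)) := fun a b k =>
    anti ((hs a b).trans (if_neg k))
  rw [am] at z
  have z2 : gam (M 0) * gam (M 1) = 0 := by
    have e : gam (M 0) * gam (M 1) * gam (s 2) = gam (s 2) * (gam (M 0) * gam (M 1)) := by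
      rw [Matrix.mul_assoc, an 1 2 (by decide), mul_neg, ← Matrix.mul_assoc, an 0 2 (by decide)]
      simp only [neg_mul, neg_neg, Matrix.mul_assoc]
    rw [← Matrix.mul_one (gam (M 0) * gam (M 1)), ← one 2, mul_add, ← Matrix.mul_assoc, z,
      ← Matrix.mul_assoc, e, Matrix.mul_assoc, z]
    simp
  have z1 : gam (M 0) = 0 := by
    rw [← Matrix.mul_one (gam (M 0)), ← one 1, mul_add, ← Matrix.mul_assoc, z2,
      ← Matrix.mul_assoc, an 0 1 (by decide), neg_mul, Matrix.mul_assoc, z2]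
    simp
  have z0 := one 0
  rw [z1, zero_mul, mul_zero, add_zero] at z0
  exact zero_ne_one z0

/-- The conditions that define a space of dimension at least five. -/
def cond (M : Matrix (Fin 3) (Fin 9) F) (ξ : Fin 16 → F) (k : Fin 16) :
    (Fin 9 → F) →ₗ[F] (Fin 3 → F) × F where
  toFun y := (fun a => bf y (M a), (ξ ᵥ* gam y) k)
  map_add' x y := Prod.ext (funext fun a => bf_add x y (M a)) (by rw [gam_add, vecMul_add]; rfl)
  map_smul' r x := Prod.ext (funext fun a => bf_smul r x (M a)) (by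
    rw [gam_smul, vecMul_smul]; rfl)

theorem two (M : Matrix (Fin 3) (Fin 9) F) (ht : Tot M) (h : Rk M) :
    ∃ p : Fin 2 → Fin 16, Rk ((am M).submatrix p id) := by
  obtain ⟨i, hi⟩ := Function.ne_iff.1 (am_ne M h)
  obtain ⟨k, hk⟩ := Function.ne_iff.1 hi
  have hk' : am M i k ≠ 0 := hk
  by_contra n
  push Not at n
  have row : ∀ j, ∃ l : F, am M j = l • am M i := fun j => by
    have q := n ![i, j]
    unfold Rk at q
    push Not at q
    obtain ⟨c, c1, c0⟩ := q
    have e : c 0 • am M i + c 1 • am M j = 0 := by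
      rw [vecMul_eq_sum, Fin.sum_univ_two] at c1
      exact c1
    have c2 : c 1 ≠ 0 := fun z => by
      rw [z, zero_smul, add_zero] at e
      have z0 := (smul_eq_zero.1 e).resolve_right hi
      exact c0 (funext fun a => by fin_cases a <;> assumption)
    refine ⟨-(c 0 / c 1), smul_right_injective _ c2 ?_⟩
    beta_reduce
    rw [smul_smul, mul_neg, mul_div_cancel₀ _ c2, neg_smul]
    exact eq_neg_of_add_eq_zero_right e
  choose l hl using row
  have an : An M (am M i) := by
    have := an_row M (Pi.single i 1) ht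
    rwa [single_one_vecMul] at this
  have z : ∀ y ∈ LinearMap.ker (cond M (am M i) k), am M i ᵥ* gam y = 0 := fun y hy => by
    have y1 : ∀ a, bf y (M a) = 0 := fun a => congrFun (congrArg Prod.fst hy) a
    have y2 : (am M i ᵥ* gam y) k = 0 := congrArg Prod.snd hy
    obtain ⟨c, hc⟩ := row_an M (am M i ᵥ* gam y) h fun a =>
      keep ((bf_comm _ _).trans (y1 a)) (an a)
    have e : c ᵥ* am M = (∑ j, c j * l j) • am M i := by
      rw [vecMul_eq_sum, Finset.sum_smul]
      exact Finset.sum_congr rfl fun j _ => by rw [mul_smul, ← hl j]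
    rw [hc, e] at y2 ⊢
    rw [(mul_eq_zero.1 y2).resolve_right hk', zero_smul]
  have a := iso4 _ fun x hx y hy => (ann _ x y hi (z x hx) (z y hy)).2
  have b := (cond M (am M i) k).finrank_range_add_finrank_ker
  have c := (LinearMap.range (cond M (am M i) k)).finrank_le
  simp only [Module.finrank_prod, Module.finrank_fintype_fun_eq_card, Fintype.card_fin,
    Module.finrank_self] at b c
  omega

end field

end CliffL

theorem cliff : CliffS where
  two_ne _ _ _ := CliffL.two_ne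
  an_row _ _ := CliffL.an_row
  an_span _ _ _ _ := CliffL.an_span
  perp _ _ _ _ _ _ h k a := CliffL.keep (h a) (k a)
  am_perp _ _ := CliffL.am_perp
  ann _ _ := CliffL.ann
  dual _ _ _ _ _ _ := CliffL.dual
  row_an _ _ _ := CliffL.row_an
  iso4 _ _ _ := CliffL.iso4
  two _ _ _ := CliffL.two

end Pool.Agent.MP_b834b3_ag.G18
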