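import Pool.Agent.MP_b834b3_ag.h.SpecA

/-! Genus eighteen: the count of parameters. -/

namespace Pool.Agent.MP_b834b3_ag.G18

open Matrix

namespace CntL

theorem solve {F r : Type} [Field F] [Fintype r] [DecidableEq r] (S : Subfield F)
    (B : Matrix r r F) (x : r → F) (hB : ∀ i j, B i j ∈ S) (hd : B.det ≠ 0)
    (h : ∀ i, (B *ᵥ x) i ∈ S) (i : r) : x i ∈ S := by
  let B' : Matrix r r S := of fun i j => ⟨B i j, hB i j⟩
  have e : B'.map S.subtype = B := rfl
  have hd' : B'.det ≠ 0 := fun h0 => hd (by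
    rw [← e, ← RingHom.mapMatrix_apply, ← RingHom.map_det, h0, map_zero])
  let z : r → S := B'⁻¹ *ᵥ fun i => ⟨_, h i⟩
  have hz : B' *ᵥ z = fun i => ⟨_, h i⟩ := by
    rw [mulVec_mulVec, mul_nonsing_inv _ hd'.isUnit, one_mulVec]
  have : x - S.subtype ∘ z = 0 := eq_zero_of_mulVec_eq_zero hd (by
    funext j
    have := S.subtype.map_mulVec B' z j
    rw [hz, e] at this
    rw [mulVec_sub, Pi.sub_apply, ← this]
    exact sub_self _)
  rw [sub_eq_zero.1 this]
  exact (z i).2

theorem col {F r ι : Type} [Field F] [Fintype r] [DecidableEq r] [Fintype ι] (S : Subfield F)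
    (C : Matrix r ι F) (f : r → ι) (y : ι → F) (hC : ∀ s k, C s k ∈ S)
    (f1 : Function.Injective f) (f2 : (C.submatrix id f).det ≠ 0) (h0 : ∀ s, ∑ k, C s k * y k = 0)
    (h1 : ∀ k, k ∉ Set.range f → y k ∈ S) (k : ι) : y k ∈ S := by
  classical
  by_cases hk : k ∈ Set.range f
  · obtain ⟨s, rfl⟩ := hk
    refine solve S (C.submatrix id f) (y ∘ f) (fun s s' => hC s (f s')) f2 (fun s => ?_) s
    have e := h0 s
    rw [← Finset.sum_add_sum_compl (Finset.univ.image f),
      Finset.sum_image fun a _ b _ h => f1 h, add_eq_zero_iff_eq_neg] at e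
    have e2 : (C.submatrix id f *ᵥ (y ∘ f)) s = ∑ s', C s (f s') * y (f s') := rfl
    rw [e2, e]
    exact neg_mem (sum_mem fun i hi => mul_mem (hC s i) (h1 i (by simpa using hi)))
  · exact h1 k hk

end CntL

open CntL in
theorem cnt (hL : LinS) : CntS := by
  intro F r r' ν δ _ _ _ _ _ _ C C' p D hC hC' h0 h1 mC mC' hD mD
  classical
  obtain ⟨f, f1, f2⟩ := (hL.piv F r (Fin 16) C).1 hC
  obtain ⟨f', f1', f2'⟩ := (hL.piv F r' (Fin 16) C').1 hC'
  let _ : Algebra ℂ F := ((algebraMap K F).comp (algebraMap ℂ K)).toAlgebra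
  have _ : IsScalarTower ℂ K F := IsScalarTower.of_algebraMap_eq' rfl
  let x : Ix → F := fun i => algebraMap K F (cf ℂ K i)
  let g : r ⊕ Fin 4 × r' → Ix := Sum.elim (fun s => (0, f s)) fun z => (z.1.succ, f' z.2)
  have g1 : Function.Injective g := by
    rintro (a | ⟨a, a'⟩) (b | ⟨b, b'⟩) e
    · exact congrArg _ (f1 (congrArg Prod.snd e))
    · exact absurd (congrArg Prod.fst e).symm (Fin.succ_ne_zero b)
    · exact absurd (congrArg Prod.fst e) (Fin.succ_ne_zero a)
    · exact congrArg _ (Prod.ext (Fin.succ_injective _ (congrArg Prod.fst e))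
        (f1' (congrArg Prod.snd e)))
  let q : ν ⊕ {i // i ∉ Set.range g} → F := Sum.elim p fun i => x i.1
  let S := IntermediateField.adjoin ℂ (Set.range q)
  have hS : Subfield.closure (Set.range p) ≤ S.toSubfield := Subfield.closure_le.2 (by
    rintro _ ⟨v, rfl⟩
    exact IntermediateField.subset_adjoin ℂ _ ⟨.inl v, rfl⟩)
  have h2 : ∀ i, i ∉ Set.range g → x i ∈ S.toSubfield := fun i hi =>
    IntermediateField.subset_adjoin ℂ _ ⟨.inr ⟨i, hi⟩, rfl⟩
  have h3 : ∀ i, x i ∈ S.toSubfield := by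
    rintro ⟨i, k⟩
    refine Fin.cases ?_ (fun j => ?_) i
    · refine col S.toSubfield C f (fun k => x (0, k)) (fun s k => hS (mC s k)) f1 f2
        (fun s => congrFun h0 s) (fun k hk => h2 _ ?_) k
      rintro ⟨a | ⟨a, a'⟩, e⟩
      · exact hk ⟨a, congrArg Prod.snd e⟩
      · exact absurd (congrArg Prod.fst e) (Fin.succ_ne_zero a)
    · refine col S.toSubfield C' f' (fun k => x (j.succ, k)) (fun s k => hS (mC' s k)) f1' f2'
        (fun s => congrFun (congrFun h1 s) j.succ) (fun k hk => h2 _ ?_) k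
      rintro ⟨a | ⟨a, a'⟩, e⟩
      · exact absurd (congrArg Prod.fst e).symm (Fin.succ_ne_zero j)
      · exact hk ⟨a', congrArg Prod.snd e⟩
  have h4 := hL.card ℂ F (δ ⊕ Ix) _ _ q (cf_indep.sumElim_comp hD) (by
    rintro (d | i)
    · exact hS (mD d)
    · exact h3 i)
  have h5 := Fintype.card_le_of_injective g g1
  rw [Fintype.card_sum, Fintype.card_sum, Fintype.card_subtype_compl,
    show Fintype.card {i // i ∈ Set.range g} = _ from Set.card_range_of_injective g1] at h4
  have h6 : Fintype.card (r ⊕ Fin 4 × r') = Fintype.card r + 4 * Fintype.card r' := by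
    rw [Fintype.card_sum, Fintype.card_prod, Fintype.card_fin]
  rw [h6] at h4 h5
  omega

end Pool.Agent.MP_b834b3_ag.G18
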