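import Pool.Agent.MP_b834b3_ag.h.SpecB
import Pool.Agent.MP_b834b3_ag.g.Cur

/-! Genus eighteen: curves through a point of a chart, and descent of closed points. -/

namespace Pool.Agent.MP_b834b3_ag.G18

open Algebra MvPolynomial Matrix

namespace CurL

/-- The ten equations of a chart as polynomials. -/
noncomputable def eqn (E τ : Type) [Field E] [Algebra K E] (j : Fin 4) (s : Rw) :
    MvPolynomial (Fin 12 ⊕ τ) E :=
  ∑ i, C (algebraMap K E (cf ℂ K i)) * mm j (par j fun x => X (Sum.inl x)) s i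

theorem iso_eqn (hB : Base) {E τ R : Type} [Field E] [Algebra K E] [CommRing R] [Algebra K R]
    [Algebra E R] [IsScalarTower K E R] (j : Fin 4) (z : Fin 12 ⊕ τ → R) :
    Iso (par j (z ∘ Sum.inl)) ↔ ∀ s, aeval z (eqn E τ j s) = 0 := by
  have key : ∀ s, aeval z (eqn E τ j s) =
      ∑ i, algebraMap K R (cf ℂ K i) * mm j (par j (z ∘ Sum.inl)) s i := fun s => by
    rw [eqn, map_sum]
    refine Finset.sum_congr rfl fun i _ => ?_
    have h := hB.eq.map _ R (aeval z : MvPolynomial (Fin 12 ⊕ τ) E →ₐ[E] R).toRingHom j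
      (par j fun x => X (Sum.inl x)) s i
    have e : ((aeval z : MvPolynomial (Fin 12 ⊕ τ) E →ₐ[E] R).toRingHom ∘
        fun x : Fin 12 => X (Sum.inl x)) = z ∘ Sum.inl := funext fun x => aeval_X z _
    rw [hB.par.map, e] at h
    rw [map_mul, aeval_C, ← IsScalarTower.algebraMap_apply, ← h]
    rfl
  rw [hB.eq.iso R j _ (hB.par.one R j _), and_iff_right (hB.par.iso R j _)]
  simp only [key]

end CurL

open CurL in
theorem cur (hB : Base) : CurS := by
  intro E τ ι _ _ _ _ j v y G hc hI hG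
  obtain ⟨R, _, _, _, ε, z, ht, hg, he, hx⟩ := G20.Cur.curve (τ := Fin 12 ⊕ τ) (ι := Rw ⊕ ι)
    (by rw [Fintype.card_sum, Fintype.card_sum, hB.eq.card.1, Fintype.card_fin]; omega)
    (Sum.elim v y) (Sum.elim (eqn E τ j) G) (by
      rintro (s | i)
      · exact (iso_eqn hB j (Sum.elim v y)).1 hI s
      · exact hG i)
  let _ : Algebra K R := ((algebraMap E R).comp (algebraMap K E)).toAlgebra
  have _ : IsScalarTower K E R := .of_algebraMap_eq fun _ => rfl
  let F := FractionRing R
  let φ : R →ₐ[E] F := IsScalarTower.toAlgHom E R F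
  let χ : R →ₐ[K] F := φ.restrictScalars K
  have hχ : Function.Injective χ := IsFractionRing.injective R F
  have hz : Sum.elim (fun x => φ (z (.inl x))) (fun x => φ (z (.inr x))) = fun x => φ (z x) :=
    funext fun x => by cases x <;> rfl
  have hM : Iso (par j (z ∘ Sum.inl)) := (iso_eqn hB j z).2 fun s => he (.inl s)
  have hV : (par j (z ∘ Sum.inl)).map χ = par j fun x => φ (z (.inl x)) :=
    hB.par.map R F χ.toRingHom j _
  let ε' : R →ₐ[K] E := ε.restrictScalars K
  have hε : (par j (z ∘ Sum.inl)).map ε' = par j v :=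
    (hB.par.map R E ε'.toRingHom j _).trans (congrArg (par j) (funext fun x => hx (.inl x)))
  obtain ⟨p, α, hα, hP⟩ := hB.pl.ex F R χ (RingHom.ker ε') (RingHom.ker_isPrime ε') (by
    rw [(RingHom.injective_iff_ker_eq_bot χ).1 hχ]
    exact bot_le)
  refine ⟨F, inferInstance, inferInstance, inferInstance, inferInstance,
    fun x => φ (z (.inl x)), fun x => φ (z (.inr x)), (trdeg_frac (k := E) R F).trans ht,
    hV ▸ (hB.pt.iso_map R F χ _).1 hM, fun i => ?_, fun h => ?_, p,
    (par j (z ∘ Sum.inl)).map α, ⟨⟨1, by simp, ?_⟩, ?_⟩, ?_, fun x h0 => ?_⟩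
  · rw [hz, ← comp_aeval_apply, show aeval z (G i) = 0 from he (.inr i), map_zero]
  · rw [hz] at h
    have h1 : (⊤ : Subalgebra E R) ≤ integralClosure E R := by
      rw [← hg]
      refine Algebra.adjoin_le ?_
      rintro _ ⟨x, rfl⟩
      exact ((isAlgebraic_algHom_iff φ hχ).1 (h x)).isIntegral
    have : Algebra.IsAlgebraic E R :=
      ⟨fun x => IsIntegral.isAlgebraic (h1 (Algebra.mem_top (x := x)))⟩
    rw [trdeg_eq_zero] at ht
    exact zero_ne_one ht
  · rw [Matrix.one_mul, ← hV]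
    ext a b
    exact hα _
  · refine (hB.pt.rk_det _ _).2 ⟨ff j, ?_⟩
    rw [submatrix_map, submatrix_map, hB.par.one, Matrix.map_one _ (map_zero α) (map_one α),
      Matrix.map_one _ (map_zero p.π) (map_one p.π), det_one]
    exact one_ne_zero
  · rw [← hε]
    exact hB.pt.pt_ker R p.E E (p.π.comp α) ε' _ hP
  · have e : (α (z (.inr x) - algebraMap E R (y x)) : F) =
        (φ (z (.inr x)) - algebraMap E F (y x))⁻¹⁻¹ := by
      rw [inv_inv, hα, ← φ.commutes, ← map_sub]
      rfl
    refine (hB.pl.zero F p _).2 ⟨inv_ne_zero h0, e ▸ (α _).2, ?_⟩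
    have h1 : p.π (α (z (.inr x) - algebraMap E R (y x))) = 0 := by
      rw [hP, RingHom.mem_ker]
      change ε (z (.inr x) - algebraMap E R (y x)) = 0
      rw [map_sub, hx, ε.commutes]
      exact sub_self _
    rw [← h1]
    exact congrArg p.π (Subtype.ext e.symm)

theorem desc (hB : Base) : DescS := by
  intro F _ _ N hI hR hA
  have hd : (N.submatrix id (ff (cellOf N))).det ≠ 0 := hB.ech F N hI hR
  have hg : ((N.submatrix id (ff (cellOf N)))⁻¹).det ≠ 0 :=
    (isUnit_nonsing_inv_det _ (isUnit_iff_ne_zero.2 hd)).ne_zero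
  have i1 : Iso (nm (ff (cellOf N)) N) := hB.pt.iso_mul F _ N hI
  have p1 := hB.par.eq F (cellOf N) _ (hB.pt.nm_one F _ N hd).1 i1.1
  have a1 := (hB.pt.alg F N).1 hA
  let v : Fin 12 → algebraicClosure K F := fun x =>
    ⟨nm (ff (cellOf N)) N (sc (cellOf N) x).1 (sc (cellOf N) x).2,
      mem_algebraicClosure_iff.2 (a1 _ _)⟩
  have e : (par (cellOf N) v).map (algebraicClosure K F).val = nm (ff (cellOf N)) N :=
    (hB.par.map _ F (algebraicClosure K F).val.toRingHom _ v).trans p1.symm
  refine ⟨algebraicClosure K F, inferInstance, inferInstance, inferInstance,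
    (algebraicClosure K F).val, v, _, hg,
    (hB.pt.iso_map _ F (algebraicClosure K F).val _).2 Subtype.val_injective (e ▸ i1), e, ?_⟩
  rw [← hB.pt.pt_map _ F (algebraicClosure K F).val, e]
  exact hB.pt.pt_mul F _ N hg

end Pool.Agent.MP_b834b3_ag.G18
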