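import Pool.Agent.MP_b834b3_ag.Rank

/-! The generic K3 surface of genus eighteen in the variety of isotropic three-planes in
nine-space. -/

namespace Pool.Agent.MP_b834b3_ag.G18

open AlgebraicGeometry CategoryTheory Matrix

/-- The coefficients of five spinors. -/
abbrev Ix : Type := Fin 5 × Fin 16

/-- The function field of the space of coefficients. -/
abbrev K : Type := RatFun Ix

/-- The quadratic form in nine variables. -/
def qf {R : Type} [CommRing R] (x : Fin 9 → R) : R :=
  x 0 * x 8 + x 1 * x 7 + x 2 * x 6 + x 3 * x 5 + x 4 ^ 2

/-- The parity of the number of binary digits one of `n` below the position `m`. -/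
def sg (m n : ℕ) : ℤ := (-1) ^ ((Finset.range m).filter fun i => n.testBit i).card

/-- Exterior multiplication by the basis vector `m` on the exterior algebra of four-space; the
binary digits of an index name a subset of the four basis vectors. -/
def cre (R : Type) [CommRing R] (m : ℕ) : Matrix (Fin 16) (Fin 16) R :=
  of fun I J => if ¬ J.val.testBit m ∧ I.val = J.val + 2 ^ m then sg m J else 0

/-- Clifford multiplication on the sixteen-dimensional space of spinors. -/
def gam {R : Type} [CommRing R] (x : Fin 9 → R) : Matrix (Fin 16) (Fin 16) R :=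
  ∑ m : Fin 4, (x (m.castAdd 5) • cre R m + x (m.castAdd 5).rev • (cre R m)ᵀ) +
    x 4 • diagonal fun J : Fin 16 => (sg 4 J : R)

/-- The five generic spinors, as columns. -/
noncomputable def psi (R : Type) [CommRing R] [Algebra K R] : Matrix (Fin 16) (Fin 5) R :=
  of fun k i => algebraMap K R (RatFun.var (i, k))

/-- The rows of `M` span an isotropic space at which the five sections of the spinor bundle
vanish. -/
def Iso {R : Type} [CommRing R] [Algebra K R] (M : Matrix (Fin 3) (Fin 9) R) : Prop :=
  (∀ c, qf (c ᵥ* M) = 0) ∧ gam (M 0) * gam (M 1) * gam (M 2) * psi R = 0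

/-- The matrix with the same row space that has the unit matrix in the columns `f`. -/
noncomputable def nm {R : Type} [CommRing R] (f : Fin 3 → Fin 9) (M : Matrix (Fin 3) (Fin 9) R) :
    Matrix (Fin 3) (Fin 9) R := (M.submatrix id f)⁻¹ * M

/-- The standard chart of the Grassmannian that belongs to the columns `f`. -/
noncomputable def chart {L : Type} [Field L] [Algebra K L] (M : Matrix (Fin 3) (Fin 9) L)
    (f : Fin 3 → Fin 9) : Subalgebra K L :=
  Algebra.adjoin K (Set.range fun x : Fin 3 × Fin 9 => nm f M x.1 x.2)

/-- `L` is the function field of the surface, and the rows of `M` span its generic plane. -/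
def IsGenField {L : Type} [Field L] [Algebra K L] (M : Matrix (Fin 3) (Fin 9) L) : Prop :=
  Iso M ∧ M.submatrix id ![0, 1, 2] = 1 ∧
    IntermediateField.adjoin K (Set.range fun x : Fin 3 × Fin 9 => M x.1 x.2) = ⊤ ∧
    Algebra.trdeg K L = 2

/-- `X` is the surface: it is separated and glued from the standard charts inside its function
field. -/
def IsGeneric {X : Scheme.{0}} (s : X ⟶ Spec (CommRingCat.of K)) : Prop :=
  IsSeparated s ∧ ∃ (L : Type) (_ : Field L) (_ : Algebra K L) (M : Matrix (Fin 3) (Fin 9) L),
    IsGenField M ∧
      IsGlued (fun f : {f : Fin 3 → Fin 9 // (M.submatrix id f).det ≠ 0} => chart M f.1) s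

end Pool.Agent.MP_b834b3_ag.G18
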