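import Pool.Agent.MP_b834b3_ag.h.SpecB

/-! Genus eighteen: the four charts cover the surface. -/

namespace Pool.Agent.MP_b834b3_ag.G18

open Matrix

namespace EchL

theorem cases : ∀ a b : Fin 9, a < b → ∀ c : Fin 9, b < c →
    (∀ x y : Fin 3, (![a, b, c] x).val + (![a, b, c] y).val ≠ 8) →
    10 ≤ (Tf ![a, b, c]).card → ∃ j, ![a, b, c] = ff j := by
  decide +kernel

theorem am_mem {F : Type} [Field F] (S : Subfield F) (N : Matrix (Fin 3) (Fin 9) F)
    (h : ∀ a c, N a c ∈ S) (i k : Fin 16) : am N i k ∈ S := by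
  have e := am_map S.subtype (of fun a c => ⟨N a c, h a c⟩)
  have e' : am N = _ := e.symm
  rw [e']
  exact SetLike.coe_mem _

end EchL

theorem ech (hC : CliffS) (hP : PtS) (hE : EchGS) (hN : CntS) : EchS := by
  intro F _ _ M hM hR
  obtain ⟨f, g, h1, h2, h3, h4, h5⟩ := hE 3 F M hM.1 hR
  have hI : Iso (g * M) := hP.iso_mul F g M hM
  obtain ⟨p, hp⟩ := hC.two F _ hI.1 ((hP.rk_mul F g M).1 h2 hR)
  have h6 : (am (g * M)).submatrix p id * psi F = 0 := by
    have e : am (g * M) * psi F = 0 := hI.2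
    ext s i
    exact congrFun (congrFun e (p s)) i
  have h7 := hN F (Fin 2) (Fin 2) (Tf f) Empty _ _ (fun x => (g * M) x.1.1 x.1.2) Empty.elim hp hp
    (funext fun s => congrFun (congrFun h6 s) 0) h6 (fun s k => EchL.am_mem _ _ h5 _ _)
    (fun s k => EchL.am_mem _ _ h5 _ _) (algebraicIndependent_empty_type) fun d => d.elim
  have e : f = ![f 0, f 1, f 2] := funext fun x => by fin_cases x <;> rfl
  rw [Fintype.card_coe, e] at h7
  obtain ⟨j, hj⟩ := EchL.cases _ _ (h1 (by decide)) _ (h1 (by decide)) (fun x y => e ▸ h4 x y)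
    (by simpa using h7)
  refine (hP.cell_iff F M j fun h => ?_).2.1
  have h8 : (g * M).submatrix id f = g * M.submatrix id f := rfl
  have h9 := congrArg det h3
  rw [h8, det_mul, e, hj, det_one] at h9
  rw [mn] at h
  rw [h, mul_zero] at h9
  exact zero_ne_one h9

end Pool.Agent.MP_b834b3_ag.G18
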