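import Pool.Agent.MP_b834b3_ag.h.Gam

/-! Genus eighteen: statements of the general lemmas and of the linear algebra. -/

namespace Pool.Agent.MP_b834b3_ag.G18

open AlgebraicGeometry CategoryTheory Algebra IsLocalRing Limits MvPolynomial Matrix
open scoped TensorProduct

export G20 (JacS VbS Ctr AddS Geo1S Geo2S CmpS ent LinS)

/-- The divisor of the norm of a function, with signs. -/
def VrelS : Prop := ∀ (k : Type) [Field k] (Y : Scheme.{0}) (t : Y ⟶ Spec (CommRingCat.of k))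
  [LocallyOfFiniteType t] [CompactSpace Y] (F : Type) [Field F] [Algebra k F]
  (ξ : Spec (CommRingCat.of F) ⟶ Y) (φ : F), ξ ≫ t = sp (algebraMap k F) →
  Order.height (ξ (closedPoint F)) = 3 → trdeg k F ≤ 3 → φ ≠ 0 →
  ∃ c : Y →₀ ℚ, IsPrincipal Y c ∧ (∀ z, c z ≠ 0 → Order.height z = 2) ∧
    (∀ z, 0 < c z → ∃ O, Ctr ξ O z ∧ φ⁻¹ ∉ O) ∧ (∀ z, c z < 0 → ∃ O, Ctr ξ O z ∧ φ ∉ O) ∧
    ∀ z, Order.height z = 2 → (∀ O, Ctr ξ O z → φ ∈ O) → (∃ O, Ctr ξ O z ∧ φ⁻¹ ∉ O) → 0 < c z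

/-- The rows are independent. -/
def Rk {F m n : Type} [Field F] [Fintype m] (M : Matrix m n F) : Prop := ∀ c, c ᵥ* M = 0 → c = 0

/-- The covector is killed by the rows. -/
def An {R m : Type} [CommRing R] (M : Matrix m (Fin 9) R) (ξ : Fin 16 → R) : Prop :=
  ∀ a, ξ ᵥ* gam (M a) = 0

/-- Facts on the Clifford module. -/
structure CliffS : Prop where
  two_ne : ∀ (F : Type) [Field F] [Algebra K F], (2 : F) ≠ 0
  an_row : ∀ (R : Type) [CommRing R] (M : Matrix (Fin 3) (Fin 9) R) (c : Fin 16 → R), Tot M →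
    An M (c ᵥ* am M)
  an_span : ∀ (R m : Type) [CommRing R] [Fintype m] (M : Matrix m (Fin 9) R) (ξ : Fin 16 → R)
    (c : m → R), An M ξ → ξ ᵥ* gam (c ᵥ* M) = 0
  perp : ∀ (R m : Type) [CommRing R] (M : Matrix m (Fin 9) R) (y : Fin 9 → R) (ξ : Fin 16 → R),
    (∀ a, bf (M a) y = 0) → An M ξ → An M (ξ ᵥ* gam y)
  am_perp : ∀ (R : Type) [CommRing R] (M : Matrix (Fin 3) (Fin 9) R) (y : Fin 9 → R),
    (∀ a, bf (M a) y = 0) → am M * gam y = -(gam y * am M)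
  ann : ∀ (F : Type) [Field F] (ξ : Fin 16 → F) (x y : Fin 9 → F), ξ ≠ 0 → ξ ᵥ* gam x = 0 →
    ξ ᵥ* gam y = 0 → qf x = 0 ∧ bf x y = 0
  dual : ∀ (F m : Type) [Field F] [Algebra K F] [Fintype m] [DecidableEq m]
    (M : Matrix m (Fin 9) F), Rk M → ∃ s : Matrix m (Fin 9) F,
      ∀ a b, bf (M a) (s b) = if a = b then 1 else 0
  row_an : ∀ (F : Type) [Field F] [Algebra K F] (M : Matrix (Fin 3) (Fin 9) F) (ξ : Fin 16 → F),
    Rk M → An M ξ → ∃ c, ξ = c ᵥ* am M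
  iso4 : ∀ (F : Type) [Field F] [Algebra K F] (W : Submodule F (Fin 9 → F)),
    (∀ x ∈ W, ∀ y ∈ W, bf x y = 0) → Module.finrank F W ≤ 4
  two : ∀ (F : Type) [Field F] [Algebra K F] (M : Matrix (Fin 3) (Fin 9) F), Tot M → Rk M →
    ∃ p : Fin 2 → Fin 16, Rk ((am M).submatrix p id)

/-- The first spinor. -/
noncomputable def p0 (R : Type) [CommRing R] [Algebra K R] : Fin 16 → R := fun k => psi R k 0

/-- The count of parameters. -/
def CntS : Prop := ∀ (F r r' ν δ : Type) [Field F] [Algebra K F] [Fintype r] [Fintype r']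
  [Fintype ν] [Fintype δ] (C : Matrix r (Fin 16) F) (C' : Matrix r' (Fin 16) F) (p : ν → F)
  (D : δ → F), Rk C → Rk C' → C *ᵥ p0 F = 0 → C' * psi F = 0 →
  (∀ s k, C s k ∈ Subfield.closure (Set.range p)) →
  (∀ s k, C' s k ∈ Subfield.closure (Set.range p)) → AlgebraicIndependent K D →
  (∀ d, D d ∈ Subfield.closure (Set.range p)) →
  Fintype.card δ + Fintype.card r + 4 * Fintype.card r' ≤ Fintype.card ν

/-- A square linear system has one closed point. -/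
def UnqS : Prop := ∀ (τ r : Type) [Fintype τ] [Fintype r] [DecidableEq r]
  (m : r → Ix → MvPolynomial τ ℂ) (p : r → Ix) (F F' : Type) [Field F] [Algebra K F] [Algebra ℂ F]
  [IsScalarTower ℂ K F] [Field F'] [Algebra K F'] [Algebra ℂ F'] [IsScalarTower ℂ K F']
  (v : τ → F) (v' : τ → F'), Function.Injective p → Fintype.card τ ≤ Fintype.card r →
  aeval v (pdet m p) ≠ 0 → aeval v' (pdet m p) ≠ 0 →
  (∀ s, ∑ i, algebraMap K F (cf ℂ K i) * aeval v (m s i) = 0) →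
  (∀ s, ∑ i, algebraMap K F' (cf ℂ K i) * aeval v' (m s i) = 0) →
  (∀ f : MvPolynomial τ K, aeval v f = 0 ↔ aeval v' f = 0) ∧ ∀ x, IsAlgebraic K (v x)

/-- The free positions of an echelon form. -/
def Tf {k : ℕ} (f : Fin k → Fin 9) : Finset (Fin k × Fin 9) :=
  Finset.univ.filter fun x => f x.1 < x.2 ∧ (∀ a, f a ≠ x.2) ∧
    ∀ a, a ≤ x.1 → (f a).val + x.2.val ≠ 8

/-- The echelon form of an isotropic space. -/
def EchGS : Prop := ∀ (k : ℕ) (F : Type) [Field F] [Algebra K F] (M : Matrix (Fin k) (Fin 9) F),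
  Tot M → Rk M → ∃ (f : Fin k → Fin 9) (g : Matrix (Fin k) (Fin k) F), StrictMono f ∧ g.det ≠ 0 ∧
    (g * M).submatrix id f = 1 ∧ (∀ a b, (f a).val + (f b).val ≠ 8) ∧
    ∀ a c, (g * M) a c ∈ Subfield.closure (Set.range fun x : Tf f => (g * M) x.1.1 x.1.2)

/-- The conditions of the two planes are independent. -/
def LI {F : Type} [Field F] (N N' : Matrix (Fin 3) (Fin 9) F) : Prop :=
  ∀ c c' : Fin 16 → F, c ᵥ* am N = c' ᵥ* am N' → c ᵥ* am N = 0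

/-- Two planes with dependent conditions span an isotropic four-space. -/
def ThrS : Prop := ∀ (F : Type) [Field F] [Algebra K F] (N N' : Matrix (Fin 3) (Fin 9) F),
  Tot N → Rk N → Tot N' → Rk N' → ¬ LI N N' →
  (∃ g : Matrix (Fin 3) (Fin 3) F, N' = g * N) ∨
  ((∃ (W : Matrix (Fin 4) (Fin 9) F) (g g' : Matrix (Fin 3) (Fin 4) F), Tot W ∧ Rk W ∧
      N = g * W ∧ N' = g' * W) ∧
    ∃ p : Fin 3 → Fin 16 ⊕ Fin 16, Rk (of fun s => Sum.elim (am N) (am N') (p s)))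

/-- Pairs of planes with dependent conditions. -/
def BfS : Prop := ∀ (F B : Type) [Field F] [Algebra K F] [CommRing B] [Algebra K B]
  (β : B →ₐ[K] F) (N N' : Matrix (Fin 3) (Fin 9) B) (f f' : Fin 3 → Fin 9),
  adjoin K (ent N ∪ ent N') = ⊤ → N.submatrix id f = 1 → N'.submatrix id f' = 1 →
  Iso (N.map β) → Iso (N'.map β) → ¬ LI (N.map β) (N'.map β) →
  (∃ g : Matrix (Fin 3) (Fin 3) F, N'.map β = g * N.map β) ∨ trdeg K (B ⧸ RingHom.ker β) ≤ 1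

/-- The vector of a spinor. -/
def FzS : Prop := ∃ (a : Fin 9 → K) (ν : K), ν ≠ 0 ∧ gam a *ᵥ p0 K = ν • p0 K

/-- The covector of the plane kills all Clifford multiples of the spinor. -/
def ZD {R : Type} [CommRing R] (ψ : Fin 16 → R) (M : Matrix (Fin 3) (Fin 9) R) (ξ : Fin 16 → R) :
    Prop := ξ ≠ 0 ∧ An M ξ ∧ ∀ x, ξ ᵥ* gam x ⬝ᵥ ψ = 0

/-- The degeneracy locus of the first spinor. -/
def Zp {F : Type} [Field F] [Algebra K F] (N : Matrix (Fin 3) (Fin 9) F) : Prop :=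
  ∃ ξ, ZD (p0 F) N ξ

/-- The zero locus of a Clifford multiple of the first spinor. -/
def Yp {F : Type} [Field F] [Algebra K F] (N : Matrix (Fin 3) (Fin 9) F) : Prop :=
  am N *ᵥ (gam (ev F 8) *ᵥ p0 F) = 0

/-- Planes orthogonal to the vector of the first spinor. -/
def ZaS : Prop := ∀ (F : Type) [Field F] [Algebra K F] (N : Matrix (Fin 3) (Fin 9) F)
  (a : Fin 9 → F) (ν : F), Iso N → Rk N → ν ≠ 0 → gam a *ᵥ p0 F = ν • p0 F →
  (∀ b, bf (N b) a = 0) → Zp N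

/-- The plane is the only point of the degeneracy locus of some spinor. -/
def UQ {E : Type} [Field E] [Algebra K E] (M : Matrix (Fin 3) (Fin 9) E) : Prop :=
  ∃ (w : Fin 5 → E) (ξ : Fin 16 → E), ZD (psi E *ᵥ w) M ξ ∧
    ∀ (F : Type) [Field F] [Algebra K F] (σ : E →ₐ[K] F) (M' : Matrix (Fin 3) (Fin 9) F)
      (ξ' : Fin 16 → F), Iso M' → Rk M' → ZD (psi F *ᵥ (σ ∘ w)) M' ξ' →
      (∃ g : Matrix (Fin 3) (Fin 3) F, M' = g * M.map σ) ∧ ∃ a : F, ξ' = a • (σ ∘ ξ)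

section Group

variable {R : Type} [CommRing R]

/-- An element of the spin group and its action on row vectors. -/
def Sp (h : Matrix (Fin 16) (Fin 16) R) (ρ : Matrix (Fin 9) (Fin 9) R) : Prop :=
  IsUnit h ∧ IsUnit ρ ∧ ∀ x, h * gam x = gam (x ᵥ* ρ) * h

/-- A unipotent element. -/
def e1 (u v : Fin 9 → R) : Matrix (Fin 16) (Fin 16) R := 1 + gam u * gam v

/-- Its action on row vectors. -/
def r1 (u v : Fin 9 → R) : Matrix (Fin 9) (Fin 9) R :=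
  1 + vecMulVec (du v) u - vecMulVec (du u) v - qf v • vecMulVec (du u) u

/-- The three vectors of a unipotent element. -/
def mv (t : Fin 12 → R) : Fin 3 → Fin 9 → R :=
  ![![0, t 0, t 1, t 2, t 3, t 4, 0, 0, 0], ![0, 0, t 5, t 6, t 7, t 8, 0, 0, 0],
    ![0, 0, 0, t 9, t 10, t 11, 0, 0, 0]]

/-- The unipotent radical on spinors. -/
def nS (t : Fin 12 → R) : Matrix (Fin 16) (Fin 16) R :=
  e1 (ev R 0) (mv t 0) * e1 (ev R 1) (mv t 1) * e1 (ev R 2) (mv t 2)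

/-- The unipotent radical on row vectors. -/
def nV (t : Fin 12 → R) : Matrix (Fin 9) (Fin 9) R :=
  r1 (ev R 2) (mv t 2) * r1 (ev R 1) (mv t 1) * r1 (ev R 0) (mv t 0)

/-- The group law. -/
def law (a b : Fin 12 → R) : Fin 12 → R :=
  ![a 0 + b 0 + (a 6 * b 4 + 2 * a 7 * b 3 + a 8 * b 2),
    a 1 + b 1 + (a 9 * b 4 + 2 * a 10 * b 3 + a 11 * b 2), a 2 + b 2, a 3 + b 3, a 4 + b 4,
    a 5 + b 5 + (a 9 * b 8 + 2 * a 10 * b 7 + a 11 * b 6), a 6 + b 6, a 7 + b 7, a 8 + b 8,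
    a 9 + b 9, a 10 + b 10, a 11 + b 11]

/-- The inverse. -/
def inv (a : Fin 12 → R) : Fin 12 → R :=
  ![-a 0 + (a 6 * a 4 + 2 * a 7 * a 3 + a 8 * a 2),
    -a 1 + (a 9 * a 4 + 2 * a 10 * a 3 + a 11 * a 2), -a 2, -a 3, -a 4,
    -a 5 + (a 9 * a 8 + 2 * a 10 * a 7 + a 11 * a 6), -a 6, -a 7, -a 8, -a 9, -a 10, -a 11]

/-- The base plane. -/
def U0 (R : Type) [CommRing R] : Matrix (Fin 3) (Fin 9) R := of ![ev R 8, ev R 7, ev R 6]

/-- The moved plane. -/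
def Nn (t : Fin 12 → R) : Matrix (Fin 3) (Fin 9) R := U0 R * nV t

/-- The first vectors of the stabilizer. -/
def su : Fin 18 → Fin 9 → ℤ :=
  ![![1, 0, 0, 0, 0, 0, 0, 0, 0],
    ![1, 0, 0, 0, 0, 0, 0, 0, 0],
    ![0, 1, 0, 0, 0, 0, 0, 0, 0],
    ![0, 0, 1, 0, 0, 0, 0, 0, 0],
    ![0, 0, 1, 0, 0, 0, 0, 0, 0],
    ![0, 0, 0, 0, 0, 0, 1, 0, 0],
    ![0, 0, 0, 0, 0, 0, 1, 0, 0],
    ![0, 0, 0, 0, 0, 0, 0, 1, 0],
    ![0, 0, 0, 0, 0, 0, 1, 0, 0],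
    ![0, 0, 0, 0, 0, 0, 0, 1, 0],
    ![0, 0, 0, 0, 0, 0, 0, 1, 0],
    ![0, 0, 0, 0, 0, 0, 0, 1, 0],
    ![0, 0, 0, 0, 0, 0, 0, 0, 1],
    ![0, 0, 0, 0, 0, 0, 0, 0, 1],
    ![0, 0, 0, 0, 0, 0, 0, 0, 1],
    ![0, 0, 0, 1, 0, 0, 0, 0, 0],
    ![0, 0, 0, 0, 0, 1, 0, 0, 0],
    ![0, 1, 1, 0, 0, 0, 0, 0, 0]]

/-- The second vectors of the stabilizer. -/
def sv : Fin 18 → Fin 9 → ℤ :=
  ![![0, 0, 0, 0, 0, 0, 1, 0, 0],
    ![0, 0, 0, 0, 0, 0, 0, 1, 0],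
    ![0, 0, 0, 0, 0, 0, 1, 0, 0],
    ![0, 0, 0, 0, 0, 0, 0, 1, 0],
    ![0, 0, 0, 0, 0, 0, 0, 0, 1],
    ![0, 0, 0, 0, 0, 0, 0, 1, 0],
    ![0, 0, 0, 0, 0, 0, 0, 0, 1],
    ![0, 0, 0, 0, 0, 0, 0, 0, 1],
    ![0, 0, 0, 0, 1, 0, 0, 0, 0],
    ![0, 0, 0, 1, 0, 0, 0, 0, 0],
    ![0, 0, 0, 0, 1, 0, 0, 0, 0],
    ![0, 0, 0, 0, 0, 1, 0, 0, 0],
    ![0, 0, 0, 1, 0, 0, 0, 0, 0],
    ![0, 0, 0, 0, 1, 0, 0, 0, 0],
    ![0, 0, 0, 0, 0, 1, 0, 0, 0],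
    ![0, 0, 0, 0, 1, 0, 0, 0, 0],
    ![0, 0, 0, 0, 1, 0, 0, 0, 0],
    ![0, 0, 0, 0, 0, 0, -1, 1, 0]]

/-- A product of elements of the stabilizer of the base plane. -/
def aS (a : Fin 18 → R) (l : List (Fin 18)) : Matrix (Fin 16) (Fin 16) R :=
  (l.map fun j => e1 (fun i => a j * su j i) fun i => sv j i).prod

/-- The normal form of the five spinors. -/
def pat (q : Fin 26 → R) : Matrix (Fin 16) (Fin 5) R :=
  !![0, 0, 0, 0, 0;
     0, 0, 1, 0, 0;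
     0, 1, 0, 0, 0;
     q 3, q 7, q 11, q 15, q 19;
     0, 0, 0, 0, 1;
     1, 0, 0, 0, 0;
     q 2, q 6, q 10, q 14, q 18;
     0, 0, 0, 0, 0;
     0, 0, 0, 1, 0;
     q 1, q 5, q 9, q 13, q 17;
     q 0, q 4, q 8, q 12, q 16;
     0, 0, 0, 0, q 25;
     -q 3, -q 7, -q 11, -q 15, -q 19;
     0, 0, 0, q 23, q 24;
     0, 0, q 20, q 21, q 22;
     0, 0, 0, 0, 0]

/-- The discriminant of the normal form. -/
def Dq (q : Fin 26 → R) : R :=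
  (q 3 ^ 2 + q 0 - q 1 * q 2) * (!![q 4, q 5, q 6, q 7; q 8, q 9, q 10, q 11;
    q 12, q 13, q 14, q 15; q 16, q 17, q 18, q 19] : Matrix (Fin 4) (Fin 4) R).det *
    (q 20 * q 23 * q 25)

/-- The parameters that do not move. -/
abbrev Tu : Type := Fin 18 ⊕ Fin 26 ⊕ Fin 5 × Fin 5

/-- The change of basis. -/
def mx (u : Tu → R) : Matrix (Fin 5) (Fin 5) R := of fun i j => u (.inr (.inr (i, j)))

/-- The five spinors at the base plane. -/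
def Rr (u : Tu → R) : Matrix (Fin 16) (Fin 5) R :=
  aS (u ∘ .inl) (List.finRange 18) * pat (u ∘ .inr ∘ .inl) * mx u

/-- The discriminant. -/
def Dl (u : Tu → R) : R := Dq (u ∘ .inr ∘ .inl) * (mx u).det

/-- All parameters. -/
abbrev Th : Type := Fin 12 ⊕ Tu

/-- The coefficients of the spinors and one coordinate of the plane. -/
def fo (θ : Th → R) : Option Ix → R
  | none => θ (.inl 0)
  | some x => (nS (θ ∘ .inl) * Rr (θ ∘ .inr)) x.2 x.1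

end Group

/-- Facts on the spin group. -/
structure GrpS : Prop where
  r1_apply : ∀ (R : Type) [CommRing R] (u v x : Fin 9 → R),
    x ᵥ* r1 u v = x + bf x v • u - bf x u • v - (qf v * bf x u) • u
  sp1 : ∀ (R : Type) [CommRing R] (u v : Fin 9 → R), qf u = 0 → bf u v = 0 → Sp (e1 u v) (r1 u v)
  one : ∀ (R : Type) [CommRing R], Sp (1 : Matrix (Fin 16) (Fin 16) R) 1
  mul : ∀ (R : Type) [CommRing R] (h h' : Matrix (Fin 16) (Fin 16) R)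
    (ρ ρ' : Matrix (Fin 9) (Fin 9) R), Sp h ρ → Sp h' ρ' → Sp (h * h') (ρ' * ρ)
  qf : ∀ (R : Type) [CommRing R] (h : Matrix (Fin 16) (Fin 16) R) (ρ : Matrix (Fin 9) (Fin 9) R)
    (x : Fin 9 → R), Sp h ρ → qf (x ᵥ* ρ) = qf x
  am : ∀ (R : Type) [CommRing R] (h : Matrix (Fin 16) (Fin 16) R) (ρ : Matrix (Fin 9) (Fin 9) R)
    (M : Matrix (Fin 3) (Fin 9) R), Sp h ρ → h * am M = am (M * ρ) * h
  spn : ∀ (R : Type) [CommRing R] (t : Fin 12 → R), Sp (nS t) (nV t)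
  spa : ∀ (R : Type) [CommRing R] (a : Fin 18 → R) (l : List (Fin 18)),
    ∃ (ρ : Matrix (Fin 9) (Fin 9) R) (g : Matrix (Fin 3) (Fin 3) R),
      Sp (aS a l) ρ ∧ IsUnit g ∧ U0 R * ρ = g * U0 R
  lawS : ∀ (R : Type) [CommRing R] (a b : Fin 12 → R), nS (law a b) = nS a * nS b
  lawV : ∀ (R : Type) [CommRing R] (a b : Fin 12 → R), nV (law a b) = nV b * nV a
  cancel : ∀ (R : Type) [CommRing R] (a b : Fin 12 → R), law a (law (inv a) b) = b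
  map : ∀ (R S : Type) [CommRing R] [CommRing S] (σ : R →+* S) (a b : Fin 12 → R),
    (nS a).map σ = nS (σ ∘ a) ∧ (nV a).map σ = nV (σ ∘ a) ∧ (Nn a).map σ = Nn (σ ∘ a) ∧
    σ ∘ law a b = law (σ ∘ a) (σ ∘ b) ∧ σ ∘ inv a = inv (σ ∘ a)
  mapu : ∀ (R S : Type) [CommRing R] [CommRing S] (σ : R →+* S) (u : Tu → R),
    (Rr u).map σ = Rr (σ ∘ u) ∧ σ (Dl u) = Dl (σ ∘ u)
  mapf : ∀ (R S : Type) [CommRing R] [CommRing S] (σ : R →+* S) (θ : Th → R) (o : Option Ix),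
    σ (fo θ o) = fo (σ ∘ θ) o
  piv : ∀ (R : Type) [CommRing R] (t : Fin 12 → R),
    (Nn t).submatrix id ![8, 7, 6] = 1 ∧ Nn t 0 1 = -t 0

/-- Uniqueness in the normal form. -/
def NfS : Prop := ∀ (F : Type) [Field F] [Algebra K F] (q : Fin 26 → F),
  (Tot (U0 F) ∧ am (U0 F) * pat q = 0 ∧ ZD (pat q *ᵥ Pi.single 0 1) (U0 F) (Pi.single 15 1)) ∧
  ∀ (M : Matrix (Fin 3) (Fin 9) F) (ξ : Fin 16 → F), Dq q ≠ 0 → Tot M → Rk M →
    am M * pat q = 0 → ZD (pat q *ᵥ Pi.single 0 1) M ξ →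
    (∃ g : Matrix (Fin 3) (Fin 3) F, M = g * U0 F) ∧ ∃ a : F, ξ = Pi.single 15 a

/-- Uniqueness at the parametrized points. -/
def UniS : Prop := ∀ (F : Type) [Field F] [Algebra K F] (t : Fin 12 → F) (u : Tu → F),
  psi F = nS t * Rr u → Iso (Nn t) ∧ (Dl u ≠ 0 → UQ (Nn t))

/-- The parametrization is dominant. -/
def JcS : Prop := AlgebraicIndependent ℂ (fo (X : Th → MvPolynomial Th ℂ))

end Pool.Agent.MP_b834b3_ag.G18
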