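import Mathlib.Data.Fin.Tuple.Sort
import Pool.Agent.MP_b834b3_ag.h.SpecA

/-! Genus eighteen: the echelon form of an isotropic space. -/

namespace Pool.Agent.MP_b834b3_ag.G18

open Matrix

namespace EchGL

variable {F : Type} [Field F]

theorem bf_sum (u v : Fin 9 → F) :
    bf u v = ∑ c : Fin 9, (if c = 4 then 2 else 1) * (u c * v c.rev) := by
  rw [bf_eq]
  simp [Fin.sum_univ_succ, Fin.rev]
  ring

theorem term (L : AddSubgroup F) (u v : Fin 9 → F) (h : bf u v = 0) (P : Finset (Fin 9))
    (ho : ∀ c ∉ P, u c * v c.rev ∈ L) :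
    ∑ c ∈ P, (if c = 4 then 2 else 1) * (u c * v c.rev) ∈ L := by
  rw [bf_sum, ← Finset.sum_add_sum_compl P, add_eq_zero_iff_eq_neg] at h
  rw [h]
  refine L.neg_mem (L.sum_mem fun c hc => ?_)
  have := ho c (Finset.mem_compl.1 hc)
  split_ifs
  · rw [two_mul]
    exact L.add_mem this this
  · rwa [one_mul]

theorem piv (hL : LinS) {k : ℕ} (M : Matrix (Fin k) (Fin 9) F) (h : Rk M) :
    ∃ f : Fin k → Fin 9, Monotone f ∧ (M.submatrix id f).det ≠ 0 ∧
      ∀ a c, c < f a → ((M.submatrix id f)⁻¹ * M) a c = 0 := by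
  classical
  obtain ⟨f, h1, h2⟩ := Finset.exists_min_image
    (Finset.univ.filter fun f : Fin k → Fin 9 => (M.submatrix id f).det ≠ 0)
    (fun f => ∑ a, (f a).val) (((hL.piv F _ _ M).1 h).imp fun f hf => by simpa using hf.2)
  simp only [Finset.mem_filter, Finset.mem_univ, true_and] at h1 h2
  have h3 : (M.submatrix id (f ∘ Tuple.sort f)).det ≠ 0 := by
    rw [show M.submatrix id (f ∘ Tuple.sort f) = (M.submatrix id f).submatrix id (Tuple.sort f)
      from rfl, det_permute']
    exact mul_ne_zero (by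
      rcases Int.units_eq_one_or (Equiv.Perm.sign (Tuple.sort f)) with e | e <;> simp [e]) h1
  have h4 := Equiv.sum_comp (Tuple.sort f) fun a => (f a).val
  refine ⟨f ∘ Tuple.sort f, Tuple.monotone_sort f, h3, fun a c hc => ?_⟩
  set g := f ∘ Tuple.sort f with hg
  have h5 : (M.submatrix id (Function.update g a c)).det = 0 := by
    by_contra e
    refine (h2 _ e).not_gt ?_
    rw [← h4]
    refine Finset.sum_lt_sum (fun b _ => ?_) ⟨a, Finset.mem_univ _, by simpa [hg] using hc⟩
    by_cases hb : b = a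
    · subst hb
      simpa [hg] using hc.le
    · rw [Function.update_of_ne hb]
      rfl
  have h6 : ((M.submatrix id g)⁻¹ * M.submatrix id (Function.update g a c)).det = 0 := by
    rw [det_mul, h5, mul_zero]
  have h7 : (M.submatrix id g)⁻¹ * M.submatrix id (Function.update g a c) =
      (1 : Matrix (Fin k) (Fin k) F).updateCol a fun b => ((M.submatrix id g)⁻¹ * M) b c := by
    rw [← nonsing_inv_mul _ (isUnit_iff_ne_zero.2 h3)]
    ext b b'
    by_cases hb : b' = a
    · simp [hb, mul_apply]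
    · simp [hb, mul_apply]
  rwa [h7, ← cramer_apply, cramer_one] at h6

end EchGL

theorem ech_g (hL : LinS) : EchGS := by
  intro k F _ _ M hM hR
  classical
  have two : (2 : F) ≠ 0 := by
    rw [← map_ofNat ((algebraMap K F).comp (algebraMap ℂ K)) 2]
    exact (_root_.map_ne_zero _).2 two_ne_zero
  obtain ⟨f, h1, h2, h3⟩ := EchGL.piv hL M hR
  have h4 : ((M.submatrix id f)⁻¹ * M).submatrix id f = 1 :=
    nonsing_inv_mul _ (isUnit_iff_ne_zero.2 h2)
  have h5 : ((M.submatrix id f)⁻¹).det ≠ 0 :=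
    (isUnit_nonsing_inv_det _ (isUnit_iff_ne_zero.2 h2)).ne_zero
  have eq := ((tot_iff _).1 (hM.mul (M.submatrix id f)⁻¹)).2
  suffices H : StrictMono f ∧ (∀ a b, (f a).val + (f b).val ≠ 8) ∧ ∀ a c,
      ((M.submatrix id f)⁻¹ * M) a c ∈ Subfield.closure
        (Set.range fun x : Tf f => ((M.submatrix id f)⁻¹ * M) x.1.1 x.1.2) from
    ⟨f, _, H.1, h5, h4, H.2⟩
  generalize (M.submatrix id f)⁻¹ * M = N at h3 h4 eq
  have h6 : ∀ a b, N a (f b) = if a = b then 1 else 0 := fun a b =>
    (congrFun (congrFun h4 a) b).trans one_apply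
  have h7 : StrictMono f := h1.strictMono_of_injective fun a b e => by
    by_contra c
    have := (h6 a a).symm.trans (e ▸ h6 a b)
    simp [c] at this
  have rv : ∀ {p q : Fin 9}, p.val + q.val = 8 → p.rev = q := fun e =>
    Fin.ext (by rw [Fin.val_rev]; omega)
  have h8 : ∀ a b, (f a).val + (f b).val ≠ 8 := fun a b e => by
    have := EchGL.term ⊥ _ _ (eq a b) {f a} fun c hc => by
      rcases lt_or_gt_of_ne (Finset.notMem_singleton.1 hc) with k | k
      · simp [h3 a c k]
      · simp [h3 b c.rev (by rw [Fin.lt_def] at k ⊢; rw [Fin.val_rev]; omega)]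
    rw [Finset.sum_singleton, rv e, h6, h6, if_pos rfl, if_pos rfl, AddSubgroup.mem_bot] at this
    split_ifs at this <;> simp [two] at this
  have n4 : ∀ a, f a ≠ 4 := fun a e => h8 a a (by rw [e]; rfl)
  refine ⟨h7, h8, fun a => ?_⟩
  induction a using WellFoundedLT.induction with
  | ind a ih =>
  intro c
  induction c using WellFoundedLT.induction with
  | ind c ih' =>
  by_cases k1 : ∃ b, f b = c
  · obtain ⟨b, rfl⟩ := k1
    rw [h6]
    split_ifs
    exacts [one_mem _, zero_mem _]
  by_cases k2 : c < f a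
  · rw [h3 a c k2]
    exact zero_mem _
  by_cases k3 : ∃ b, b ≤ a ∧ (f b).val + c.val = 8
  · obtain ⟨b, k4, k5⟩ := k3
    rcases k4.lt_or_eq with k4 | rfl
    · have := EchGL.term (Subfield.toAddSubgroup _) _ _ (eq b a) {f b} fun c' hc => by
        rcases lt_or_gt_of_ne (Finset.notMem_singleton.1 hc) with k | k
        · rw [h3 b c' k, zero_mul]
          exact zero_mem _
        · exact Subfield.mul_mem _ (ih b k4 c')
            (ih' _ (by rw [Fin.lt_def] at k ⊢; rw [Fin.val_rev]; omega))
      rwa [Finset.sum_singleton, rv k5, if_neg (n4 b), h6, if_pos rfl, one_mul, one_mul] at this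
    · have ne : f b ≠ c := fun e => k1 ⟨b, e⟩
      have c4 : c ≠ 4 := fun e => n4 b (Fin.ext (by rw [e] at k5; omega))
      have := EchGL.term (Subfield.toAddSubgroup _) _ _ (eq b b) {f b, c} fun c' hc => by
        rw [Finset.mem_insert, Finset.mem_singleton, not_or, ← ne_eq, ← ne_eq, Fin.ne_iff_vne,
          Fin.ne_iff_vne] at hc
        by_cases l1 : c' < f b
        · rw [h3 b c' l1, zero_mul]
          exact zero_mem _
        by_cases l2 : c'.rev < f b
        · rw [h3 b _ l2, mul_zero]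
          exact zero_mem _
        rw [Fin.lt_def] at l1 l2
        rw [Fin.val_rev] at l2
        exact Subfield.mul_mem _ (ih' _ (by rw [Fin.lt_def]; omega))
          (ih' _ (by rw [Fin.lt_def, Fin.val_rev]; omega))
      rw [Finset.sum_pair ne, rv k5, rv ((add_comm _ _).trans k5), if_neg (n4 b), if_neg c4, h6,
        if_pos rfl, one_mul, one_mul, one_mul, mul_one, ← two_mul] at this
      rw [← inv_mul_cancel_left₀ two (N b c)]
      exact Subfield.mul_mem _ (inv_mem (ofNat_mem _ 2)) this
  · push Not at k1 k2 k3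
    exact Subfield.subset_closure ⟨⟨(a, c), Finset.mem_filter.2 ⟨Finset.mem_univ _,
      lt_of_le_of_ne k2 (k1 a), k1, k3⟩⟩, rfl⟩

end Pool.Agent.MP_b834b3_ag.G18
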