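import Pool.Agent.MP_b834b3_ag.h.SpecB

/-! Genus eighteen: the equations as a linear system. -/

namespace Pool.Agent.MP_b834b3_ag.G18

open Matrix

namespace EqL

variable {R : Type} [CommRing R]

theorem am_ent (N : Matrix (Fin 3) (Fin 9) R) (r c : Fin 16) :
    am N r c = (gam (N 0) *ᵥ (gam (N 1) *ᵥ (gam (N 2) *ᵥ Pi.single c 1))) r := by
  rw [mulVec_mulVec, mulVec_mulVec, mulVec_single_one]
  rfl

theorem ge (x : Fin 9 → R) (s : Fin 16 → R) :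
    (gam x *ᵥ s) 0 = x 4 * s 0 + x 8 * s 1 + x 7 * s 2 + x 6 * s 4 + x 5 * s 8 ∧
    (gam x *ᵥ s) 1 = x 0 * s 0 - x 4 * s 1 - x 7 * s 3 - x 6 * s 5 - x 5 * s 9 ∧
    (gam x *ᵥ s) 2 = x 1 * s 0 - x 4 * s 2 + x 8 * s 3 - x 6 * s 6 - x 5 * s 10 ∧
    (gam x *ᵥ s) 3 = -(x 1 * s 1) + x 0 * s 2 + x 4 * s 3 + x 6 * s 7 + x 5 * s 11 ∧
    (gam x *ᵥ s) 4 = x 2 * s 0 - x 4 * s 4 + x 8 * s 5 + x 7 * s 6 - x 5 * s 12 ∧
    (gam x *ᵥ s) 5 = -(x 2 * s 1) + x 0 * s 4 + x 4 * s 5 - x 7 * s 7 + x 5 * s 13 ∧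
    (gam x *ᵥ s) 6 = -(x 2 * s 2) + x 1 * s 4 + x 4 * s 6 + x 8 * s 7 + x 5 * s 14 ∧
    (gam x *ᵥ s) 7 = x 2 * s 3 - x 1 * s 5 + x 0 * s 6 - x 4 * s 7 - x 5 * s 15 ∧
    (gam x *ᵥ s) 8 = x 3 * s 0 - x 4 * s 8 + x 8 * s 9 + x 7 * s 10 + x 6 * s 12 ∧
    (gam x *ᵥ s) 9 = -(x 3 * s 1) + x 0 * s 8 + x 4 * s 9 - x 7 * s 11 - x 6 * s 13 ∧
    (gam x *ᵥ s) 10 = -(x 3 * s 2) + x 1 * s 8 + x 4 * s 10 + x 8 * s 11 - x 6 * s 14 ∧
    (gam x *ᵥ s) 11 = x 3 * s 3 - x 1 * s 9 + x 0 * s 10 - x 4 * s 11 + x 6 * s 15 ∧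
    (gam x *ᵥ s) 12 = -(x 3 * s 4) + x 2 * s 8 + x 4 * s 12 + x 8 * s 13 + x 7 * s 14 ∧
    (gam x *ᵥ s) 13 = x 3 * s 5 - x 2 * s 9 + x 0 * s 12 - x 4 * s 13 - x 7 * s 15 ∧
    (gam x *ᵥ s) 14 = x 3 * s 6 - x 2 * s 10 + x 1 * s 12 - x 4 * s 14 + x 8 * s 15 ∧
    (gam x *ᵥ s) 15 = -(x 3 * s 7) + x 2 * s 11 - x 1 * s 13 + x 0 * s 14 + x 4 * s 15 := by
  rw [gam_mulVec]
  exact ⟨rfl, rfl, rfl, rfl, rfl, rfl, rfl, rfl, rfl, rfl, rfl, rfl, rfl, rfl, rfl, rfl⟩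

theorem w0 (x : Fin 9 → R) : gam x *ᵥ Pi.single 0 1 =
    ![x 4, x 0, x 1, 0, x 2, 0, 0, 0, x 3, 0, 0, 0, 0, 0, 0, 0] := by
  rw [gam_mulVec]
  simp

theorem w2 (x : Fin 9 → R) : gam x *ᵥ Pi.single 2 1 =
    ![x 7, 0, -x 4, x 0, 0, 0, -x 2, 0, 0, 0, -x 3, 0, 0, 0, 0, 0] := by
  rw [gam_mulVec]
  simp

theorem w4 (x : Fin 9 → R) : gam x *ᵥ Pi.single 4 1 =
    ![x 6, 0, 0, 0, -x 4, x 0, x 1, 0, 0, 0, 0, 0, -x 3, 0, 0, 0] := by
  rw [gam_mulVec]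
  simp

theorem w8 (x : Fin 9 → R) : gam x *ᵥ Pi.single 8 1 =
    ![x 5, 0, 0, 0, 0, 0, 0, 0, -x 4, x 0, x 1, 0, x 2, 0, 0, 0] := by
  rw [gam_mulVec]
  simp

theorem w12 (x : Fin 9 → R) : gam x *ᵥ Pi.single 12 1 =
    ![0, 0, 0, 0, -x 5, 0, 0, 0, x 6, 0, 0, 0, x 4, x 0, x 1, 0] := by
  rw [gam_mulVec]
  simp

/-- A minor. -/
def dt (N : Matrix (Fin 3) (Fin 9) R) (a b c : Fin 9) : R :=
  N 0 a * N 1 b * N 2 c - N 0 a * N 1 c * N 2 b - N 0 b * N 1 a * N 2 c + N 0 b * N 1 c * N 2 a +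
    N 0 c * N 1 a * N 2 b - N 0 c * N 1 b * N 2 a

theorem ent (N : Matrix (Fin 3) (Fin 9) R) :
    am N 7 0 = dt N 0 1 2 ∧ am N 7 8 = 0 ∧ am N 15 0 = 0 ∧ am N 15 8 = dt N 0 1 2 ∧
    am N 11 0 = dt N 0 1 3 ∧ am N 11 4 = 0 ∧ am N 15 4 = -dt N 0 1 3 ∧
    am N 13 0 = dt N 0 2 3 ∧ am N 13 2 = 0 ∧ am N 15 2 = dt N 0 2 3 ∧
    am N 3 8 = dt N 0 1 5 ∧ am N 3 12 = 0 ∧ am N 7 12 = -dt N 0 1 5 := by
  simp only [am_ent, w0, w2, w4, w8, w12]
  simp only [ge, cons_val, dt]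
  refine ⟨?_, ?_, ?_, ?_, ?_, ?_, ?_, ?_, ?_, ?_, ?_, ?_, ?_⟩ <;> ring

theorem piv (N : Matrix (Fin 3) (Fin 9) R) (j : Fin 4) (ρ ρ' : Fin 2) :
    cv j N ρ (pcl j ρ') = if ρ = ρ' then mn j N else 0 := by
  rw [cv, of_apply, show mn j N = dt N (ff j 0) (ff j 1) (ff j 2) from det_fin_three _]
  fin_cases j <;> fin_cases ρ <;> fin_cases ρ' <;> simp [psg, prw, pcl, ff, ent]

/-- The matrix that selects the pivot rows. -/
def dd (R : Type) [CommRing R] (j : Fin 4) : Matrix (Fin 2) (Fin 16) R :=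
  of fun ρ => Pi.single (prw j ρ) (psg j ρ : R)

theorem cv_eq (j : Fin 4) (N : Matrix (Fin 3) (Fin 9) R) : cv j N = dd R j * am N := by
  ext ρ k
  simp [cv, dd, mul_apply, Pi.single_apply]

theorem v3 (s : Fin 16 → R) : s ᵥ* gam (ev R 3) =
    ![s 8, -s 9, -s 10, s 11, -s 12, s 13, s 14, -s 15, 0, 0, 0, 0, 0, 0, 0, 0] := by
  rw [vecMul_gam]
  simp [ev]

theorem v5 (s : Fin 16 → R) : s ᵥ* gam (ev R 5) =
    ![0, 0, 0, 0, 0, 0, 0, 0, s 0, -s 1, -s 2, s 3, -s 4, s 5, s 6, -s 7] := by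
  rw [vecMul_gam]
  simp [ev]

theorem v6 (s : Fin 16 → R) : s ᵥ* gam (ev R 6) =
    ![0, 0, 0, 0, s 0, -s 1, -s 2, s 3, 0, 0, 0, 0, s 8, -s 9, -s 10, s 11] := by
  rw [vecMul_gam]
  simp [ev]

theorem v7 (s : Fin 16 → R) : s ᵥ* gam (ev R 7) =
    ![0, 0, s 0, -s 1, 0, 0, s 4, -s 5, 0, 0, s 8, -s 9, 0, 0, s 12, -s 13] := by
  rw [vecMul_gam]
  simp [ev]

theorem v8 (s : Fin 16 → R) : s ᵥ* gam (ev R 8) =
    ![0, s 0, 0, s 2, 0, s 4, 0, s 6, 0, s 8, 0, s 10, 0, s 12, 0, s 14] := by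
  rw [vecMul_gam]
  simp [ev]

theorem contr (j : Fin 4) (ξ : Fin 16 → R) :
    ξ ᵥ* gam (ev R (ff j 2).rev) ᵥ* gam (ev R (ff j 1).rev) ᵥ* gam (ev R (ff j 0).rev) =
      (ξ ∘ pcl j) ᵥ* dd R j := by
  have e : (ξ ∘ pcl j) ᵥ* dd R j = Pi.single (prw j 0) (psg j 0 * ξ (pcl j 0)) +
      Pi.single (prw j 1) (psg j 1 * ξ (pcl j 1)) := by
    ext k
    simp [vecMul, dotProduct, dd, Pi.single_apply, mul_comm]
  rw [e]
  fin_cases j
  · show ξ ᵥ* gam (ev R 6) ᵥ* gam (ev R 7) ᵥ* gam (ev R 8) =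
      Pi.single 7 (((1 : ℤ) : R) * ξ 0) + Pi.single 15 (((1 : ℤ) : R) * ξ 8)
    simp only [v6, v7, v8, cons_val]
    ext k; fin_cases k <;> simp
  · show ξ ᵥ* gam (ev R 5) ᵥ* gam (ev R 7) ᵥ* gam (ev R 8) =
      Pi.single 11 (((1 : ℤ) : R) * ξ 0) + Pi.single 15 (((-1 : ℤ) : R) * ξ 4)
    simp only [v5, v7, v8, cons_val]
    ext k; fin_cases k <;> simp
  · show ξ ᵥ* gam (ev R 5) ᵥ* gam (ev R 6) ᵥ* gam (ev R 8) =
      Pi.single 13 (((1 : ℤ) : R) * ξ 0) + Pi.single 15 (((1 : ℤ) : R) * ξ 2)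
    simp only [v5, v6, v8, cons_val]
    ext k; fin_cases k <;> simp
  · show ξ ᵥ* gam (ev R 3) ᵥ* gam (ev R 7) ᵥ* gam (ev R 8) =
      Pi.single 3 (((1 : ℤ) : R) * ξ 8) + Pi.single 7 (((-1 : ℤ) : R) * ξ 12)
    simp only [v3, v7, v8, cons_val]
    ext k; fin_cases k <;> simp

theorem ff_ne : ∀ j a, ff j a ≠ 4 := by decide

theorem sw {η : Fin 16 → R} {x : Fin 9 → R} (h : η ᵥ* gam x = 0) (y : Fin 9 → R) :
    η ᵥ* gam y ᵥ* gam x = bf x y • η := by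
  rw [vecMul_vecMul, gam_swap, vecMul_sub, ← vecMul_vecMul, h, zero_vecMul, sub_zero,
    vecMul_smul, vecMul_one, bf_comm]

theorem bf_piv {j : Fin 4} {N : Matrix (Fin 3) (Fin 9) R} (h : N.submatrix id (ff j) = 1)
    (a b : Fin 3) : bf (N a) (ev R (ff j b).rev) = if a = b then 1 else 0 :=
  (bf_ev _ _ (ff_ne j b)).trans ((congrFun (congrFun h a) b).trans one_apply)

theorem an_eq {j : Fin 4} {N : Matrix (Fin 3) (Fin 9) R} {ξ : Fin 16 → R}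
    (h : N.submatrix id (ff j) = 1) (k : An N ξ) : ξ = (ξ ∘ pcl j) ᵥ* cv j N := by
  have a0 := sw (k 0) (ev R (ff j 2).rev)
  have a1 := sw (k 1) (ev R (ff j 2).rev)
  have a2 := sw (k 2) (ev R (ff j 2).rev)
  rw [bf_piv h, if_neg (by decide), zero_smul] at a0 a1
  have b0 := sw a0 (ev R (ff j 1).rev)
  have b1 := sw a1 (ev R (ff j 1).rev)
  rw [bf_piv h, if_neg (by decide), zero_smul] at b0
  have c0 := sw b0 (ev R (ff j 0).rev)
  rw [bf_piv h, if_pos rfl, one_smul] at a2 b1 c0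
  rw [cv_eq, ← vecMul_vecMul, ← contr, am, ← vecMul_vecMul, ← vecMul_vecMul, c0, b1, a2]

theorem cv_one {j : Fin 4} {N : Matrix (Fin 3) (Fin 9) R} (h : N.submatrix id (ff j) = 1) :
    (cv j N).submatrix id (pcl j) = 1 := by
  ext ρ ρ'
  rw [submatrix_apply, id, piv, mn, h, det_one, one_apply]

theorem cv_am (hC : CliffS) {j : Fin 4} {N : Matrix (Fin 3) (Fin 9) R}
    (h : N.submatrix id (ff j) = 1) (t : Tot N) :
    am N = (am N).submatrix id (pcl j) * cv j N := by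
  funext r
  have k := hC.an_row R N (Pi.single r 1) t
  rw [single_one_vecMul] at k
  exact an_eq h k

theorem iso' (hC : CliffS) [Algebra K R] {j : Fin 4} {N : Matrix (Fin 3) (Fin 9) R}
    (h : N.submatrix id (ff j) = 1) : Iso N ↔ Tot N ∧ cv j N * psi R = 0 := by
  refine (iso_iff N).trans (and_congr_right fun t => ⟨fun k => ?_, fun k => ?_⟩)
  · rw [cv_eq, Matrix.mul_assoc, k, Matrix.mul_zero]
  · rw [cv_am hC h t, Matrix.mul_assoc, k, Matrix.mul_zero]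

theorem sum_mm [Algebra K R] (j : Fin 4) (N : Matrix (Fin 3) (Fin 9) R) (s : Rw) :
    ∑ i, algebraMap K R (cf ℂ K i) * mm j N s i = (cv j N * psi R) s.2 s.1 := by
  rw [Fintype.sum_prod_type, Finset.sum_eq_single s.1, mul_apply]
  · exact Finset.sum_congr rfl fun k _ => by rw [mm, if_pos rfl, psi_apply, mul_comm]
  · intro b _ hb
    simp only [mm, if_neg hb.symm, mul_zero, Finset.sum_const_zero]
  · intro h; exact absurd (Finset.mem_univ _) h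

theorem sum_mm' (j : Fin 4) (N : Matrix (Fin 3) (Fin 9) R) (c : Rw → R) (a : Fin 5) (k : Fin 16) :
    ∑ s, c s * mm j N s (a, k) = ((fun ρ => c (a, ρ)) ᵥ* cv j N) k := by
  rw [Fintype.sum_prod_type, Finset.sum_eq_single a]
  · exact Finset.sum_congr rfl fun ρ _ => congrArg (c (a, ρ) * ·) (if_pos rfl)
  · intro b _ hb
    simp only [mm, if_neg hb, mul_zero, Finset.sum_const_zero]
  · intro h; exact absurd (Finset.mem_univ _) h

theorem cv_zero {j : Fin 4} {N : Matrix (Fin 3) (Fin 9) R} (h : N.submatrix id (ff j) = 1)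
    {u : Fin 2 → R} (k : u ᵥ* cv j N = 0) : u = 0 := by
  funext ρ
  have e : (u ᵥ* (cv j N).submatrix id (pcl j)) ρ = (u ᵥ* cv j N) (pcl j ρ) := rfl
  rw [cv_one h, vecMul_one, k] at e
  exact e

theorem cv_map {S : Type} [CommRing S] (σ : R →+* S) (j : Fin 4) (N : Matrix (Fin 3) (Fin 9) R) :
    (cv j N).map σ = cv j (N.map σ) := by
  ext ρ k
  rw [map_apply, cv, cv, of_apply, of_apply, map_mul, map_intCast, ← am_map, map_apply]

end EqL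

open EqL in
theorem eq_s (hC : CliffS) : EqS where
  cv_map _ _ _ _ := cv_map
  cv_one _ _ _ _ := cv_one
  cv_am _ _ _ _ := cv_am hC
  cv_row R _ j N c := ⟨c ᵥ* dd R j, by rw [cv_eq, vecMul_vecMul]⟩
  cv_an R _ j N ξ h t := ⟨an_eq h, fun k => by
    rw [k, cv_eq, ← vecMul_vecMul]
    exact hC.an_row R N _ t⟩
  iso R _ _ j N h := (iso' hC h).trans (and_congr_right fun _ => by
    simp only [sum_mm]
    exact ⟨fun k s => by rw [k]; rfl, fun k => by ext ρ i; exact k (i, ρ)⟩)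
  iso' _ _ _ _ _ := iso' hC
  map R S _ _ σ j N s i := by
    rw [mm, mm, apply_ite σ, map_zero, ← cv_map, map_apply]
  inj := by decide
  one R _ N j h := by
    ext s s'
    rw [of_apply, mm, pv, piv, mn, h, det_one, one_apply, ← ite_and]
    exact if_congr Prod.ext_iff.symm rfl rfl
  card := ⟨by simp, by simp⟩
  li F _ j N h l c hc := by
    funext ⟨b, a, ρ⟩
    have e : (fun ρ => c (true, a, ρ)) ᵥ* cv (j true) (N true) +
        (fun ρ => c (false, a, ρ)) ᵥ* cv (j false) (N false) = 0 := funext fun k => by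
      have := hc (a, k)
      rwa [Fintype.sum_prod_type, Fintype.sum_bool, sum_mm' (j true) (N true) fun s => c (true, s),
        sum_mm' (j false) (N false) fun s => c (false, s)] at this
    have e2 : (fun ρ => c (false, a, ρ)) ᵥ* cv (j false) (N false) = 0 := by
      rw [cv_eq, cv_eq, ← vecMul_vecMul, ← vecMul_vecMul] at e
      rw [cv_eq, ← vecMul_vecMul]
      exact l _ _ ((eq_neg_of_add_eq_zero_right e).trans (neg_vecMul _ _).symm)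
    rw [e2, add_zero] at e
    cases b
    exacts [congrFun (cv_zero (h _) e2) ρ, congrFun (cv_zero (h _) e) ρ]
  zd R _ j N ξ ψ h t k c1 c2 x := by
    let S : Matrix (Fin 3) (Fin 9) R := of fun a => ev R (ff j a).rev
    have p := an_eq h (hC.perp R _ N (x - (fun a => bf (N a) x) ᵥ* S) ξ (fun b => by
      rw [bf_comm, bf_sub, bf_vecMul, bf_comm x, sub_eq_zero, Finset.sum_eq_single b]
      · rw [bf_comm (S b), show S b = ev R (ff j b).rev from rfl, bf_piv h, if_pos rfl, mul_one]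
      · intro a _ ha
        rw [bf_comm (S a), show S a = ev R (ff j a).rev from rfl, bf_piv h, if_neg ha.symm,
          mul_zero]
      · intro h; exact absurd (Finset.mem_univ _) h) k)
    have q := congrArg (· ⬝ᵥ ψ) p
    simp only [← dotProduct_mulVec _ (cv j N), c1, dotProduct_zero] at q
    rw [gam_sub, gam_vecMul, vecMul_sub, sub_dotProduct, sub_eq_zero, Fin.sum_univ_three] at q
    simp only [vecMul_add, vecMul_smul, add_dotProduct, smul_dotProduct] at q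
    rw [q, show ξ ᵥ* gam (S 0) ⬝ᵥ ψ = 0 from c2 0, show ξ ᵥ* gam (S 1) ⬝ᵥ ψ = 0 from c2 1,
      show ξ ᵥ* gam (S 2) ⬝ᵥ ψ = 0 from c2 2]
    simp
  vac R _ N h := by
    rw [mulVec_single_one] at h
    have e : ∀ j, pcl j 0 = 0 → mn j N = 0 := fun j k => by
      have := piv N j 0 0
      rw [if_pos rfl, k, cv, of_apply, show am N (prw j 0) 0 = 0 from congrFun h _, mul_zero] at this
      exact this.symm
    exact ⟨e 0 rfl, e 1 rfl, e 2 rfl⟩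

end Pool.Agent.MP_b834b3_ag.G18
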