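import Pool.Agent.MP_b834b3_ag.h.SpecB

/-! Genus eighteen: a curve of points of total ramification. -/

namespace Pool.Agent.MP_b834b3_ag.G18

open Algebra MvPolynomial Matrix

namespace ExcL

/-- A test point. -/
def x0 : Th → ℤ
  | .inl i => ![0, 1, 0, 0, 0, 0, 0, -1, 0, 0, -1, 0] i
  | .inr (.inl _) => 0
  | .inr (.inr (.inl i)) => if i.val ∈ [0, 4, 9, 14, 19, 20, 23, 25] then 1 else 0
  | .inr (.inr (.inr x)) => if x.1 = x.2 then 1 else 0

/-- The function that must not vanish. -/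
def nv {R : Type} [CommRing R] (θ : Th → R) : R := mn 0 (Nn (θ ∘ .inl)) * Dl (θ ∘ .inr)

theorem nv0 : nv x0 ≠ 0 := by
  have a : mx (x0 ∘ .inr) = 1 := by decide +kernel
  have b : (!![x0 (.inr (.inr (.inl 4))), x0 (.inr (.inr (.inl 5))), x0 (.inr (.inr (.inl 6))),
      x0 (.inr (.inr (.inl 7))); x0 (.inr (.inr (.inl 8))), x0 (.inr (.inr (.inl 9))),
      x0 (.inr (.inr (.inl 10))), x0 (.inr (.inr (.inl 11))); x0 (.inr (.inr (.inl 12))),
      x0 (.inr (.inr (.inl 13))), x0 (.inr (.inr (.inl 14))), x0 (.inr (.inr (.inl 15)));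
      x0 (.inr (.inr (.inl 16))), x0 (.inr (.inr (.inl 17))), x0 (.inr (.inr (.inl 18))),
      x0 (.inr (.inr (.inl 19)))] : Matrix (Fin 4) (Fin 4) ℤ) = 1 := by decide +kernel
  simp only [nv, Dl, Dq, a, Function.comp_apply, b, det_one, mn, det_fin_three]
  decide +kernel

variable (hG : GrpS) {R S : Type} [CommRing R] [CommRing S] (σ : R →+* S) (θ : Th → R)
include hG

theorem nv_map : σ (nv θ) = nv (σ ∘ θ) := by
  rw [nv, map_mul, (hG.mapu R S σ _).2, mn, RingHom.map_det, RingHom.mapMatrix_apply,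
    ← submatrix_map, (hG.map R S σ _ 0).2.2.1]
  rfl

theorem ps_map : (nS (θ ∘ .inl) * Rr (θ ∘ .inr)).map σ =
    nS ((σ ∘ θ) ∘ .inl) * Rr ((σ ∘ θ) ∘ .inr) := by
  rw [Matrix.map_mul, (hG.map R S σ _ 0).1, (hG.mapu R S σ _).1]
  rfl

theorem nvX : nv (X : Th → MvPolynomial Th ℂ) ≠ 0 := fun h => by
  have a := nv_map hG (eval fun i => (x0 i : ℂ)) X
  have b := nv_map hG (Int.castRingHom ℂ) x0
  rw [h, map_zero, show (eval fun i => (x0 i : ℂ)) ∘ X = Int.castRingHom ℂ ∘ x0 from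
    funext fun i => eval_X i, ← b] at a
  exact nv0 (Int.cast_eq_zero.1 a.symm)

end ExcL

open ExcL in
theorem exc (hB : Base) (hG : GrpS) (hU : UniS) (hJ : JcS) (_hM : MovS) (hT : TrkS) : ExcS := by
  let F := FractionRing (MvPolynomial Th ℂ)
  let u : Th → F := cf ℂ F
  have h1 : AlgebraicIndependent ℂ (fo u) := by
    have := hJ.map' (f := IsScalarTower.toAlgHom ℂ (MvPolynomial Th ℂ) F)
      (IsFractionRing.injective _ _)
    rwa [show ⇑(IsScalarTower.toAlgHom ℂ (MvPolynomial Th ℂ) F) ∘ fo X = fo u from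
      funext fun o => hG.mapf _ _ (algebraMap (MvPolynomial Th ℂ) F) X o] at this
  have h2 : Function.Injective (aeval (fo u ∘ some) : MvPolynomial Ix ℂ →ₐ[ℂ] F).toRingHom :=
    h1.comp some (Option.some_injective _)
  let _ : Algebra K F := (IsFractionRing.lift (K := K) h2).toAlgebra
  have h3 : ∀ p, algebraMap K F (algebraMap (MvPolynomial Ix ℂ) K p) = aeval (fo u ∘ some) p :=
    fun p => IsFractionRing.lift_algebraMap h2 p
  have : IsScalarTower ℂ K F := IsScalarTower.of_algebraMap_eq fun c => by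
    rw [IsScalarTower.algebraMap_apply ℂ (MvPolynomial Ix ℂ) K, h3, AlgHom.commutes]
  have h4 : ∀ p, algebraMap K F (cf ℂ K p) = fo u (some p) := fun p => by
    rw [cf, h3, aeval_X]; rfl
  have c1 : trdeg ℂ K = (80 : ℕ) := (trdeg_par ℂ Ix K).trans (congrArg _ (by decide +kernel))
  have c2 : trdeg ℂ F = (81 : ℕ) := (trdeg_par ℂ Th F).trans (congrArg _ (by decide +kernel))
  have h5 : psi F = nS (u ∘ .inl) * Rr (u ∘ .inr) := by
    ext k i
    rw [psi_apply, h4]
    rfl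
  have h6 : nv u ≠ 0 := fun e => nvX hG (IsFractionRing.injective _ F
    ((nv_map hG (algebraMap (MvPolynomial Th ℂ) F) X).trans (e.trans (map_zero _).symm)))
  have h7 : ((Nn (u ∘ .inl)).submatrix id (ff 0)).det ≠ 0 := left_ne_zero_of_mul h6
  have h8 : Dl (u ∘ .inr) ≠ 0 := right_ne_zero_of_mul h6
  obtain ⟨n1, n2⟩ := hB.pt.nm_one F (ff 0) _ h7
  refine ⟨F, inferInstance, inferInstance, nm (ff 0) (Nn (u ∘ .inl)), ?_,
    hB.pt.iso_mul F _ _ (hU F _ _ h5).1, n1, ?_, fun p N' hc h0 => ?_⟩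
  · have := trdeg_add_eq ℂ K (A := F)
    rw [c1, c2, Nat.cast_succ 80] at this
    exact Cardinal.eq_of_add_eq_add_left this (Cardinal.natCast_lt_aleph0)
  · by_contra ha
    simp only [not_exists, Transcendental, not_not] at ha
    let L := algebraicClosure K F
    let N : Matrix (Fin 3) (Fin 9) L := of fun a c => ⟨_, mem_algebraicClosure_iff.2 (ha a c)⟩
    have e1 : Nn (u ∘ .inl) = (nm ![8, 7, 6] N).map (L.val : L →+* F) := by
      rw [← hB.pt.nm_map, ← hB.pt.nm_self F _ _ (hG.piv F (u ∘ .inl)).1, n2,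
        hB.pt.nm_mul F _ _ _ h7]
      rfl
    have m : ∀ o, fo u o ∈ L := by
      rintro (_ | p)
      · have e2 := (hG.piv F (u ∘ .inl)).2
        rw [e1] at e2
        exact neg_mem_iff.1 (show -(u ∘ Sum.inl) 0 ∈ L from e2 ▸ (nm ![8, 7, 6] N 0 1).2)
      · rw [← h4]; exact L.algebraMap_mem _
    have k1 : AlgebraicIndependent ℂ fun o => (⟨fo u o, m o⟩ : L) :=
      AlgebraicIndependent.of_comp (L.val.restrictScalars ℂ) h1
    have k2 := k1.cardinalMk_le_trdeg
    rw [← trdeg_add_eq ℂ K (A := L), trdeg_eq_zero (A := L), add_zero, c1, Cardinal.mk_fintype,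
      Nat.cast_le] at k2
    exact absurd k2 (by decide +kernel)
  · obtain ⟨⟨g, g1, g2⟩, g3⟩ := hc
    rw [nm, ← Matrix.mul_assoc] at g2
    obtain ⟨t1, t2⟩ := hT F u rfl h5 p N' ⟨⟨_, by
      rw [det_mul, det_nonsing_inv, Ring.inverse_eq_inv']
      exact mul_ne_zero g1 (inv_ne_zero h7), g2⟩, g3⟩ h0
    let θ : Th → p.O := fun i => ⟨u i, t1 i⟩
    have inj : ∀ {m n : Type} {A B : Matrix m n p.O},
        A.map (p.O.val : p.O →+* F) = B.map (p.O.val : p.O →+* F) → A = B :=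
      fun h => Matrix.map_injective Subtype.val_injective h
    have a1 : psi p.O = nS (θ ∘ .inl) * Rr (θ ∘ .inr) :=
      inj (((psi_map p.O.val).trans h5).trans (ps_map hG (p.O.val : p.O →+* F) θ).symm)
    have a2 := ps_map hG (p.π : p.O →+* p.E) θ
    rw [← a1] at a2
    have a3 : Dl (θ ∘ .inr) * ⟨_, t2⟩ = 1 := Subtype.ext (by
      have := (hG.mapu _ _ (p.O.val : p.O →+* F) (θ ∘ .inr)).2
      exact (congrArg (· * (Dl (u ∘ .inr))⁻¹) this).trans (mul_inv_cancel₀ h8))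
    have a4 := (hU p.E _ _ ((psi_map p.π).symm.trans a2)).2 (by
      have := congrArg (p.π : p.O →+* p.E) a3
      rw [map_mul, map_one, (hG.mapu _ _ _ _).2] at this
      exact left_ne_zero_of_mul_eq_one this)
    have a5 : N' = N'.submatrix id ![8, 7, 6] * Nn (θ ∘ .inl) := inj (by
      have := congrArg (fun A => A.submatrix id ![8, 7, 6]) g2
      simp only [submatrix_mul _ _ id id _ Function.bijective_id, (hG.piv F _).1, submatrix_id_id,
        Matrix.mul_one] at this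
      rw [Matrix.map_mul, (hG.map _ _ _ _ 0).2.2.1, ← submatrix_map]
      exact g2.trans (by rw [← this]; rfl))
    have a6 := congrArg (fun A => A.map (p.π : p.O →+* p.E)) a5
    simp only [Matrix.map_mul, (hG.map _ _ _ _ 0).2.2.1] at a6
    have a7 : N'.map p.π = _ := a6
    rw [a7] at g3 ⊢
    exact hB.pt.uq_mul _ _ _ ((hB.pt.rk_mul _ _ _).2 g3).1 a4

end Pool.Agent.MP_b834b3_ag.G18
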