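import Pool.Agent.MP_b834b3_ag.h.SpecA

/-! Genus eighteen: the vector of a spinor. -/

namespace Pool.Agent.MP_b834b3_ag.G18

open Matrix MvPolynomial

namespace FzL

variable {R : Type} [CommRing R]

/-- The norm of a spinor. -/
def nu (s : Fin 16 → R) : R := s 0 * s 15 + s 1 * s 14 - s 2 * s 13 - s 3 * s 12 + s 4 * s 11 +
  s 5 * s 10 - s 6 * s 9 - s 7 * s 8

/-- The vector of a spinor. -/
def vc (s : Fin 16 → R) : Fin 9 → R :=
  ![2 * (s 1 * s 15 - s 3 * s 13 + s 5 * s 11 - s 7 * s 9),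
    2 * (s 2 * s 15 - s 3 * s 14 + s 6 * s 11 - s 7 * s 10),
    2 * (s 4 * s 15 - s 5 * s 14 + s 6 * s 13 - s 7 * s 12),
    2 * (s 8 * s 15 - s 9 * s 14 + s 10 * s 13 - s 11 * s 12),
    s 0 * s 15 - s 1 * s 14 + s 2 * s 13 - s 3 * s 12 - s 4 * s 11 + s 5 * s 10 - s 6 * s 9 +
      s 7 * s 8,
    2 * (-(s 0 * s 7) + s 1 * s 6 - s 2 * s 5 + s 3 * s 4),
    2 * (s 0 * s 11 - s 1 * s 10 + s 2 * s 9 - s 3 * s 8),
    2 * (-(s 0 * s 13) + s 1 * s 12 - s 4 * s 9 + s 5 * s 8),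
    2 * (s 0 * s 14 - s 2 * s 12 + s 4 * s 10 - s 6 * s 8)]

theorem eig (s : Fin 16 → R) : gam (vc s) *ᵥ s = nu s • s := by
  rw [gam_mulVec]
  ext i
  fin_cases i <;> simp [vc, nu] <;> ring

end FzL

open FzL in
theorem fz : FzS := by
  refine ⟨vc (p0 K), nu (p0 K), fun h => ?_, eig _⟩
  have e : aeval (cf ℂ K : Ix → K) (nu fun k => (X (0, k) : MvPolynomial Ix ℂ)) = nu (p0 K) := by
    simp only [nu, map_add, map_sub, map_mul, aeval_X]
    rfl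
  have z := congrArg (eval fun x : Ix => if x.2 = 0 ∨ x.2 = 15 then (1 : ℂ) else 0)
    (algebraicIndependent_iff.1 cf_indep _ (e.trans h))
  simp [nu] at z

end Pool.Agent.MP_b834b3_ag.G18
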