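import Pool.Agent.MP_b834b3_ag.h.SpecB

/-! Genus eighteen: the generic field exists. -/

namespace Pool.Agent.MP_b834b3_ag.G18

open AlgebraicGeometry CategoryTheory Algebra IsLocalRing Limits MvPolynomial Matrix
open scoped TensorProduct

namespace GenL

/-- The coefficients of the equations in the first chart. -/
noncomputable def m0 (s : Rw) (i : Ix) : MvPolynomial (Fin 12) ℂ := mm 0 (par 0 X) s i

theorem map_mm (hB : Base) {R S : Type} [CommRing R] [CommRing S] (σ : R →+* S) (v : Fin 12 → R)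
    (s : Rw) (i : Ix) : σ (mm 0 (par 0 v) s i) = mm 0 (par 0 (σ ∘ v)) s i := by
  rw [hB.eq.map, hB.par.map]

theorem ev_m0 (hB : Base) {R : Type} [CommRing R] [Algebra ℂ R] (v : Fin 12 → R) (s : Rw)
    (i : Ix) : aeval v (m0 s i) = mm 0 (par 0 v) s i := by
  have h := map_mm hB (aeval v : MvPolynomial (Fin 12) ℂ →ₐ[ℂ] R).toRingHom X s i
  have e : (aeval v : MvPolynomial (Fin 12) ℂ →ₐ[ℂ] R).toRingHom ∘ X = v :=
    funext fun x => aeval_X v x
  rw [e] at h
  exact h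

/-- The equations. -/
noncomputable def eqn {R : Type} [CommRing R] [Algebra K R] (v : Fin 12 → R) (s : Rw) : R :=
  ∑ i, algebraMap K R (cf ℂ K i) * mm 0 (par 0 v) s i

theorem map_eqn (hB : Base) {R S : Type} [CommRing R] [CommRing S] [Algebra K R] [Algebra K S]
    (σ : R →ₐ[K] S) (v : Fin 12 → R) (s : Rw) : σ (eqn v s) = eqn (σ ∘ v) s := by
  rw [eqn, eqn, map_sum]
  refine Finset.sum_congr rfl fun i _ => ?_
  rw [map_mul, AlgHom.commutes]
  exact congrArg _ (map_mm hB σ.toRingHom v s i)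

/-- The ideal of the equations. -/
noncomputable def I : Ideal (MvPolynomial (Fin 12) K) := Ideal.span (Set.range (eqn X))

/-- The coordinate ring. -/
abbrev B : Type := MvPolynomial (Fin 12) K ⧸ I

/-- The coordinates. -/
noncomputable def e (x : Fin 12) : B := Ideal.Quotient.mkₐ K I (X x)

theorem eqn_e (hB : Base) (s : Rw) : eqn e s = 0 :=
  (map_eqn hB (Ideal.Quotient.mkₐ K I) X s).symm.trans
    (Ideal.Quotient.eq_zero_iff_mem.2 (Ideal.subset_span ⟨s, rfl⟩))

theorem adj_e : adjoin K (Set.range e) = ⊤ := by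
  rw [Algebra.adjoin_range_eq_range_aeval, AlgHom.range_eq_top]
  have h : (aeval e : MvPolynomial (Fin 12) K →ₐ[K] B) = Ideal.Quotient.mkₐ K I :=
    algHom_ext fun x => aeval_X e x
  rw [h]
  exact Ideal.Quotient.mkₐ_surjective K I

theorem univ (hB : Base) (L : Type) [CommRing L] [Algebra K L] (v : Fin 12 → L)
    (h : ∀ s, eqn v s = 0) : ∃ χ : B →ₐ[K] L, ∀ x, χ (e x) = v x := by
  have e1 : (aeval v : MvPolynomial (Fin 12) K →ₐ[K] L) ∘ X = v := funext fun x => aeval_X v x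
  refine ⟨Ideal.Quotient.liftₐ I (aeval v) fun a ha => ?_, fun x => ?_⟩
  · refine (Ideal.span_le (I := RingHom.ker (aeval v : MvPolynomial (Fin 12) K →ₐ[K] L))).2 ?_ ha
    rintro _ ⟨s, rfl⟩
    change aeval v (eqn X s) = 0
    rw [map_eqn hB, e1, h]
  · exact aeval_X v x

theorem pdet_one (hB : Base) : pdet m0 (pv 0) = 1 := by
  rw [pdet]
  exact (congrArg Matrix.det (hB.eq.one _ (par 0 X) 0 (hB.par.one _ 0 X))).trans Matrix.det_one

theorem exists_Q (hB : Base) (hX : ExcS) : ∃ Q : Ideal B, Q.IsPrime ∧ trdeg K (B ⧸ Q) = 2 := by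
  classical
  obtain ⟨F, _, _, N, -, h1, h2, -, -⟩ := hX
  obtain ⟨a1, a2⟩ := (hB.eq.iso F 0 N h2).1 h1
  have a3 := hB.par.eq F 0 N h2 a1
  obtain ⟨χ, -⟩ := univ hB F (fun x => N (sc 0 x).1 (sc 0 x).2) fun s => by
    rw [eqn, ← a3]; exact a2 s
  have hdet : pdet m0 (pv 0) ∣ 1 := (pdet_one hB).dvd
  have H1 : ∀ P ∈ St (k := ℂ) e id X 1, ∀ s,
      ∑ i, algebraMap K B (cf ℂ K i) * aeval (e ∘ id) (m0 s i) ∈ P := fun P _ s => by
    simp only [ev_m0 hB]
    change eqn e s ∈ P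
    rw [eqn_e hB]
    exact P.zero_mem
  have hS : ∀ P : Ideal B, P.IsPrime → P ∈ St (k := ℂ) e id X 1 := fun P hP =>
    ⟨hP, fun x => by rw [aeval_X]; exact (sub_self (e x)).symm ▸ P.zero_mem,
      by rw [map_one]; exact hP.one_notMem⟩
  obtain ⟨Q, b1, b2, b3⟩ := lift_build (K := K) (m := m0) (hB.eq.inj 0) (fun _ => rfl) hdet H1
    (fun L _ _ _ _ v hv => by
      simp only [ev_m0 hB] at hv
      simp only [aeval_X]
      exact univ hB L v hv) (RingHom.ker χ) (hS _ (RingHom.ker_isPrime _)) ⊥ Ideal.isPrime_bot bot_le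
  obtain ⟨n, hn⟩ : ∃ n : ℕ, trdeg K (B ⧸ Q) = n :=
    Cardinal.lt_aleph0.1 trdeg_lt_aleph0_of_finiteType
  have c1 := (dim_strat _ (gen_build (hB.eq.inj 0) adj_e hdet subset_rfl H1) b1
    (trdeg_par ℂ Ix K) hn).2.2 b3
  have c2 := card_fr (τ' := Fin 12) (hB.eq.inj 0)
  rw [hB.eq.card.1, Fintype.card_fin] at c2
  obtain rfl : n = 2 := by omega
  exact ⟨Q, b2, hn⟩

end GenL

open GenL in
theorem gen_s (hB : Base) (hX : ExcS) : GenS := by
  obtain ⟨Q, hQ, h⟩ := exists_Q hB hX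
  let L := FractionRing (B ⧸ Q)
  let φ : B →ₐ[K] L := (IsScalarTower.toAlgHom K (B ⧸ Q) L).comp (Ideal.Quotient.mkₐ K Q)
  refine ⟨L, inferInstance, inferInstance, par 0 (φ ∘ e), ?_, hB.par.one L 0 _, ?_, ?_⟩
  · refine (hB.eq.iso L 0 _ (hB.par.one L 0 _)).2 ⟨hB.par.iso L 0 _, fun s => ?_⟩
    have := map_eqn hB φ e s
    rw [eqn_e hB, map_zero] at this
    exact this.symm
  · have key : ∀ b : B, φ b ∈ IntermediateField.adjoin K
        (Set.range fun x : Fin 3 × Fin 9 => par 0 (φ ∘ e) x.1 x.2) := fun b => by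
      have hb : b ∈ adjoin K (Set.range e) := adj_e ▸ Algebra.mem_top
      induction hb using Algebra.adjoin_induction with
      | mem y hy =>
        obtain ⟨x, rfl⟩ := hy
        exact IntermediateField.subset_adjoin _ _ ⟨sc 0 x, hB.par.sec L 0 (φ ∘ e) x⟩
      | algebraMap r => rw [AlgHom.commutes]; exact IntermediateField.algebraMap_mem _ r
      | add x y _ _ hx hy => rw [map_add]; exact add_mem hx hy
      | mul x y _ _ hx hy => rw [map_mul]; exact mul_mem hx hy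
    refine eq_top_iff.2 fun z _ => ?_
    obtain ⟨a, b, -, rfl⟩ := IsFractionRing.div_surjective (A := B ⧸ Q) z
    obtain ⟨a, rfl⟩ := Ideal.Quotient.mk_surjective a
    obtain ⟨b, rfl⟩ := Ideal.Quotient.mk_surjective b
    exact div_mem (key a) (key b)
  · rw [trdeg_frac (k := K) (B ⧸ Q) L, h]

end Pool.Agent.MP_b834b3_ag.G18
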