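import Pool.Agent.MP_b834b3_ag.h.SpecA

/-! Genus eighteen: facts on the spin group. -/

namespace Pool.Agent.MP_b834b3_ag.G18

open Matrix

namespace GrpL

variable {R S : Type} [CommRing R] [CommRing S]

theorem r1_apply (u v x : Fin 9 → R) :
    x ᵥ* r1 u v = x + bf x v • u - bf x u • v - (qf v * bf x u) • u := by
  rw [r1, vecMul_sub, vecMul_sub, vecMul_add, vecMul_one, vecMul_smul, vecMul_vecMulVec,
    vecMul_vecMulVec, vecMul_vecMulVec, smul_smul]
  rfl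

theorem gam_inj {x y : Fin 9 → R} (h : gam x = gam y) : x = y := by
  have a := (gam_mulVec x (Pi.single 0 1)).symm.trans (h ▸ gam_mulVec y (Pi.single 0 1))
  have b := (gam_mulVec x (Pi.single 15 1)).symm.trans (h ▸ gam_mulVec y (Pi.single 15 1))
  ext i
  fin_cases i
  exacts [by simpa using congrFun a 1, by simpa using congrFun a 2, by simpa using congrFun a 4,
    by simpa using congrFun a 8, by simpa using congrFun a 0, by simpa using congrFun b 7,
    by simpa using congrFun b 11, by simpa using congrFun b 13, by simpa using congrFun b 14]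

theorem uniq {h : Matrix (Fin 16) (Fin 16) R} {ρ ρ' : Matrix (Fin 9) (Fin 9) R} (u : IsUnit h)
    (a : ∀ x, h * gam x = gam (x ᵥ* ρ) * h) (b : ∀ x, h * gam x = gam (x ᵥ* ρ') * h) : ρ = ρ' :=
  ext_iff_vecMul.2 fun x => gam_inj (u.mul_right_cancel ((a x).symm.trans (b x)))

theorem comm {h h' : Matrix (Fin 16) (Fin 16) R} {ρ ρ' : Matrix (Fin 9) (Fin 9) R}
    (a : ∀ x, h * gam x = gam (x ᵥ* ρ) * h) (b : ∀ x, h' * gam x = gam (x ᵥ* ρ') * h')
    (x : Fin 9 → R) : h * h' * gam x = gam (x ᵥ* (ρ' * ρ)) * (h * h') := by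
  rw [mul_assoc, b, ← mul_assoc, a, vecMul_vecMul, mul_assoc]

theorem e1_add {u v : Fin 9 → R} (h1 : qf u = 0) (h2 : bf u v = 0) (w : Fin 9 → R) :
    e1 u v * e1 u w = e1 u (v + w) := by
  have a : gam u * gam v * gam u = 0 := by
    rw [mul_assoc, gam_swap v, bf_comm, h2, zero_smul, zero_sub, mul_neg, ← mul_assoc, gam_sq, h1,
      zero_smul, zero_mul, neg_zero]
  simp only [e1, gam_add, mul_add, add_mul, one_mul, mul_one, ← mul_assoc, a, zero_mul]
  abel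

theorem e1_comm {u v : Fin 9 → R} (h1 : qf u = 0) (h2 : bf u v = 0) (x : Fin 9 → R) :
    e1 u v * gam x = gam (x ᵥ* r1 u v) * e1 u v := by
  have a : gam u * (gam u * gam v) = 0 := by rw [← mul_assoc, gam_sq, h1, zero_smul, zero_mul]
  have b : gam v * (gam u * gam v) = -(qf v • gam u) := by
    rw [← mul_assoc, gam_swap v, bf_comm, h2, zero_smul, zero_sub, neg_mul, mul_assoc, gam_sq,
      mul_smul_comm, mul_one]
  have c : gam u * gam v * gam x =
      bf x v • gam u - bf x u • gam v + gam x * (gam u * gam v) := by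
    rw [mul_assoc, gam_swap v, mul_sub, ← mul_assoc, gam_swap u x, sub_mul, mul_smul_comm,
      smul_mul_assoc, mul_one, one_mul, bf_comm v, bf_comm u, mul_assoc]
    abel
  simp only [r1_apply, e1, gam_add, gam_sub, gam_smul, mul_add, add_mul, sub_mul, one_mul, mul_one,
    smul_mul_assoc, a, b, c]
  module

theorem bf_neg {u v : Fin 9 → R} (h : bf u v = 0) : bf u (-v) = 0 := by
  rw [bf_comm, ← neg_one_smul R v, bf_smul, bf_comm, h, mul_zero]

theorem e1_inv {u v : Fin 9 → R} (h1 : qf u = 0) (h2 : bf u v = 0) : e1 u (-v) * e1 u v = 1 := by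
  rw [e1_add h1 (bf_neg h2), neg_add_cancel, e1, gam_zero, mul_zero, add_zero]

theorem r1_inv {u v : Fin 9 → R} (h1 : qf u = 0) (h2 : bf u v = 0) : r1 u v * r1 u (-v) = 1 :=
  uniq isUnit_one (e1_inv h1 h2 ▸ comm (e1_comm h1 (bf_neg h2)) (e1_comm h1 h2)) (by simp)

theorem sp1 {u v : Fin 9 → R} (h1 : qf u = 0) (h2 : bf u v = 0) : Sp (e1 u v) (r1 u v) :=
  ⟨.of_mul_eq_one_right _ (e1_inv h1 h2), .of_mul_eq_one _ (r1_inv h1 h2), e1_comm h1 h2⟩

theorem one : Sp (1 : Matrix (Fin 16) (Fin 16) R) 1 := ⟨isUnit_one, isUnit_one, by simp⟩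

variable {h h' : Matrix (Fin 16) (Fin 16) R} {ρ ρ' : Matrix (Fin 9) (Fin 9) R}

theorem mul (a : Sp h ρ) (b : Sp h' ρ') : Sp (h * h') (ρ' * ρ) :=
  ⟨a.1.mul b.1, b.2.1.mul a.2.1, comm a.2.2 b.2.2⟩

theorem qf_eq (x : Fin 9 → R) (a : Sp h ρ) : qf (x ᵥ* ρ) = qf x := by
  have b : gam (x ᵥ* ρ) * gam (x ᵥ* ρ) * h = gam x * gam x * h := by
    rw [mul_assoc, ← a.2.2, ← mul_assoc, ← a.2.2, mul_assoc, gam_sq, mul_smul_comm, smul_mul_assoc,
      mul_one, one_mul]
  have c := a.1.mul_right_cancel b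
  rw [gam_sq, gam_sq] at c
  simpa using congrFun (congrFun c 0) 0

theorem am_eq (M : Matrix (Fin 3) (Fin 9) R) (a : Sp h ρ) : h * am M = am (M * ρ) * h := by
  rw [am, ← mul_assoc, ← mul_assoc, a.2.2, mul_assoc _ h, a.2.2, ← mul_assoc, mul_assoc _ h, a.2.2,
    ← mul_assoc]
  rfl

theorem conj (a : Sp h ρ) (u v : Fin 9 → R) : h * e1 u v = e1 (u ᵥ* ρ) (v ᵥ* ρ) * h := by
  rw [e1, e1, mul_add, add_mul, mul_one, one_mul, ← mul_assoc, a.2.2, mul_assoc _ h, a.2.2,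
    mul_assoc]

theorem q0 : qf (ev R 0) = 0 := by simp [qf, ev]
theorem q1 : qf (ev R 1) = 0 := by simp [qf, ev]
theorem q2 : qf (ev R 2) = 0 := by simp [qf, ev]
theorem b0 (t : Fin 12 → R) : bf (ev R 0) (mv t 0) = 0 := by simp [bf_eq, ev, mv]
theorem b1 (t : Fin 12 → R) : bf (ev R 1) (mv t 1) = 0 := by simp [bf_eq, ev, mv]
theorem b2 (t : Fin 12 → R) : bf (ev R 2) (mv t 2) = 0 := by simp [bf_eq, ev, mv]

theorem spn (t : Fin 12 → R) : Sp (nS t) (nV t) := by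
  rw [nV, mul_assoc]
  exact mul (mul (sp1 q0 (b0 t)) (sp1 q1 (b1 t))) (sp1 q2 (b2 t))

theorem fix {u v x : Fin 9 → R} (a : bf x u = 0) (b : bf x v = 0) : x ᵥ* r1 u v = x := by
  simp [r1_apply, a, b]

theorem lawS (a b : Fin 12 → R) : nS (law a b) = nS a * nS b := by
  have f02 : ev R 0 ᵥ* r1 (ev R 2) (mv a 2) = ev R 0 :=
    fix (by simp [bf_eq, ev]) (by simp [bf_eq, ev, mv])
  have f01 : ev R 0 ᵥ* r1 (ev R 1) (mv a 1) = ev R 0 :=
    fix (by simp [bf_eq, ev]) (by simp [bf_eq, ev, mv])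
  have f12 : ev R 1 ᵥ* r1 (ev R 2) (mv a 2) = ev R 1 :=
    fix (by simp [bf_eq, ev]) (by simp [bf_eq, ev, mv])
  have m0 : mv (law a b) 0 =
      mv a 0 + (mv b 0 ᵥ* r1 (ev R 2) (mv a 2)) ᵥ* r1 (ev R 1) (mv a 1) := by
    rw [r1_apply, r1_apply]
    ext i
    simp only [Pi.add_apply, Pi.sub_apply, Pi.smul_apply, bf_eq, smul_eq_mul]
    fin_cases i <;> simp [ev, mv, law] <;> ring
  have m1 : mv (law a b) 1 = mv a 1 + mv b 1 ᵥ* r1 (ev R 2) (mv a 2) := by
    rw [r1_apply]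
    ext i
    simp only [Pi.add_apply, Pi.sub_apply, Pi.smul_apply, bf_eq, smul_eq_mul]
    fin_cases i <;> simp [ev, mv, law] <;> ring
  have m2 : mv (law a b) 2 = mv a 2 + mv b 2 := by
    ext i
    fin_cases i <;> simp [mv, law]
  have c02 := conj (sp1 q2 (b2 a)) (ev R 0) (mv b 0)
  have c01 := conj (sp1 q1 (b1 a)) (ev R 0) (mv b 0 ᵥ* r1 (ev R 2) (mv a 2))
  have c12 := conj (sp1 q2 (b2 a)) (ev R 1) (mv b 1)
  rw [f02] at c02
  rw [f01] at c01
  rw [f12] at c12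
  simp only [nS, m0, m1, m2, ← e1_add q0 (b0 a), ← e1_add q1 (b1 a), ← e1_add q2 (b2 a), mul_assoc]
  rw [← mul_assoc (e1 (ev R 2) (mv a 2)) (e1 (ev R 0) _), c02, mul_assoc,
    ← mul_assoc (e1 (ev R 1) (mv a 1)) (e1 (ev R 0) _), c01, mul_assoc,
    ← mul_assoc (e1 (ev R 2) (mv a 2)) (e1 (ev R 1) _), c12, mul_assoc]

theorem lawV (a b : Fin 12 → R) : nV (law a b) = nV b * nV a :=
  uniq (spn _).1 (spn _).2.2 (lawS a b ▸ (mul (spn a) (spn b)).2.2)

theorem cancel (a b : Fin 12 → R) : law a (law (inv a) b) = b := by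
  ext i
  fin_cases i <;> simp [law, inv] <;> ring

theorem u0_sub : (U0 R).submatrix id ![8, 7, 6] = 1 := by
  ext i j
  fin_cases i <;> fin_cases j <;> simp [U0, ev]

theorem u0_bf (i : Fin 3) (y : Fin 9 → R) : bf (U0 R i) y = y (i.castAdd 6) := by
  fin_cases i <;> simp [U0, ev, bf_eq]

theorem stab {u v : Fin 9 → R} (a : ∀ (i : Fin 3) (c : Fin 6),
    v (i.castAdd 6) * u (c.castAdd 3) = 0 ∧ u (i.castAdd 6) * v (c.castAdd 3) = 0 ∧
      qf v * u (i.castAdd 6) = 0) :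
    ∃ g : Matrix (Fin 3) (Fin 3) R, U0 R * r1 u v = g * U0 R := by
  have b : ∀ (i : Fin 3) (c : Fin 6), (U0 R * r1 u v) i (c.castAdd 3) = 0 := fun i c => by
    have e : (U0 R * r1 u v) i = U0 R i ᵥ* r1 u v := rfl
    have e' : U0 R i (c.castAdd 3) = 0 := by fin_cases i <;> fin_cases c <;> simp [U0, ev]
    simp [e, r1_apply, u0_bf, e', a i c]
  refine ⟨(U0 R * r1 u v).submatrix id ![8, 7, 6], ?_⟩
  generalize U0 R * r1 u v = M at b
  ext i c
  have b0 := b i 0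
  have b1 := b i 1
  have b2 := b i 2
  have b3 := b i 3
  have b4 := b i 4
  have b5 := b i 5
  fin_cases c <;> simp [U0, ev, mul_apply, Fin.sum_univ_three] <;> assumption

theorem tbl : ∀ j, qf (su j) = 0 ∧ bf (su j) (sv j) = 0 ∧ ∀ (i : Fin 3) (c : Fin 6),
    sv j (i.castAdd 6) * su j (c.castAdd 3) = 0 ∧ su j (i.castAdd 6) * sv j (c.castAdd 3) = 0 ∧
      qf (sv j) * su j (i.castAdd 6) = 0 := by
  simp only [bf_eq, qf]
  decide

theorem fac (a : R) (j : Fin 18) : ∃ (ρ : Matrix (Fin 9) (Fin 9) R) (g : Matrix (Fin 3) (Fin 3) R),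
    Sp (e1 (fun i => a * su j i) fun i => sv j i) ρ ∧ IsUnit g ∧ U0 R * ρ = g * U0 R := by
  obtain ⟨t1, t2, t3⟩ := tbl j
  have h1 : qf (fun i => a * su j i) = 0 := by
    have := qf_smul a (Int.castRingHom R ∘ su j)
    rwa [← qf_map, t1, map_zero, mul_zero] at this
  have h2 : bf (fun i => a * su j i) (fun i => sv j i) = 0 := by
    have := bf_smul a (Int.castRingHom R ∘ su j) (Int.castRingHom R ∘ sv j)
    rwa [← bf_map, t2, map_zero, mul_zero] at this
  have h3 : qf (fun i => (sv j i : R)) = (qf (sv j) : ℤ) := (qf_map (Int.castRingHom R) _).symm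
  have h4 : ∀ x y : ℤ, x * y = 0 → (x : R) * (a * y) = 0 := fun x y e => by
    rw [mul_left_comm, ← Int.cast_mul, e, Int.cast_zero, mul_zero]
  have h5 : ∀ x y : ℤ, x * y = 0 → a * x * (y : R) = 0 := fun x y e => by
    rw [mul_assoc, ← Int.cast_mul, e, Int.cast_zero, mul_zero]
  obtain ⟨g, hg⟩ := stab (u := fun i => a * su j i) (v := fun i => sv j i) fun i c =>
    ⟨h4 _ _ (t3 i c).1, h5 _ _ (t3 i c).2.1, h3 ▸ h4 _ _ (t3 i c).2.2⟩
  obtain ⟨g', hg'⟩ := stab (u := fun i => a * su j i) (v := -fun i => (sv j i : R)) fun i c =>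
    ⟨by rw [Pi.neg_apply, neg_mul, h4 _ _ (t3 i c).1, neg_zero],
      by rw [Pi.neg_apply, mul_neg, h5 _ _ (t3 i c).2.1, neg_zero], by
        rw [← neg_one_smul R, qf_smul, h3, mul_assoc, h4 _ _ (t3 i c).2.2, mul_zero]⟩
  refine ⟨_, g, sp1 h1 h2, .of_mul_eq_one g' ?_, hg⟩
  have e : g * g' * U0 R = U0 R := by
    rw [Matrix.mul_assoc, ← hg', ← Matrix.mul_assoc, ← hg, Matrix.mul_assoc, r1_inv h1 h2,
      Matrix.mul_one]
  have e' : (g * g' * U0 R).submatrix id ![8, 7, 6] = g * g' * (U0 R).submatrix id ![8, 7, 6] := rfl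
  rwa [e, u0_sub, mul_one, eq_comm] at e'

theorem spa (a : Fin 18 → R) (l : List (Fin 18)) :
    ∃ (ρ : Matrix (Fin 9) (Fin 9) R) (g : Matrix (Fin 3) (Fin 3) R),
      Sp (aS a l) ρ ∧ IsUnit g ∧ U0 R * ρ = g * U0 R := by
  induction l with
  | nil => exact ⟨1, 1, one, isUnit_one, by simp⟩
  | cons j l ih =>
    obtain ⟨ρ', g', a1, a2, a3⟩ := ih
    obtain ⟨ρ, g, b1, b2, b3⟩ := fac (a j) j
    exact ⟨_, g' * g, mul b1 a1, a2.mul b2, by
      rw [← Matrix.mul_assoc, a3, Matrix.mul_assoc, b3, Matrix.mul_assoc]⟩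

variable (σ : R →+* S)

theorem e1_map (u v : Fin 9 → R) : (e1 u v).map σ = e1 (σ ∘ u) (σ ∘ v) := by
  rw [e1, e1, Matrix.map_add _ (map_add σ), Matrix.map_one _ (map_zero σ) (map_one σ),
    Matrix.map_mul, gam_map, gam_map]

theorem du_map (u : Fin 9 → R) (i : Fin 9) : σ (du u i) = du (σ ∘ u) i := by
  fin_cases i <;> simp [du, map_ofNat]

theorem r1_map (u v : Fin 9 → R) : (r1 u v).map σ = r1 (σ ∘ u) (σ ∘ v) := by
  ext i j
  simp [r1, vecMulVec_apply, one_apply, du_map, qf_map, apply_ite σ]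

theorem ev_map (i : Fin 9) : σ ∘ ev R i = ev S i := by
  ext j
  simp [ev, Pi.single_apply, apply_ite σ]

theorem mv_map (t : Fin 12 → R) (i : Fin 3) : σ ∘ mv t i = mv (σ ∘ t) i := by
  ext j
  fin_cases i <;> fin_cases j <;> first | rfl | exact map_zero σ

theorem nS_map (t : Fin 12 → R) : (nS t).map σ = nS (σ ∘ t) := by
  simp only [nS, Matrix.map_mul, e1_map, ev_map, mv_map]

theorem nV_map (t : Fin 12 → R) : (nV t).map σ = nV (σ ∘ t) := by
  simp only [nV, Matrix.map_mul, r1_map, ev_map, mv_map]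

theorem u0_map : (U0 R).map σ = U0 S := by
  ext i j
  fin_cases i <;> exact congrFun (ev_map σ _) j

theorem aS_map (a : Fin 18 → R) (l : List (Fin 18)) : (aS a l).map σ = aS (σ ∘ a) l := by
  induction l with
  | nil => exact Matrix.map_one _ (map_zero σ) (map_one σ)
  | cons j l ih =>
    refine Matrix.map_mul.trans (congrArg₂ _ ((e1_map σ _ _).trans (congrArg₂ _ ?_ ?_)) ih) <;>
      ext i <;> simp

theorem pat_map (q : Fin 26 → R) : (pat q).map σ = pat (σ ∘ q) := by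
  ext i j
  fin_cases i <;> fin_cases j <;>
    first | rfl | exact map_zero σ | exact map_one σ | exact map_neg σ _

theorem rr_map (u : Tu → R) : (Rr u).map σ = Rr (σ ∘ u) := by
  rw [Rr, Matrix.map_mul, Matrix.map_mul, aS_map, pat_map]
  rfl

theorem dl_map (u : Tu → R) : σ (Dl u) = Dl (σ ∘ u) := by
  simp only [Dl, Dq, map_mul, map_add, map_sub, map_pow, RingHom.map_det]
  refine congrArg₂ _ (congrArg₂ _ (congrArg₂ _ rfl (congrArg det ?_)) rfl) rfl
  ext i j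
  fin_cases i <;> fin_cases j <;> rfl

theorem piv (t : Fin 12 → R) : (Nn t).submatrix id ![8, 7, 6] = 1 ∧ Nn t 0 1 = -t 0 := by
  have e : ∀ i, Nn t i = ((U0 R i ᵥ* r1 (ev R 2) (mv t 2)) ᵥ* r1 (ev R 1) (mv t 1)) ᵥ*
      r1 (ev R 0) (mv t 0) := fun i => by
    rw [vecMul_vecMul, vecMul_vecMul, ← mul_assoc]
    rfl
  constructor
  · rw [← u0_sub]
    ext i j
    rw [submatrix_apply, submatrix_apply, e]
    simp only [r1_apply, Pi.add_apply, Pi.sub_apply, Pi.smul_apply, smul_eq_mul]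
    fin_cases j <;> simp [ev, mv]
  · rw [e, fix (x := U0 R 0), fix (x := U0 R 0), r1_apply] <;>
      simp [U0, ev, mv, bf_eq, vecHead, vecTail]

end GrpL

open GrpL in
theorem grp : GrpS where
  r1_apply _ _ := r1_apply
  sp1 _ _ _ _ := sp1
  one _ _ := one
  mul _ _ _ _ _ _ := mul
  qf _ _ _ _ := qf_eq
  am _ _ _ _ := am_eq
  spn _ _ := spn
  spa _ _ := spa
  lawS _ _ := lawS
  lawV _ _ := lawV
  cancel _ _ := cancel
  map _ _ _ _ σ a b := ⟨nS_map σ a, nV_map σ a, by rw [Nn, Matrix.map_mul, u0_map, nV_map, Nn],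
    by ext i; fin_cases i <;> simp [law, map_ofNat], by
      ext i; fin_cases i <;> simp [inv, map_ofNat]⟩
  mapu _ _ _ _ σ u := ⟨rr_map σ u, dl_map σ u⟩
  mapf _ _ _ _ σ θ o := by
    cases o with
    | none => rfl
    | some x =>
      have := congrFun (congrFun (Matrix.map_mul (L := nS (θ ∘ .inl)) (M := Rr (θ ∘ .inr))
        (f := σ)) x.2) x.1
      rwa [nS_map, rr_map] at this
  piv _ _ := piv

end Pool.Agent.MP_b834b3_ag.G18
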