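import Pool.Agent.MP_b834b3_ag.h.SpecB

/-! Genus eighteen: the relation on the hyperplane section. -/

namespace Pool.Agent.MP_b834b3_ag.G18

open Algebra Matrix

namespace HrelL

theorem mn_map {R S : Type} [CommRing R] [Algebra K R] [CommRing S] [Algebra K S] (σ : R →ₐ[K] S)
    (i : Fin 4) (A : Matrix (Fin 3) (Fin 9) R) : σ (mn i A) = mn i (A.map σ) :=
  AlgHom.map_det σ _

theorem inv_ne {F : Type} [Field F] {A : Matrix (Fin 3) (Fin 3) F} (h : A.det ≠ 0) :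
    (A⁻¹).det ≠ 0 := by
  rw [det_nonsing_inv, Ring.inverse_eq_inv']
  exact inv_ne_zero h

theorem pt_nm (hB : Base) {F : Type} [Field F] [Algebra K F] {N : Matrix (Fin 3) (Fin 9) F}
    {j : Fin 4} (h : mn j N ≠ 0) : pt (nm (ff j) N) = pt N :=
  hB.pt.pt_mul F _ N (inv_ne h)

variable {L : Type} [Field L] [Algebra K L] {M : Matrix (Fin 3) (Fin 9) L}
  {F : Type} [Field F] [Algebra K F] {H : Matrix (Fin 3) (Fin 9) F}

theorem fac (hB : Base) (C : ChAt M) {p : Pl F} {N : Matrix (Fin 3) (Fin 9) p.O} (c : Cen p H N)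
    {j : Fin 4} (hj : mn j (N.map p.π) ≠ 0) (χ : Ach M j →ₐ[K] F)
    (hχ : (el M (ff j)).map χ = nm (ff j) H) :
    ∃ α : Ach M j →ₐ[K] p.O, (∀ b, (α b : F) = χ b) ∧
      (el M (ff j)).map (p.π.comp α) = nm (ff j) (N.map p.π) := by
  obtain ⟨-, h1, h2⟩ := hB.pl.cen F p H N (ff j) c hj
  have e : ∀ a b, χ (el M (ff j) a b) = ((nm (ff j) N a b : p.O) : F) := fun a b =>
    (congrFun (congrFun hχ a) b).trans (congrFun (congrFun h1 a) b).symm
  have m : ∀ b, χ b ∈ p.O := fun b => by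
    have : adjoin K (ent (el M (ff j))) ≤ p.O.comap χ := adjoin_le (by
      rintro _ ⟨x, rfl⟩
      exact (Subalgebra.mem_comap ..).2 (e x.1 x.2 ▸ (nm (ff j) N x.1 x.2).2))
    exact this (by rw [C.gen]; trivial)
  refine ⟨χ.codRestrict p.O m, fun _ => rfl, ?_⟩
  rw [← h2]
  ext a b
  exact congrArg p.π (Subtype.ext (e a b))

end HrelL

open HrelL in
theorem hrel (hB : Base) (hT : TwoS) : HrelS := by
  intro L _ _ M G Q C ⟨F, _, _, H, hd, hI, h0, hH⟩ hP ⟨g, g0, g1, lim⟩ hV h2' F0 _ _ N0 i0 r0 c0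
  obtain ⟨m, hm, hg⟩ := hP g g0 g1
  choose g' e' n' using hg
  have hn := fun j hj => (hH j hj).1
  choose χ hχ hk using fun j hj => (hH j hj).2
  have o1 : (1 : Fin 4) ≠ 0 := by decide
  have o2 : (3 : Fin 4) ≠ 0 := by decide
  have ne : ∀ j hj, χ j hj (g' j hj) ≠ 0 := fun j hj e =>
    n' j hj (hk j hj ▸ (RingHom.mem_ker.2 e))
  have rel : ∀ j hj, (χ 1 o1 (g' 1 o1))⁻¹ =
      χ j hj (mn 1 (el M (ff j))) ^ m * (χ j hj (g' j hj))⁻¹ := fun j hj => by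
    have := (C.loc (ff j) (ff 1) (C.ne j) (C.ne 1)).2 F (χ j hj) (χ 1 o1)
      (by rw [hχ, hB.pt.det_nm]; exact div_ne_zero (hn 1 o1) (hn j hj))
      (by rw [hχ, hχ]; exact (hB.pt.nm_mul F _ _ H (inv_ne (hn j hj))).symm)
      (g' j hj) (mn 1 (el M (ff j)) ^ m) 1 (g' 1 o1) (by
        have d : ((mn 1 (el M (ff j)) : Ach M j) : L) = mn 1 M / mn j M := C.det _ _
        have := C.ne 1
        rw [e', e', SubmonoidClass.coe_pow, d, OneMemClass.coe_one, mul_one, mul_left_comm,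
          ← mul_pow]
        congr 2
        field_simp)
    rw [map_one, mul_one, map_pow] at this
    have a := ne j hj
    have b := ne 1 o1
    field_simp
    exact this.trans (mul_comm _ _)
  by_contra hx
  have m2 : mn 3 N0 ≠ 0 := c0 ▸ hB.ech F0 N0 i0 r0
  have key : ∀ (p : Pl F) N, Cen p H N → ∃ (j : Fin 4) (hj : j ≠ 0) (α : Ach M j →ₐ[K] p.O),
      cellOf (N.map p.π) = j ∧ (∀ b, (α b : F) = χ j hj b) ∧
      pt ((el M (ff j)).map (p.π.comp α)) = pt (N.map p.π) := fun p N c => by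
    have a := hB.ech _ _ (hB.pl.iso F p H N hI c) c.2
    have hj : cellOf (N.map p.π) ≠ 0 := fun e => by
      rw [e] at a
      exact (hB.pl.cen F p H N (ff 0) c a).1 h0
    obtain ⟨α, a1, a2⟩ := fac hB C c a (χ _ hj) (hχ _ hj)
    exact ⟨_, hj, α, rfl, a1, by rw [a2, pt_nm hB a]⟩
  refine hx (hV F H (χ 1 o1 (g' 1 o1))⁻¹ _ ⟨hd, hI, (hB.pt.rk_det F H).2 ⟨ff 1, hn 1 o1⟩,
    inv_ne_zero (ne 1 o1), (hT 3 F0 F0 N0 N0 (by decide) i0 r0 i0 r0 c0 c0).2, fun p N c hp => ?_,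
    fun p N c hp => ?_, ?_⟩)
  · obtain ⟨j, hj, α, -, a1, a2⟩ := key p N c
    have : pt (N.map p.π) ∈ G := by
      rw [← a2]
      refine lim j hj m _ (e' j hj) (n' j hj) _ (p.π.comp α) ?_ ?_
      · have : α (mn 0 (el M (ff j))) = 0 := Subtype.ext ((a1 _).trans
          (RingHom.mem_ker.1 (hk j hj ▸ Ideal.mem_span_singleton_self _)))
        rw [AlgHom.comp_apply, this, map_zero]
      · by_contra e
        have h1 := p.loc (α (g' j hj)) e
        rw [a1] at h1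
        exact hp (rel j hj ▸ mul_mem (pow_mem (a1 _ ▸ (α _).2) m) h1)
    exact ⟨this, fun e => hx (e ▸ this)⟩
  · obtain ⟨j, hj, α, a0, a1, -⟩ := key p N c
    have iR := hB.pl.iso F p H N hI c
    have : j = 1 ∨ j = 2 ∨ j = 3 := by omega
    rcases this with rfl | rfl | rfl
    · exact (hp (by rw [inv_inv, ← a1]; exact (α _).2)).elim
    · exact Or.inr (h2' _ _ iR c.2 a0)
    · exact Or.inl (hT 3 _ F0 _ N0 (by decide) iR c.2 i0 r0 a0 c0).1
  · obtain ⟨β, hβ⟩ := C.univ 3 F0 N0 i0 m2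
    have z : ∀ i, i < 3 → β (mn i (el M (ff 3))) = 0 := fun i hi => by
      rw [mn_map, hβ]
      refine (hB.pt.det_nm F0 _ _ N0).trans ?_
      exact div_eq_zero_iff.2 (Or.inl ((hB.pt.cell_iff F0 N0 3 m2).2.2.1 c0 i hi))
    obtain ⟨p, α, a1, a2⟩ := hB.pl.ex F _ (χ 3 o2) (RingHom.ker β) (RingHom.ker_isPrime β) (by
      rw [hk, Ideal.span_singleton_le_iff_mem]
      exact z 0 (by decide))
    have pβ : pt ((el M (ff 3)).map β) = pt N0 := by rw [hβ, pt_nm hB m2]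
    have e1 : ((el M (ff 3)).map α).map p.π = (el M (ff 3)).map (p.π.comp α) := rfl
    refine ⟨p, (el M (ff 3)).map α, ⟨⟨_, inv_ne (hn 3 o2), ?_⟩, ?_⟩, ?_, ?_⟩
    · refine Eq.trans ?_ (hχ 3 o2)
      ext a b
      exact a1 _
    · refine (hB.pt.rk_det _ _).2 ⟨ff 3, ?_⟩
      have := mn_map (p.π.comp α) 3 (el M (ff 3))
      rw [mn, C.one _ (C.ne 3), det_one, map_one] at this
      rw [e1]
      exact fun e => one_ne_zero (this.trans e)
    · have b0 : p.π (α (g' 3 o2)) ≠ 0 := fun e =>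
        hx (pβ ▸ lim 3 o2 m _ (e' 3 o2) (n' 3 o2) _ β (z 0 (by decide)) ((a2 _).1 e))
      have h1 := p.loc _ b0
      have h2 : ((χ 1 o1 (g' 1 o1))⁻¹)⁻¹⁻¹ =
          ((α (mn 1 (el M (ff 3))) ^ m * ⟨_, h1⟩ : p.O) : F) := by
        rw [inv_inv, rel 3 o2, MulMemClass.coe_mul, SubmonoidClass.coe_pow, a1]
        simp only [a1]
      refine (hB.pl.zero F p _).2 ⟨inv_ne_zero (inv_ne_zero (ne 1 o1)),
        h2 ▸ Subtype.property _, ?_⟩
      rw [show (⟨_, _⟩ : p.O) = α (mn 1 (el M (ff 3))) ^ m * ⟨_, h1⟩ from Subtype.ext h2, map_mul,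
        map_pow, (a2 _).2 (z 1 (by decide)), zero_pow hm.ne', zero_mul]
    · rw [e1, ← pβ]
      exact hB.pt.pt_ker _ _ _ _ _ _ fun r => a2 r

end Pool.Agent.MP_b834b3_ag.G18
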