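import Pool.Agent.MP_b834b3_ag.h.SpecB

/-! Genus eighteen: the generic point of the hyperplane section and the pole order along it. -/

namespace Pool.Agent.MP_b834b3_ag.G18

open Algebra Matrix

namespace HypL

theorem mn_map {R S : Type} [CommRing R] [CommRing S] [Algebra K R] [Algebra K S] (σ : R →ₐ[K] S)
    (j : Fin 4) (N : Matrix (Fin 3) (Fin 9) R) : mn j (N.map σ) = σ (mn j N) :=
  (AlgHom.map_det σ (N.submatrix id (ff j))).symm

theorem alg_of_trdeg {R F : Type} [CommRing R] [Algebra K R] [Field F] [Algebra K F]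
    (χ : R →ₐ[K] F) (h : trdeg K (R ⧸ RingHom.ker χ) < (1 : ℕ)) (a : R) : IsAlgebraic K (χ a) := by
  have : (RingHom.ker χ).IsPrime := RingHom.ker_isPrime _
  have h0 : trdeg K (R ⧸ RingHom.ker χ) = 0 := by simpa using h
  have := trdeg_eq_zero_iff.1 h0
  exact (Algebra.IsAlgebraic.isAlgebraic (R := K)
    (Ideal.Quotient.mk (RingHom.ker χ) a)).algHom (Ideal.kerLiftAlg χ)

theorem nm_alg (hP : PtS) {F : Type} [Field F] [Algebra K F] (f : Fin 3 → Fin 9)
    (N : Matrix (Fin 3) (Fin 9) F) (h : ∀ a c, IsAlgebraic K (N a c)) (a : Fin 3) (c : Fin 9) :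
    IsAlgebraic K (nm f N a c) := by
  let N' : Matrix (Fin 3) (Fin 9) (algebraicClosure K F) :=
    of fun a c => ⟨N a c, mem_algebraicClosure_iff.2 (h a c)⟩
  have e : N = N'.map (algebraicClosure K F).val.toRingHom := rfl
  rw [e, hP.nm_map]
  exact mem_algebraicClosure_iff.1 (nm f N' a c).2

end HypL

open HypL in
theorem hyp_s (hB : Base) : HypS := by
  intro L _ _ M hC hD
  have hx : ∀ j, mn 0 (el M (ff j)) ≠ 0 := fun j h => by
    have h1 := hC.det (ff j) (ff 0)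
    rw [show ((el M (ff j)).submatrix id (ff 0)).det = 0 from h] at h1
    exact div_ne_zero (hC.ne 0) (hC.ne j) h1.symm
  have ht : ∀ j, j ≠ 0 → trdeg K (Ach M j ⧸ Ideal.span {mn 0 (el M (ff j))}) = (1 : ℕ) := by
    intro j hj
    have := hD.prime j hj
    have := hC.ft (ff j)
    have h := krull (k := K) (hx j) (p := Ideal.span {mn 0 (el M (ff j))})
      (by rw [Ideal.minimalPrimes_eq_subsingleton_self]; rfl)
    rw [hC.dim j, ← one_add_one_eq_two] at h
    simpa using Cardinal.add_one_inj.1 h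
  have h10 : (1 : Fin 4) ≠ 0 := by decide
  have hp := hD.prime 1 h10
  let P : Ideal (Ach M 1) := Ideal.span {mn 0 (el M (ff 1))}
  let F : Type := FractionRing (Ach M 1 ⧸ P)
  let χ₁ : Ach M 1 →ₐ[K] F :=
    (IsScalarTower.toAlgHom K (Ach M 1 ⧸ P) F).comp (Ideal.Quotient.mkₐ K P)
  have inj : Function.Injective (algebraMap (Ach M 1 ⧸ P) F) := IsFractionRing.injective _ _
  have hk : ∀ a, χ₁ a = 0 ↔ a ∈ P := fun a =>
    (map_eq_zero_iff _ inj).trans Ideal.Quotient.eq_zero_iff_mem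
  have hI : Iso ((el M (ff 1)).map χ₁) :=
    (hB.pt.iso_map _ _ χ₁ _).1 (hC.iso _ (hC.ne 1))
  have h0 : mn 0 ((el M (ff 1)).map χ₁) = 0 := by
    rw [mn_map, hk]
    exact Ideal.mem_span_singleton_self _
  refine ⟨F, inferInstance, inferInstance, (el M (ff 1)).map χ₁, ?_, hI, h0, fun j hj => ?_⟩
  · rw [trdeg_frac (Ach M 1 ⧸ P) F, ht 1 h10]
    simp
  have hn : mn j ((el M (ff 1)).map χ₁) ≠ 0 := by
    rw [mn_map, Ne, hk]
    exact hD.notMem j hj
  obtain ⟨χ, hχ⟩ := hC.univ j F _ hI hn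
  refine ⟨hn, χ, hχ, ?_⟩
  have hle : Ideal.span {mn 0 (el M (ff j))} ≤ RingHom.ker χ := by
    rw [Ideal.span_singleton_le_iff_mem, RingHom.mem_ker, ← mn_map, hχ, mn, hB.pt.det_nm]
    exact div_eq_zero_iff.2 (Or.inl h0)
  by_contra hne
  have := hD.prime j hj
  have : (RingHom.ker χ).IsPrime := RingHom.ker_isPrime _
  have h1 := alg_of_trdeg χ (trdeg_lt (lt_of_le_of_ne hle (Ne.symm hne)) (ht j hj))
  have h2 : ∀ a c, IsAlgebraic K (nm (ff j) ((el M (ff 1)).map χ₁) a c) := fun a c => by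
    rw [← hχ]
    exact h1 _
  have h3 : nm (ff 1) (nm (ff j) ((el M (ff 1)).map χ₁)) = (el M (ff 1)).map χ₁ := by
    rw [nm, nm, ← nm, hB.pt.nm_mul, hB.pt.nm_self]
    · rw [submatrix_map, hC.one _ (hC.ne 1), Matrix.map_one _ (map_zero _) (map_one _)]
    · rw [det_nonsing_inv, Ring.inverse_eq_inv]
      exact inv_ne_zero hn
  have h4 : ∀ a c, IsAlgebraic K (χ₁ (el M (ff 1) a c)) := fun a c => by
    have := nm_alg hB.pt (ff 1) _ h2 a c
    rwa [h3] at this
  have h5 : ∀ a, IsAlgebraic K (χ₁ a) := fun a => by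
    have : adjoin K (ent (el M (ff 1))) ≤ (algebraicClosure K F).toSubalgebra.comap χ₁ := by
      rw [adjoin_le_iff]
      rintro _ ⟨x, rfl⟩
      exact mem_algebraicClosure_iff.2 (h4 x.1 x.2)
    rw [hC.gen] at this
    exact mem_algebraicClosure_iff.1 (this Algebra.mem_top)
  have : Algebra.IsAlgebraic K (Ach M 1 ⧸ P) := ⟨fun y => by
    obtain ⟨a, rfl⟩ := Ideal.Quotient.mk_surjective y
    exact (isAlgebraic_algHom_iff (IsScalarTower.toAlgHom K (Ach M 1 ⧸ P) F) inj).1 (h5 a)⟩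
  have h6 := ht 1 h10
  rw [trdeg_eq_zero] at h6
  simp at h6

namespace HypL

variable {L : Type} [Field L] [Algebra K L] {M : Matrix (Fin 3) (Fin 9) L}

theorem coe_mn (hC : ChAt M) (i j : Fin 4) :
    ((mn j (el M (ff i)) : Ach M i) : L) = mn j M / mn i M := hC.det (ff i) (ff j)

/-- An exponent that is too large gives a multiple of the equation. -/
theorem cmp (hB : Base) (hC : ChAt M) (hH : HypAt M) {i j : Fin 4} (hi : i ≠ 0) (hj : j ≠ 0)
    {g : L} {m n : ℕ} {a : Ach M i} {b : Ach M j} (ha : (a : L) = g * (mn 0 M / mn i M) ^ m)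
    (hb : (b : L) = g * (mn 0 M / mn j M) ^ n) (h : n < m) :
    a ∈ Ideal.span {mn 0 (el M (ff i))} := by
  obtain ⟨F, _, _, N, -, -, -, hN⟩ := hH
  obtain ⟨ni, χ, e, k⟩ := hN i hi
  obtain ⟨nj, χ', e', -⟩ := hN j hj
  obtain ⟨d, rfl⟩ := Nat.exists_eq_add_of_lt h
  have h1 : (((el M (ff i)).map χ).submatrix id (ff j)).det ≠ 0 := by
    rw [e, hB.pt.det_nm]
    exact div_ne_zero nj ni
  have h2 : (el M (ff j)).map χ' = nm (ff j) ((el M (ff i)).map χ) := by
    rw [e, e']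
    refine (hB.pt.nm_mul F (ff j) _ N ?_).symm
    rw [det_nonsing_inv, Ring.inverse_eq_inv']
    exact inv_ne_zero ni
  have h3 := (hC.loc (ff i) (ff j) (hC.ne i) (hC.ne j)).2 F χ χ' h1 h2 a
    (mn j (el M (ff i)) ^ n * mn 0 (el M (ff i)) ^ (d + 1)) 1 b (by
      have := hC.ne i
      have := hC.ne j
      rw [Subalgebra.coe_mul, Subalgebra.coe_pow, Subalgebra.coe_pow, coe_mn hC, coe_mn hC, ha, hb,
        Subalgebra.coe_one]
      simp only [div_pow]
      field_simp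
      ring)
  have h4 : χ (mn 0 (el M (ff i))) = 0 := by
    rw [← RingHom.mem_ker, k]
    exact Ideal.mem_span_singleton_self _
  rw [← k, RingHom.mem_ker]
  simpa [h4] using h3

theorem unit (hB : Base) (g : Ach M 0) (h0 : g ≠ 0) (h : ∀ p : Pl L, (g : L) ∈ p.O) :
    IsUnit g := by
  have h0' : (g : L) ≠ 0 := fun e => h0 (Subtype.ext e)
  by_cases ha : IsAlgebraic K (g : L)
  · exact IsUnit.of_mul_eq_one ⟨_, Subalgebra.inv_mem_of_algebraic _ ha⟩
      (Subtype.ext (mul_inv_cancel₀ h0'))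
  have ht : Transcendental K (g : L)⁻¹ := fun e => ha (IsAlgebraic.inv_iff.1 e)
  obtain ⟨p, α, h1, h2⟩ := hB.pl.ex L (Polynomial K) (Polynomial.aeval (g : L)⁻¹)
    (Ideal.span {Polynomial.X}) ((Ideal.span_singleton_prime Polynomial.X_ne_zero).2
      Polynomial.prime_X) (by
        rw [(RingHom.injective_iff_ker_eq_bot _).1 (transcendental_iff_injective.1 ht)]
        exact bot_le)
  have h3 : (α Polynomial.X : L) = (g : L)⁻¹ := by rw [h1, Polynomial.aeval_X]
  refine absurd (h p) ((hB.pl.zero L p g).2 ⟨h0', h3 ▸ (α Polynomial.X).2, ?_⟩)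
  rw [← (h2 _).2 (Ideal.mem_span_singleton_self _)]
  exact congrArg _ (Subtype.ext h3.symm)

end HypL

open HypL in
theorem pole_s (hB : Base) : PoleS := by
  classical
  intro L _ _ M hC _ hH g g0 gu
  have ex : ∀ j, ∃ n : ℕ, ∃ a : Ach M j, (a : L) = g * (mn 0 M / mn j M) ^ n := fun j => by
    obtain ⟨n, a, h, -⟩ := (hC.loc (ff j) (ff 0) (hC.ne j) (hC.ne 0)).1 g
    exact ⟨n, a, h.trans (mul_comm _ _)⟩
  choose a ha using fun j => Nat.find_spec (ex j)
  have hn : ∀ j, 0 < Nat.find (ex j) → a j ∉ Ideal.span {mn 0 (el M (ff j))} := by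
    intro j h0 hm
    obtain ⟨c, hc⟩ := Ideal.mem_span_singleton'.1 hm
    refine Nat.find_min (ex j) (Nat.sub_one_lt h0.ne') ⟨c, ?_⟩
    have h1 := ha j
    rw [← hc, Subalgebra.coe_mul, coe_mn hC, ← Nat.sub_one_add_one h0.ne', pow_succ,
      ← mul_assoc] at h1
    exact mul_right_cancel₀ (div_ne_zero (hC.ne 0) (hC.ne j)) h1
  have hle : ∀ i j, i ≠ 0 → j ≠ 0 → Nat.find (ex i) ≤ Nat.find (ex j) := fun i j hi hj =>
    le_of_not_gt fun h => hn i (Nat.zero_lt_of_lt h) (cmp hB hC hH hi hj (ha i) (ha j) h)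
  have he : ∀ j, j ≠ 0 → Nat.find (ex j) = Nat.find (ex 1) := fun j hj =>
    (hle j 1 hj one_ne_zero).antisymm (hle 1 j one_ne_zero hj)
  have h0 : 0 < Nat.find (ex 1) := by
    refine Nat.pos_of_ne_zero fun h => gu (unit hB g g0 fun p => ?_)
    obtain ⟨j, α, hα, -⟩ := hC.place p
    by_cases hj : j = 0
    · subst hj
      exact hα g ▸ (α g).2
    · have h1 := ha j
      rw [he j hj, h, pow_zero, mul_one] at h1
      exact h1 ▸ hα (a j) ▸ (α (a j)).2
  exact ⟨_, h0, fun j hj => ⟨a j, he j hj ▸ ha j, hn j (he j hj ▸ h0)⟩⟩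

end Pool.Agent.MP_b834b3_ag.G18
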