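import Pool.Agent.MP_b834b3_ag.h.SpecA

/-! Genus eighteen: the parametrization is dominant. -/

namespace Pool.Agent.MP_b834b3_ag.G18

open Matrix MvPolynomial TrivSqZeroExt

namespace JcL

abbrev Gp : Type := Fin 12 ⊕ Fin 18

def tJ : ℕ := 48488165526242325470944932436623247721446765323133354590741531766242696675642574158337688540592540979541750729986033344372349521566999960129887808945313802785219212049708856306531618235173401046444598284046502395242339185404230570324675366571695508248387836472029510776987766797472741902565771629870212225918265900394129568522874064423080304402888087701779753518391324689347301099928403159045204009468016340946400582467467877696650872891555291201467519153977271327377056019173229743178122461320035691404071819499881135890985013714042526762633526649516820433264964060033329301409693732368279454181486955539958679131411049052588303701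
def tI : ℕ := 15652117971861097122896396145510366877734785515266870221483050949126770909579035053771368752752055127772424332540019886283660447001820182602224961749090502931800867960180479865237615465559763758885597991324367262240884882954994500412472015234072002433500208574533487994431510313304898783727680839303324003480443071196540391813717897903048877567844678397509663212175038496020813841618784346787482965934454521534622902238375655669525332760554322188091169333356856039041581829493922035003260631692798973018974695642315585101438118042022474056438656017416329301191196542947123706673621891045571288779352870641632593191095816599528506835062754755789255662782262509098312508744674797118408944576136136370507862234633255110158738265597186351859152809840674578043239758556756219213575942079166589898626790722532661333770391674156090053144879729181348788646039553495794618158225435083394547967460565599986607748580036148109383131820845483268364236836700080207683238537531202760697312415183594015362915123326120576692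46413630792871747850766963957393761670909285831354550883313693569487518459289172129188211314513227240575185810106005639084933231255973693927528606383088833304724841852142154962102950007197953608460234550673687434278713739813688656523851557993715185560225076719565660809720967752564716401042409208191236107049977029493316823504896249969775271673970605884962366784503891880064148035695567417989405952216046948640007726249221063783734218309509104001651889619443800427134017109302729405011225326389556703256972199483445231528067190801529592000969214615169639804518690582710280541464728096626608507770314047510132503056130337502476272873586019665076132304903668231727183152567371924049109393584818609908059679973365426919657015072066915366555805565077082045070028855032854447141702133188005232767414203831237581433483909794138389834246906576619071301823166052383213089785079559919099058256480288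

def dg (T bits off : ℕ) (g : Gp) (a : Fin 7) (i : Fin 5) : ℤ :=
  ((T >>> (bits * (35 * g.elim Fin.val (12 + ·) + 5 * a + i))) % 2 ^ bits : ℕ) - (off : ℤ)

def qz : Fin 26 → ℤ :=
  ![0, 0, 1, 0, 1, -1, 0, -1, 0, 0, 1, 0, 1, 0, 0, 0, 0, 0, -1, 0, -1, 0, 0, -1, -1, -1]
def blk : Fin 12 → Fin 9 := ![0, 0, 0, 0, 0, 1, 1, 1, 1, 2, 2, 2]
def pos : Fin 12 → Fin 9 := ![1, 2, 3, 4, 5, 2, 3, 4, 5, 3, 4, 5]
def U : Gp → Fin 9 → ℤ := Sum.elim (fun j => ev ℤ (blk j)) su
def V : Gp → Fin 9 → ℤ := Sum.elim (fun j => ev ℤ (pos j)) sv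
def L : Fin 7 → Finset (Fin 16) := ![{0}, {15}, {3, 12}, {14, 1}, {13, 8, 4}, {11, 4}, {7}]
def r5 : Fin 5 → Fin 16 := ![5, 2, 1, 8, 4]
def ps : Fin 26 → Fin 16 × Fin 5 :=
  ![(10, 0), (9, 0), (6, 0), (3, 0), (10, 1), (9, 1), (6, 1), (3, 1), (10, 2), (9, 2), (6, 2), (3, 2),
    (10, 3), (9, 3), (6, 3), (3, 3), (10, 4), (9, 4), (6, 4), (3, 4), (14, 2), (14, 3), (14, 4),
    (13, 3), (13, 4), (11, 4)]

theorem z1 : ∀ g a i, ∑ k ∈ L a, (gam (U g) *ᵥ (gam (V g) *ᵥ fun m => pat qz m i)) k =
    dg tJ 2 1 g a i := by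
  have : ∀ f : (Fin 9 → ℤ) → (Fin 16 → ℤ) → Fin 16 → ℤ, f = (fun x s => gam x *ᵥ s) → ∀ g a i,
      ∑ k ∈ L a, f (U g) (f (V g) fun m => pat qz m i) k = dg tJ 2 1 g a i := by
    intro f h
    rw [funext₂ gam_mulVec] at h
    subst h
    decide +kernel
  exact this _ rfl

theorem z2 : ∀ g' g, g' = .inl 0 ∨ g = .inl 0 ∨
    ∑ a, ∑ i, dg tI 6 32 g' a i * dg tJ 2 1 g a i = if g' = g then 2 else 0 := by decide +kernel

theorem z3 : ∀ g a i, (a.val < 3 ∨ i.val + 2 ≤ a.val) ∨ dg tI 6 32 g a i = 0 := by decide +kernel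

theorem z4 : ∀ a l, ∑ k ∈ L a, pat qz k l = 0 := by decide +kernel

theorem z5 : ∀ l m, pat qz (r5 l) m = if l = m then 1 else 0 := by decide +kernel

variable {R S : Type} [CommRing R] [CommRing S]

/-- The normal form with `o` in place of one. -/
def pt (o : R) (q : Fin 26 → R) : Matrix (Fin 16) (Fin 5) R :=
  !![0, 0, 0, 0, 0; 0, 0, o, 0, 0; 0, o, 0, 0, 0; q 3, q 7, q 11, q 15, q 19; 0, 0, 0, 0, o;
     o, 0, 0, 0, 0; q 2, q 6, q 10, q 14, q 18; 0, 0, 0, 0, 0; 0, 0, 0, o, 0;
     q 1, q 5, q 9, q 13, q 17; q 0, q 4, q 8, q 12, q 16; 0, 0, 0, 0, q 25;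
     -q 3, -q 7, -q 11, -q 15, -q 19; 0, 0, 0, q 23, q 24; 0, 0, q 20, q 21, q 22; 0, 0, 0, 0, 0]

theorem pt_map {φ : R → S} (h0 : φ 0 = 0) (h : ∀ x, φ (-x) = -φ x) (q : Fin 26 → R) :
    (pat q).map φ = pt (φ 1) (φ ∘ q) := by
  ext k i
  fin_cases k <;> fin_cases i <;> first | exact h0 | exact h _ | rfl

theorem pat_map (σ : R →+* S) (q : Fin 26 → R) : (pat q).map σ = pat (σ ∘ q) := by
  rw [pt_map σ.map_zero σ.map_neg, map_one]; rfl

theorem pt_L (q : Fin 26 → R) (a : Fin 7) (i : Fin 5) (h : a.val < 3 ∨ i.val + 2 ≤ a.val) :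
    ∑ k ∈ L a, pt 0 q k i = 0 := by
  fin_cases a <;> fin_cases i <;> simp [L, pt] at h ⊢

theorem pt_r (q : Fin 26 → R) (l i : Fin 5) : pt 0 q (r5 l) i = 0 := by
  fin_cases l <;> fin_cases i <;> rfl

theorem pt_ps (q : Fin 26 → R) (r : Fin 26) : pt 0 q (ps r).1 (ps r).2 = q r := by
  fin_cases r <;> rfl

theorem mv_map {φ : R → S} (h0 : φ 0 = 0) (t : Fin 12 → R) (c : Fin 3) :
    φ ∘ mv t c = mv (φ ∘ t) c := by
  ext i
  fin_cases c <;> fin_cases i <;> first | exact h0 | rfl

theorem ev_map (σ : R →+* S) (c : Fin 9) : σ ∘ ev R c = ev S c := by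
  ext i
  simp [ev, Pi.single_apply]

theorem e1_map (σ : R →+* S) (u v : Fin 9 → R) : (e1 u v).map σ = e1 (σ ∘ u) (σ ∘ v) := by
  rw [e1, Matrix.map_add _ σ.map_add, Matrix.map_mul, gam_map, gam_map,
    Matrix.map_one _ σ.map_zero σ.map_one, e1]

theorem aS_map (σ : R →+* S) (a : Fin 18 → R) (l : List (Fin 18)) :
    (aS a l).map σ = aS (σ ∘ a) l := by
  induction l with
  | nil => exact Matrix.map_one _ σ.map_zero σ.map_one
  | cons j l ih =>
    simp only [aS, List.map_cons, List.prod_cons] at ih ⊢
    rw [Matrix.map_mul, ih, e1_map]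
    congr 2 <;> ext <;> simp

theorem fo_map (σ : R →+* S) (θ : Th → R) (o : Option Ix) : σ (fo θ o) = fo (σ ∘ θ) o := by
  rcases o with _ | x
  · rfl
  · simp only [fo, nS, Rr]
    rw [← Matrix.map_apply (f := σ)]
    simp only [Matrix.map_mul, e1_map, aS_map, pat_map, ev_map, mv_map σ.map_zero]
    rfl

/-- Value and derivative. -/
def Dm {m n : Type} (M : Matrix m n (DualNumber ℂ)) (A B : Matrix m n ℂ) : Prop :=
  M.map fst = A ∧ M.map snd = B

theorem Dm.mul {l m n : Type} [Fintype m] {M : Matrix l m (DualNumber ℂ)} {A B : Matrix l m ℂ}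
    {M' : Matrix m n (DualNumber ℂ)} {A' B' : Matrix m n ℂ} (h : Dm M A B) (h' : Dm M' A' B') :
    Dm (M * M') (A * A') (A * B' + B * A') := by
  rw [← h.1, ← h.2, ← h'.1, ← h'.2]
  refine ⟨Matrix.map_mul (f := fstHom ℂ ℂ ℂ), ?_⟩
  ext a b
  simp [Matrix.mul_apply, snd_sum, Finset.sum_add_distrib, mul_comm]

theorem d_e1 {u v : Fin 9 → DualNumber ℂ} {a b c d : Fin 9 → ℂ} (ha : fst ∘ u = a)
    (hb : snd ∘ u = b) (hc : fst ∘ v = c) (hd : snd ∘ v = d) (h : gam a * gam c = 0) :
    Dm (e1 u v) 1 (gam a * gam d + gam b * gam c) := by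
  have g : ∀ x : Fin 9 → DualNumber ℂ, Dm (gam x) (gam (fst ∘ x)) (gam (snd ∘ x)) := fun x => by
    constructor <;> ext <;> simp [gam_apply]
  obtain ⟨p, q⟩ := (g u).mul (g v)
  rw [ha, hc, h] at p
  rw [ha, hb, hc, hd] at q
  rw [e1, Dm, Matrix.map_add _ fst_add, Matrix.map_add _ snd_add, p, q]
  constructor <;> ext <;> simp [Matrix.one_apply, apply_ite snd]

/-- The directions. -/
noncomputable def Ec (g : Gp) : Matrix (Fin 16) (Fin 16) ℂ :=
  gam (fun i => (U g i : ℂ)) * gam fun i => (V g i : ℂ)

theorem d_aS {a : Fin 18 → DualNumber ℂ} (h : ∀ j, (a j).fst = 0) (l : List (Fin 18)) :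
    Dm (aS a l) 1 (l.map fun j => (a j).snd • Ec (.inr j)).sum := by
  induction l with
  | nil => constructor <;> ext <;> simp [aS, Matrix.one_apply, apply_ite fst, apply_ite snd]
  | cons j l ih =>
    have := (d_e1 (u := fun i => a j * su j i) (v := fun i => sv j i) (a := 0)
      (b := (a j).snd • fun i => (su j i : ℂ)) (c := fun i => sv j i) (d := 0) (by ext; simp [h])
      (by ext; simp) (by ext; simp) (by ext; simp) (by rw [gam_zero, zero_mul])).mul ih
    rwa [gam_zero, zero_mul, zero_add, gam_smul, smul_mul_assoc, one_mul, one_mul, mul_one,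
      add_comm] at this

theorem d_nS {t : Fin 12 → DualNumber ℂ} (h : ∀ j, (t j).fst = 0) :
    Dm (nS t) 1 (∑ j, (t j).snd • Ec (.inl j)) := by
  have k : ∀ (b : Fin 9) c, Dm (e1 (ev _ b) (mv t c)) 1 (gam (ev ℂ b) * gam (mv (snd ∘ t) c)) :=
    fun b c => by
      have := d_e1 (u := ev _ b) (v := mv t c) (b := 0) (c := 0)
        (ev_map (fstHom ℂ ℂ ℂ).toRingHom b) (by ext; simp [ev, Pi.single_apply, apply_ite snd])
        (by
          rw [mv_map rfl, show fst ∘ t = 0 from funext h]
          ext i
          fin_cases c <;> fin_cases i <;> rfl) (mv_map rfl t c) (by rw [gam_zero, mul_zero])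
      rwa [gam_zero, zero_mul, add_zero] at this
  have e : ∀ j, Ec (.inl j) = gam (ev ℂ (blk j)) * gam (ev ℂ (pos j)) := fun j => by
    rw [← ev_map (Int.castRingHom ℂ), ← ev_map (Int.castRingHom ℂ)]; rfl
  have m : ∀ s : Fin 12 → ℂ,
      mv s 0 = s 0 • ev ℂ 1 + s 1 • ev ℂ 2 + s 2 • ev ℂ 3 + s 3 • ev ℂ 4 + s 4 • ev ℂ 5 ∧
      mv s 1 = s 5 • ev ℂ 2 + s 6 • ev ℂ 3 + s 7 • ev ℂ 4 + s 8 • ev ℂ 5 ∧
      mv s 2 = s 9 • ev ℂ 3 + s 10 • ev ℂ 4 + s 11 • ev ℂ 5 := fun s => by
    refine ⟨?_, ?_, ?_⟩ <;> ext i <;> fin_cases i <;> simp [mv, ev]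
  have := ((k 0 0).mul (k 1 1)).mul (k 2 2)
  rw [(m _).1, (m _).2.1, (m _).2.2] at this
  refine ⟨by simpa [nS] using this.1, this.2.trans ?_⟩
  simp [e, blk, pos, Fin.sum_univ_succ, gam_add, gam_smul, mul_add]
  abel

/-- The base point. -/
noncomputable def x0 : Th → ℂ :=
  Sum.elim 0 (Sum.elim 0 (Sum.elim (fun r => qz r) fun p => if p.1 = p.2 then 1 else 0))

theorem jac (ξ : Th → ℂ)
    (h : ∀ o, snd (fo (fun s => (inl (x0 s) + inr (ξ s) : DualNumber ℂ)) o) = 0) : ξ = 0 := by
  set u : Th → DualNumber ℂ := fun s => inl (x0 s) + inr (ξ s) with hu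
  set η : Gp → ℂ := Sum.elim (fun j => ξ (.inl j)) fun j => ξ (.inr (.inl j)) with hη
  set P : Matrix (Fin 16) (Fin 5) ℂ := (pat qz).map (Int.castRingHom ℂ) with hP
  set q : Fin 26 → ℂ := fun r => ξ (.inr (.inr (.inl r))) with hq
  have h0 : η (.inl 0) = 0 := by simpa [fo, hu, hη] using h none
  have d3 : Dm (pat ((u ∘ .inr) ∘ .inr ∘ .inl)) P (pt 0 q) := by
    refine ⟨(pat_map (fstHom ℂ ℂ ℂ).toRingHom _).trans ?_, (pt_map rfl snd_neg _).trans ?_⟩
    · rw [hP, pat_map]
      congr 1
      ext
      simp [hu, x0]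
    · congr 1
      ext
      simp [hu, hq]
  have d4 : Dm (mx (u ∘ .inr)) 1 (mx (ξ ∘ .inr)) := by
    constructor <;> ext <;> simp [mx, hu, x0, Matrix.one_apply]
  have d := ((d_nS (t := u ∘ .inl) (by simp [hu, x0])).mul (((d_aS (a := (u ∘ .inr) ∘ .inl)
    (by simp [hu, x0]) (List.finRange 18)).mul d3).mul d4)).2
  have e : ∀ k i, ∑ g, η g * (Ec g * P) k i + pt 0 q k i + ∑ l, P k l * mx (ξ ∘ .inr) l i = 0 :=
    fun k i => by
      have := h (some (i, k))
      simp only [fo, Rr] at this
      rw [← Matrix.map_apply (f := snd), d, ← Fin.sum_univ_def] at this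
      simp only [Matrix.one_mul, Matrix.mul_one, Matrix.sum_mul, Matrix.add_apply, Matrix.sum_apply,
        Matrix.smul_mul, Matrix.smul_apply, smul_eq_mul] at this
      refine .trans ?_ this
      rw [Fintype.sum_sum_type, ← Matrix.mul_apply]
      simp [hu, hη]
      ring
  have f : ∀ a i, a.val < 3 ∨ i.val + 2 ≤ a.val → ∑ g, η g * (dg tJ 2 1 g a i : ℂ) = 0 :=
    fun a i o => by
      have := Finset.sum_eq_zero (s := L a) fun k _ => e k i
      rw [Finset.sum_add_distrib, Finset.sum_add_distrib, pt_L q a i o, Finset.sum_comm,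
        Finset.sum_comm (s := L a)] at this
      have p : ∀ l, ∑ k ∈ L a, P k l = 0 := fun l => by
        simpa [hP] using congrArg (Int.cast (R := ℂ)) (z4 a l)
      simp only [← Finset.sum_mul, ← Finset.mul_sum, p, zero_mul, Finset.sum_const_zero,
        add_zero] at this
      rw [← this]
      refine Finset.sum_congr rfl fun g _ => ?_
      rw [← z1, Int.cast_sum]
      refine congrArg _ (Finset.sum_congr rfl fun k _ => ?_)
      rw [mulVec_mulVec]
      refine .trans ?_ (congrFun (congrFun (show (gam (U g) * gam (V g) * pat qz).map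
        (Int.castRingHom ℂ) = Ec g * P by rw [Matrix.map_mul, Matrix.map_mul, gam_map, gam_map]; rfl)
        k) i)
      rfl
  have n : ∀ g', η g' = 0 := fun g' => by
    by_cases c : g' = .inl 0
    · rw [c, h0]
    have : ∑ g, η g * ((if g' = g then 2 else 0 : ℤ) : ℂ) =
        ∑ g, η g * ((∑ a, ∑ i, dg tI 6 32 g' a i * dg tJ 2 1 g a i : ℤ) : ℂ) :=
      Finset.sum_congr rfl fun g _ => by
        rcases (z2 g' g).resolve_left c with rfl | k
        · rw [h0, zero_mul, zero_mul]
        · rw [k]
    simp only [Int.cast_sum, Int.cast_mul, Finset.mul_sum] at this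
    rw [Finset.sum_comm (γ := Gp) (α := Fin 7), Finset.sum_eq_zero (ι := Fin 7) fun a _ => by
      rw [Finset.sum_comm]
      refine Finset.sum_eq_zero fun i _ => ?_
      simp only [mul_left_comm (η _), ← Finset.mul_sum]
      rcases z3 g' a i with k | k
      · rw [f a i k, mul_zero]
      · rw [k, Int.cast_zero, zero_mul]] at this
    simpa using this
  have x : ∀ l i, mx (ξ ∘ .inr) l i = 0 := fun l i => by
    simpa [n, pt_r, hP, z5] using e (r5 l) i
  ext s
  rcases s with j | j | r | p
  · exact n (.inl j)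
  · exact n (.inr j)
  · simpa [n, x, pt_ps] using e (ps r).1 (ps r).2
  · exact x p.1 p.2

end JcL

open JcL in
theorem jc (hJ : JacS) : JcS := by
  refine hJ _ _ _ x0 (by decide +kernel) fun ξ h => jac ξ fun o => ?_
  have := h o
  rw [← AlgHom.coe_toRingHom, fo_map] at this
  rw [← this]
  congr 2
  ext1 s
  simp

end Pool.Agent.MP_b834b3_ag.G18
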