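import Pool.Agent.MP_b834b3_ag.h.SpecC

/-! Genus eighteen: the count of generators. -/

namespace Pool.Agent.MP_b834b3_ag.G18

open AlgebraicGeometry CategoryTheory Algebra IsLocalRing Limits MvPolynomial Matrix
open scoped TensorProduct

variable {L : Type} [Field L] [Algebra K L] {M : Matrix (Fin 3) (Fin 9) L} {X : Scheme.{0}}
  {s : X ⟶ Spec (CommRingCat.of K)} (𝒜 : Atl M s)

/-- The points whose fibre is a nonnegative multiple of `ω` modulo `V`. -/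
def Atl.T (b : Bool) (V : Submodule ℚ (↑(pullback s s) →₀ ℚ)) (ω : ↑(pullback s s) →₀ ℚ) :
    Set Pt :=
  {p | ∀ z, 𝒜.key (pr s b z) = p → Order.height z = 2 →
    ∃ r : ℚ, 0 ≤ r ∧ Finsupp.single z 1 - r • ω ∈ V}

theorem sgn_of {Y : Type} {V : Submodule ℚ (Y →₀ ℚ)} {c ω : Y →₀ ℚ} (hc : c ∈ V) {z₀ : Y}
    (h0 : 0 < c z₀) (h : ∀ z, z ≠ z₀ → c z ≠ 0 →
      ∃ r : ℚ, 0 ≤ r ∧ c z • Finsupp.single z (1 : ℚ) + r • ω ∈ V) :
    ∃ r : ℚ, 0 ≤ r ∧ Finsupp.single z₀ (1 : ℚ) - r • ω ∈ V := by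
  classical
  choose! r hr hr' using h
  have m : ∀ z ∈ c.support.erase z₀, z ≠ z₀ ∧ c z ≠ 0 := fun z hz =>
    ⟨(Finset.mem_erase.1 hz).1, Finsupp.mem_support_iff.1 (Finset.mem_erase.1 hz).2⟩
  have h1 := V.sum_mem fun z hz => hr' z (m z hz).1 (m z hz).2
  have h2 : c = c z₀ • Finsupp.single z₀ (1 : ℚ) +
      ∑ z ∈ c.support.erase z₀, c z • Finsupp.single z (1 : ℚ) := by
    rw [Finset.add_sum_erase _ (fun z => c z • Finsupp.single z (1 : ℚ))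
      (Finsupp.mem_support_iff.2 h0.ne')]
    conv_lhs => rw [← Finsupp.sum_single c]
    simp [Finsupp.sum]
  refine ⟨(c z₀)⁻¹ * ∑ z ∈ c.support.erase z₀, r z, mul_nonneg (inv_nonneg.2 h0.le)
    (Finset.sum_nonneg fun z hz => hr z (m z hz).1 (m z hz).2), ?_⟩
  have h3 := V.smul_mem (c z₀)⁻¹ (V.sub_mem hc h1)
  rw [Finset.sum_add_distrib, ← Finset.sum_smul] at h3
  convert h3 using 1
  rw [← sub_sub, sub_eq_of_eq_add h2, smul_sub, smul_smul, smul_smul, inv_mul_cancel₀ h0.ne',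
    one_smul]

theorem vrp (hV : VrelS) (hN : NcS) (hC : CtrS) (hT : ThreeS) (h : ChAt M) (b : Bool)
    (h1 : OneAt 𝒜 b) {V : Submodule ℚ (↑(pullback s s) →₀ ℚ)} (hR : Rat _ ≤ V)
    (ω : ↑(pullback s s) →₀ ℚ) : VR (𝒜.T b V ω) (𝒜.T b V (-ω)) := by
  intro F _ _ N φ x H
  have hn := hN _ _ F N φ x H
  obtain ⟨a1, a2, -, a4, a5, a6, a7, p, N', b1, b2, b3⟩ := H
  obtain ⟨F', _, _, f, j, χ, ξ, W, z1, c1, c2, c3, c4, c5, c6, c7, c8, c9, c10⟩ :=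
    hT L M X s 𝒜 b F N p N' h a1 a2 hn b1
  have := 𝒜.lft h
  have := 𝒜.compact
  obtain ⟨c, d1, d2, d3, d4, d5⟩ := hV K _ (pullback.fst s s ≫ s) F' ξ (f φ) c4 c5 c6
    ((map_ne_zero f).2 a4)
  have key : ∀ O z, Ctr ξ O z → ∃ (p' : Pl F) (N'' : Matrix (Fin 3) (Fin 9) p'.O),
      (∀ y, y ∈ p'.O ↔ f y ∈ O) ∧ Cen p' N N'' ∧ pt (N''.map p'.π) = 𝒜.key (pr s b z) := by
    rintro O z ⟨μ, e1, e2⟩
    exact hC L M X s 𝒜 F F' f N j χ O _ h c1 c2 ⟨μ ≫ pr s b, by rw [← Category.assoc, e1, c3],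
      (Scheme.Hom.comp_apply _ _ _).trans (congrArg (pr s b) e2)⟩
  intro z0 e0 h0
  have e1 : z0 = z1 := h1 _ _ (𝒜.inj (e0.trans (c9.trans b3).symm)) (e0 ▸ a5) h0 (Or.inr c10)
  refine sgn_of (hR (Submodule.subset_span d1)) (d5 z0 h0 (fun O hO => ?_) ⟨W, e1 ▸ c7, ?_⟩)
    fun z hz hc => ?_
  · obtain ⟨p', N'', f1, f2, f3⟩ := key O z0 hO
    by_contra f4
    exact (a6 p' N'' f2 fun e => f4 ((f1 _).1 e)).2 (f3.trans e0)
  · rw [← map_inv₀, c8]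
    exact b2
  · have g1 := d2 z hc
    rcases lt_or_gt_of_ne hc with g | g
    · obtain ⟨O, hO, g2⟩ := d4 z g
      obtain ⟨p', N'', f1, f2, f3⟩ := key O z hO
      obtain ⟨r, r1, r2⟩ := (a6 p' N'' f2 fun e => g2 ((f1 _).1 e)).1 z f3.symm g1
      refine ⟨-c z * r, mul_nonneg (neg_nonneg.2 g.le) r1, ?_⟩
      convert V.smul_mem (c z) r2 using 1
      module
    · obtain ⟨O, hO, g2⟩ := d3 z g
      obtain ⟨p', N'', f1, f2, f3⟩ := key O z hO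
      rcases a7 p' N'' f2 fun e => g2 (by rw [← map_inv₀]; exact (f1 _).1 e) with e | e
      · exact absurd (h1 _ _ (𝒜.inj (e0.trans (f3.symm.trans e).symm)) (e0 ▸ a5) h0 (Or.inl g1)).symm
          hz
      · obtain ⟨r, r1, r2⟩ := e z f3.symm g1
        refine ⟨c z * r, mul_nonneg g.le r1, ?_⟩
        convert V.smul_mem (c z) r2 using 1
        module

theorem gen_one (b : Bool) (h1 : OneAt 𝒜 b) (S : Set Pt) (hS : ∀ p ∈ S, ∀ p' ∈ S, p = p' ∧ Alg p) :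
    ∃ c ∈ Z2 (pullback s s), (∀ z, 𝒜.key (pr s b z) ∈ S → Order.height z = 2 →
      Finsupp.single z 1 = c) ∧ (c = 0 ∨ ∃ z, 𝒜.key (pr s b z) ∈ S ∧ Order.height z = 2) := by
  by_cases e : ∃ z, 𝒜.key (pr s b z) ∈ S ∧ Order.height z = 2
  · obtain ⟨z, b1, b2⟩ := e
    refine ⟨Finsupp.single z 1, Finsupp.single_mem_supported ℚ _ b2, fun z' b3 b4 => ?_,
      Or.inr ⟨z, b1, b2⟩⟩
    rw [h1 z' z (𝒜.inj (hS _ b3 _ b1).1) (hS _ b3 _ b1).2 b4 (Or.inl b2)]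
  · exact ⟨0, zero_mem _, fun z b1 b2 => absurd ⟨z, b1, b2⟩ e, Or.inl rfl⟩

theorem cells (b : Bool) (h1 : OneAt 𝒜 b) (hZ : ZuS) (hT : TwoS) (hC : CgS) (hR1 : R1S)
    (hR2 : R2S) (hv : ∀ V ω, Rat _ ≤ V → VR (𝒜.T b V ω) (𝒜.T b V (-ω)))
    (hH : ∀ P Q, CcIn P → VR P Q → CellIn Q 2 → CellIn P 3) :
    ∃ c ∈ Z2 (pullback s s), ∀ V, Rat _ ≤ V → c ∈ V →
      CellIn (𝒜.G b V) 2 ∧ CellIn (𝒜.G b V) 3 := by
  obtain ⟨c, c1, c2, -⟩ := gen_one 𝒜 b h1 {p | ∃ (F : Type) (_ : Field F) (_ : Algebra K F)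
    (N : Matrix (Fin 3) (Fin 9) F), Iso N ∧ Rk N ∧ Zp N ∧ pt N = p} (by
      rintro _ ⟨F, _, _, N, a1, a2, a3, rfl⟩ _ ⟨F', _, _, N', b1, b2, b3, rfl⟩
      exact hZ F F' N N' a1 a2 b1 b2 a3 b3)
  obtain ⟨ω, -, d2, d3⟩ := gen_one 𝒜 b h1 {p | ∃ (F : Type) (_ : Field F) (_ : Algebra K F)
    (N : Matrix (Fin 3) (Fin 9) F), Iso N ∧ Rk N ∧ cellOf N = 3 ∧ pt N = p} (by
      rintro _ ⟨F, _, _, N, a1, a2, a3, rfl⟩ _ ⟨F', _, _, N', b1, b2, b3, rfl⟩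
      exact hT 3 F F' N N' (by decide) a1 a2 b1 b2 a3 b3)
  refine ⟨c, c1, fun V hR hc => ?_⟩
  have z1 : ∀ ω', ZIn (𝒜.T b V ω') := fun ω' F _ _ N a1 a2 a3 z hz h0 =>
    ⟨0, le_rfl, by rw [c2 z ⟨F, _, _, N, a1, a2, a3, hz.symm⟩ h0, zero_smul, sub_zero]; exact hc⟩
  have t3 : CellIn (𝒜.T b V ω) 3 := fun F _ _ N a1 a2 a3 z hz h0 =>
    ⟨1, zero_le_one, by
      rw [d2 z ⟨F, _, _, N, a1, a2, a3, hz.symm⟩ h0, one_smul, sub_self]; exact zero_mem _⟩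
  have t2 := hR1 _ _ (hv V ω hR) (z1 ω) (hR2 _ _ (hv V ω hR) t3)
  have v2 := hv V (-ω) hR
  rw [neg_neg] at v2
  have t4 := hH _ _ (hC _ _ v2 (z1 _)) v2 t2
  have hω : ω ∈ V := by
    rcases d3 with rfl | ⟨z, e, h0⟩
    · exact zero_mem _
    have e1 := d2 z e h0
    obtain ⟨F, _, _, N, a1, a2, a3, a4⟩ := e
    obtain ⟨r, r1, r2⟩ := t4 F N a1 a2 a3 z a4.symm h0
    have := V.smul_mem (1 + r)⁻¹ r2
    rwa [e1, smul_neg, sub_neg_eq_add, ← one_smul ℚ ω, smul_smul, mul_one, ← add_smul, smul_smul,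
      inv_mul_cancel₀ (by positivity), one_smul] at this
  have sub : ∀ p ∈ 𝒜.T b V ω, p ∈ 𝒜.G b V := fun p hp z hz h0 => by
    obtain ⟨r, -, r2⟩ := hp z hz h0
    simpa [Good] using V.add_mem r2 (V.smul_mem r hω)
  exact ⟨fun F _ _ N a1 a2 a3 => sub _ (t2 F N a1 a2 a3),
    fun F _ _ N a1 a2 a3 => sub _ (t3 F N a1 a2 a3)⟩

theorem red_one (h : ChAt M) (j : Bool → Fin 4) (P : Spec (CommRingCat.of (Bq M j))) (b : Bool) :
    (red M j P b).submatrix id (ff (j b)) = 1 := by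
  rw [red, el2, Matrix.submatrix_map, Matrix.submatrix_map, h.one _ (h.ne _),
    Matrix.map_one _ (map_zero _) (map_one _), Matrix.map_one _ (map_zero _) (map_one _)]

theorem red_iso (hB : Base) (h : ChAt M) (j : Bool → Fin 4) (P : Spec (CommRingCat.of (Bq M j)))
    (b : Bool) : Iso (red M j P b) ∧ Rk (red M j P b) :=
  ⟨(hB.pt.iso_map _ _ _ _).1 ((hB.pt.iso_map _ _ _ _).1 (h.iso _ (h.ne _))),
    (hB.pt.rk_det _ _).2 ⟨_, by rw [red_one h, det_one]; exact one_ne_zero⟩⟩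

include 𝒜 in
theorem closed (hB : Base) (h1 : Str1S) (h2 : Str2S) (hG : Geo1S) (hM : IsGenField M)
    (h : ChAt M) (a : L) (ha : IsAlgebraic K a) : a ∈ Set.range (algebraMap K L) := by
  have := 𝒜.lft h
  have : CharZero K := charZero_of_injective_algebraMap (algebraMap ℂ K).injective
  obtain ⟨S, a1, -, a3⟩ := h1 L M X s 𝒜 (fun _ => 0) h
  obtain ⟨δ, hδ⟩ := h2 L M X s 𝒜 h
  have hc := height_chart _ _ (𝒜.hJ fun _ => 0)
  have key : ∀ P : Spec (CommRingCat.of (Bq M fun _ => 0)),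
      Order.height (𝒜.J _ P) = (4 : ℕ) → P ∈ S := fun P hP => by
    have e : ∀ b, cellOf (red M _ P b) = 0 := fun b => le_zero_iff.1 (hB.pt.cell_iff _ _ 0 (by
      rw [mn, red_one h _ P b, det_one]; exact one_ne_zero)).1
    refine a3 P e ?_
    by_contra hn
    have := (hδ _ P e hn).1
    rw [hP] at this
    exact absurd this (by decide)
  refine hG K L (chart M (ff 0)) (h.frac _ (h.ne 0)) hM.2.2.2 (fun P Q hP hQ b1 b2 => ?_) a ha
  have c1 := (hc ⟨P, hP⟩ 4).2 b1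
  have c2 := (hc ⟨Q, hQ⟩ 4).2 b2
  exact congrArg PrimeSpectrum.asIdeal ((𝒜.J _).isOpenEmbedding.injective
    (a1.sub _ ⟨_, key _ c1, rfl⟩ _ ⟨_, key _ c2, rfl⟩ c1 c2))

theorem cases2 : ∀ a a' : Fin 4, 4 - nz a - nz a' = 2 →
    (a = 1 ∧ a' = 1) ∨ (a = 2 ∨ a = 3) ∨ a' = 2 ∨ a' = 3 := by decide

theorem count (hB : Base) (h1 : Str1S) (h2 : Str2S) (h : ChAt M)
    (hS : ∀ b, ∃ c ∈ Z2 (pullback s s), ∀ V, Rat _ ≤ V → c ∈ V →
      CellIn (𝒜.G b V) 2 ∧ CellIn (𝒜.G b V) 3) :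
    rankCH2 (pullback s s) ≤ 4 := by
  classical
  choose S a1 a2 a3 using fun j => h1 L M X s 𝒜 j h
  obtain ⟨δ, hδ⟩ := h2 L M X s 𝒜 h
  have hcell : ∀ j P b, 𝒜.cells (𝒜.J j P) b = cellOf (red M j P b) := fun j P b =>
    congrArg Prod.fst (𝒜.key_J j P b)
  have hA : ∀ z, z ∉ 𝒜.J _ '' S (𝒜.cells z) → Order.height z = 2 → z = δ := fun z hz h0 => by
    obtain ⟨P, hP⟩ := 𝒜.mem_cells z
    have e : ∀ b, cellOf (red M _ P b) = 𝒜.cells z b := fun b => by rw [← hcell, hP]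
    rw [← hP]
    exact (hδ _ P e fun hl => hz ⟨P, a3 _ P e hl, hP⟩).2 (by rw [hP, h0])
  have hZ : ∀ j, ∀ z ∈ 𝒜.J j '' S j, 𝒜.cells z = j := by
    rintro j _ ⟨P, hP, rfl⟩
    exact funext fun b => (hcell j P b).trans (a2 j P hP b)
  have g1 : ∃ c ∈ Z2 (pullback s s), ∀ z ∈ 𝒜.J _ '' S fun _ => 1, Order.height z = 2 →
      Finsupp.single z 1 = c := by
    by_cases e : ∃ z ∈ 𝒜.J _ '' S fun _ => 1, Order.height z = 2
    · obtain ⟨z, b1, b2⟩ := e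
      refine ⟨Finsupp.single z 1, Finsupp.single_mem_supported ℚ _ b2, fun z' b3 b4 => ?_⟩
      rw [(a1 _).sub z' b3 z b1 (by rw [b4]; rfl) (by rw [b2]; rfl)]
    · exact ⟨0, zero_mem _, fun z b1 b2 => absurd ⟨z, b1, b2⟩ e⟩
  have g2 : ∃ c ∈ Z2 (pullback s s), Order.height δ = 2 → Finsupp.single δ 1 = c := by
    by_cases e : Order.height δ = 2
    · exact ⟨_, Finsupp.single_mem_supported ℚ _ e, fun _ => rfl⟩
    · exact ⟨0, zero_mem _, fun e' => absurd e' e⟩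
  choose v hv hv' using hS
  obtain ⟨v₀, hv₀, hv₀'⟩ := g2
  obtain ⟨v₁, hv₁, hv₁'⟩ := g1
  refine (rank_le_of _ (Sum.elim v fun b : Bool => bif b then v₀ else v₁) (by
    rintro (b | b)
    · exact hv b
    · cases b
      exacts [hv₁, hv₀]) ?_).trans (by simp)
  set V := Rat (pullback s s) ⊔
    Submodule.span ℚ (Set.range (Sum.elim v fun b : Bool => bif b then v₀ else v₁))
  have hR : Rat _ ≤ V := le_sup_left
  have b1 : ∀ z, z ∉ 𝒜.J _ '' S (𝒜.cells z) → Order.height z = 2 → Good V z := fun z hz h0 => by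
    obtain rfl := hA z hz h0
    exact Submodule.mem_sup_right (Submodule.subset_span ⟨.inr true, (hv₀' h0).symm⟩)
  have b2 : ∀ z, z ∈ 𝒜.J _ '' S (𝒜.cells z) → Order.height z = 2 →
      (𝒜.cells z false = 1 ∧ 𝒜.cells z true = 1) → Good V z := by
    rintro z hz h0 ⟨e1, e2⟩
    have e : 𝒜.cells z = fun _ => 1 := funext fun b => by cases b; exacts [e1, e2]
    rw [e] at hz
    exact Submodule.mem_sup_right (Submodule.subset_span ⟨.inr false, (hv₁' z hz h0).symm⟩)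
  have b4 : ∀ b z, (𝒜.cells z b = 2 ∨ 𝒜.cells z b = 3) → Order.height z = 2 → Good V z :=
    fun b z hz h0 => by
    obtain ⟨P, hP⟩ := 𝒜.mem_cells z
    have e := hv' b V hR (Submodule.mem_sup_right (Submodule.subset_span ⟨.inl b, rfl⟩))
    rcases hz with hz | hz
    · exact e.1 _ (red M _ P b) (red_iso hB h _ P b).1 (red_iso hB h _ P b).2
        (by rw [← hcell, hP, hz]) z (by rw [← 𝒜.key_J, hP]) h0
    · exact e.2 _ (red M _ P b) (red_iso hB h _ P b).1 (red_iso hB h _ P b).2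
        (by rw [← hcell, hP, hz]) z (by rw [← 𝒜.key_J, hP]) h0
  have key : ∀ n z, Order.height z = 2 →
      7 ≤ (𝒜.cells z false).val + (𝒜.cells z true).val + n → Good V z := by
    intro n
    induction n with
    | zero =>
      intro z _ e
      have := (𝒜.cells z false).2
      have := (𝒜.cells z true).2
      omega
    | succ n ih =>
      intro z h0 hn
      by_cases e : z ∈ 𝒜.J _ '' S (𝒜.cells z)
      swap
      · exact b1 z e h0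
      by_cases hd : 4 - nz (𝒜.cells z false) - nz (𝒜.cells z true) = 2
      · rcases cases2 _ _ hd with c | c | c
        exacts [b2 z e h0 c, b4 _ z c h0, b4 _ z c h0]
      refine (a1 _).van V hR (fun z' c1 c2 ⟨w, c3, c4⟩ => ?_) z e h0 hd
      have c5 : ∀ b, 𝒜.cells z b ≤ 𝒜.cells z' b := fun b => by
        rw [← hZ _ w c3]
        exact 𝒜.mono _ _ (c4.map (pr s b).continuous)
      by_cases c6 : 𝒜.cells z' = 𝒜.cells z
      · exact b1 z' (by rw [c6]; exact c2) c1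
      refine ih z' c1 ?_
      have c7 := Fin.le_def.1 (c5 false)
      have c8 := Fin.le_def.1 (c5 true)
      have c9 : (𝒜.cells z' false).val ≠ 𝒜.cells z false ∨
          (𝒜.cells z' true).val ≠ 𝒜.cells z true := by
        by_contra hc
        push Not at hc
        refine c6 (funext fun b => ?_)
        cases b
        exacts [Fin.ext hc.1, Fin.ext hc.2]
      omega
  exact fun z hz => key 7 z hz (by omega)

end Pool.Agent.MP_b834b3_ag.G18
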