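import Pool.Agent.MP_b834b3_ag.h.SpecB

/-! Genus eighteen: the unipotent radical moves every plane into the first chart. -/

namespace Pool.Agent.MP_b834b3_ag.G18

open Matrix

namespace MovL

variable {F : Type} [Field F]

theorem r0 (hG : GrpS) (u x : Fin 9 → F) : x ᵥ* r1 u 0 = x := by
  rw [hG.r1_apply]
  simp [bf_eq, qf]

theorem r2 (hG : GrpS) (a b : Fin 9) (hb : b ≠ 4) (h0 : 3 ≤ b.val) (x : Fin 9 → F) (c : Fin 9)
    (hc : c.val < 3) : (x ᵥ* r1 (ev F a) (ev F b)) c = x c + if c = a then x b.rev else 0 := by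
  have e1 : bf x (ev F b) = x b.rev := by
    have := bf_ev x b.rev (by revert hb; revert b; decide)
    rwa [Fin.rev_rev] at this
  have e2 : qf (ev F b) = 0 := by
    fin_cases b <;> simp_all [qf, ev]
  have e3 : ev F b c = 0 := Pi.single_eq_of_ne (by rintro rfl; omega) _
  rw [hG.r1_apply, e1, e2]
  simp only [Pi.sub_apply, Pi.add_apply, Pi.smul_apply, e3, smul_eq_mul, mul_zero, zero_mul,
    sub_zero]
  simp only [ev, Pi.single_apply, mul_ite, mul_one, mul_zero]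

theorem m0 : mv (0 : Fin 12 → F) = ![0, 0, 0] := by
  ext a c
  fin_cases a <;> fin_cases c <;> rfl

theorem m1 : mv (![0, 0, 0, 0, 0, 0, 0, 0, 0, 0, 0, 1] : Fin 12 → F) = ![0, 0, ev F 5] := by
  ext a c
  fin_cases a <;> fin_cases c <;> rfl

theorem m2 : mv (![0, 0, 0, 0, 0, 0, 0, 0, 1, 0, 0, 0] : Fin 12 → F) = ![0, ev F 5, 0] := by
  ext a c
  fin_cases a <;> fin_cases c <;> rfl

theorem m3 : mv (![0, 0, 0, 0, 0, 0, 0, 0, 0, 1, 0, 0] : Fin 12 → F) = ![0, 0, ev F 3] := by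
  ext a c
  fin_cases a <;> fin_cases c <;> rfl

theorem mn0 (M : Matrix (Fin 3) (Fin 9) F) (t : Fin 12 → F) : mn 0 (M * nV t) =
    (of fun a (c : Fin 3) => (((M a ᵥ* r1 (ev F 2) (mv t 2)) ᵥ* r1 (ev F 1) (mv t 1)) ᵥ*
      r1 (ev F 0) (mv t 0)) (ff 0 c)).det := by
  simp only [vecMul_vecMul]
  rfl

theorem par_mov (hG : GrpS) (j : Fin 4) (v : Fin 12 → F) (h : j ≠ 0 → v 0 = 0) :
    ∃ t : Fin 12 → F, mn 0 (par j v * nV t) ≠ 0 := by
  have lt : ∀ c : Fin 3, (ff 0 c).val < 3 := by decide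
  fin_cases j
  · refine ⟨0, ?_⟩
    simp only [mn0, m0, cons_val, r0 hG]
    simp [det_fin_three, par, ff]
  · refine ⟨![0, 0, 0, 0, 0, 0, 0, 0, 0, 0, 0, 1], ?_⟩
    simp only [mn0, m1, cons_val, r0 hG, r2 hG 2 5 (by decide) (by decide) _ _ (lt _)]
    simp [det_fin_three, par, ff, h, Fin.rev]
  · refine ⟨![0, 0, 0, 0, 0, 0, 0, 0, 1, 0, 0, 0], ?_⟩
    simp only [mn0, m2, cons_val, r0 hG, r2 hG 1 5 (by decide) (by decide) _ _ (lt _)]
    simp [det_fin_three, par, ff, h, Fin.rev]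
  · refine ⟨![0, 0, 0, 0, 0, 0, 0, 0, 0, 1, 0, 0], ?_⟩
    simp only [mn0, m3, cons_val, r0 hG, r2 hG 2 3 (by decide) (by decide) _ _ (lt _)]
    simp [det_fin_three, par, ff, h, Fin.rev]

end MovL

theorem mov (hB : Base) (hG : GrpS) : MovS := by
  intro F _ _ N hI hR
  have h1 := hB.ech F N hI hR
  obtain ⟨j, hj⟩ : ∃ j, j = cellOf N := ⟨_, rfl⟩
  rw [← hj] at h1
  obtain ⟨a1, a2⟩ := hB.pt.nm_one F (ff j) N h1
  have hT : Tot (nm (ff j) N) := Tot.mul hI.1 _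
  have e := hB.par.eq F j _ a1 hT
  obtain ⟨v, hv⟩ : ∃ v : Fin 12 → F, nm (ff j) N = par j v := ⟨_, e⟩
  obtain ⟨t, ht⟩ := MovL.par_mov hG j v fun h0 => by
    have z : mn 0 N = 0 := by
      by_contra c
      exact h0 (by rw [hj, cellOf, if_pos c])
    have z' : mn 0 (par j v) = 0 := by
      rw [← hv, mn, hB.pt.det_nm, ← mn, z, zero_div]
    rcases hB.par.mn0 F j v h0 with k | k
    · rw [← k, z']
    · rw [← neg_eq_zero, ← k, z']
  refine ⟨t, ?_⟩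
  rw [a2, hv, Matrix.mul_assoc, mn, submatrix_mul _ _ id id _ Function.bijective_id, submatrix_id_id,
    det_mul]
  exact mul_ne_zero h1 ht

end Pool.Agent.MP_b834b3_ag.G18
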