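import Pool.Agent.MP_b834b3_ag.h.SpecA

/-! Genus eighteen: uniqueness in the normal form. -/

namespace Pool.Agent.MP_b834b3_ag.G18

open Matrix

namespace NfL

variable {F : Type} [Field F]

theorem dot (q : Fin 26 → F) (ξ : Fin 16 → F) (x : Fin 9 → F) :
    ξ ᵥ* gam x ⬝ᵥ (pat q *ᵥ Pi.single 0 1) =
      x 0 * (q 2 * ξ 7 + q 0 * ξ 11 - q 3 * ξ 13) + x 1 * (-ξ 7 - q 1 * ξ 11 - q 3 * ξ 14) +
      x 2 * (q 3 * ξ 7 - q 1 * ξ 13 - q 0 * ξ 14) + x 3 * (q 3 * ξ 11 + ξ 13 + q 2 * ξ 14) +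
      x 4 * (q 3 * ξ 3 + ξ 5 + q 2 * ξ 6 + q 1 * ξ 9 + q 0 * ξ 10 - q 3 * ξ 12) +
      x 5 * (-(q 1 * ξ 1) - q 0 * ξ 2 + q 3 * ξ 4) + x 6 * (-ξ 1 - q 2 * ξ 2 - q 3 * ξ 8) +
      x 7 * (-(q 3 * ξ 1) + q 2 * ξ 4 + q 0 * ξ 8) + x 8 * (q 3 * ξ 2 + ξ 4 + q 1 * ξ 8) := by
  rw [vecMul_gam, mulVec_single_one]
  simp [dotProduct, Fin.sum_univ_succ, pat]
  ring

theorem vp (q : Fin 26 → F) (η : Fin 16 → F) : η ᵥ* pat q =
    ![q 0 * η 10 + q 1 * η 9 + q 2 * η 6 + q 3 * (η 3 - η 12) + η 5,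
    q 4 * η 10 + q 5 * η 9 + q 6 * η 6 + q 7 * (η 3 - η 12) + η 2,
    q 8 * η 10 + q 9 * η 9 + q 10 * η 6 + q 11 * (η 3 - η 12) + η 1 + q 20 * η 14,
    q 12 * η 10 + q 13 * η 9 + q 14 * η 6 + q 15 * (η 3 - η 12) + η 8 + q 23 * η 13 + q 21 * η 14,
    q 16 * η 10 + q 17 * η 9 + q 18 * η 6 + q 19 * (η 3 - η 12) + η 4 + q 25 * η 11 +
      q 24 * η 13 + q 22 * η 14] := by
  ext i
  fin_cases i <;> simp [vecMul, dotProduct, Fin.sum_univ_succ, pat] <;> ring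

theorem ex4 (A : Fin 3 → Fin 4 → F) : ∃ z : Fin 4 → F, z ≠ 0 ∧
    ∀ a, A a 0 * z 0 + A a 1 * z 1 + A a 2 * z 2 + A a 3 * z 3 = 0 := by
  classical
  obtain ⟨z, h, e⟩ := (exists_mulVec_eq_zero_iff (M := of ![A 0, A 1, A 2, 0])).2
    (det_eq_zero_of_row_eq_zero 3 fun _ => rfl)
  refine ⟨z, h, fun a => ?_⟩
  have := congrFun e a.castSucc
  fin_cases a <;> simpa [mulVec, dotProduct, Fin.sum_univ_four] using this

theorem shape {q : Fin 26 → F} {ξ : Fin 16 → F} (hD : Dq q ≠ 0)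
    (h : ∀ x, ξ ᵥ* gam x ⬝ᵥ (pat q *ᵥ Pi.single 0 1) = 0) (h' : ξ ᵥ* pat q = 0) :
    ξ = ![ξ 0, 0, 0, ξ 3, 0, 0, 0, 0, 0, 0, 0, 0, ξ 3, 0, 0, ξ 15] := by
  obtain ⟨n0, d0⟩ := mul_ne_zero_iff.1 (left_ne_zero_of_mul hD)
  simp only [dot] at h
  have e : ∀ i, _ := fun i => h (Pi.single i 1)
  have e0 := e 0
  have e1 := e 1
  have e2 := e 2
  have e3 := e 3
  have e5 := e 5
  have e6 := e 6
  have e7 := e 7
  have e8 := e 8
  simp only [ne_eq, Fin.reduceEq, not_false_eq_true, Pi.single_eq_of_ne, Pi.single_eq_same,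
    zero_mul, one_mul, add_zero, zero_add] at e0 e1 e2 e3 e5 e6 e7 e8
  have a11 : ξ 11 = 0 := (mul_eq_zero_iff_left n0).1 (by
    linear_combination e0 + q 2 * e1 + q 3 * e3)
  have a14 : ξ 14 = 0 := (mul_eq_zero_iff_left n0).1 (by
    linear_combination -e2 - q 3 * e1 - q 1 * e3)
  have a2 : ξ 2 = 0 := (mul_eq_zero_iff_left n0).1 (by
    linear_combination -e5 + q 1 * e6 + q 3 * e8)
  have a8 : ξ 8 = 0 := (mul_eq_zero_iff_left n0).1 (by
    linear_combination e7 - q 3 * e6 - q 2 * e8)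
  have a7 : ξ 7 = 0 := by linear_combination -e1 - q 1 * a11 - q 3 * a14
  have a13 : ξ 13 = 0 := by linear_combination e3 - q 3 * a11 - q 2 * a14
  have a1 : ξ 1 = 0 := by linear_combination -e6 - q 2 * a2 - q 3 * a8
  have a4 : ξ 4 = 0 := by linear_combination e8 - q 3 * a2 - q 1 * a8
  rw [vp, a1, a2, a4, a8, a11, a13, a14] at h'
  have b := eq_zero_of_mulVec_eq_zero d0 (v := ![ξ 10, ξ 9, ξ 6, ξ 3 - ξ 12]) (by
    ext i
    have := congrFun h' i.succ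
    fin_cases i <;> simpa [mulVec, dotProduct, Fin.sum_univ_four] using this)
  have a10 : ξ 10 = 0 := congrFun b 0
  have a9 : ξ 9 = 0 := congrFun b 1
  have a6 : ξ 6 = 0 := congrFun b 2
  have a12 : ξ 3 - ξ 12 = 0 := congrFun b 3
  have a5 : ξ 5 = 0 := by simpa [a10, a9, a6, a12] using congrFun h' 0
  ext i
  fin_cases i
  exacts [rfl, a1, a2, rfl, a4, a5, a6, a7, a8, a9, a10, a11, (sub_eq_zero.1 a12).symm, a13, a14,
    rfl]

theorem act (a b c : F) (u : Fin 9 → F) :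
    ![c, 0, 0, b, 0, 0, 0, 0, 0, 0, 0, 0, b, 0, 0, a] ᵥ* gam u =
      ![c * u 4, c * u 8 - b * u 1, c * u 7 + b * u 0, b * u 4, c * u 6 - b * u 3, 0, 0,
        b * u 6 - a * u 3, c * u 5 + b * u 2, 0, 0, b * u 5 + a * u 2, b * u 4, b * u 8 - a * u 1,
        b * u 7 + a * u 0, a * u 4] := by
  rw [vecMul_gam]
  simp

theorem first (q : Fin 26 → F) :
    Tot (U0 F) ∧ am (U0 F) * pat q = 0 ∧ ZD (pat q *ᵥ Pi.single 0 1) (U0 F) (Pi.single 15 1) := by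
  refine ⟨(tot_iff _).2 ⟨fun a => ?_, fun a b => ?_⟩, ?_, by simp, fun a => ?_, fun x => ?_⟩
  · fin_cases a <;> simp [U0, ev, qf]
  · fin_cases a <;> fin_cases b <;> simp [U0, ev, bf_eq]
  · have key : ∀ s : Fin 16 → F, s 7 = 0 → s 15 = 0 → am (U0 F) *ᵥ s = 0 := fun s h h' => by
      rw [am, ← mulVec_mulVec, ← mulVec_mulVec, gam_mulVec _ s]
      simp [U0, ev, gam_mulVec, h, h']
    ext i j
    exact congrFun (key (fun k => pat q k j) (by fin_cases j <;> rfl) (by fin_cases j <;> rfl)) i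
  · rw [vecMul_gam]
    fin_cases a <;> simp [U0, ev]
  · rw [dot]
    simp

end NfL

open NfL in
theorem nf (hC : CliffS) : NfS := by
  intro F _ _ q
  refine ⟨first q, fun M ξ hD _ hR hM ⟨x0, hA, hZ⟩ => ?_⟩
  have hp : ∀ η, An M η → η ᵥ* pat q = 0 := fun η h => by
    obtain ⟨c, rfl⟩ := hC.row_an F M η hR h
    rw [vecMul_vecMul, hM, vecMul_zero]
  have e := shape hD hZ (hp ξ hA)
  generalize ξ 0 = c, ξ 3 = b, ξ 15 = a at e
  subst e
  obtain ⟨n1, n5⟩ := mul_ne_zero_iff.1 (right_ne_zero_of_mul hD)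
  obtain ⟨n0, n3⟩ := mul_ne_zero_iff.1 n1
  have r : ∀ i, c * M i 4 = 0 ∧ c * M i 8 = b * M i 1 ∧ c * M i 7 + b * M i 0 = 0 ∧
      b * M i 4 = 0 ∧ c * M i 6 = b * M i 3 ∧ b * M i 6 = a * M i 3 ∧
      c * M i 5 + b * M i 2 = 0 ∧ b * M i 5 + a * M i 2 = 0 ∧ b * M i 8 = a * M i 1 ∧
      b * M i 7 + a * M i 0 = 0 ∧ a * M i 4 = 0 := fun i =>
    have h := (act a b c (M i)).symm.trans (hA i)
    ⟨congrFun h 0, sub_eq_zero.1 (congrFun h 1), congrFun h 2, congrFun h 3,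
      sub_eq_zero.1 (congrFun h 4), sub_eq_zero.1 (congrFun h 7), congrFun h 8, congrFun h 11,
      sub_eq_zero.1 (congrFun h 13), congrFun h 14, congrFun h 15⟩
  have nz : M 0 ≠ 0 := fun h => by
    simpa using congrFun (hR (Pi.single 0 1) (by simpa [Matrix.row] using h)) 0
  have o : ∀ y : Fin 9 → F, y 4 = 0 → (∀ i, bf (M i) y = 0) → c * y 7 + b * y 0 = 0 ∧
      c * y 8 - b * y 1 + q 20 * (b * y 7 + a * y 0) = 0 ∧
      c * y 5 + b * y 2 + q 23 * (b * y 8 - a * y 1) + q 21 * (b * y 7 + a * y 0) = 0 ∧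
      c * y 6 - b * y 3 + q 25 * (b * y 5 + a * y 2) + q 24 * (b * y 8 - a * y 1) +
        q 22 * (b * y 7 + a * y 0) = 0 := fun y y4 hy => by
    have h := hp _ (hC.perp F _ M y _ hy hA)
    rw [act, vp] at h
    exact ⟨by simpa using congrFun h 1, by simpa using congrFun h 2, by simpa using congrFun h 3,
      by simpa using congrFun h 4⟩
  rcases eq_or_ne a 0 with rfl | a0
  · exfalso
    obtain rfl : b = 0 := by
      by_contra b0
      refine nz (funext fun j => ?_)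
      have := r 0
      fin_cases j <;> simp_all
    have c0 : c ≠ 0 := fun h => x0 (by simp [h])
    obtain ⟨z, z0, hz⟩ := ex4 fun i => ![M i 0, M i 1, M i 2, M i 3]
    have := o ![0, 0, 0, 0, 0, z 3, z 2, z 1, z 0] rfl fun i => by simpa [bf_eq] using hz i
    refine z0 (funext fun j => ?_)
    fin_cases j <;> simp_all
  obtain ⟨z, z0, hz⟩ := ex4 fun i => ![M i 8, M i 7, M i 6, M i 5]
  obtain ⟨t1, t2, t3, t4⟩ := o ![z 0, z 1, z 2, z 3, 0, 0, 0, 0, 0] rfl fun i => by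
    have := hz i
    simp only [cons_val] at this
    simp only [bf_eq, cons_val]
    linear_combination this
  clear o hp hA hZ hM hD x0
  obtain rfl : b = 0 := by
    by_contra b0
    refine z0 (funext fun j => ?_)
    fin_cases j <;> simp_all
  have z3 : z 0 = 0 ∧ z 1 = 0 ∧ z 2 = 0 := by simp_all
  have z4 : z 3 ≠ 0 := fun h => z0 (funext fun j => by fin_cases j <;> simp [h, z3])
  have m : ∀ i, M i 0 = 0 ∧ M i 1 = 0 ∧ M i 2 = 0 ∧ M i 3 = 0 ∧ M i 4 = 0 ∧ M i 5 = 0 := fun i => by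
    have := r i
    have := hz i
    simp_all
  obtain rfl : c = 0 := by
    by_contra c0
    refine nz (funext fun j => ?_)
    have := r 0
    have := m 0
    fin_cases j <;> simp_all
  refine ⟨⟨of fun i => ![M i 8, M i 7, M i 6], ?_⟩, a, ?_⟩
  · ext i j
    have := m i
    fin_cases j <;> simp [mul_apply, Fin.sum_univ_three, U0, ev, this]
  · ext j
    fin_cases j <;> simp

end Pool.Agent.MP_b834b3_ag.G18
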