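import Pool.Agent.MP_b834b3_ag.h.SpecC

/-! Genus eighteen: over a closed point there is one point of dimension two, and a centre on the
surface is the centre of a place. -/

namespace Pool.Agent.MP_b834b3_ag.G18

open AlgebraicGeometry CategoryTheory Algebra IsLocalRing Limits Matrix

namespace OneL

theorem zero_ker {A F : Type} [CommRing A] [Algebra K A] [Field F] [Algebra K F] (β : A →ₐ[K] F)
    (I : Ideal A) (hI : RingHom.ker β = I) (h : ∀ a, IsIntegral K (β a)) :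
    trdeg K (A ⧸ I) = 0 := by
  subst hI
  have : Algebra.IsAlgebraic K (A ⧸ RingHom.ker β) := ⟨fun x => by
    obtain ⟨a, rfl⟩ := Ideal.Quotient.mk_surjective x
    exact ((isIntegral_algHom_iff (Ideal.kerLiftAlg β) (Ideal.kerLiftAlg_injective β)).1
      (h a)).isAlgebraic⟩
  exact trdeg_eq_zero

theorem as_sp {A B : Type} [CommRing A] [Algebra K A] [CommRing B] [Algebra K B] (f : A →ₐ[K] B)
    (P : Spec (CommRingCat.of B)) : (sp f.toRingHom P).asIdeal = P.asIdeal.comap f := rfl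

variable {L : Type} [Field L] [Algebra K L] {M : Matrix (Fin 3) (Fin 9) L} {X : Scheme.{0}}
  {s : X ⟶ Spec (CommRingCat.of K)} (𝒜 : Atl M s)

theorem gen_iff (j : Fin 4) (Q : Spec (CommRingCat.of (Ach M j))) :
    𝒜.ch j Q = (sp (chart M (ff 0)).val.toRingHom ≫ 𝒜.ch 0) (closedPoint L) ↔ Q.asIdeal = ⊥ := by
  have e : (sp (chart M (ff j)).val.toRingHom (closedPoint L)).asIdeal = ⊥ := by
    change (maximalIdeal L).comap (chart M (ff j)).val.toRingHom = ⊥
    rw [maximalIdeal_eq_bot]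
    exact Ideal.comap_bot_of_injective _ Subtype.val_injective
  rw [𝒜.gen 0 j, Scheme.Hom.comp_apply, (𝒜.ch j).isOpenEmbedding.injective.eq_iff, ← e]
  exact ⟨fun h => by rw [h], fun h => PrimeSpectrum.ext h⟩

theorem pr_J (j : Bool → Fin 4) (P : Spec (CommRingCat.of (Bq M j))) (b : Bool) :
    pr s b (𝒜.J j P) = 𝒜.ch (j b) (sp (inc K (Ach M) j b).toRingHom P) := by
  rw [← Scheme.Hom.comp_apply, 𝒜.J_pr, Scheme.Hom.comp_apply]

theorem zero (hB : Base) (h : ChAt M) (j : Fin 4) (Q : Spec (CommRingCat.of (Ach M j)))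
    (hj : (𝒜.key (𝒜.ch j Q)).1 = j) (ha : Alg (𝒜.key (𝒜.ch j Q))) :
    trdeg K (Ach M j ⧸ Q.asIdeal) = 0 := by
  let β := IsScalarTower.toAlgHom K (Ach M j) Q.asIdeal.ResidueField
  have e : 𝒜.key (𝒜.ch j Q) = pt ((el M (ff j)).map β) := by
    rw [← sp_res_point (𝒜.ch j) Q]
    exact 𝒜.key_ch j _ β
  rw [e] at hj ha
  have hc : cellOf ((el M (ff j)).map β) = j := hj
  have h1 : ((el M (ff j)).map β).submatrix id (ff j) = 1 := by
    rw [submatrix_map, h.one _ (h.ne j)]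
    exact Matrix.map_one _ (map_zero β) (map_one β)
  have h2 := (hB.pt.alg _ _).1 ha
  rw [hc, hB.pt.nm_self _ _ _ h1] at h2
  refine zero_ker β _ (Ideal.ker_algebraMap_residueField _) fun a => ?_
  have h3 : adjoin K (ent (el M (ff j))) ≤ (integralClosure K _).comap β := by
    refine adjoin_le ?_
    rintro _ ⟨x, rfl⟩
    exact (h2 x.1 x.2).isIntegral
  rw [h.gen] at h3
  exact h3 (mem_top (x := a))

theorem gen (hB : Base) (h : ChAt M) (b : Bool) (z : ↑(pullback s s))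
    (ha : Alg (𝒜.key (pr s b z))) (hz : Order.height z = 2) :
    pr s (!b) z = (sp (chart M (ff 0)).val.toRingHom ≫ 𝒜.ch 0) (closedPoint L) := by
  obtain ⟨P, hP⟩ := 𝒜.mem_cells z
  have hj : (𝒜.key (pr s b z)).1 = 𝒜.cells z b := rfl
  generalize 𝒜.cells z = j at P hP hj
  subst hP
  rw [pr_J] at ha hj
  have h0 := zero 𝒜 hB h _ _ hj ha
  have := 𝒜.lft h
  have h2 := (height_chart (pullback.fst s s ≫ s) (𝒜.J j) (𝒜.hJ j) P 2).1 hz
  rw [pr_J, gen_iff]
  by_contra hne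
  obtain ⟨r, hr, hr0⟩ := Submodule.exists_mem_ne_zero_of_ne_bot hne
  have h1 := trdeg_quot_lt (n := 2) (h.dim (j (!b))) _ hr hr0
  let q := Ideal.Quotient.mkₐ K P.asIdeal
  have hk : ∀ c, RingHom.ker (q.comp (inc K (Ach M) j c)) =
      (sp (inc K (Ach M) j c).toRingHom P).asIdeal := fun c => by
    ext x
    exact Ideal.Quotient.eq_zero_iff_mem
  have h3 := hB.add K _ _ _ (q.comp (inc K (Ach M) j b)) (q.comp (inc K (Ach M) j (!b))) 0 1
    (fun d => ⟨d, ?_, 1, one_mem _, one_ne_zero, one_mul d⟩) (by rw [hk]; exact h0.le)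
    (by rw [hk]; exact Order.le_of_lt_succ (by rw [Cardinal.succ_natCast]; exact_mod_cast h1))
  · rw [h2] at h3
    exact absurd (Nat.cast_le.1 h3) (by norm_num)
  · obtain ⟨x, rfl⟩ := Ideal.Quotient.mkₐ_surjective K P.asIdeal d
    have hx : x ∈ adjoin K (Set.range (inc K (Ach M) j b) ∪
      Set.range (inc K (Ach M) j (!b))) := by rw [inc_gen]; exact mem_top
    have := Subalgebra.mem_map.2 ⟨x, hx, rfl (a := q x)⟩
    rw [AlgHom.map_adjoin, Set.image_union, ← Set.range_comp, ← Set.range_comp] at this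
    exact this

theorem fin (hG : Geo2S) (h : ChAt M)
    (hL : ∀ a : L, IsAlgebraic K a → a ∈ Set.range (algebraMap K L)) (j : Bool → Fin 4) (b : Bool)
    (P Q : Spec (CommRingCat.of (Bq M j)))
    (he : sp (inc K (Ach M) j b).toRingHom P = sp (inc K (Ach M) j b).toRingHom Q)
    (h0 : trdeg K (Ach M (j b) ⧸ (sp (inc K (Ach M) j b).toRingHom P).asIdeal) = 0)
    (g1 : (sp (inc K (Ach M) j (!b)).toRingHom P).asIdeal = ⊥)
    (g2 : (sp (inc K (Ach M) j (!b)).toRingHom Q).asIdeal = ⊥) : P = Q := by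
  have := h.ft (ff (j b))
  have : CharZero K := charZero_of_injective_algebraMap (algebraMap ℂ K).injective
  have e := congrArg PrimeSpectrum.asIdeal he
  rw [as_sp] at h0 g1 g2
  rw [as_sp, as_sp] at e
  exact PrimeSpectrum.ext (hG K L (Ach M (j b)) (Bq M j) (chart M (ff (j (!b))))
    (inc K (Ach M) j b) (inc K (Ach M) j (!b)) hL (inc_gen j b) P.asIdeal Q.asIdeal P.isPrime
    Q.isPrime e h0 g1 g2)

end OneL

theorem one_s (hB : Base) (hG : Geo2S) : OneS := by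
  intro L _ _ M X s 𝒜 b h hL z z' he ha hz hz'
  have g1 := OneL.gen 𝒜 hB h b z ha hz
  have g2 := hz'.elim (OneL.gen 𝒜 hB h b z' (he ▸ ha)) id
  obtain ⟨P, hP⟩ := 𝒜.mem_cells z
  obtain ⟨Q, hQ⟩ := 𝒜.mem_J (𝒜.cells z) z' fun c => by
    have : pr s c z' = pr s c z := by
      by_cases hc : c = b
      · rw [hc, he]
      · rw [show c = !b by cases b <;> cases c <;> simp_all, g1, g2]
    rw [this]
    exact 𝒜.mem _
  have hj : (𝒜.key (pr s b z)).1 = 𝒜.cells z b := rfl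
  generalize 𝒜.cells z = j at P Q hP hQ hj
  subst hP hQ
  rw [OneL.pr_J] at ha hj
  rw [OneL.pr_J, OneL.gen_iff] at g1 g2
  rw [OneL.pr_J, OneL.pr_J, (𝒜.ch (j b)).isOpenEmbedding.injective.eq_iff] at he
  rw [OneL.fin hG h hL j b P Q he (OneL.zero 𝒜 hB h _ _ hj ha) g1 g2]

open MvPolynomial

namespace OneL

/-- Minors commute with homomorphisms. -/
theorem mn_map {R S : Type} [CommRing R] [CommRing S] (σ : R →+* S) (j : Fin 4)
    (N : Matrix (Fin 3) (Fin 9) R) : mn j (N.map σ) = σ (mn j N) := by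
  rw [mn, mn, RingHom.map_det]
  rfl

/-- A point of a chart with values in the ring of a place gives an integral basis. -/
theorem cen (hB : Base) {L : Type} [Field L] [Algebra K L] {M : Matrix (Fin 3) (Fin 9) L}
    (hC : ChAt M) {F : Type} [Field F] [Algebra K F] (p : Pl F) {N : Matrix (Fin 3) (Fin 9) F}
    {j : Fin 4} (hj : mn j N ≠ 0) (χ : Ach M j →ₐ[K] p.O)
    (hχ : (el M (ff j)).map (p.O.val.comp χ) = nm (ff j) N) :
    Cen p N ((el M (ff j)).map χ) := by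
  refine ⟨⟨(N.submatrix id (ff j))⁻¹, ?_, hχ⟩, (hB.pt.rk_det _ _).2 ⟨ff j, ?_⟩⟩
  · rw [Matrix.det_nonsing_inv, Ring.inverse_eq_inv]
    exact inv_ne_zero hj
  · have h1 : mn j (el M (ff j)) = 1 := by rw [mn, hC.one _ (hC.ne j), Matrix.det_one]
    have h2 := mn_map (p.π.comp χ).toRingHom j (el M (ff j))
    rw [h1, map_one] at h2
    exact ne_of_eq_of_ne h2 one_ne_zero

end OneL

/-- Centres of valuation rings are centres of places. -/
theorem ctr_s (hB : Base) : CtrS := by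
  intro L _ _ M X s 𝒜 F F' _ _ _ _ f N j χ V x hC hj hχ ⟨μ, hμ, hx⟩
  have hm := 𝒜.mem x
  generalize (𝒜.key x).1 = j' at hm
  obtain ⟨α, hα⟩ := lift_chart (𝒜.ch j') μ (hx ▸ hm)
  have h1 : sp (f.comp χ).toRingHom ≫ 𝒜.ch j = sp (V.subtype.comp α) ≫ 𝒜.ch j' := by
    rw [← hμ, hα, sp_comp, Category.assoc]
  obtain ⟨h2, h3⟩ := 𝒜.tr j j' F' _ _ h1
  have e : (el M (ff j)).map (f.comp χ).toRingHom = (nm (ff j) N).map f.toRingHom := by
    rw [← hχ]
    rfl
  obtain ⟨-, hN⟩ := hB.pt.nm_one F (ff j) N hj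
  have hj' : mn j' N ≠ 0 := by
    rw [e, OneL.mn_map, map_ne_zero, mn, hB.pt.det_nm] at h2
    exact (div_ne_zero_iff.1 h2).1
  have h4 : nm (ff j') (nm (ff j) N) = nm (ff j') N := by
    rw [← hB.pt.nm_mul F (ff j') _ (nm (ff j) N) hj, ← hN]
  rw [e, hB.pt.nm_map, h4] at h3
  have h5 : ∀ c, (α (algebraMap K _ c) : F') = algebraMap K F' c := fun c => by
    have h := congrArg (· ≫ s) h1
    simp only [Category.assoc, 𝒜.hs, ← sp_comp] at h
    exact (RingHom.congr_fun (sp_inj h) c).symm.trans ((f.comp χ).commutes c)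
  obtain ⟨p, hp, hv⟩ := hB.pl.ofVal F F' f V fun c => h5 c ▸ (α (algebraMap K _ c)).2
  have hI : Iso N := by
    rw [hN, ← hχ]
    exact hB.pt.iso_mul F _ _ ((hB.pt.iso_map _ F χ _).1 (hC.iso _ (hC.ne j)))
  obtain ⟨χ', hχ'⟩ := hC.univ j' F N hI hj'
  have h6 : ∀ a, f (χ' a) = α a := by
    have h : f.comp χ' = { V.subtype.comp α with commutes' := h5 } := by
      refine AlgHom.ext_of_adjoin_eq_top (hC.gen _) ?_
      rintro _ ⟨y, rfl⟩
      exact (congrArg f (congrFun₂ hχ' y.1 y.2)).trans (congrFun₂ h3 y.1 y.2).symm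
    exact fun a => AlgHom.congr_fun h a
  let γ : Ach M j' →ₐ[K] p.O := χ'.codRestrict p.O fun a => (hp _).2 (h6 a ▸ (α a).2)
  refine ⟨p, (el M (ff j')).map γ, hp, OneL.cen hB hC p hj' γ hχ', ?_⟩
  refine (𝒜.key_ch j' p.E (p.π.comp γ)).symm.trans (congrArg 𝒜.key ?_)
  rw [← hx, hα]
  refine (Scheme.Hom.comp_apply _ _ _).trans ((congrArg (𝒜.ch j')
    (PrimeSpectrum.ext (Ideal.ext fun a => ?_))).trans (Scheme.Hom.comp_apply _ _ _).symm)
  change p.π (γ a) ∈ maximalIdeal p.E ↔ α a ∈ maximalIdeal V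
  rw [maximalIdeal_eq_bot, Ideal.mem_bot, hv, V.valuation_lt_one_iff, ← h6]
  rfl

end Pool.Agent.MP_b834b3_ag.G18
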