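import Pool.Agent.MP_b834b3_ag.h.SpecB

/-! Genus eighteen: the parametrizations of the four charts. -/

namespace Pool.Agent.MP_b834b3_ag.G18

open Matrix

namespace ParL

variable {R : Type} [CommRing R]

/-- the table of the minors -/
def tb (v : Fin 12 → R) : Fin 4 → Fin 4 → R :=
  ![![1, v 6, -v 3, v 8], ![v 0, 1, v 4, -(v 0 * v 8) - v 7 ^ 2],
    ![-v 0, v 1, 1, v 1 * (-(v 0 * v 8) - v 7 ^ 2) - v 11 * v 0],
    ![v 0, -(v 0 * v 8) - v 1 ^ 2, v 5 * (-(v 0 * v 8) - v 1 ^ 2) - v 11 * v 0, 1]]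

lemma mn_par (j i : Fin 4) (v : Fin 12 → R) : mn i (par j v) = tb v j i := by
  rw [mn, det_fin_three]
  fin_cases j <;> fin_cases i <;> simp [par, ff, tb]

lemma all9 {P : Fin 3 → Fin 9 → Prop} (h : ∀ a, P a 0 ∧ P a 1 ∧ P a 2 ∧ P a 3 ∧ P a 4 ∧ P a 5 ∧
    P a 6 ∧ P a 7 ∧ P a 8) (a : Fin 3) (c : Fin 9) : P a c := by
  obtain ⟨_, _, _, _, _, _, _, _, _⟩ := h a
  fin_cases c <;> assumption

lemma map {S : Type} [CommRing S] (σ : R →+* S) (j : Fin 4) (v : Fin 12 → R) :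
    (par j v).map σ = par j (σ ∘ v) := by
  fin_cases j <;> refine Matrix.ext (all9 fun a => ?_) <;> fin_cases a <;> simp [par, map_ofNat]

lemma iso (j : Fin 4) (v : Fin 12 → R) : Tot (par j v) := by
  refine (tot_iff _).2 ⟨fun a => ?_, fun a b => ?_⟩
  · rw [qf]
    fin_cases j <;> fin_cases a <;> simp [par] <;> ring
  · rw [bf_eq]
    fin_cases j <;> fin_cases a <;> fin_cases b <;> simp [par] <;> ring

lemma eq (j : Fin 4) (N : Matrix (Fin 3) (Fin 9) R)
    (h1 : N.submatrix id (ff j) = 1) (h2 : Tot N) :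
    N = par j fun x => N (sc j x).1 (sc j x).2 := by
  have p : ∀ a b, N a (ff j b) = if a = b then 1 else 0 := fun a b => congrFun (congrFun h1 a) b
  obtain ⟨e, e'⟩ := (tot_iff N).1 h2
  have e0 := e 0
  have e1 := e 1
  have e2 := e 2
  have e01 := e' 0 1
  have e02 := e' 0 2
  have e12 := e' 1 2
  rw [qf] at e0 e1 e2
  rw [bf_eq] at e01 e02 e12
  clear e e' h1 h2
  fin_cases j <;> simp [Fin.forall_fin_succ, ff] at p <;>
    obtain ⟨⟨a0, a1, a2⟩, ⟨b0, b1, b2⟩, c0, c1, c2⟩ := p <;>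
    simp only [a0, a1, a2, b0, b1, b2, c0, c1, c2] at e0 e1 e2 e01 e02 e12 <;>
    refine Matrix.ext (all9 fun a => ?_) <;> fin_cases a <;>
    simp [par, sc, a0, a1, a2, b0, b1, b2, c0, c1, c2] <;> and_intros <;>
    first
    | linear_combination e0
    | linear_combination e1
    | linear_combination e2
    | linear_combination e01
    | linear_combination e02
    | linear_combination e12

lemma cell {F : Type} [Field F] (j : Fin 4) (v : Fin 12 → F) :
    cellOf (par j v) = j ↔ ∀ x : Fin 12, x.val < nz j → v x = 0 := by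
  have h : (∀ x : Fin 12, x.val < nz j → v x = 0) ↔
      (0 < nz j → v 0 = 0) ∧ (1 < nz j → v 1 = 0) :=
    ⟨fun h => ⟨h 0, h 1⟩, fun h x hx => by
      have h2 : ∀ j, nz j ≤ 2 := by decide
      have := h2 j
      rcases (by omega : x = 0 ∨ x = 1) with rfl | rfl
      exacts [h.1 hx, h.2 hx]⟩
  rw [h, cellOf]
  split_ifs with h0 h1 h2 <;> simp only [mn_par] at * <;> fin_cases j <;>
    simp [tb, nz] at * <;> grind

end ParL

theorem par_s : ParS where
  map _ _ _ _ := ParL.map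
  one R _ j v := by
    ext a b
    fin_cases j <;> fin_cases a <;> fin_cases b <;> rfl
  iso _ _ := ParL.iso
  sec R _ j v x := by fin_cases j <;> fin_cases x <;> rfl
  eq _ _ := ParL.eq
  cell _ _ := ParL.cell
  mn0 R _ j v h := by
    rw [ParL.mn_par]
    fin_cases j <;> simp [ParL.tb] at h ⊢
  ne0 j := ⟨1, by rw [ParL.mn_par]; fin_cases j <;> simp [ParL.tb]⟩
  ne1 j h := ⟨Function.update 1 0 0, rfl, by
    rw [ParL.mn_par]; fin_cases j <;> simp [ParL.tb] at h ⊢⟩
  ne2 j h := ⟨Function.update 1 0 0, rfl, by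
    rw [ParL.mn_par]; fin_cases j <;> simp [ParL.tb] at h ⊢⟩

end Pool.Agent.MP_b834b3_ag.G18
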