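import Pool.Agent.MP_b834b3_ag.h.SpecB

/-! Genus eighteen: properties of places. -/

namespace Pool.Agent.MP_b834b3_ag.G18

open Algebra IsLocalRing Matrix

namespace PlL

variable {F : Type} [Field F] [Algebra K F]

lemma ofHom {F' : Type} [Field F'] (f : F →+* F') (V : ValuationSubring F')
    (hV : ∀ c, f (algebraMap K F c) ∈ V) : ∃ p : Pl F,
      (∀ x, x ∈ p.O ↔ f x ∈ V) ∧ ∀ a : p.O, p.π a = 0 ↔ V.valuation (f a) < 1 := by
  let O : Subalgebra K F := { V.toSubring.comap f with algebraMap_mem' := hV }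
  have hO : ∀ x, x ∈ O ↔ f x ∈ V := fun _ => Iff.rfl
  let g : O →+* V := (f.comp O.val.toRingHom).codRestrict V fun a => a.2
  let m : Ideal O := (maximalIdeal V).comap g
  have hm : ∀ a : O, a ∈ m ↔ V.valuation (f a) < 1 := fun a => V.valuation_lt_one_iff (g a)
  have hl : ∀ a : O, a ∉ m → (a : F) ≠ 0 ∧ (a : F)⁻¹ ∈ O := fun a ha => by
    have h1 : V.valuation (f a) = 1 :=
      le_antisymm ((V.valuation_le_one_iff _).2 a.2) (not_lt.1 fun h => ha ((hm a).2 h))
    refine ⟨fun e => ?_, ?_⟩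
    · rw [e, map_zero, map_zero] at h1
      exact zero_ne_one h1
    · rw [hO, map_inv₀, ← V.valuation_le_one_iff, map_inv₀, h1, inv_one]
  have : m.IsMaximal := Ideal.isMaximal_iff.2 ⟨fun h => by simpa using (hm 1).1 h,
    fun J a _ ha hJ => by
      have := J.mul_mem_left ⟨_, (hl a ha).2⟩ hJ
      rwa [show (⟨_, (hl a ha).2⟩ : O) * a = 1 from Subtype.ext (inv_mul_cancel₀ (hl a ha).1)]
        at this⟩
  let _ := Ideal.Quotient.field m
  exact ⟨{ O := O
           E := O ⧸ m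
           π := Ideal.Quotient.mkₐ K m
           val := fun x => by
             rw [hO, hO, map_inv₀]
             exact V.mem_or_inv_mem _
           loc := fun a ha => (hl a fun h => ha (Ideal.Quotient.eq_zero_iff_mem.2 h)).2
           surj := Ideal.Quotient.mk_surjective }, hO,
    fun a => Ideal.Quotient.eq_zero_iff_mem.trans (hm a)⟩

lemma ofVal {F' : Type} [Field F'] [Algebra K F'] (f : F →ₐ[K] F') (V : ValuationSubring F')
    (hV : ∀ c, algebraMap K F' c ∈ V) : ∃ p : Pl F,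
      (∀ x, x ∈ p.O ↔ f x ∈ V) ∧ ∀ a : p.O, p.π a = 0 ↔ V.valuation (f a) < 1 :=
  ofHom (f : F →+* F') V fun c => show f (algebraMap K F c) ∈ V from f.commutes c ▸ hV c

lemma ex {R : Type} [CommRing R] [Algebra K R] (χ : R →ₐ[K] F) (P : Ideal R) (hP : P.IsPrime)
    (hk : RingHom.ker χ ≤ P) : ∃ (p : Pl F) (α : R →ₐ[K] p.O),
      (∀ r, (α r : F) = χ r) ∧ ∀ r, p.π (α r) = 0 ↔ r ∈ P := by
  have hu : ∀ y : P.primeCompl, IsUnit ((χ : R →+* F) y) := fun y =>
    isUnit_iff_ne_zero.2 fun e => y.2 (hk e)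
  obtain ⟨V, h, hl⟩ := IsLocalRing.exists_factor_valuationRing
    (IsLocalization.lift (S := Localization.AtPrime P) hu)
  have e : ∀ r, IsLocalization.lift (S := Localization.AtPrime P) hu (algebraMap R _ r) = χ r :=
    fun r => IsLocalization.lift_eq hu r
  have h1 : ∀ r, χ r ∈ V := fun r => e r ▸ h _
  obtain ⟨p, p1, p2⟩ := ofVal (AlgHom.id K F) V fun c => χ.commutes c ▸ h1 _
  refine ⟨p, χ.codRestrict p.O fun r => (p1 _).2 (h1 r), fun _ => rfl, fun r => (p2 _).trans ?_⟩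
  refine (V.valuation_lt_one_iff ⟨χ r, h1 r⟩).symm.trans ?_
  rw [← IsLocalization.AtPrime.to_map_mem_maximal_iff (Localization.AtPrime P) P r,
    mem_maximalIdeal, mem_maximalIdeal, mem_nonunits_iff, mem_nonunits_iff,
    ← isUnit_map_iff ((IsLocalization.lift (S := Localization.AtPrime P) hu).codRestrict
      V.toSubring h)]
  exact not_congr (iff_of_eq (congrArg IsUnit (Subtype.ext (e r).symm)))

lemma zero (p : Pl F) (x : F) : x ∉ p.O ↔ x ≠ 0 ∧ ∃ h : x⁻¹ ∈ p.O, p.π ⟨_, h⟩ = 0 := by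
  refine ⟨fun h => ⟨fun e => h (e ▸ p.O.zero_mem), (p.val x).resolve_left h, ?_⟩, ?_⟩
  · by_contra h0
    exact h (inv_inv x ▸ p.loc _ h0)
  · rintro ⟨h0, h1, h2⟩ h
    have : (⟨_, h1⟩ : p.O) * ⟨x, h⟩ = 1 := Subtype.ext (inv_mul_cancel₀ h0)
    have h3 := congrArg p.π this
    rw [map_mul, h2, zero_mul, map_one] at h3
    exact zero_ne_one h3

lemma unit (p : Pl F) (a : p.O) (h : p.π a ≠ 0) : IsUnit a :=
  IsUnit.of_mul_eq_one ⟨_, p.loc a h⟩ (Subtype.ext (mul_inv_cancel₀ fun e =>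
    h (by rw [show a = 0 from Subtype.ext e, map_zero])))

lemma prim {ι : Type} [Fintype ι] (p : Pl F) (x : ι → F) (hx : x ≠ 0) :
    ∃ (a : F) (y : ι → p.O), a ≠ 0 ∧ (∀ i, (y i : F) = a * x i) ∧ ∃ i, y i = 1 := by
  let V : ValuationSubring F := { p.O.toSubring with mem_or_inv_mem' := p.val }
  obtain ⟨j, hj⟩ := Function.ne_iff.1 hx
  obtain ⟨i, -, hi⟩ := Finset.exists_max_image Finset.univ (fun i => V.valuation (x i))
    ⟨j, Finset.mem_univ j⟩
  have h0 : x i ≠ 0 := fun e => by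
    have := hi j (Finset.mem_univ j)
    rw [e, map_zero, le_zero_iff, map_eq_zero] at this
    exact hj this
  refine ⟨(x i)⁻¹, fun k => ⟨(x i)⁻¹ * x k, (V.valuation_le_one_iff _).1 ?_⟩, inv_ne_zero h0,
    fun _ => rfl, i, Subtype.ext (inv_mul_cancel₀ h0)⟩
  rw [map_mul, map_inv₀]
  exact inv_mul_le_one_of_le₀ (hi k (Finset.mem_univ k)) zero_le

end PlL

theorem pl_s (hP : PtS) : PlS where
  ex _ _ _ _ _ _ χ P := PlL.ex χ P
  ofVal _ _ _ _ _ _ f V := PlL.ofVal f V
  ofHom _ _ _ _ _ f V := PlL.ofHom f V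
  zero _ _ _ := PlL.zero
  alg_mem _ _ _ p x hx := (p.val x).elim id fun h =>
    inv_inv x ▸ Subalgebra.inv_mem_of_algebraic p.O (x := ⟨_, h⟩) hx.inv
  alg F _ _ p x h1 hx := by
    obtain ⟨h0, h2, h3⟩ := (PlL.zero p x).1 hx
    have h4 : trdeg K p.O ≤ 1 := (trdeg_le_of_injective p.O.val Subtype.val_injective).trans h1
    obtain ⟨n, hn⟩ := Cardinal.lt_aleph0.1 (h4.trans_lt Cardinal.one_lt_aleph0)
    have := RingHom.ker_isPrime p.π
    have h5 := trdeg_quot_lt hn (RingHom.ker p.π) (h := ⟨_, h2⟩) h3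
      fun e => inv_ne_zero h0 (congrArg Subtype.val e)
    rw [(Ideal.quotientKerAlgEquivOfSurjective p.surj).trdeg_eq] at h5
    exact trdeg_eq_zero_iff.1 (Cardinal.lt_one_iff.1 (h5.trans_le (hn ▸ h4)))
  prim _ _ _ _ _ := PlL.prim
  iso F _ _ p M N hM hN := by
    obtain ⟨⟨g, -, hg⟩, -⟩ := hN
    exact (hP.iso_map _ _ p.π N).1 ((hP.iso_map _ _ p.O.val N).2 Subtype.val_injective
      (hg ▸ hP.iso_mul _ g M hM))
  cen F _ _ p M N f hN hf := by
    obtain ⟨⟨g, g0, hg⟩, -⟩ := hN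
    have hu : IsUnit (N.submatrix id f).det := PlL.unit p _ (by rwa [AlgHom.map_det])
    refine ⟨fun e => ?_, ?_, (hP.nm_unit _ _ (p.π : p.O →+* p.E) f N hu).symm⟩
    · have h1 : p.O.val (N.submatrix id f).det = (g * M.submatrix id f).det := by
        rw [AlgHom.map_det]
        exact congrArg (fun A => (Matrix.submatrix A id f).det) hg
      rw [det_mul, e, mul_zero] at h1
      exact (hu.map p.O.val).ne_zero h1
    · rw [← hP.nm_mul F f g M g0, ← hg]
      exact (hP.nm_unit _ _ (p.O.val : p.O →+* F) f N hu).symm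
  prop F _ _ p M hM := by
    obtain ⟨f₁, h1⟩ := (hP.rk_det F M).1 hM
    obtain ⟨a, y, -, hy, f, hf⟩ := PlL.prim p (fun f : Fin 3 → Fin 9 => (M.submatrix id f).det)
      fun e => h1 (congrFun e f₁)
    have h2 : a * (M.submatrix id f).det = 1 := by
      rw [← hy f, hf]
      rfl
    have h3 := right_ne_zero_of_mul_eq_one h2
    have h4 := (hP.nm_one F f M h3).1
    have h5 : ∀ r c, nm f M r c ∈ p.O := fun r c => by
      have e : (nm f M).submatrix id (Function.update f r c) =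
          updateCol 1 r fun s => nm f M s c := by
        ext s t
        rw [← h4, updateCol_apply]
        by_cases h : t = r <;> simp [h]
      have e2 := hP.det_nm F f (Function.update f r c) M
      rw [e, ← cramer_apply, cramer_one, Module.End.one_apply, div_eq_inv_mul,
        ← eq_inv_of_mul_eq_one_left h2, ← hy] at e2
      exact e2 ▸ (y _).2
    refine ⟨of fun r c => ⟨_, h5 r c⟩, ⟨(M.submatrix id f)⁻¹, ?_, rfl⟩, (hP.rk_det _ _).2 ⟨f, ?_⟩⟩
    · exact (isUnit_nonsing_inv_det _ (isUnit_iff_ne_zero.2 h3)).ne_zero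
    · have e : (of fun r c => (⟨_, h5 r c⟩ : p.O)).submatrix id f = 1 := by
        ext r c
        refine (congrFun (congrFun h4 r) c).trans ?_
        rw [one_apply, one_apply]
        split_ifs <;> rfl
      rw [submatrix_map, e, Matrix.map_one _ (map_zero _) (map_one _), det_one]
      exact one_ne_zero

end Pool.Agent.MP_b834b3_ag.G18
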