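import Pool.Agent.MP_b834b3_ag.h.SpecB

/-! Genus eighteen: planes, cells and points. -/

namespace Pool.Agent.MP_b834b3_ag.G18

open Algebra MvPolynomial Matrix

namespace PtL

section Ring

variable {R S : Type} [CommRing R] [CommRing S]

theorem sub_mul (g : Matrix (Fin 3) (Fin 3) R) (M : Matrix (Fin 3) (Fin 9) R) (f : Fin 3 → Fin 9) :
    (g * M).submatrix id f = g * M.submatrix id f := rfl

theorem det_map (σ : R →+* S) (M : Matrix (Fin 3) (Fin 9) R) (f : Fin 3 → Fin 9) :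
    ((M.map σ).submatrix id f).det = σ (M.submatrix id f).det := (σ.map_det _).symm

theorem nm_unit (σ : R →+* S) (f : Fin 3 → Fin 9) (M : Matrix (Fin 3) (Fin 9) R)
    (h : IsUnit (M.submatrix id f).det) : nm f (M.map σ) = (nm f M).map σ := by
  have : ((M.submatrix id f).map σ)⁻¹ = (M.submatrix id f)⁻¹.map σ := inv_eq_left_inv (by
    rw [← Matrix.map_mul, nonsing_inv_mul _ h, Matrix.map_one _ (map_zero σ) (map_one σ)])
  unfold nm
  rw [Matrix.map_mul, ← this]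
  rfl

theorem tot_inj (σ : R →+* S) (hσ : Function.Injective σ) {M : Matrix (Fin 3) (Fin 9) R}
    (h : Tot (M.map σ)) : Tot M := by
  rw [tot_iff] at h ⊢
  exact ⟨fun a => hσ ((qf_map σ _).trans ((h.1 a).trans (map_zero σ).symm)),
    fun a b => hσ ((bf_map σ _ _).trans ((h.2 a b).trans (map_zero σ).symm))⟩

theorem am_psi [Algebra K R] [Algebra K S] (σ : R →ₐ[K] S) (M : Matrix (Fin 3) (Fin 9) R) :
    am (M.map σ) * psi S = (am M * psi R).map σ := by
  rw [← psi_map σ]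
  exact (congrArg (· * (psi R).map σ) (am_map (σ : R →+* S) M).symm).trans
    (Matrix.map_mul (f := (σ : R →+* S))).symm

theorem zd_mul (hC : CliffS) (g : Matrix (Fin 3) (Fin 3) R) (M : Matrix (Fin 3) (Fin 9) R)
    (ψ ξ : Fin 16 → R) (h : ZD ψ M ξ) : ZD ψ (g * M) ξ :=
  ⟨h.1, fun a => hC.an_span R _ M ξ (g a) h.2.1, h.2.2⟩

end Ring

variable {F F' : Type} [Field F] [Field F']

theorem nm_one (f : Fin 3 → Fin 9) (M : Matrix (Fin 3) (Fin 9) F)
    (h : (M.submatrix id f).det ≠ 0) :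
    (nm f M).submatrix id f = 1 ∧ M = M.submatrix id f * nm f M :=
  ⟨(sub_mul _ _ _).trans (nonsing_inv_mul _ h.isUnit),
    (mul_nonsing_inv_cancel_left _ _ h.isUnit).symm⟩

theorem nm_mul (f : Fin 3 → Fin 9) (g : Matrix (Fin 3) (Fin 3) F) (M : Matrix (Fin 3) (Fin 9) F)
    (h : g.det ≠ 0) : nm f (g * M) = nm f M := by
  unfold nm
  rw [sub_mul, Matrix.mul_inv_rev, Matrix.mul_assoc, nonsing_inv_mul_cancel_left _ _ h.isUnit]

theorem nm_map (σ : F →+* F') (f : Fin 3 → Fin 9) (M : Matrix (Fin 3) (Fin 9) F) :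
    nm f (M.map σ) = (nm f M).map σ := by
  by_cases h : (M.submatrix id f).det = 0
  · unfold nm
    rw [nonsing_inv_apply_not_isUnit _ (by rw [det_map, h]; simp),
      nonsing_inv_apply_not_isUnit _ (by simp [h]), Matrix.zero_mul, Matrix.zero_mul,
      Matrix.map_zero _ (map_zero σ)]
  · exact nm_unit σ f M (Ne.isUnit h)

theorem rk_det (hL : LinS) (M : Matrix (Fin 3) (Fin 9) F) :
    Rk M ↔ ∃ f : Fin 3 → Fin 9, (M.submatrix id f).det ≠ 0 := by
  refine ⟨fun h => ?_, fun ⟨f, h⟩ c hc => eq_zero_of_vecMul_eq_zero h ?_⟩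
  · obtain ⟨f, -, hf⟩ := (hL.piv F _ _ M).1 h
    exact ⟨f, hf⟩
  · funext a
    exact congrFun hc (f a)

theorem cell_congr {M : Matrix (Fin 3) (Fin 9) F} {M' : Matrix (Fin 3) (Fin 9) F'}
    (h : ∀ j, mn j M = 0 ↔ mn j M' = 0) : cellOf M = cellOf M' := by
  unfold cellOf
  split_ifs <;> simp_all

theorem cell_iff (M : Matrix (Fin 3) (Fin 9) F) (j : Fin 4) (h : mn j M ≠ 0) :
    cellOf M ≤ j ∧ mn (cellOf M) M ≠ 0 ∧ (cellOf M = j ↔ ∀ i, i < j → mn i M = 0) := by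
  unfold cellOf
  generalize (fun j => mn j M) = m at *
  split_ifs with h0 h1 h2 <;> fin_cases j <;> simp_all [Fin.forall_fin_succ]

theorem cell_two (M : Matrix (Fin 3) (Fin 9) F) (a b : F) (h : mn (cellOf M) M ≠ 0)
    (hab : a ≠ 0 ∨ b ≠ 0) (hr : ∀ r, a * M r 0 + b * M r 1 = 0) : cellOf M = 2 := by
  have key : ∀ c : Fin 9, (M.submatrix id ![0, 1, c]).det = 0 := fun c =>
    exists_mulVec_eq_zero_iff.1 ⟨![a, b, 0], fun e => hab.elim (fun k => k (congrFun e 0))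
      fun k => k (congrFun e 1), funext fun r => by
        simpa [mulVec, dotProduct, Fin.sum_univ_three, mul_comm] using hr r⟩
  have h0 : mn 0 M = 0 := key 2
  have h1 : mn 1 M = 0 := key 3
  have h3 : mn 3 M = 0 := key 5
  by_cases h2 : mn 2 M = 0
  · exact absurd (by simp [cellOf, h0, h1, h2, h3]) h
  · simp [cellOf, h0, h1, h2]

theorem alg_ker {k A : Type} [Field k] [Algebra k F] [CommRing A] [Algebra k A] (φ : A →ₐ[k] F) :
    trdeg k (A ⧸ RingHom.ker φ) = 0 ↔ ∀ a, IsAlgebraic k (φ a) := by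
  have := RingHom.ker_isPrime φ
  rw [trdeg_eq_zero_iff]
  refine ⟨fun h a => (h.1 (Ideal.Quotient.mk _ a)).algHom (Ideal.kerLiftAlg φ),
    fun h => ⟨fun q => ?_⟩⟩
  obtain ⟨p, rfl⟩ := Ideal.Quotient.mk_surjective q
  exact (isAlgebraic_algHom_iff _ (Ideal.kerLiftAlg_injective φ)).1 (h p)

theorem alg_iff {k ι : Type} [Field k] [Algebra k F] (x : ι → F) :
    trdeg k (MvPolynomial ι k ⧸ RingHom.ker (aeval x : MvPolynomial ι k →ₐ[k] F)) = 0 ↔
      ∀ i, IsAlgebraic k (x i) := by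
  rw [alg_ker]
  refine ⟨fun h i => by simpa using h (X i), fun h p => ?_⟩
  induction p using MvPolynomial.induction_on with
  | C a => simpa using isAlgebraic_algebraMap a
  | add p q hp hq => simpa using hp.add hq
  | mul_X p i hp => simpa using hp.mul (h i)

variable [Algebra K F] [Algebra K F']

theorem pt_map (σ : F →ₐ[K] F') (M : Matrix (Fin 3) (Fin 9) F) : pt (M.map σ) = pt M := by
  have h1 : cellOf (M.map σ) = cellOf M := cell_congr fun j =>
    (congrArg (· = 0) (det_map (σ : F →+* F') M (ff j))).to_iff.trans (map_eq_zero _)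
  unfold pt
  rw [h1]
  refine Prod.ext rfl (Ideal.ext fun p => ?_)
  have h2 : nm (ff (cellOf M)) (M.map σ) = (nm (ff (cellOf M)) M).map σ :=
    nm_map (σ : F →+* F') _ M
  simp only [RingHom.mem_ker, h2, map_apply]
  rw [← comp_aeval_apply, map_eq_zero]

theorem factor {R E : Type} [CommRing R] [Algebra K R] (P : Ideal R) [P.IsPrime] [Field E]
    [Algebra K E] (β : R →ₐ[K] E) (h : ∀ r, β r = 0 ↔ r ∈ P) (N : Matrix (Fin 3) (Fin 9) R) :
    pt (N.map β) = pt (N.map ((IsScalarTower.toAlgHom K (R ⧸ P) (FractionRing (R ⧸ P))).comp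
      (Ideal.Quotient.mkₐ K P))) := by
  have hg : Function.Injective (Ideal.Quotient.liftₐ P β fun r hr => (h r).2 hr) := by
    refine (injective_iff_map_eq_zero _).2 fun q hq => ?_
    obtain ⟨r, rfl⟩ := Ideal.Quotient.mk_surjective q
    exact Ideal.Quotient.eq_zero_iff_mem.2 ((h r).1 hq)
  rw [← pt_map (IsFractionRing.liftAlgHom (K := FractionRing (R ⧸ P)) hg)]
  congr 1
  ext a c
  simp

end PtL

open PtL in
theorem pt_s (hC : CliffS) (hL : LinS) : PtS where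
  nm_one := fun _ _ => nm_one
  nm_self := fun R _ f M h => by rw [nm, h, inv_one, Matrix.one_mul]
  nm_mul := fun _ _ => nm_mul
  nm_map := fun _ _ _ _ => nm_map
  nm_unit := fun _ _ _ _ => nm_unit
  det_nm := fun F _ f f' M => by
    rw [nm, PtL.sub_mul, det_mul, det_nonsing_inv, Ring.inverse_eq_inv', inv_mul_eq_div]
  iso_mul := fun R _ _ g M h => (iso_iff _).2 ⟨Tot.mul h.1 g, by
    rw [am_mul h.1, Matrix.smul_mul, ((iso_iff M).1 h).2, smul_zero]⟩
  iso_map := fun R S _ _ _ _ σ M => ⟨fun h => (iso_iff _).2 ⟨Tot.map h.1 (σ : R →+* S),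
      (am_psi σ M).trans ((congrArg (Matrix.map · σ) h.2).trans (Matrix.map_zero _ (map_zero σ)))⟩,
    fun hσ h => (iso_iff _).2 ⟨tot_inj (σ : R →+* S) hσ h.1, Matrix.map_injective hσ
      (((am_psi σ M).symm.trans h.2).trans (Matrix.map_zero _ (map_zero σ)).symm)⟩⟩
  rk_det := fun _ _ => rk_det hL
  rk_mul := fun F _ g M => by
    simp only [rk_det hL, PtL.sub_mul, det_mul, mul_ne_zero_iff]
    exact ⟨fun h ⟨f, hf⟩ => ⟨f, h, hf⟩, fun ⟨f, h, hf⟩ => ⟨h, f, hf⟩⟩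
  rk_map := fun F F' _ _ σ M => by simp only [rk_det hL, PtL.det_map, map_ne_zero]
  cell_iff := fun _ _ => cell_iff
  cell_three := fun _ _ M h0 h1 h2 => by simp [cellOf, h0, h1, h2]
  cell_two := fun _ _ => cell_two
  pt_mul := fun F _ _ g M h => by
    have h1 : cellOf (g * M) = cellOf M := cell_congr fun j => by
      simp only [mn, PtL.sub_mul, det_mul, mul_eq_zero, h, false_or]
    simp only [pt, h1, nm_mul _ g M h]
  pt_map := fun _ _ _ _ _ _ => pt_map
  pt_ker := fun R F F' _ _ _ _ _ _ β β' N h => by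
    have := RingHom.ker_isPrime β
    rw [factor (RingHom.ker β) β (fun _ => Iff.rfl), factor (RingHom.ker β) β' fun r => (h r).symm]
  alg := fun F _ _ M => (alg_iff _).trans Prod.forall
  zd_mul := fun _ _ => zd_mul hC
  zp_mul := fun F _ _ g M => ⟨fun ⟨ξ, h⟩ => ⟨ξ, zd_mul hC g M _ ξ h⟩, fun h k => by
    unfold Yp at k ⊢
    rw [am_mul h, smul_mulVec, k, smul_zero]⟩
  uq_mul := fun F _ _ g M hg ⟨w, ξ, h1, h2⟩ => by
    refine ⟨w, ξ, zd_mul hC g M _ ξ h1, fun F' _ _ σ M' ξ' a1 a2 a3 => ?_⟩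
    obtain ⟨⟨g', e⟩, k⟩ := h2 F' σ M' ξ' a1 a2 a3
    refine ⟨⟨g' * (g⁻¹).map σ, ?_⟩, k⟩
    have e1 : (g⁻¹ * (g * M)).map σ = (g⁻¹).map σ * (g * M).map σ :=
      Matrix.map_mul (f := (σ : F →+* F'))
    rw [Matrix.mul_assoc, ← e1, nonsing_inv_mul_cancel_left _ _ hg.isUnit, e]

end Pool.Agent.MP_b834b3_ag.G18
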