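import Pool.Agent.MP_b834b3_ag.h.SpecB

/-! Genus eighteen: the relation between the third cell and the two loci. -/

namespace Pool.Agent.MP_b834b3_ag.G18

open Algebra Matrix MvPolynomial

namespace R1L

section
variable {R S : Type} [CommRing R] [CommRing S]

/-- The test vector. -/
def yy (a : Fin 9 → R) (z : Fin 3 → R) : Fin 9 → R := z 0 • ev R 7 + z 1 • a - z 2 • ev R 8

theorem bf_yy (x a : Fin 9 → R) (z : Fin 3 → R) :
    bf x (yy a z) = z 0 * x 1 + z 1 * bf x a - z 2 * x 0 := by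
  have h1 : bf x (ev R 7) = x 1 := bf_ev x 1 (by decide)
  have h0 : bf x (ev R 8) = x 0 := bf_ev x 0 (by decide)
  rw [bf_comm, yy, bf_sub, bf_add, bf_smul, bf_smul, bf_smul, bf_comm (ev R 7), bf_comm (ev R 8),
    bf_comm a, h1, h0]

theorem yy_map (σ : R →+* S) (a : Fin 9 → R) (z : Fin 3 → R) :
    σ ∘ yy a z = yy (σ ∘ a) (σ ∘ z) := by
  funext i
  simp [yy, ev, Pi.single_apply, apply_ite σ]

/-- The vector over an algebra. -/
noncomputable def aK (R : Type) [CommRing R] [Algebra K R] (a : Fin 9 → K) : Fin 9 → R :=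
  algebraMap K R ∘ a

theorem aK_map [Algebra K R] [Algebra K S] (σ : R →ₐ[K] S) (a : Fin 9 → K) :
    (σ : R →+* S) ∘ aK R a = aK S a := funext fun i => σ.commutes (a i)

theorem fz [Algebra K R] {a : Fin 9 → K} {ν : K} (h : gam a *ᵥ p0 K = ν • p0 K) :
    gam (aK R a) *ᵥ p0 R = algebraMap K R ν • p0 R := by
  funext i
  have k : algebraMap K R (ν * p0 K i) = _ := (congrArg (algebraMap K R) (congrFun h i)).symm.trans
    ((algebraMap K R).map_mulVec (gam a) (p0 K) i)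
  rw [gam_map, map_mul] at k
  exact k.symm

end

/-- The two equations of the curve. -/
noncomputable def GG (E : Type) [Field E] [Algebra K E] (a : Fin 9 → K) (i : Fin 2) :
    MvPolynomial (Fin 12 ⊕ Unit) E :=
  bf (par 2 (X ∘ Sum.inl) i.succ) (yy (C ∘ aK E a) ![1, X (.inr ()), 0])

theorem ev_G (hB : Base) {E F : Type} [Field E] [Algebra K E] [Field F] [Algebra K F]
    [Algebra E F] [IsScalarTower K E F] (a : Fin 9 → K) (V : Fin 12 → F) (Y : Unit → F)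
    (i : Fin 2) : aeval (Sum.elim V Y) (GG E a i) =
      par 2 V i.succ 1 + Y () * bf (par 2 V i.succ) (aK F a) := by
  let σ : MvPolynomial (Fin 12 ⊕ Unit) E →+* F := (aeval (Sum.elim V Y) : _ →ₐ[E] F)
  have e1 : σ ∘ par 2 (X ∘ Sum.inl) i.succ = par 2 V i.succ := by
    have := hB.par.map _ _ σ 2 (X ∘ Sum.inl)
    rw [show σ ∘ (X ∘ Sum.inl) = V from funext fun x => by simp [σ]] at this
    exact congrFun this i.succ
  have e2 : σ ∘ (C ∘ aK E a) = aK F a := funext fun x => by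
    simp [σ, aK, ← IsScalarTower.algebraMap_apply]
  refine (bf_map σ _ _).trans ?_
  rw [yy_map, e1, e2, bf_yy]
  simp [σ]

theorem spec (hB : Base) (hS : SpecS) {F : Type} [Field F] [Algebra K F] {a : Fin 9 → K}
    {M : Matrix (Fin 3) (Fin 9) F} {s lam : F} (hy : ∀ r, bf (M r) (yy (aK F a) ![1, s, lam]) = 0)
    (p : Pl F) (N : Matrix (Fin 3) (Fin 9) p.O) (hN : Cen p M N) :
    ∃ z : Fin 3 → p.O, (z 1 : F) = s * z 0 ∧ (∃ i, p.π (z i) ≠ 0) ∧
      ∀ r, bf (N.map p.π r) (yy (aK p.E a) (p.π ∘ z)) = 0 := by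
  obtain ⟨c, z, -, hz, i, hi⟩ := hB.pl.prim F (Fin 3) p ![1, s, lam]
    fun h => one_ne_zero (congrFun h 0)
  refine ⟨z, ?_, ⟨i, by rw [hi, map_one]; exact one_ne_zero⟩, fun r => ?_⟩
  · rw [hz, hz]
    simp [mul_comm]
  · have k := (hS F p M N 0 0 hN).2.2 (yy (aK p.O a) z) (fun r => by
      have e := yy_map (p.O.val : p.O →+* F) (aK p.O a) z
      rw [aK_map] at e
      have h := hy r
      rw [bf_yy] at h
      refine (congrArg (bf (M r)) e).trans ?_
      rw [bf_yy]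
      change (z 0 : F) * _ + (z 1 : F) * _ - (z 2 : F) * _ = 0
      rw [hz, hz, hz]
      linear_combination c * h) r
    have e := yy_map (p.π : p.O →+* p.E) (aK p.O a) z
    rw [aK_map] at e
    exact (congrArg (bf (N.map p.π r)) e).symm.trans k

theorem two (hB : Base) {F : Type} [Field F] [Algebra K F] {a : Fin 9 → F}
    {M : Matrix (Fin 3) (Fin 9) F} (hI : Iso M) (hR : Rk M) {z : Fin 3 → F} (h1 : z 1 = 0)
    (h0 : ∃ i, z i ≠ 0) (hy : ∀ r, bf (M r) (yy a z) = 0) : cellOf M = 2 := by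
  refine hB.pt.cell_two F M (-z 2) (z 0) (hB.ech F M hI hR) ?_ fun r => ?_
  · obtain ⟨i, hi⟩ := h0
    fin_cases i
    exacts [Or.inr hi, absurd h1 hi, Or.inl (neg_ne_zero.2 hi)]
  · have h := hy r
    rw [bf_yy, h1] at h
    linear_combination h

theorem pole (hB : Base) (hZ : ZaS) {F : Type} [Field F] [Algebra K F] {a : Fin 9 → F} {ν : F}
    (hν : ν ≠ 0) (ha : gam a *ᵥ p0 F = ν • p0 F) {M : Matrix (Fin 3) (Fin 9) F} (hI : Iso M)
    (hR : Rk M) {z : Fin 3 → F} (h1 : z 0 = 0) (h0 : ∃ i, z i ≠ 0)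
    (hy : ∀ r, bf (M r) (yy a z) = 0) : Zp M ∨ Yp M := by
  by_cases h2 : z 2 = 0
  · have h3 : z 1 ≠ 0 := by
      obtain ⟨i, hi⟩ := h0
      fin_cases i
      exacts [absurd h1 hi, hi, absurd h2 hi]
    refine Or.inl (hZ F M a ν hI hR hν ha fun r => ?_)
    have h := hy r
    rw [bf_yy, h1, h2, zero_mul, zero_mul, zero_add, sub_zero] at h
    exact (mul_eq_zero.1 h).resolve_left h3
  · have e0 : am M *ᵥ p0 F = 0 := funext fun i => congrFun (congrFun ((iso_iff M).1 hI).2 i) 0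
    have e1 : am M *ᵥ (gam (yy a z) *ᵥ p0 F) = 0 := by
      rw [mulVec_mulVec, hB.cliff.am_perp F M _ hy, neg_mulVec, ← mulVec_mulVec, e0, mulVec_zero,
        neg_zero]
    rw [yy, h1, zero_smul, zero_add, gam_sub, gam_smul, gam_smul, sub_mulVec, smul_mulVec,
      smul_mulVec, ha, mulVec_sub, mulVec_smul, mulVec_smul, mulVec_smul, e0, smul_zero,
      smul_zero, zero_sub, neg_eq_zero] at e1
    exact Or.inr ((smul_eq_zero.1 e1).resolve_left h2)

end R1L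

open R1L in
theorem r1_s (hB : Base) (hS : SpecS) (hC : CurS) (hD : DescS) (hT : TwoS) (hF : FzS)
    (hZ : ZaS) : R1S := by
  intro P Q hV hZP hYP F₀ _ _ N₀ hI₀ hR₀ hc₀
  by_contra hx
  have hA := (hT 2 F₀ F₀ N₀ N₀ le_rfl hI₀ hR₀ hI₀ hR₀ hc₀ hc₀).2
  obtain ⟨E, _, _, _, -, v, -, -, hIv, -, hpv⟩ := hD F₀ N₀ hI₀ hR₀ hA
  rw [hc₀] at hIv hpv
  have hv := (hB.par.cell E 2 v).1 ((congrArg Prod.fst hpv).trans hc₀)
  obtain ⟨a, ν, hν, ha⟩ := hF
  obtain ⟨F, _, _, _, _, V, Y, htr, hI, hG, hna, p₀, N₁, hN₁, hp₁, hY⟩ :=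
    hC E Unit (Fin 2) 2 v (fun _ => 0) (GG E a) (by simp) hIv fun i => by
      rw [ev_G hB, zero_mul, add_zero]
      fin_cases i
      exacts [hv 1 (by decide), hv 0 (by decide)]
  have hR : Rk (par 2 V) := (hB.pt.rk_det F _).2
    ⟨ff 2, by rw [hB.par.one, det_one]; exact one_ne_zero⟩
  have hy : ∀ r, bf (par 2 V r) (yy (aK F a)
      ![1, Y (), par 2 V 0 1 + Y () * bf (par 2 V 0) (aK F a)]) = 0 := fun r => by
    rw [bf_yy]
    have g0 := hG 0
    have g1 := hG 1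
    rw [ev_G hB] at g0 g1
    have c0 : par 2 V 0 0 = 1 := rfl
    have c1 : par 2 V 1 0 = 0 := rfl
    have c2 : par 2 V 2 0 = 0 := rfl
    fin_cases r
    · change 1 * par 2 V 0 1 + Y () * bf (par 2 V 0) (aK F a) -
        (par 2 V 0 1 + Y () * bf (par 2 V 0) (aK F a)) * par 2 V 0 0 = 0
      rw [c0]
      ring
    · change 1 * par 2 V 1 1 + Y () * bf (par 2 V 1) (aK F a) - _ * par 2 V 1 0 = 0
      rw [c1, mul_zero, sub_zero, one_mul]
      exact g0
    · change 1 * par 2 V 2 1 + Y () * bf (par 2 V 2) (aK F a) - _ * par 2 V 2 0 = 0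
      rw [c2, mul_zero, sub_zero, one_mul]
      exact g1
  have hs : Y () ≠ 0 := fun h0 => hna fun x => by
    have c := two hB hI hR h0 ⟨0, one_ne_zero⟩ hy
    have k := (hB.pt.alg F _).1 (hT 2 F F _ _ le_rfl hI hR hI hR c c).2
    rw [c, hB.pt.nm_self F _ _ (hB.par.one F 2 V)] at k
    rcases x with x | x
    · exact (hB.par.sec F 2 V x ▸ k _ _ : IsAlgebraic K (V x)).tower_top E
    · change IsAlgebraic E (Y ())
      rw [h0]
      exact isAlgebraic_zero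
  refine hx (hV F (par 2 V) (Y ()) (pt N₀) ⟨?_, hI, hR, hs, hA, ?_, ?_, p₀, N₁, hN₁, ?_,
    hp₁.trans hpv⟩)
  · rw [← trdeg_add_eq K E (A := F), trdeg_eq_zero, htr, zero_add]
  · intro p N hN hp
    obtain ⟨z, z1, z2, z3⟩ := spec hB hS hy p N hN
    obtain ⟨-, hi, hπ⟩ := (hB.pl.zero F p _).1 hp
    have e : z 0 = ⟨_, hi⟩ * z 1 := Subtype.ext (by
      change (z 0 : F) = (Y ())⁻¹ * z 1
      rw [z1, inv_mul_cancel_left₀ hs])
    have hI' := hB.pl.iso F p _ N hI hN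
    have k : pt (N.map p.π) ∈ P :=
      (pole hB hZ ((map_ne_zero (algebraMap K p.E)).2 hν) (fz ha) hI' hN.2
        (show p.π (z 0) = 0 by rw [e, map_mul, hπ, zero_mul]) z2 z3).elim
        (hZP _ _ hI' hN.2) (hYP _ _ hI' hN.2)
    exact ⟨k, fun h => hx (h ▸ k)⟩
  · intro p N hN hp
    obtain ⟨z, z1, z2, z3⟩ := spec hB hS hy p N hN
    obtain ⟨-, hi, hπ⟩ := (hB.pl.zero F p _).1 hp
    have e : z 1 = ⟨_, hi⟩ * z 0 := Subtype.ext (by
      change (z 1 : F) = (Y ())⁻¹⁻¹ * z 0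
      rw [z1, inv_inv])
    have hI' := hB.pl.iso F p _ N hI hN
    exact Or.inl (hT 2 _ F₀ _ N₀ le_rfl hI' hN.2 hI₀ hR₀ (two hB hI' hN.2
      (show p.π (z 1) = 0 by rw [e, map_mul, hπ, zero_mul]) z2 z3) hc₀).1
  · have k := hY ()
    rw [map_zero, sub_zero] at k
    exact k hs

end Pool.Agent.MP_b834b3_ag.G18
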