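import Pool.Agent.MP_b834b3_ag.h.SpecB

/-! Genus eighteen: the relation between the zero locus and the last cell. -/

namespace Pool.Agent.MP_b834b3_ag.G18

open Algebra Matrix MvPolynomial

namespace R2L

/-- The Clifford multiple of the first spinor. -/
noncomputable def w (R : Type) [CommRing R] [Algebra K R] : Fin 16 → R := gam (ev R 8) *ᵥ p0 R

variable {R S : Type} [CommRing R] [CommRing S] [Algebra K R] [Algebra K S]

theorem map_mulVec {m n : Type} [Fintype n] (σ : R →ₐ[K] S) (A : Matrix m n R) (ψ : n → R) :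
    σ ∘ (A *ᵥ ψ) = A.map (σ : R →+* S) *ᵥ (σ ∘ ψ) :=
  funext fun i => (σ : R →+* S).map_mulVec A ψ i

theorem w_map (σ : R →ₐ[K] S) : σ ∘ w R = w S := by
  rw [w, map_mulVec, gam_map, w]
  congr 1
  · congr 1
    funext i
    simp [ev, Pi.single_apply, apply_ite σ]
  · funext i
    simp [p0, psi]

theorem comb_map (σ : R →ₐ[K] S) (a b : R) :
    σ ∘ (a • w R + b • (Pi.single 0 1 : Fin 16 → R)) = σ a • w S + σ b • Pi.single 0 1 := by
  funext i
  simp [← w_map σ, Pi.single_apply, apply_ite σ]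

omit [Algebra K R] in
theorem cv_zero (j : Fin 4) {N : Matrix (Fin 3) (Fin 9) R} {ψ : Fin 16 → R} (h : am N *ᵥ ψ = 0) :
    cv j N *ᵥ ψ = 0 := by
  funext ρ
  have := congrFun h (prw j ρ)
  simp only [mulVec, dotProduct, Pi.zero_apply] at this
  simp only [mulVec, dotProduct, cv, of_apply, mul_assoc, ← Finset.mul_sum, this, mul_zero,
    Pi.zero_apply]

/-- The two equations. -/
noncomputable def G (E : Type) [Field E] [Algebra K E] (j : Fin 4) :
    Fin 2 → MvPolynomial (Fin 12 ⊕ Unit) E :=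
  cv j (par j (X ∘ Sum.inl)) *ᵥ ((1 : MvPolynomial (Fin 12 ⊕ Unit) E) • w _ +
    (X (Sum.inr ()) : MvPolynomial (Fin 12 ⊕ Unit) E) • Pi.single 0 1)

theorem G_eval (hB : Base) {E F : Type} [Field E] [Algebra K E] [Field F] [Algebra K F]
    [Algebra E F] [IsScalarTower K E F] (j : Fin 4) (V : Fin 12 → F) (Y : Unit → F) (i : Fin 2) :
    aeval (Sum.elim V Y) (G E j i) =
      (cv j (par j V) *ᵥ ((1 : F) • w F + Y () • Pi.single 0 1)) i := by
  have h := congrFun (map_mulVec ((aeval (Sum.elim V Y) :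
    MvPolynomial (Fin 12 ⊕ Unit) E →ₐ[E] F).restrictScalars K) (cv j (par j (X ∘ Sum.inl)))
    ((1 : MvPolynomial (Fin 12 ⊕ Unit) E) • w _ +
      (X (Sum.inr ()) : MvPolynomial (Fin 12 ⊕ Unit) E) • Pi.single 0 1)) i
  rw [comb_map, hB.eq.cv_map, hB.par.map, map_one] at h
  refine h.trans (congrFun (congrArg₂ (fun (a : Fin 12 → F) (b : F) =>
    cv j (par j a) *ᵥ ((1 : F) • w F + b • Pi.single 0 1)) (funext fun x => ?_) ?_) i)
  · simp
  · simp

end R2L

open R2L in
theorem r2_s (hB : Base) (hS : SpecS) (hC : CurS) (hD : DescS) (hY : YuS) : R2S := by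
  intro P Q hV h3 F _ _ N hI hR hN
  by_cases hn : cellOf N = 3
  · exact h3 F N hI hR hn
  have hA := (hY F F N N hI hR hI hR hN hN).2
  obtain ⟨E, _, _, _, σ, v, g, -, a2, a3, a4⟩ := hD F N hI hR hA
  have b1 : am (par (cellOf N) v) *ᵥ w E = 0 := by
    have c1 : am (g * N) *ᵥ w F = 0 := (hB.pt.zp_mul F g N).2 hI.1 hN
    have c2 := map_mulVec σ (am (par (cellOf N) v)) (w E)
    rw [am_map, w_map] at c2
    funext i
    refine σ.injective ?_
    rw [Pi.zero_apply, map_zero]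
    exact congrFun (c2.trans ((congrArg (fun M => am M *ᵥ w F) a3).trans c1)) i
  obtain ⟨L, _, _, _, _, V, Y, c1, c2, c3, c4, p, N', c5, c6, c7⟩ :=
    hC E Unit (Fin 2) (cellOf N) v (fun _ => 0) (G E (cellOf N)) (by simp) a2 fun i => by
      rw [G_eval hB, one_smul, zero_smul, add_zero, cv_zero _ b1, Pi.zero_apply]
  have h1 := hB.par.one L (cellOf N) V
  have hMR : Rk (par (cellOf N) V) :=
    (hB.pt.rk_det L _).2 ⟨_, by rw [h1, det_one]; exact one_ne_zero⟩
  have hk : am (par (cellOf N) V) *ᵥ ((1 : L) • w L + Y () • Pi.single 0 1) = 0 := by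
    rw [hB.eq.cv_am L _ _ h1 c2.1, ← mulVec_mulVec,
      show cv (cellOf N) (par (cellOf N) V) *ᵥ ((1 : L) • w L + Y () • Pi.single 0 1) = 0 from
        funext fun i => (G_eval hB _ V Y i).symm.trans (c3 i), mulVec_zero]
  have hs : Y () ≠ 0 := fun h0 => c4 (by
    rw [h0, one_smul, zero_smul, add_zero] at hk
    obtain ⟨d1, d2⟩ := hY L F _ N c2 hMR hI hR hk hN
    have d3 : cellOf (par (cellOf N) V) = cellOf N := congrArg Prod.fst d1
    have d4 := (hB.pt.alg L _).1 d2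
    rw [d3, hB.pt.nm_self L _ _ h1] at d4
    rintro (x | x)
    · have := d4 (sc (cellOf N) x).1 (sc (cellOf N) x).2
      rw [hB.par.sec] at this
      exact this.tower_top E
    · rw [Sum.elim_inr, show Y x = 0 from h0]
      exact isAlgebraic_zero)
  refine hV L (par (cellOf N) V) (Y ()) (pt N) ⟨?_, c2, hMR, hs, hA, ?_, ?_, p, N', c5, ?_,
    c6.trans a4⟩
  · rw [← trdeg_add_eq K E (A := L), trdeg_eq_zero, c1, zero_add]
  · intro q M hM hq
    obtain ⟨-, d1, d2⟩ := (hB.pl.zero L q _).1 hq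
    have d3 := (hS L q _ M ((⟨_, d1⟩ : q.O) • w q.O + (1 : q.O) • Pi.single 0 1) 0 hM).2.1 c2.1 (by
      rw [comb_map, map_one, show q.O.val ⟨_, d1⟩ • w L + (1 : L) • Pi.single 0 1 =
        (Y ())⁻¹ • ((1 : L) • w L + Y () • Pi.single 0 1) by
          rw [smul_add, smul_smul, smul_smul, inv_mul_cancel₀ hs, mul_one]; rfl,
        mulVec_smul, hk, smul_zero])
    rw [comb_map, d2, map_one, zero_smul, zero_add, one_smul] at d3
    obtain ⟨e0, e1, e2⟩ := hB.eq.vac _ _ d3
    have d4 := hB.pt.cell_three _ _ e0 e1 e2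
    exact ⟨h3 q.E _ (hB.pl.iso L q _ M c2 hM) hM.2 d4,
      fun h => hn ((congrArg Prod.fst h).symm.trans d4)⟩
  · intro q M hM hq
    obtain ⟨-, d1, d2⟩ := (hB.pl.zero L q _).1 hq
    have d3 := (hS L q _ M ((1 : q.O) • w q.O + (⟨_, d1⟩ : q.O) • Pi.single 0 1) 0 hM).2.1 c2.1 (by
      rw [comb_map, map_one, show q.O.val ⟨_, d1⟩ = Y () from inv_inv _, hk])
    rw [comb_map, d2, map_one, zero_smul, add_zero, one_smul] at d3
    exact Or.inl (hY q.E F _ N (hB.pl.iso L q _ M c2 hM) hM.2 hI hR d3 hN).1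
  · have := c7 ()
    rw [map_zero, sub_zero] at this
    exact this hs

end Pool.Agent.MP_b834b3_ag.G18
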