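import Pool.Agent.MP_b834b3_ag.h.SpecB

/-! Genus eighteen: covectors specialize. -/

namespace Pool.Agent.MP_b834b3_ag.G18

open Matrix

namespace SpcL

variable {R S : Type} [CommRing R] [CommRing S] (σ : R →+* S)

theorem m1 (ξ : Fin 16 → R) (x : Fin 9 → R) : σ ∘ (ξ ᵥ* gam x) = (σ ∘ ξ) ᵥ* gam (σ ∘ x) :=
  funext fun i => by rw [← gam_map]; exact σ.map_vecMul _ _ i

theorem m2 (ξ ψ : Fin 16 → R) (x : Fin 9 → R) :
    σ (ξ ᵥ* gam x ⬝ᵥ ψ) = (σ ∘ ξ) ᵥ* gam (σ ∘ x) ⬝ᵥ (σ ∘ ψ) := by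
  rw [σ.map_dotProduct, m1]

theorem m3 (N : Matrix (Fin 3) (Fin 9) R) (ψ : Fin 16 → R) :
    σ ∘ (am N *ᵥ ψ) = am (N.map σ) *ᵥ (σ ∘ ψ) :=
  funext fun i => by rw [← am_map]; exact σ.map_mulVec _ _ i

theorem zero {T ι : Type} [CommRing T] (π : R →+* T) (h : Function.Injective σ) {u : ι → R}
    (k : σ ∘ u = 0) : π ∘ u = 0 := funext fun i => by
  rw [Function.comp, h ((congrFun k i).trans (map_zero σ).symm), map_zero]
  rfl

theorem zd {T : Type} [CommRing T] [Nontrivial T] (π : R →+* T) (h : Function.Injective σ)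
    (hπ : Function.Surjective π) {N : Matrix (Fin 3) (Fin 9) R} {ψ y : Fin 16 → R}
    (hy : ∃ i, y i = 1) (k : ZD (σ ∘ ψ) (N.map σ) (σ ∘ y)) : ZD (π ∘ ψ) (N.map π) (π ∘ y) := by
  refine ⟨fun e => hy.elim fun i hi => ?_, fun a => ?_, fun x => ?_⟩
  · have := congrFun e i
    simp [hi] at this
  · exact (m1 π y (N a)).symm.trans (zero σ π h ((m1 σ y (N a)).trans (k.2.1 a)))
  · obtain ⟨x, rfl⟩ := hπ.comp_left x
    rw [← m2, h ((m2 σ y ψ x).trans ((k.2.2 _).trans (map_zero σ).symm)), map_zero]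

end SpcL

theorem spec_s (hB : Base) : SpecS := by
  intro F _ _ p M N ψ ξ ⟨⟨g, _, hg⟩, _⟩
  have hv : Function.Injective (p.O.val : p.O →+* F) := Subtype.val_injective
  refine ⟨fun h => ?_, fun h k => ?_, fun y h a => ?_⟩
  · obtain ⟨a, y, h1, h2, h3⟩ := hB.pl.prim F _ p ξ h.1
    have k := hB.pt.zd_mul F g M _ _ h
    rw [← hg] at k
    have e : (p.O.val : p.O →+* F) ∘ y = a • ξ := funext h2
    refine ⟨_, SpcL.zd (p.O.val : p.O →+* F) (p.π : p.O →+* p.E) hv p.surj h3 ?_⟩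
    rw [e]
    change ZD (p.O.val ∘ ψ) (N.map p.O.val) _
    exact ⟨smul_ne_zero h1 k.1, fun b => by rw [smul_vecMul, k.2.1 b, smul_zero],
      fun x => by rw [smul_vecMul, smul_dotProduct, k.2.2 x, smul_zero]⟩
  · refine (SpcL.m3 (p.π : p.O →+* p.E) N ψ).symm.trans
      (SpcL.zero (p.O.val : p.O →+* F) _ hv ((SpcL.m3 _ N ψ).trans ?_))
    change am (N.map p.O.val) *ᵥ (p.O.val ∘ ψ) = 0
    rw [hg, am_mul h, smul_mulVec, k, smul_zero]
  · have e : (p.O.val : p.O →+* F) (bf (N a) y) = 0 := by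
      rw [bf_map]
      change bf (N.map p.O.val a) (p.O.val ∘ y) = 0
      rw [hg]
      change bf (g a ᵥ* M) _ = 0
      rw [bf_vecMul]
      exact Finset.sum_eq_zero fun b _ => by rw [h, mul_zero]
    refine (bf_map (p.π : p.O →+* p.E) (N a) y).symm.trans ?_
    rw [hv (e.trans (map_zero _).symm), map_zero]

end Pool.Agent.MP_b834b3_ag.G18
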