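import Pool.Agent.MP_b834b3_ag.h.SpecC

/-! The strata with independent conditions. -/

namespace Pool.Agent.MP_b834b3_ag.G18

open AlgebraicGeometry CategoryTheory Algebra IsLocalRing Limits MvPolynomial Matrix
open scoped TensorProduct

namespace Str1L

abbrev Tp (j : Bool → Fin 4) : Type := {y : Bool × Fin 12 // nz (j y.1) ≤ y.2.val}

def cut {R : Type} [Zero R] (j : Bool → Fin 4) (v : Tp j → R) (b : Bool) (x : Fin 12) : R :=
  if h : nz (j b) ≤ x.val then v ⟨(b, x), h⟩ else 0

def sek (j : Bool → Fin 4) (y : Tp j) : Bool × (Fin 3 × Fin 9) := (y.1.1, sc (j y.1.1) y.1.2)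

noncomputable def gp (j : Bool → Fin 4) (b : Bool) :
    Matrix (Fin 3) (Fin 9) (MvPolynomial (Tp j) ℂ) := par (j b) (cut j X b)

noncomputable def rho (j : Bool → Fin 4) (x : Bool × (Fin 3 × Fin 9)) : MvPolynomial (Tp j) ℂ :=
  gp j x.1 x.2.1 x.2.2

noncomputable def mq (j : Bool → Fin 4) (s : Bool × Rw) (i : Ix) : MvPolynomial (Tp j) ℂ :=
  mm (j s.1) (gp j s.1) s.2 i

lemma card_Tp : ∀ j : Bool → Fin 4,
    4 - nz (j false) - nz (j true) + 20 = Fintype.card (Tp j) := by decide +kernel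

lemma gp_map (hB : Base) {S : Type} [CommRing S] (j : Bool → Fin 4)
    (φ : MvPolynomial (Tp j) ℂ →+* S) (b : Bool) :
    (gp j b).map φ = par (j b) (cut j (φ ∘ X) b) := by
  rw [gp, hB.par.map]
  congr 1
  ext x
  simp only [cut, Function.comp_apply]
  split_ifs
  · rfl
  · exact map_zero φ

lemma st_iff (hB : Base) {B F : Type} [CommRing B] [Algebra K B] [Algebra ℂ B] [Field F]
    [Algebra K F] (π : B →ₐ[K] F) (j : Bool → Fin 4) (E : Bool → Matrix (Fin 3) (Fin 9) B)
    (h1 : ∀ b, (E b).submatrix id (ff (j b)) = 1) (h2 : ∀ b, Iso (E b)) :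
    (∀ b, (gp j b).map (π.toRingHom.comp (aeval ((fun x : Bool × (Fin 3 × Fin 9) =>
      E x.1 x.2.1 x.2.2) ∘ sek j)).toRingHom) = (E b).map π) ↔
      ∀ b, cellOf ((E b).map π) = j b := by
  refine forall_congr' fun b => ?_
  have e := hB.par.eq F (j b) ((E b).map π)
    (by rw [submatrix_map, h1, Matrix.map_one _ (map_zero π) (map_one π)])
    ((hB.pt.iso_map B F π _).1 (h2 b)).1
  rw [gp_map hB]
  constructor
  · intro h
    rw [← h, hB.par.cell]
    exact fun x hx => dif_neg hx.not_ge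
  · intro h
    rw [e, hB.par.cell] at h
    rw [e]
    congr 1
    ext x
    unfold cut
    split_ifs with hx
    · simp [sek]
    · exact (h x (not_le.1 hx)).symm

end Str1L

open Str1L in
theorem str1 (hB : Base) (hV : VbS) : Str1S := by
  intro L _ _ M Y s 𝒜 j h
  let _ : Algebra ℂ (Bq M j) := ((algebraMap K (Bq M j)).comp (algebraMap ℂ K)).toAlgebra
  have : @IsScalarTower ℂ K (Bq M j) Algebra.toSMul Algebra.toSMul Algebra.toSMul :=
    IsScalarTower.of_algebraMap_eq' rfl
  have : FiniteType K (Ach M (j false)) := h.ft _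
  have : FiniteType K (Ach M (j true)) := h.ft _
  have : FiniteType K (Bq M j) := FiniteType.trans (S := Ach M (j false)) inferInstance inferInstance
  have := 𝒜.lft h
  have := 𝒜.compact
  let e : Bool × (Fin 3 × Fin 9) → Bq M j := fun x => el2 M j x.1 x.2.1 x.2.2
  have one : ∀ b, (el2 M j b).submatrix id (ff (j b)) = 1 := fun b => by
    rw [el2, submatrix_map, h.one _ (h.ne _), Matrix.map_one _ (map_zero _) (map_one _)]
  have one' : ∀ (P : Ideal (Bq M j)) [P.IsPrime] (b : Bool), ((el2 M j b).map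
      (IsScalarTower.toAlgHom K (Bq M j) P.ResidueField)).submatrix id (ff (j b)) = 1 :=
    fun P _ b => by rw [submatrix_map, one, Matrix.map_one _ (map_zero _) (map_one _)]
  have iso : ∀ b, Iso (el2 M j b) := fun b => (hB.pt.iso_map _ _ _ _).1 (h.iso _ (h.ne _))
  have st : ∀ (P : Ideal (Bq M j)) [P.IsPrime], P ∈ St e (sek j) (rho j) 1 ↔
      ∀ b, (gp j b).map ((IsScalarTower.toAlgHom K (Bq M j) P.ResidueField).toRingHom.comp
        (aeval (e ∘ sek j)).toRingHom) =
        (el2 M j b).map (IsScalarTower.toAlgHom K (Bq M j) P.ResidueField) := by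
    intro P hP
    constructor
    · rintro ⟨-, h1, -⟩ b
      ext a c
      have := Ideal.algebraMap_residueField_eq_zero.2 (h1 (b, a, c))
      rw [map_sub, sub_eq_zero] at this
      exact this.symm
    · intro h1
      refine ⟨hP, fun x => ?_, by rw [map_one]; exact hP.one_notMem⟩
      rw [← Ideal.algebraMap_residueField_eq_zero, map_sub, sub_eq_zero]
      exact (congrFun (congrFun (h1 x.1) x.2.1) x.2.2).symm
  have ev : ∀ (P : Ideal (Bq M j)) [P.IsPrime], P ∈ St e (sek j) (rho j) 1 → ∀ r i,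
      algebraMap (Bq M j) P.ResidueField (aeval (e ∘ sek j) (mq j r i)) =
        mm (j r.1) ((el2 M j r.1).map (IsScalarTower.toAlgHom K (Bq M j) P.ResidueField)) r.2 i := by
    intro P _ hP r i
    rw [← (st P).1 hP, ← hB.eq.map]
    rfl
  refine ⟨_, hV ℂ K Ix _ (Tp j) (Bool × Rw) (Bq M j) (mq j) e (sek j) (rho j) _
    (pullback.fst s s ≫ s) (𝒜.J j) _ (𝒜.hJ j) ?_ ?_ ?_ ?_ ?_, ?_, ?_⟩
  · refine top_unique ((inc_gen j false).ge.trans (adjoin_le ?_))
    have : ∀ b, Set.range (inc K (Ach M) j b) ⊆ adjoin K (Set.range e) := by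
      rintro b _ ⟨a, rfl⟩
      have h1 : a ∈ adjoin K (ent (el M (ff (j b)))) := by rw [h.gen]; trivial
      have h2 := Subalgebra.mem_map.2 ⟨a, h1, rfl (a := inc K (Ach M) j b a)⟩
      rw [AlgHom.map_adjoin] at h2
      refine adjoin_mono ?_ h2
      rintro _ ⟨_, ⟨x, rfl⟩, rfl⟩
      exact ⟨(b, x), rfl⟩
    exact Set.union_subset (this _) (this _)
  · intro v
    exact (hB.par.sec _ _ _ _).trans (dif_pos v.2)
  · intro P hP r
    have := hP.1
    rw [← Ideal.algebraMap_residueField_eq_zero, map_sum]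
    simp only [map_mul, ev P hP, ← IsScalarTower.algebraMap_apply]
    exact ((hB.eq.iso _ (j r.1) _ (one' _ r.1)).1 ((hB.pt.iso_map _ _ _ _).1 (iso r.1))).2 r.2
  · intro F _ _ _ _ v hv
    have h1 : ∀ b, ∃ χ : Ach M (j b) →ₐ[K] F,
        (el M (ff (j b))).map χ = (gp j b).map (aeval v : _ →ₐ[ℂ] F).toRingHom := by
      intro b
      have h2 : ((gp j b).map (aeval v : _ →ₐ[ℂ] F).toRingHom).submatrix id (ff (j b)) = 1 := by
        rw [gp_map hB, hB.par.one]
      obtain ⟨χ, hχ⟩ := h.univ (j b) F ((gp j b).map (aeval v : _ →ₐ[ℂ] F).toRingHom)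
        ((hB.eq.iso F (j b) _ h2).2 ⟨by rw [gp_map hB]; exact hB.par.iso _ _ _, fun r => by
          simp only [← hB.eq.map]; exact hv (b, r)⟩) (by rw [mn, h2, det_one]; exact one_ne_zero)
      exact ⟨χ, hχ.trans (hB.pt.nm_self _ _ _ h2)⟩
    choose χ hχ using h1
    refine ⟨Algebra.TensorProduct.productMap (χ false) (χ true), fun x => ?_⟩
    have h2 := congrFun (congrFun (hχ x.1) x.2.1) x.2.2
    obtain ⟨b, x⟩ := x
    refine Eq.trans ?_ h2
    cases b <;> simp [e, el2, inc]
  · rw [Fintype.card_prod, hB.eq.card.1]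
    exact card_Tp j
  · intro P hP
    exact (st_iff hB _ j (el2 M j) one iso).1 ((@st P.asIdeal P.isPrime).1 hP.1)
  · intro P h1 h2
    have : @Ideal.IsPrime (Bq M j) _ P.asIdeal := P.isPrime
    have h3 := (@st P.asIdeal P.isPrime).2 ((st_iff hB _ j (el2 M j) one iso).2 h1)
    obtain ⟨p, hp, h4⟩ := (hB.lin.piv _ (Bool × Rw) Ix
      (of fun r i => mm (j r.1) (red M j P r.1) r.2 i)).1 fun c hc =>
        hB.eq.li _ j (red M j P) (@one' P.asIdeal P.isPrime) h2 c fun i => congrFun hc i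
    refine ⟨h3, p, hp, fun h5 => h4 ?_⟩
    rw [← Ideal.algebraMap_residueField_eq_zero, pdet, AlgHom.map_det, RingHom.map_det] at h5
    refine Eq.trans (congrArg det ?_) h5
    ext r r'
    exact (ev _ h3 r (p r')).symm

end Pool.Agent.MP_b834b3_ag.G18
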