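import Pool.Agent.MP_b834b3_ag.h.SpecA

/-! Genus eighteen: two planes with dependent conditions. -/

namespace Pool.Agent.MP_b834b3_ag.G18

open Matrix

namespace ThrL

variable {F : Type} [Field F]

theorem fac {m n k : Type} [Fintype n] (M : Matrix m k F) (W : Matrix n k F)
    (h : ∀ a, ∃ c, c ᵥ* W = M a) : ∃ g : Matrix m n F, M = g * W := by
  choose g hg using h
  exact ⟨of g, by ext a j; rw [← hg a]; rfl⟩

theorem fin_rk {m : Type} [Fintype m] {M : Matrix m (Fin 9) F} (h : Rk M) :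
    Module.finrank F (LinearMap.range M.vecMulLinear) = Fintype.card m := by
  rw [LinearMap.finrank_range_of_inj
    ((injective_iff_map_eq_zero M.vecMulLinear).2 fun c hc => h c hc), Module.finrank_pi]

theorem mem_of_le {m : Type} [Fintype m] {M : Matrix m (Fin 9) F} (h : Rk M)
    (V : Submodule F (Fin 9 → F)) (h1 : ∀ c, c ᵥ* M ∈ V)
    (h2 : Module.finrank F V ≤ Fintype.card m) (x : Fin 9 → F) (hx : x ∈ V) : ∃ c, c ᵥ* M = x := by
  have e : LinearMap.range M.vecMulLinear = V :=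
    Submodule.eq_of_le_of_finrank_le (by rintro _ ⟨c, rfl⟩; exact h1 c) (by rwa [fin_rk h])
  rw [← e] at hx
  exact hx

/-- The rows of `N` and one more row. -/
def ex (N : Matrix (Fin 3) (Fin 9) F) (w : Fin 9 → F) : Matrix (Fin 4) (Fin 9) F :=
  of ![N 0, N 1, N 2, w]

theorem vm_ex (N : Matrix (Fin 3) (Fin 9) F) (w : Fin 9 → F) (c : Fin 4 → F) :
    c ᵥ* ex N w = ![c 0, c 1, c 2] ᵥ* N + c 3 • w := by
  ext j
  simp [ex, vecMul, dotProduct, Fin.sum_univ_succ]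
  ring

theorem rk_ex {N : Matrix (Fin 3) (Fin 9) F} (h : Rk N) {w : Fin 9 → F}
    (hw : ¬ ∃ c, c ᵥ* N = w) : Rk (ex N w) := by
  intro c hc
  rw [vm_ex] at hc
  have h3 : c 3 = 0 := by
    by_contra h3
    refine hw ⟨(-(c 3)⁻¹) • ![c 0, c 1, c 2], ?_⟩
    rw [smul_vecMul, eq_neg_of_add_eq_zero_left hc, smul_neg, neg_smul, neg_neg, smul_smul,
      inv_mul_cancel₀ h3, one_smul]
  rw [h3, zero_smul, add_zero] at hc
  have h0 := h _ hc
  ext i
  fin_cases i
  · exact congrFun h0 0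
  · exact congrFun h0 1
  · exact congrFun h0 2
  · exact h3

theorem an_ex {N : Matrix (Fin 3) (Fin 9) F} {w : Fin 9 → F} {ξ : Fin 16 → F} (h : An N ξ)
    (hw : ξ ᵥ* gam w = 0) : An (ex N w) ξ := by
  intro a
  fin_cases a
  · exact h 0
  · exact h 1
  · exact h 2
  · exact hw

/-- The vectors that kill a covector. -/
def ann (ξ : Fin 16 → F) : Submodule F (Fin 9 → F) where
  carrier := {x | ξ ᵥ* gam x = 0}
  add_mem' := fun {x y} hx hy => by
    have hx' : ξ ᵥ* gam x = 0 := hx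
    have hy' : ξ ᵥ* gam y = 0 := hy
    change ξ ᵥ* gam (x + y) = 0
    rw [gam_add, vecMul_add, hx', hy', add_zero]
  zero_mem' := by
    change ξ ᵥ* gam 0 = 0
    rw [gam_zero, vecMul_zero]
  smul_mem' := fun a x hx => by
    have hx' : ξ ᵥ* gam x = 0 := hx
    change ξ ᵥ* gam (a • x) = 0
    rw [gam_smul, vecMul_smul, hx', smul_zero]

theorem lift (hC : CliffS) [Algebra K F] {N : Matrix (Fin 3) (Fin 9) F} (h : Rk N) {w : Fin 9 → F}
    (hw : ¬ ∃ c, c ᵥ* N = w) {ξ : Fin 16 → F} (h1 : An N ξ) (h2 : ξ ᵥ* gam w = 0) :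
    ∃ c, (c ᵥ* am N) ᵥ* gam w = ξ := by
  obtain ⟨s, hs⟩ := hC.dual F (Fin 4) (ex N w) (rk_ex h hw)
  have e1 : ∀ a, bf (N a) (s 3) = 0 := fun a => by
    fin_cases a
    · exact hs 0 3
    · exact hs 1 3
    · exact hs 2 3
  have e2 : bf (s 3) w = 1 := (bf_comm _ _).trans (hs 3 3)
  obtain ⟨c, hc⟩ := hC.row_an F N _ h (hC.perp F _ N (s 3) ξ e1 h1)
  refine ⟨c, ?_⟩
  rw [← hc, vecMul_vecMul, gam_swap, e2, one_smul, vecMul_sub, vecMul_one, ← vecMul_vecMul, h2,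
    zero_vecMul, sub_zero]

theorem pick (hL : LinS) {r ι n : Type} [Fintype r] [DecidableEq r] [Fintype ι] [Fintype n]
    (C : Matrix r ι F) (A : Matrix ι n F) (h : Rk (C * A)) :
    ∃ p : r → ι, Rk (A.submatrix p id) := by
  obtain ⟨q, -, hq⟩ := (hL.piv F r n (C * A)).1 h
  have e : (C * A).submatrix id q = C * A.submatrix id q := rfl
  obtain ⟨p, -, hp⟩ := (hL.piv F r ι (A.submatrix id q)ᵀ).1 fun c hc => by
    rw [vecMul_transpose] at hc
    refine eq_zero_of_mulVec_eq_zero hq ?_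
    rw [e, ← mulVec_mulVec, hc, mulVec_zero]
  have e2 : (A.submatrix id q)ᵀ.submatrix id p = (A.submatrix p q)ᵀ := rfl
  rw [e2, det_transpose] at hp
  refine ⟨p, fun c hc => eq_zero_of_vecMul_eq_zero hp ?_⟩
  ext j
  exact congrFun hc (q j)

end ThrL

open ThrL

theorem thr (hC : CliffS) (hL : LinS) : ThrS := by
  intro F _ _ N N' t r t' r' hLI
  simp only [LI, not_forall] at hLI
  obtain ⟨c0, c0', e0, n0⟩ := hLI
  set ξ := c0 ᵥ* am N with hξ
  have a1 : An N ξ := hC.an_row F N c0 t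
  have a2 : An N' ξ := by rw [e0]; exact hC.an_row F N' c0' t'
  by_cases h : ∀ a, ∃ c, c ᵥ* N = N' a
  · exact Or.inl (fac N' N h)
  right
  obtain ⟨a, ha⟩ := not_forall.1 h
  obtain ⟨b, hb⟩ : ∃ b, ¬ ∃ c, c ᵥ* N' = N b := by
    by_contra hb
    push Not at hb
    obtain ⟨g, hg⟩ := fac N N' hb
    refine ha (mem_of_le r (LinearMap.range N'.vecMulLinear)
      (fun c => ⟨c ᵥ* g, ?_⟩) (fin_rk r').le _ ⟨Pi.single a 1, ?_⟩)
    · rw [vecMulLinear_apply, vecMul_vecMul, ← hg]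
    · simp [Matrix.row]
  have aW := an_ex a1 (a2 a)
  have hV : Module.finrank F (ann ξ) ≤ Fintype.card (Fin 4) :=
    hC.iso4 F (ann ξ) fun x hx y hy => (hC.ann F ξ x y n0 hx hy).2
  have hm := mem_of_le (rk_ex r ha) (ann ξ) (fun c => hC.an_span F _ _ ξ c aW) hV
  refine ⟨?_, ?_⟩
  · obtain ⟨g, hg⟩ := fac N (ex N (N' a)) fun i => hm _ (a1 i)
    obtain ⟨g', hg'⟩ := fac N' (ex N (N' a)) fun i => hm _ (a2 i)
    exact ⟨ex N (N' a), g, g', fun c => (hC.ann F ξ _ _ n0 (hC.an_span F _ _ ξ c aW)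
      (hC.an_span F _ _ ξ c aW)).1, rk_ex r ha, hg, hg'⟩
  · obtain ⟨c1, h1⟩ := lift hC r ha a1 (a2 a)
    obtain ⟨c2, h2⟩ := lift hC r' hb a2 (a1 b)
    have k1 := hC.an_row F N c1 t b
    have k2 := hC.an_row F N' c2 t' a
    refine pick hL (of ![Sum.elim c0 0, Sum.elim c1 0, Sum.elim 0 c2])
      (of (Sum.elim (am N) (am N'))) fun c hc => ?_
    have e : c 0 • ξ + c 1 • (c1 ᵥ* am N) + c 2 • (c2 ᵥ* am N') = 0 := by
      rw [← hc, hξ]
      ext j
      simp [vecMul, dotProduct, mul_apply, Fin.sum_univ_three]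
    have e1 := congrArg (· ᵥ* gam (N' a)) e
    have e2 := congrArg (· ᵥ* gam (N b)) e
    simp only [add_vecMul, smul_vecMul, zero_vecMul, a1 b, a2 a, h1, h2, k1, k2, smul_zero,
      add_zero, zero_add, smul_eq_zero, n0, or_false] at e1 e2
    rw [e1, e2, zero_smul, zero_smul, add_zero, add_zero, smul_eq_zero, or_iff_left n0] at e
    ext i
    fin_cases i
    · exact e
    · exact e1
    · exact e2

end Pool.Agent.MP_b834b3_ag.G18
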