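import Pool.Agent.MP_b834b3_ag.h.SpecB

/-! Genus eighteen: statements on the surface and its square. -/

namespace Pool.Agent.MP_b834b3_ag.G18

open AlgebraicGeometry CategoryTheory Algebra IsLocalRing Limits MvPolynomial Matrix
open scoped TensorProduct

variable {L : Type} [Field L] [Algebra K L] (M : Matrix (Fin 3) (Fin 9) L) {X : Scheme.{0}}
  (s : X ⟶ Spec (CommRingCat.of K))

/-- The four charts of the surface and the names of its points. -/
structure Atl where
  /-- the charts -/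
  ch : ∀ j, Spec (CommRingCat.of (Ach M j)) ⟶ X
  /-- the names -/
  key : X → Pt
  op : ∀ j, IsOpenImmersion (ch j)
  hs : ∀ j, ch j ≫ s = sp (algebraMap K (Ach M j))
  gen : ∀ j j', sp (chart M (ff j)).val.toRingHom ≫ ch j = sp (chart M (ff j')).val.toRingHom ≫ ch j'
  inj : Function.Injective key
  mem : ∀ x, x ∈ Set.range (ch (key x).1)
  mono : ∀ x x', x ⤳ x' → (key x).1 ≤ (key x').1
  key_ch : ∀ j (F : Type) [Field F] [Algebra K F] (β : Ach M j →ₐ[K] F),
    key ((sp β.toRingHom ≫ ch j) (closedPoint F)) = pt ((el M (ff j)).map β)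
  tr : ∀ j j' (F : Type) [Field F] (β : Ach M j →+* F) (β' : Ach M j' →+* F),
    sp β ≫ ch j = sp β' ≫ ch j' → mn j' ((el M (ff j)).map β) ≠ 0 ∧
      (el M (ff j')).map β' = nm (ff j') ((el M (ff j)).map β)

/-- The rings of the product charts. -/
abbrev Bq (j : Bool → Fin 4) : Type := Ach M (j false) ⊗[K] Ach M (j true)

variable {M s} (𝒜 : Atl M s)

instance (j : Fin 4) : IsOpenImmersion (𝒜.ch j) := 𝒜.op j

/-- The product chart. -/
noncomputable def Atl.J (j : Bool → Fin 4) : Spec (CommRingCat.of (Bq M j)) ⟶ pullback s s :=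
  (pullbackSpecIso K _ _).inv ≫ pullback.map _ _ s s (𝒜.ch (j false)) (𝒜.ch (j true)) (𝟙 _)
    (by rw [𝒜.hs, Category.comp_id]) (by rw [𝒜.hs, Category.comp_id])

instance (j : Bool → Fin 4) : IsOpenImmersion (𝒜.J j) := by unfold Atl.J; infer_instance

theorem Atl.J_pr (j : Bool → Fin 4) (b : Bool) :
    𝒜.J j ≫ pr s b = sp (inc K (Ach M) j b).toRingHom ≫ 𝒜.ch (j b) := by
  cases b
  · rw [Atl.J, pr, Category.assoc, pullback.lift_fst, pullbackSpecIso_inv_fst_assoc]; rfl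
  · rw [Atl.J, pr, Category.assoc, pullback.lift_snd, pullbackSpecIso_inv_snd_assoc]; rfl

theorem Atl.mem_J (j : Bool → Fin 4) (z : ↑(pullback s s))
    (h : ∀ b, pr s b z ∈ Set.range (𝒜.ch (j b))) : z ∈ Set.range (𝒜.J j) := by
  obtain ⟨w, hw⟩ := (Scheme.Pullback.range_map _ _ s s (𝒜.ch (j false)) (𝒜.ch (j true)) (𝟙 _)
    (by rw [𝒜.hs, Category.comp_id]) (by rw [𝒜.hs, Category.comp_id])).ge ⟨h false, h true⟩
  refine ⟨(pullbackSpecIso K _ _).hom w, ?_⟩
  rw [Atl.J, ← Scheme.Hom.comp_apply, Iso.hom_inv_id_assoc, hw]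

theorem Atl.hJ (j : Bool → Fin 4) :
    𝒜.J j ≫ pullback.fst s s ≫ s = sp (algebraMap K (Bq M j)) := by
  rw [← Category.assoc, show 𝒜.J j ≫ pullback.fst s s = _ from 𝒜.J_pr j false, Category.assoc,
    𝒜.hs, ← sp_comp]
  exact congrArg sp (inc K (Ach M) j false).comp_algebraMap

/-- The cells of the two projections. -/
noncomputable def Atl.cells (z : ↑(pullback s s)) (b : Bool) : Fin 4 := (𝒜.key (pr s b z)).1

theorem Atl.mem_cells (z : ↑(pullback s s)) : z ∈ Set.range (𝒜.J (𝒜.cells z)) :=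
  𝒜.mem_J _ z fun _ => 𝒜.mem _

include 𝒜 in
theorem Atl.lft (h : ChAt M) : LocallyOfFiniteType s := by
  refine IsZariskiLocalAtSource.of_openCover (P := @LocallyOfFiniteType)
    (Scheme.Cover.mkOfCovers (Fin 4) _ 𝒜.ch fun z => ⟨_, 𝒜.mem z⟩) fun j => ?_
  change LocallyOfFiniteType (𝒜.ch j ≫ s)
  rw [𝒜.hs]
  exact (HasRingHomProperty.Spec_iff (P := @LocallyOfFiniteType)).2
    (RingHom.finiteType_algebraMap.2 (h.ft _))

include 𝒜 in
theorem Atl.compact : CompactSpace ↑(pullback s s) := by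
  refine ⟨?_⟩
  rw [show (Set.univ : Set ↑(pullback s s)) = ⋃ j, Set.range (𝒜.J j) from
    (Set.eq_univ_of_forall fun z => Set.mem_iUnion.2 ⟨𝒜.cells z, 𝒜.mem_cells z⟩).symm]
  exact isCompact_iUnion fun j => isCompact_range (𝒜.J j).continuous

theorem inc_gen (j : Bool → Fin 4) (b : Bool) :
    adjoin K (Set.range (inc K (Ach M) j b) ∪ Set.range (inc K (Ach M) j (!b))) = ⊤ := by
  refine top_unique fun z _ => ?_
  induction z using TensorProduct.induction_on with
  | zero => exact zero_mem _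
  | tmul a a' =>
    have h1 : inc K (Ach M) j false a ∈
        adjoin K (Set.range (inc K (Ach M) j b) ∪ Set.range (inc K (Ach M) j (!b))) := by
      cases b
      exacts [subset_adjoin (Or.inl ⟨a, rfl⟩), subset_adjoin (Or.inr ⟨a, rfl⟩)]
    have h2 : inc K (Ach M) j true a' ∈
        adjoin K (Set.range (inc K (Ach M) j b) ∪ Set.range (inc K (Ach M) j (!b))) := by
      cases b
      exacts [subset_adjoin (Or.inr ⟨a', rfl⟩), subset_adjoin (Or.inl ⟨a', rfl⟩)]
    simpa [inc] using mul_mem h1 h2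
  | add x y hx hy => exact add_mem (hx trivial) (hy trivial)

variable (M) in
/-- The two planes over the ring of a product chart. -/
noncomputable def el2 (j : Bool → Fin 4) (b : Bool) : Matrix (Fin 3) (Fin 9) (Bq M j) :=
  (el M (ff (j b))).map (inc K (Ach M) j b)

variable (M) in
/-- The two planes at a point of a product chart. -/
noncomputable def red (j : Bool → Fin 4) (P : Spec (CommRingCat.of (Bq M j))) (b : Bool) :
    Matrix (Fin 3) (Fin 9) P.asIdeal.ResidueField :=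
  (el2 M j b).map (IsScalarTower.toAlgHom K (Bq M j) P.asIdeal.ResidueField)

theorem Atl.key_J (j : Bool → Fin 4) (P : Spec (CommRingCat.of (Bq M j))) (b : Bool) :
    𝒜.key (pr s b (𝒜.J j P)) = pt (red M j P b) := by
  have h := 𝒜.key_ch (j b) _ ((IsScalarTower.toAlgHom K (Bq M j) P.asIdeal.ResidueField).comp
    (inc K (Ach M) j b))
  rw [← sp_res_point (𝒜.J j) P, ← Scheme.Hom.comp_apply, Category.assoc, 𝒜.J_pr, ← Category.assoc,
    ← sp_comp]
  exact h

/-- The atlas exists. -/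
def AtlS : Prop := ∀ (L : Type) [Field L] [Algebra K L] (M : Matrix (Fin 3) (Fin 9) L)
  (X : Scheme.{0}) (s : X ⟶ Spec (CommRingCat.of K)), ChAt M → IsSeparated s →
  IsGlued (fun f : {f : Fin 3 → Fin 9 // (M.submatrix id f).det ≠ 0} => chart M f.1) s →
  Nonempty (Atl M s)

/-- The strata with independent conditions. -/
def Str1S : Prop := ∀ (L : Type) [Field L] [Algebra K L] (M : Matrix (Fin 3) (Fin 9) L)
  (X : Scheme.{0}) (s : X ⟶ Spec (CommRingCat.of K)) (𝒜 : Atl M s) (j : Bool → Fin 4), ChAt M →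
  ∃ S : Set (Spec (CommRingCat.of (Bq M j))),
    Nice (𝒜.J j '' S) (4 - nz (j false) - nz (j true)) ∧
    (∀ P ∈ S, ∀ b, cellOf (red M j P b) = j b) ∧
    ∀ P, (∀ b, cellOf (red M j P b) = j b) → LI (red M j P false) (red M j P true) → P ∈ S

/-- The points with dependent conditions. -/
def Str2S : Prop := ∀ (L : Type) [Field L] [Algebra K L] (M : Matrix (Fin 3) (Fin 9) L)
  (X : Scheme.{0}) (s : X ⟶ Spec (CommRingCat.of K)) (𝒜 : Atl M s), ChAt M →
  ∃ δ : ↑(pullback s s), ∀ j P, (∀ b, cellOf (red M j P b) = j b) →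
    ¬ LI (red M j P false) (red M j P true) →
    Order.height (𝒜.J j P) ≤ 2 ∧ (Order.height (𝒜.J j P) = 2 → 𝒜.J j P = δ)

/-- The points whose fibre has its class in `V`. -/
def Atl.G (b : Bool) (V : Submodule ℚ (↑(pullback s s) →₀ ℚ)) : Set Pt :=
  {p | ∀ z, 𝒜.key (pr s b z) = p → Order.height z = 2 → Good V z}

/-- Over a closed point there is one point of dimension two. -/
def OneAt (b : Bool) : Prop := ∀ z z' : ↑(pullback s s), pr s b z = pr s b z' →
  Alg (𝒜.key (pr s b z)) → Order.height z = 2 →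
  (Order.height z' = 2 ∨ pr s (!b) z' =
    (sp (chart M (ff 0)).val.toRingHom ≫ 𝒜.ch 0) (closedPoint L)) → z = z'

/-- The uniqueness statement. -/
def OneS : Prop := ∀ (L : Type) [Field L] [Algebra K L] (M : Matrix (Fin 3) (Fin 9) L)
  (X : Scheme.{0}) (s : X ⟶ Spec (CommRingCat.of K)) (𝒜 : Atl M s) (b : Bool), ChAt M →
  (∀ a : L, IsAlgebraic K a → a ∈ Set.range (algebraMap K L)) → OneAt 𝒜 b

/-- Centres on the square give centres on the surface. -/
def CtrS : Prop := ∀ (L : Type) [Field L] [Algebra K L] (M : Matrix (Fin 3) (Fin 9) L)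
  (X : Scheme.{0}) (s : X ⟶ Spec (CommRingCat.of K)) (𝒜 : Atl M s) (F F' : Type) [Field F]
  [Algebra K F] [Field F'] [Algebra K F'] (f : F →ₐ[K] F') (N : Matrix (Fin 3) (Fin 9) F)
  (j : Fin 4) (χ : Ach M j →ₐ[K] F) (V : ValuationSubring F') (x : X), ChAt M → mn j N ≠ 0 →
  (el M (ff j)).map χ = nm (ff j) N → Ctr (sp (f.comp χ).toRingHom ≫ 𝒜.ch j) V x →
  ∃ (p : Pl F) (N' : Matrix (Fin 3) (Fin 9) p.O), (∀ y, y ∈ p.O ↔ f y ∈ V) ∧ Cen p N N' ∧
    pt (N'.map p.π) = 𝒜.key x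

/-- The threefold over a curve, with a valuation ring over a given place. -/
def ThreeS : Prop := ∀ (L : Type) [Field L] [Algebra K L] (M : Matrix (Fin 3) (Fin 9) L)
  (X : Scheme.{0}) (s : X ⟶ Spec (CommRingCat.of K)) (𝒜 : Atl M s) (b : Bool) (F : Type) [Field F]
  [Algebra K F] (N : Matrix (Fin 3) (Fin 9) F) (p : Pl F) (N' : Matrix (Fin 3) (Fin 9) p.O),
  ChAt M → trdeg K F ≤ 1 → Iso N → ¬ Alg (pt N) → Cen p N N' →
  ∃ (F' : Type) (_ : Field F') (_ : Algebra K F') (f : F →ₐ[K] F') (j : Fin 4)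
    (χ : Ach M j →ₐ[K] F) (ξ : Spec (CommRingCat.of F') ⟶ pullback s s) (V : ValuationSubring F')
    (z : ↑(pullback s s)), mn j N ≠ 0 ∧ (el M (ff j)).map χ = nm (ff j) N ∧
    ξ ≫ pr s b = sp (f.comp χ).toRingHom ≫ 𝒜.ch j ∧
    ξ ≫ pullback.fst s s ≫ s = sp (algebraMap K F') ∧
    Order.height (ξ (closedPoint F')) = 3 ∧ trdeg K F' ≤ 3 ∧ Ctr ξ V z ∧
    (∀ y, f y ∈ V ↔ y ∈ p.O) ∧ 𝒜.key (pr s b z) = pt (N'.map p.π) ∧
    pr s (!b) z = (sp (chart M (ff 0)).val.toRingHom ≫ 𝒜.ch 0) (closedPoint L)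

/-- A projective model exists. -/
def ExistS : Prop := ∃ (X : Scheme.{0}) (s : X ⟶ Spec (CommRingCat.of K)),
  Pool.Agent.MP_fd6584_ag.Pj.IsProjective s ∧ IsGeneric s

end Pool.Agent.MP_b834b3_ag.G18
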