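import Mathlib.FieldTheory.AlgebraicClosure
import Pool.Agent.MP_b834b3_ag.h.SpecC

/-! Genus eighteen: the threefold over a curve, with a valuation ring over a given place, and
the projective model. -/

namespace Pool.Agent.MP_b834b3_ag.G18

open AlgebraicGeometry CategoryTheory Algebra IsLocalRing Limits Matrix
open scoped TensorProduct

namespace ThreeL

variable {L : Type} [Field L] [Algebra K L] {M : Matrix (Fin 3) (Fin 9) L} {X : Scheme.{0}}
  {s : X ⟶ Spec (CommRingCat.of K)}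

/-- The point of the square given by two maps of chart rings, and its centre. -/
theorem core (𝒜 : Atl M s) (h : ChAt M) (j : Bool → Fin 4) {F : Type} [Field F] [Algebra K F]
    (u : ∀ b, Ach M (j b) →ₐ[K] F) (V : ValuationSubring F) (hV : ∀ b a, u b a ∈ V)
    (ht : trdeg K F ≤ 3) {σ : Type} (y : σ → F) (hσ : Cardinal.mk σ = 3)
    (hy : AlgebraicIndependent K y) (hu : ∀ i, ∃ b a, u b a = y i) :
    ∃ (ξ : Spec (CommRingCat.of F) ⟶ pullback s s) (z : ↑(pullback s s)),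
      (∀ b, ξ ≫ pr s b = sp (u b).toRingHom ≫ 𝒜.ch (j b)) ∧
      ξ ≫ pullback.fst s s ≫ s = sp (algebraMap K F) ∧
      Order.height (ξ (closedPoint F)) = 3 ∧ Ctr ξ V z ∧
      ∀ b (E : Type) [Field E] (β : Ach M (j b) →+* E),
        (∀ a, β a = 0 ↔ V.valuation (u b a) < 1) →
        pr s b z = (sp β ≫ 𝒜.ch (j b)) (closedPoint E) := by
  have := 𝒜.lft h
  let Φ : Bq M j →ₐ[K] F := Algebra.TensorProduct.productMap (u false) (u true)
  have hΦ : ∀ b a, Φ (inc K (Ach M) j b a) = u b a := by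
    intro b a
    cases b
    · exact (Algebra.TensorProduct.productMap_apply_tmul _ _ a 1).trans (by rw [map_one, mul_one])
    · exact (Algebra.TensorProduct.productMap_apply_tmul _ _ 1 a).trans (by rw [map_one, one_mul])
  have hΦV : ∀ x, Φ.toRingHom x ∈ V := by
    intro x
    induction x using TensorProduct.induction_on with
    | zero => rw [map_zero]; exact zero_mem _
    | tmul a a' => exact mul_mem (hV false a) (hV true a')
    | add x y hx hy => rw [map_add]; exact add_mem hx hy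
  let Ψ : Bq M j →+* V := Φ.toRingHom.codRestrict V hΦV
  refine ⟨sp Φ.toRingHom ≫ 𝒜.J j, (sp Ψ ≫ 𝒜.J j) (closedPoint V), fun b => ?_, ?_, ?_,
    ⟨sp Ψ ≫ 𝒜.J j, ?_, rfl⟩, fun b E _ β hβ => ?_⟩
  · rw [Category.assoc, 𝒜.J_pr, ← Category.assoc, ← sp_comp]
    exact congrArg (fun t => sp t ≫ 𝒜.ch (j b)) (RingHom.ext (hΦ b))
  · rw [Category.assoc, 𝒜.hJ, ← sp_comp]
    exact congrArg sp Φ.comp_algebraMap
  · rw [Scheme.Hom.comp_apply]
    refine (height_chart (pullback.fst s s ≫ s) (𝒜.J j) (𝒜.hJ j) _ 3).2 ?_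
    have e : (sp Φ.toRingHom (closedPoint F)).asIdeal = RingHom.ker Φ := by
      change (maximalIdeal F).comap Φ.toRingHom = _
      rw [maximalIdeal_eq_bot]
      rfl
    refine (congrArg (fun I : Ideal (Bq M j) => trdeg K (Bq M j ⧸ I)) e).trans (le_antisymm ?_ ?_)
    · exact (trdeg_le_of_injective _ (Ideal.kerLiftAlg_injective Φ)).trans
        (ht.trans_eq (by norm_num))
    · choose b a hba using hu
      have h1 : AlgebraicIndependent K fun i =>
          Ideal.Quotient.mk (RingHom.ker Φ) (inc K (Ach M) j (b i) (a i)) := by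
        refine AlgebraicIndependent.of_comp (Ideal.kerLiftAlg Φ) ?_
        convert hy using 1
        funext i
        exact (hΦ _ _).trans (hba i)
      have h2 := h1.cardinalMk_le_trdeg
      rw [hσ] at h2
      exact le_trans (by norm_num) h2
  · rw [← Category.assoc, ← sp_comp]
    rfl
  · rw [← Scheme.Hom.comp_apply, Category.assoc, 𝒜.J_pr, ← Category.assoc, ← sp_comp,
      Scheme.Hom.comp_apply, Scheme.Hom.comp_apply]
    refine congrArg _ (PrimeSpectrum.ext ?_)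
    ext a
    change Ψ (inc K (Ach M) j b a) ∈ maximalIdeal V ↔ β a ∈ maximalIdeal E
    rw [V.valuation_lt_one_iff, maximalIdeal_eq_bot, Ideal.mem_bot, hβ, ← hΦ]
    rfl

theorem pt_nm (hB : Base) {F : Type} [Field F] [Algebra K F] {N : Matrix (Fin 3) (Fin 9) F}
    {f : Fin 3 → Fin 9} (hf : (N.submatrix id f).det ≠ 0) : pt (nm f N) = pt N := by
  refine hB.pt.pt_mul F _ N ?_
  rw [det_nonsing_inv, Ring.inverse_eq_inv']
  exact inv_ne_zero hf

theorem alg_pt (hB : Base) {F : Type} [Field F] [Algebra K F] {N : Matrix (Fin 3) (Fin 9) F}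
    (h : ∀ a c, IsAlgebraic K (N a c)) : Alg (pt N) := by
  let N₂ : Matrix (Fin 3) (Fin 9) (algebraicClosure K F) :=
    of fun a c => ⟨N a c, mem_algebraicClosure_iff.2 (h a c)⟩
  have e : N₂.map (algebraicClosure K F).val = N := rfl
  rw [← e, hB.pt.pt_map]
  exact (hB.pt.alg _ N₂).2 fun _ _ => Algebra.IsAlgebraic.isAlgebraic _

theorem unit_val {F : Type} [Field F] (V : ValuationSubring F) {x : F} (h0 : x ≠ 0)
    (h : x⁻¹ ∈ V) : ¬ V.valuation x < 1 := by
  intro h1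
  have h2 := (V.valuation_le_one_iff _).2 h
  rw [map_inv₀, inv_le_one₀ (zero_lt_iff.2 ((map_ne_zero _).2 h0))] at h2
  exact absurd h1 (not_lt.2 h2)

end ThreeL

/-- The threefold over a curve. -/
theorem three_s (hB : Base) (hC : CmpS) : ThreeS := by
  intro L _ _ M X s 𝒜 b F _ _ N p N' h htr hI hA hN'
  have hj := hB.ech p.E _ (hB.pl.iso F p N N' hI hN') hN'.2
  generalize cellOf (N'.map p.π) = j at hj
  obtain ⟨hjN, hv, hπ⟩ := hB.pl.cen F p N N' (ff j) hN' hj
  obtain ⟨χ, hχ⟩ := h.univ j F N hI hjN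
  have hχO : ∀ a, χ a ∈ p.O := by
    intro a
    have h2 : (⊤ : Subalgebra K (Ach M j)) ≤ p.O.comap χ := by
      rw [← h.gen (ff j)]
      refine adjoin_le ?_
      rintro _ ⟨x, rfl⟩
      have e : χ (el M (ff j) x.1 x.2) = ((nm (ff j) N' x.1 x.2 : p.O) : F) :=
        congrFun (congrFun (hχ.trans hv.symm) x.1) x.2
      exact (show χ (el M (ff j) x.1 x.2) ∈ p.O from e ▸ (nm (ff j) N' x.1 x.2).2)
    exact h2 Algebra.mem_top
  let α : Ach M j →ₐ[K] p.O := χ.codRestrict p.O hχO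
  have hα : (el M (ff j)).map α = nm (ff j) N' := by
    ext a c
    exact congrFun (congrFun (hχ.trans hv.symm) a) c
  obtain ⟨a₀, ha₀⟩ : ∃ a, Transcendental K (χ a) := by
    by_contra hn
    refine hA ?_
    rw [← ThreeL.pt_nm hB hjN, ← hχ]
    exact ThreeL.alg_pt hB fun a c => not_not.1 fun h1 => hn ⟨_, h1⟩
  obtain ⟨F', _, _, f, g, V, hgen, hind, hfV, hgV, hval⟩ :=
    hC K F L p.O (RingHom.ker p.π) (RingHom.ker_isPrime _) p.val
  have hO : ∀ y, f y ∈ V ↔ y ∈ p.O := by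
    refine fun y => ⟨fun hy => ?_, fun hy => hfV ⟨y, hy⟩⟩
    by_contra hn
    obtain ⟨h0, hi, h1⟩ := (hB.pl.zero F p y).1 hn
    refine ThreeL.unit_val V ((map_ne_zero f).2 (inv_ne_zero h0)) ?_ ((hval ⟨_, hi⟩).2 h1)
    rwa [map_inv₀, inv_inv]
  have hL : trdeg K L ≤ 2 := by
    rw [trdeg_of_frac (k := K) (chart M (ff 0)).val fun d => by
      obtain ⟨a, ha, c, hc, h0, e⟩ := h.frac (ff 0) (h.ne 0) d
      exact ⟨⟨a, ha⟩, ⟨c, hc⟩, h0, (mul_comm _ _).trans e⟩]
    exact (trdeg_le_of_surjective (Ideal.Quotient.mkₐ K _) Ideal.Quotient.mk_surjective).trans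
      (h.dim 0).le
  have ht : trdeg K F' ≤ 3 := by
    refine (hB.add K L F F' f g 1 2 hgen ?_ ?_).trans_eq (by norm_num)
    · exact (trdeg_le_of_surjective (Ideal.Quotient.mkₐ K _) Ideal.Quotient.mk_surjective).trans
        (htr.trans_eq Nat.cast_one.symm)
    · exact (trdeg_le_of_surjective (Ideal.Quotient.mkₐ K _) Ideal.Quotient.mk_surjective).trans
        (hL.trans_eq (by norm_num))
  obtain ⟨t, hbas⟩ := exists_isTranscendenceBasis K (Ach M 0)
  have hcard : Cardinal.mk (Unit ⊕ t) = 3 := by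
    rw [Cardinal.mk_sum, Cardinal.lift_id, Cardinal.lift_id, hbas.cardinalMk_eq_trdeg, h.dim 0]
    norm_num
  have hy := hind Unit t (fun _ => χ a₀) ((chart M (ff 0)).val ∘ Subtype.val)
    (algebraicIndependent_unique_type_iff.2 ha₀) (hbas.1.map' Subtype.val_injective)
  have h1 : ∀ a, (p.π.comp α).toRingHom a = 0 ↔ V.valuation (f.comp χ a) < 1 := fun a =>
    (hval (α a)).symm
  have h2 : ∀ a, (chart M (ff 0)).val.toRingHom a = 0 ↔
      V.valuation (g.comp (chart M (ff 0)).val a) < 1 := by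
    intro a
    change (a : L) = 0 ↔ V.valuation (g a) < 1
    refine ⟨fun h0 => by rw [h0, map_zero, map_zero]; exact zero_lt_one, fun hl => ?_⟩
    by_contra h0
    exact ThreeL.unit_val V ((map_ne_zero g).2 h0) (map_inv₀ g (a : L) ▸ hgV _) hl
  have h3 : 𝒜.key ((sp (p.π.comp α).toRingHom ≫ 𝒜.ch j) (closedPoint p.E)) = pt (N'.map p.π) := by
    rw [𝒜.key_ch, ← ThreeL.pt_nm hB hj, ← hπ, ← hα]
    rfl
  cases b
  · obtain ⟨ξ, z, e1, e2, e3, e4, e5⟩ := ThreeL.core 𝒜 h (fun b => cond b 0 j)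
      (fun b => match b with | false => f.comp χ | true => g.comp (chart M (ff 0)).val) V
      (fun b a => by cases b; exacts [hfV (α a), hgV _]) ht _ hcard hy (by
        rintro (i | i)
        exacts [⟨false, a₀, rfl⟩, ⟨true, i.1, rfl⟩])
    exact ⟨F', _, _, f, j, χ, ξ, V, z, hjN, hχ, e1 false, e2, e3, ht, e4, hO,
      (congrArg 𝒜.key (e5 false _ _ h1)).trans h3, e5 true _ _ h2⟩
  · obtain ⟨ξ, z, e1, e2, e3, e4, e5⟩ := ThreeL.core 𝒜 h (fun b => cond b j 0)
      (fun b => match b with | false => g.comp (chart M (ff 0)).val | true => f.comp χ) V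
      (fun b a => by cases b; exacts [hgV _, hfV (α a)]) ht _ hcard hy (by
        rintro (i | i)
        exacts [⟨true, a₀, rfl⟩, ⟨false, i.1, rfl⟩])
    exact ⟨F', _, _, f, j, χ, ξ, V, z, hjN, hχ, e1 true, e2, e3, ht, e4, hO,
      (congrArg 𝒜.key (e5 true _ _ h1)).trans h3, e5 false _ _ h2⟩

section Model

open Pool.Agent.MP_fd6584_ag.Pj

attribute [local instance] MvPolynomial.gradedAlgebra in
theorem exist_s (hB : Base) (hG : GenS) (hC : ChS) : ExistS := by
  obtain ⟨L, _, _, M, hM⟩ := hG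
  have h := hC L M hM
  obtain ⟨Y⟩ := exists_model (𝕜 := K) (K := L)
    (ι := {f : Fin 3 → Fin 9 // (M.submatrix id f).det ≠ 0}) ⟨fun f => chart M f.1,
    fun f => (M.submatrix id f.1).det, fun f => f.2,
    fun f f' => h.det f'.1 f.1 ▸ (((el M f'.1).submatrix id f.1).det).2,
    fun f f' c hc => by
      obtain ⟨n, a, ha, -⟩ := (h.loc f'.1 f.1 f'.2 f.2).1 ⟨c, hc⟩
      exact ⟨n, ha ▸ a.2⟩,
    fun f => Subalgebra.fg_def.2 ⟨_, Set.finite_range _, rfl⟩,
    fun O hO => by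
      obtain ⟨p, hp, -⟩ := hB.pl.ofVal L L (AlgHom.id K L) O hO
      obtain ⟨j, α, hα, -⟩ := h.place p
      exact ⟨⟨ff j, h.ne j⟩, fun c hc => (hp c).1 (hα ⟨c, hc⟩ ▸ (α ⟨c, hc⟩).2 :)⟩,
    fun f => h.frac f.1 f.2⟩
  refine ⟨Y.X, Y.s, Y.proj, ?_, L, _, _, M, hM, Y.ch, Y.openImm, Y.cover, Y.ch_s, Y.gen⟩
  obtain ⟨n, i, hi, e⟩ := Y.proj
  rw [← e]
  infer_instance

end Model

end Pool.Agent.MP_b834b3_ag.G18
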