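import Pool.Agent.MP_b834b3_ag.h.SpecB

/-! Genus eighteen: the places with centre on the hyperplane section are good. -/

namespace Pool.Agent.MP_b834b3_ag.G18

open Algebra MvPolynomial Matrix

namespace TrkL

/-- A generating family of the right size is independent. -/
theorem ind {Ω ι ν : Type} [Field Ω] [Algebra ℂ Ω] [Fintype ι] [Fintype ν] {x : ι → Ω}
    {p : ν → Ω} (hx : AlgebraicIndependent ℂ x)
    (h : ∀ i, x i ∈ IntermediateField.adjoin ℂ (Set.range p))
    (hc : Fintype.card ν ≤ Fintype.card ι) : AlgebraicIndependent ℂ p := by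
  let A := IntermediateField.adjoin ℂ (Set.range p)
  let p' : ν → A := fun i => ⟨p i, IntermediateField.subset_adjoin _ _ ⟨i, rfl⟩⟩
  have e : ∀ r : MvPolynomial ν ℂ, ((aeval p' r : A) : Ω) = aeval p r := fun r =>
    comp_aeval_apply p' A.val r
  have h1 : Algebra.IsAlgebraic (adjoin ℂ (Set.range p')) A := ⟨fun z => by
    obtain ⟨r, s, hz⟩ := (IntermediateField.mem_adjoin_range_iff ℂ p z.1).1 z.2
    have m : ∀ r : MvPolynomial ν ℂ, IsAlgebraic (adjoin ℂ (Set.range p')) (aeval p' r) :=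
      fun r => isAlgebraic_algebraMap (⟨aeval p' r, by
        rw [adjoin_range_eq_range_aeval]; exact ⟨r, rfl⟩⟩ : adjoin ℂ (Set.range p'))
    have e2 : z = aeval p' r * (aeval p' s)⁻¹ := Subtype.ext (by
      rw [hz, div_eq_mul_inv, ← e, ← e]; rfl)
    rw [e2]
    exact (m r).mul (m s).inv⟩
  have h2 : AlgebraicIndependent ℂ fun i => (⟨x i, h i⟩ : A) := .of_comp A.val hx
  have h3 := Algebra.IsAlgebraic.isTranscendenceBasis_of_le_trdeg_of_finite ℂ p'
    (le_trans (by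
      rw [Cardinal.mk_fintype, Cardinal.mk_fintype]
      exact_mod_cast hc) h2.cardinalMk_le_trdeg)
  exact h3.1.map' (f := A.val) Subtype.val_injective

theorem mem_of {ι Ω Ω' : Type} [Field Ω] [Algebra ℂ Ω] [Algebra (MvPolynomial ι ℂ) Ω]
    [IsFractionRing (MvPolynomial ι ℂ) Ω] [IsScalarTower ℂ (MvPolynomial ι ℂ) Ω] [Field Ω']
    (φ : Ω →+* Ω') (S : Subfield Ω') (h0 : ∀ c : ℂ, φ (algebraMap ℂ Ω c) ∈ S)
    (h1 : ∀ i : ι, φ (cf ℂ Ω i) ∈ S) (z : Ω) : φ z ∈ S := by
  have h : ∀ a : MvPolynomial ι ℂ, φ (algebraMap _ Ω a) ∈ S := fun a => by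
    induction a using MvPolynomial.induction_on with
    | C c => rw [← algebraMap_eq, ← IsScalarTower.algebraMap_apply]; exact h0 c
    | add a b ha hb => rw [map_add, map_add]; exact S.add_mem ha hb
    | mul_X a i ha => rw [map_mul, map_mul]; exact S.mul_mem ha (h1 i)
  obtain ⟨a, b, -, rfl⟩ := IsFractionRing.div_surjective (A := MvPolynomial ι ℂ) z
  rw [map_div₀]
  exact S.div_mem (h a) (h b)

section mem

variable (hG : GrpS) {R : Type} [CommRing R] (S : Subring R) {a b : Fin 12 → R}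
include hG

theorem law_mem (h : ∀ i, a i ∈ S) (h' : ∀ i, b i ∈ S) (i : Fin 12) : law a b i ∈ S := by
  have := congrFun (hG.map S R S.subtype (fun i => ⟨a i, h i⟩) fun i => ⟨b i, h' i⟩).2.2.2.1 i
  exact (show _ = law a b i from this) ▸ Subtype.property _

theorem inv_mem (h : ∀ i, a i ∈ S) (i : Fin 12) : inv a i ∈ S := by
  have := congrFun (hG.map S R S.subtype (fun i => ⟨a i, h i⟩) 0).2.2.2.2 i
  exact (show _ = inv a i from this) ▸ Subtype.property _

theorem nS_mem (h : ∀ i, a i ∈ S) {M : Matrix (Fin 16) (Fin 5) R} (h' : ∀ k i, M k i ∈ S)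
    (k : Fin 16) (i : Fin 5) : (nS a * M) k i ∈ S := by
  rw [Matrix.mul_apply]
  refine S.sum_mem fun l _ => S.mul_mem ?_ (h' l i)
  have := congrFun (congrFun (hG.map S R S.subtype (fun i => ⟨a i, h i⟩) 0).1 k) l
  exact (show _ = nS a k l from this) ▸ Subtype.property _

end mem

theorem minor_map {R S : Type} [CommRing R] [CommRing S] (σ : R →+* S)
    (M : Matrix (Fin 3) (Fin 9) R) (f : Fin 3 → Fin 9) :
    σ (M.submatrix id f).det = ((M.map σ).submatrix id f).det := σ.map_det _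

theorem minor_mul {R : Type} [CommRing R] (g : Matrix (Fin 3) (Fin 3) R)
    (M : Matrix (Fin 3) (Fin 9) R) (f : Fin 3 → Fin 9) :
    ((g * M).submatrix id f).det = g.det * (M.submatrix id f).det := by
  rw [← det_mul]
  rfl

/-- The residues of the translation are independent over the residue field. -/
theorem res (hG : GrpS) {E κ : Type} [Field E] [Algebra K E] [Algebra.IsAlgebraic K E] [Field κ]
    [Algebra K κ] (ι : E →+* κ) (τ : Fin 12 → κ) (hτ : AlgebraicIndependent K τ)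
    (h0 : ∀ c : ℂ, ι (algebraMap K E (algebraMap ℂ K c)) = algebraMap K κ (algebraMap ℂ K c))
    (hψ : psi κ = nS τ * (psi E).map ι) (P : MvPolynomial (Fin 12) E)
    (hP : eval₂Hom ι τ P = 0) : P = 0 := by
  let _ : Algebra ℂ κ := ((algebraMap K κ).comp (algebraMap ℂ K)).toAlgebra
  have _ : IsScalarTower ℂ K κ := .of_algebraMap_eq fun _ => rfl
  let y : Ix → κ := fun i => ι (algebraMap K E (cf ℂ K i))
  have h1 : AlgebraicIndependent ℂ (Sum.elim τ y) := by
    refine ind (cf_indep.sumElim_comp hτ) ?_ le_rfl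
    have m : ∀ i, Sum.elim τ y i ∈ IntermediateField.adjoin ℂ (Set.range (Sum.elim τ y)) :=
      fun i => IntermediateField.subset_adjoin _ _ ⟨i, rfl⟩
    rintro (i | ⟨i, k⟩)
    · exact m (.inl i)
    · change psi κ k i ∈ _
      rw [hψ]
      exact nS_mem hG (IntermediateField.adjoin ℂ (Set.range (Sum.elim τ y))).toSubfield.toSubring
        (fun i => m (.inl i)) (fun k i => m (.inr (i, k))) k i
  let S := IntermediateField.adjoin ℂ (Set.range y)
  have h2 : AlgebraicIndependent S τ :=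
    IntermediateField.algebraicIndependent_adjoin_iff.2 (AlgebraicIndependent.sumElim_iff.1 h1).2
  have h3 : ∀ z, (ι.comp (algebraMap K E)) z ∈ S := mem_of (ι := Ix) _ S.toSubfield
    (fun c => by
      rw [RingHom.comp_apply, h0]
      exact S.algebraMap_mem c) fun i => IntermediateField.subset_adjoin _ _ ⟨i, rfl⟩
  have h4 : ∀ e, ι e ∈ algebraicClosure S κ := fun e => mem_algebraicClosure_iff.2
    ((Algebra.IsAlgebraic.isAlgebraic (R := K) e).ringHom_of_comp_eq
      ((ι.comp (algebraMap K E)).codRestrict S h3) ι (RingHom.injective _) rfl)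
  let _ : Algebra E κ := ι.toAlgebra
  have h5 : AlgebraicIndependent E τ :=
    AlgebraicIndependent.of_ringHom_of_comp_eq (ι.codRestrict _ h4) (RingHom.id κ)
      h2.algebraicClosure (RingHom.injective _) rfl
  exact h5.eq_zero_of_aeval_eq_zero P hP

/-- The translated embedding. -/
theorem emb (hG : GrpS) {F F' : Type} [Field F] [Algebra K F] [Algebra ℂ F] [IsScalarTower ℂ K F]
    [Algebra (MvPolynomial Th ℂ) F] [IsFractionRing (MvPolynomial Th ℂ) F]
    [IsScalarTower ℂ (MvPolynomial Th ℂ) F] [Field F'] [Algebra K F'] (f : F →ₐ[K] F')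
    (s : Unit → F) (τ : Fin 12 → F') (h : AlgebraicIndependent K (Sum.elim (f ∘ s) τ)) :
    ∃ f₂ : F →+* F', (∀ c : ℂ, f₂ (algebraMap ℂ F c) = algebraMap K F' (algebraMap ℂ K c)) ∧
      f₂ ∘ (cf ℂ F : Th → F) ∘ .inl = law (inv τ) (f ∘ (cf ℂ F : Th → F) ∘ .inl) ∧
      f₂ ∘ (cf ℂ F : Th → F) ∘ .inr = f ∘ (cf ℂ F : Th → F) ∘ .inr := by
  let _ : Algebra ℂ F' := ((algebraMap K F').comp (algebraMap ℂ K)).toAlgebra
  have _ : IsScalarTower ℂ K F' := .of_algebraMap_eq fun _ => rfl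
  let θ : Th → F' := Sum.elim (law (inv τ) (f ∘ (cf ℂ F : Th → F) ∘ .inl))
    (f ∘ (cf ℂ F : Th → F) ∘ .inr)
  let S := IntermediateField.adjoin ℂ (Set.range (Sum.elim θ τ))
  have m : ∀ i, Sum.elim θ τ i ∈ S := fun i => IntermediateField.subset_adjoin _ _ ⟨i, rfl⟩
  have h1 : ∀ z, (f : F →+* F') z ∈ S := by
    refine mem_of (ι := Th) _ S.toSubfield (fun c => ?_) ?_
    · rw [IsScalarTower.algebraMap_apply ℂ K F, RingHom.coe_coe, f.commutes]
      exact S.algebraMap_mem c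
    · rintro (i | i)
      · have := law_mem hG S.toSubfield.toSubring (fun i => m (.inr i))
          (fun i => m (.inl (.inl i))) i
        change law τ (law (inv τ) _) i ∈ _ at this
        rwa [hG.cancel] at this
      · exact m (.inl (.inr i))
  have h2 : AlgebraicIndependent ℂ (Sum.elim θ τ) := by
    refine ind (cf_indep.sumElim_comp h) ?_ (by simp)
    rintro ((i | i) | i)
    · exact h1 _
    · exact m (.inr i)
    · have := h1 (algebraMap K F (cf ℂ K i))
      rwa [RingHom.coe_coe, f.commutes] at this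
  have h3 : Function.Injective ((aeval θ : MvPolynomial Th ℂ →ₐ[ℂ] F') : MvPolynomial Th ℂ →+* F') :=
    h2.comp Sum.inl Sum.inl_injective
  have h4 : ∀ i, IsFractionRing.lift h3 (cf ℂ F i) = θ i := fun i =>
    (IsFractionRing.lift_algebraMap h3 _).trans (aeval_X _ _)
  refine ⟨IsFractionRing.lift h3, fun c => ?_, funext fun i => h4 _, funext fun i => h4 _⟩
  rw [IsScalarTower.algebraMap_apply ℂ (MvPolynomial Th ℂ) F, IsFractionRing.lift_algebraMap]
  exact (aeval θ).commutes c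

theorem tr_one (F : Type) [Field F] [Algebra K F] [Algebra ℂ F] [IsScalarTower ℂ K F]
    [Algebra (MvPolynomial Th ℂ) F] [IsFractionRing (MvPolynomial Th ℂ) F]
    [IsScalarTower ℂ (MvPolynomial Th ℂ) F] : trdeg K F = 1 := by
  have h := trdeg_add_eq ℂ K (A := F)
  rw [trdeg_par ℂ Ix K, trdeg_par ℂ Th F, show Fintype.card Th = 80 + 1 by simp,
    show Fintype.card Ix = 80 by simp, Nat.cast_add, Nat.cast_one] at h
  exact Cardinal.eq_of_add_eq_add_left h (Cardinal.natCast_lt_aleph0)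

/-- Comparison of two integral bases of one plane. -/
theorem cmp {F : Type} [Field F] [Algebra K F] (r : Pl F) (A B : Matrix (Fin 3) (Fin 9) r.O)
    (W : Matrix (Fin 3) (Fin 9) F) (g g' : Matrix (Fin 3) (Fin 3) F)
    (hA : A.map r.O.val = g * W) (hB : B.map r.O.val = g' * W) (f f' : Fin 3 → Fin 9) :
    r.π (A.submatrix id f).det * r.π (B.submatrix id f').det =
      r.π (A.submatrix id f').det * r.π (B.submatrix id f).det := by
  rw [← map_mul, ← map_mul]
  refine congrArg _ (Subtype.ext ?_)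
  have e : ∀ (M : Matrix (Fin 3) (Fin 9) r.O) (f : Fin 3 → Fin 9),
      (((M.submatrix id f).det : r.O) : F) = ((M.map r.O.val).submatrix id f).det := fun M f =>
    minor_map (r.O.val : r.O →+* F) M f
  rw [Subalgebra.coe_mul, Subalgebra.coe_mul, e, e, e, e, hA, hB, minor_mul, minor_mul, minor_mul,
    minor_mul]
  ring

end TrkL

open TrkL in
theorem trk (hB : Base) (hG : GrpS) (hM : MovS) (hC : CmpS) (hU : UniS) : TrkS := by
  intro F _ _ _ _ _ _ _ θ hθ hψ p N hN h0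
  have htr := tr_one F
  obtain ⟨s, hs⟩ : ∃ s : F, Transcendental K s :=
    (trdeg_ne_zero_iff.1 (htr ▸ one_ne_zero)).transcendental
  let L := FractionRing (MvPolynomial (Fin 12) K)
  let x : Fin 12 → L := fun i => algebraMap (MvPolynomial (Fin 12) K) L (X i)
  have hx : AlgebraicIndependent K x :=
    (algebraicIndependent_X (Fin 12) K).map' (f := IsScalarTower.toAlgHom K _ L)
      (IsFractionRing.injective _ _)
  obtain ⟨F', _, _, f, g, V, -, hind, hfV, hgV, hval⟩ :=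
    hC K F L p.O (RingHom.ker p.π) (RingHom.ker_isPrime _) p.val
  obtain ⟨f₂, c₂, t₂, u₂⟩ := emb hG f (fun _ => s) (g ∘ x)
    (hind _ _ _ _ (algebraicIndependent_unique_type_iff.2 hs) hx)
  rw [← hθ] at t₂ u₂
  generalize hτ : g ∘ x = τ at t₂
  have e1 : psi F' = nS (f ∘ θ ∘ .inl) * Rr (f ∘ θ ∘ .inr) := by
    rw [← psi_map f, hψ]
    exact (Matrix.map_mul (f := (f : F →+* F'))).trans (congrArg₂ (· * ·)
      (hG.map F F' (f : F →+* F') _ 0).1 (hG.mapu F F' (f : F →+* F') _).1)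
  have e2 : (psi F).map f₂ = nS (law (inv τ) (f ∘ θ ∘ .inl)) * Rr (f ∘ θ ∘ .inr) := by
    rw [hψ, Matrix.map_mul, (hG.map F F' f₂ _ 0).1, (hG.mapu F F' f₂ _).1, t₂, u₂]
  have e3 : psi F' = nS τ * (psi F).map f₂ := by
    rw [e2, ← Matrix.mul_assoc, ← hG.lawS, hG.cancel, e1]
  have hK : ∀ c : K, g (algebraMap K L c) = algebraMap K F' c := g.commutes
  have hK₂ : ∀ c : K, f₂ (algebraMap K F c) ∈ V := fun c => by
    obtain ⟨a, ha⟩ := mem_of (ι := Ix) (f₂.comp (algebraMap K F)) (g : L →+* F').fieldRange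
      (fun c => ⟨_, (hK (algebraMap ℂ K c)).trans (by
        rw [RingHom.comp_apply, ← IsScalarTower.algebraMap_apply ℂ K F, c₂])⟩)
      (fun ⟨i, k⟩ => by
        change (psi F).map f₂ k i ∈ _
        rw [e2, hG.lawS, Matrix.mul_assoc, ← e1]
        exact nS_mem hG (g : L →+* F').fieldRange.toSubring
          (inv_mem hG _ fun i => ⟨x i, congrFun hτ i⟩) (fun k i => ⟨_, hK _⟩) k i) c
    exact (show _ = f₂ (algebraMap K F c) from ha) ▸ hgV a
  obtain ⟨q, q1, q2⟩ := hB.pl.ofHom F F' f₂ V hK₂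
  obtain ⟨r, r1, r2⟩ := hB.pl.ofVal F' F' (AlgHom.id K F') V fun c => hK c ▸ hgV _
  have hτV : ∀ i, τ i ∈ V := fun i => congrFun hτ i ▸ hgV (x i)
  have hp : ∀ z, f z ∈ V → z ∈ p.O := fun z hz => by
    by_contra h
    obtain ⟨z0, zi, h1⟩ := (hB.pl.zero F p z).1 h
    have h2 := (hval ⟨_, zi⟩).2 h1
    have h3 := (V.valuation_le_one_iff _).2 hz
    have h4 := mul_lt_one_of_lt_of_le h2 h3
    rw [← map_mul, ← map_mul, inv_mul_cancel₀ z0, map_one, map_one] at h4
    exact lt_irrefl _ h4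
  by_cases hq : ∀ z, z ∈ q.O
  · refine ⟨?_, hp _ ?_⟩
    · rintro (i | i)
      · have := law_mem hG V.toSubring hτV (fun i => (q1 _).1 (hq (θ (.inl i)))) i
        change law τ (f₂ ∘ θ ∘ .inl) i ∈ _ at this
        rw [t₂, hG.cancel] at this
        exact hp _ this
      · exact hp _ ((show _ = f (θ (.inr i)) from congrFun u₂ i) ▸ (q1 _).1 (hq _))
    · have := (q1 _).1 (hq (Dl (θ ∘ .inr))⁻¹)
      rw [map_inv₀, (hG.mapu F F' f₂ _).2, u₂] at this
      rw [map_inv₀]
      exact (hG.mapu F F' (f : F →+* F') (θ ∘ .inr)).2 ▸ this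
  exfalso
  obtain ⟨z, hz⟩ := not_forall.1 hq
  have := hB.pl.alg F q z htr.le hz
  obtain ⟨N₂, hN₂⟩ := hB.pl.prop F q (Nn (θ ∘ .inl)) ((hB.pt.rk_det F _).2 ⟨![8, 7, 6], by
    rw [(hG.piv F _).1, det_one]; exact one_ne_zero⟩)
  obtain ⟨t₀, ht₀⟩ := hM q.E (N₂.map q.π) (hB.pl.iso F q _ N₂ (hU F _ _ hψ).1 hN₂) hN₂.2
  let f' : p.O →+* r.O := ((f : F →+* F').comp (p.O.val : p.O →+* F)).codRestrict r.O
    fun a => (r1 _).2 (hfV a)
  let f₂' : q.O →+* r.O := (f₂.comp (q.O.val : q.O →+* F)).codRestrict r.O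
    fun a => (r1 _).2 ((q1 _).1 a.2)
  let g' : L →ₐ[K] r.O := g.codRestrict r.O fun a => (r1 _).2 (hgV a)
  have hf' : ∀ a, r.π (f' a) = 0 ↔ p.π a = 0 := fun a => (r2 _).trans (hval a)
  obtain ⟨ι, hι⟩ : ∃ ι : q.E →+* r.E, ∀ a, ι (q.π a) = r.π (f₂' a) :=
    ⟨(q.π : q.O →+* q.E).liftOfSurjective q.surj ⟨(r.π : r.O →+* r.E).comp f₂', fun a ha =>
      (r2 _).2 ((q2 a).1 ha)⟩, fun a => RingHom.liftOfRightInverse_comp_apply _ _ _ _ a⟩
  have e4 : psi r.O = nS (g' ∘ x) * (psi q.O).map f₂' := by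
    refine Matrix.map_injective (f := (r.O.val : r.O →+* F')) Subtype.val_injective ?_
    beta_reduce
    rw [Matrix.map_mul, (hG.map _ _ (r.O.val : r.O →+* F') _ 0).1]
    exact (psi_map r.O.val).trans (hτ ▸ e3)
  have e5 : psi r.E = nS (r.π ∘ g' ∘ x) * (psi q.E).map ι := by
    rw [← psi_map r.π, ← psi_map q.π, e4]
    exact (Matrix.map_mul (f := (r.π : r.O →+* r.E))).trans (congrArg₂ (· * ·)
      (hG.map _ _ (r.π : r.O →+* r.E) _ 0).1 (Matrix.ext fun k i => (hι _).symm))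
  have ev : ∀ (T : Type) [CommRing T] (σ : q.E →+* T) (y : Fin 12 → T),
      eval₂Hom σ y (mn 0 ((N₂.map q.π).map C * nV X)) = mn 0 ((N₂.map q.π).map σ * nV y) := by
    intro T _ σ y
    rw [mn, minor_map, Matrix.map_mul, (hG.map _ _ (eval₂Hom σ y) _ 0).2.1]
    refine congrArg (mn 0) (congrArg₂ (· * ·) (Matrix.ext fun a c => ?_)
      (congrArg nV (funext fun i => ?_)))
    · exact eval₂Hom_C _ _ _
    · exact eval₂Hom_X' _ _ _
  have h1 : mn 0 ((N₂.map q.π).map ι * nV (r.π ∘ g' ∘ x)) ≠ 0 := fun h => ht₀ (by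
    have h2 := res hG ι _ (hx.map' (f := r.π.comp g') (RingHom.injective (r.π.comp g' : L →+* r.E)))
      (fun c => by
        rw [← q.π.commutes, hι, ← r.π.commutes]
        refine congrArg _ (Subtype.ext ?_)
        exact (congrArg f₂ (IsScalarTower.algebraMap_apply ℂ K F c).symm).trans (c₂ c))
      e5 _ ((ev _ _ _).trans h)
    have h3 := ev q.E (RingHom.id _) t₀
    rw [h2, map_zero] at h3
    exact h3.symm)
  obtain ⟨⟨g₁, -, a₁⟩, k₁⟩ := hN
  obtain ⟨⟨g₂, -, a₂⟩, -⟩ := hN₂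
  obtain ⟨j, hj⟩ := (hB.pt.rk_det _ _).1 k₁
  have h2 := cmp r (N.map f') (N₂.map f₂' * nV (g' ∘ x)) (Nn (f ∘ θ ∘ .inl))
    (g₁.map (f : F →+* F')) (g₂.map f₂) (by
      have := congrArg (Matrix.map · (f : F →+* F')) a₁
      beta_reduce at this
      rw [Matrix.map_mul, (hG.map F F' (f : F →+* F') _ 0).2.2.1] at this
      exact this) (by
      have := congrArg (Matrix.map · f₂) a₂
      beta_reduce at this
      rw [Matrix.map_mul, (hG.map F F' f₂ _ 0).2.2.1, t₂] at this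
      refine (Matrix.map_mul (f := (r.O.val : r.O →+* F'))).trans ?_
      rw [(hG.map _ _ (r.O.val : r.O →+* F') _ 0).2.1, ← hG.cancel F' τ (f ∘ θ ∘ .inl), Nn,
        hG.lawV, ← Matrix.mul_assoc, ← Matrix.mul_assoc, Matrix.mul_assoc (g₂.map f₂), ← Nn,
        ← this, ← hτ]
      rfl) (ff 0) j
  rw [← minor_map f', ← minor_map f', (hf' _).2 ((minor_map (p.π : p.O →+* p.E) N _).trans h0),
    zero_mul] at h2
  refine mul_ne_zero (fun h => hj ((minor_map (p.π : p.O →+* p.E) N j).symm.trans ((hf' _).1 h)))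
    (fun h => h1 ?_) h2.symm
  refine Eq.trans ?_ ((minor_map (r.π : r.O →+* r.E) _ _).symm.trans h)
  rw [Matrix.map_mul, (hG.map _ _ (r.π : r.O →+* r.E) _ 0).2.1]
  exact congrArg (mn 0) (congrArg₂ (· * ·) (Matrix.ext fun a c => hι _) rfl)

end Pool.Agent.MP_b834b3_ag.G18
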