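import Pool.Agent.MP_b834b3_ag.h.SpecB

/-! Genus eighteen: the last two cells have at most one point each, which is closed. -/

namespace Pool.Agent.MP_b834b3_ag.G18

open Algebra MvPolynomial Matrix

namespace TwoL

/-- The free coordinates of the cell. -/
abbrev T : Type := {x : Fin 12 // 2 ≤ x.val}

/-- The coordinates on the cell. -/
noncomputable def cut (x : Fin 12) : MvPolynomial T ℂ := if h : 2 ≤ x.val then X ⟨x, h⟩ else 0

/-- The positions of the free coordinates. -/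
def sec (j : Fin 4) (x : T) : Fin 3 × Fin 9 := sc j x.1

theorem nz_two : ∀ j : Fin 4, 2 ≤ j.val → nz j = 2 := by decide

theorem key (hB : Base) {F : Type} [Field F] [Algebra K F] {N : Matrix (Fin 3) (Fin 9) F}
    {j : Fin 4} (hj : 2 ≤ j.val) (h1 : Iso N) (hd : mn j N ≠ 0) (h2 : cellOf N = j) :
    (pt N).2 ∈ St (X : Fin 3 × Fin 9 → MvPolynomial (Fin 3 × Fin 9) K) (sec j)
      (fun y => par j cut y.1 y.2) 1 ∧
    ∀ s, ∑ i, algebraMap K (MvPolynomial (Fin 3 × Fin 9) K) (cf ℂ K i) *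
      aeval ((X : Fin 3 × Fin 9 → MvPolynomial (Fin 3 × Fin 9) K) ∘ sec j)
        (mm j (par j cut) s i) ∈ (pt N).2 := by
  have hg : ((N.submatrix id (ff j))⁻¹).det ≠ 0 :=
    (isUnit_nonsing_inv_det _ (isUnit_iff_ne_zero.2 hd)).ne_zero
  have e : (pt N).2 = RingHom.ker (aeval (fun x : Fin 3 × Fin 9 => nm (ff j) N x.1 x.2) :
      MvPolynomial (Fin 3 × Fin 9) K →ₐ[K] F) := by rw [← h2]; rfl
  have i1 : Iso (nm (ff j) N) := hB.pt.iso_mul F _ N h1
  have c1 : cellOf (nm (ff j) N) = j := (congrArg Prod.fst (hB.pt.pt_mul F _ N hg)).trans h2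
  have o1 := (hB.pt.nm_one F (ff j) N hd).1
  rw [e]
  generalize nm (ff j) N = M at i1 c1 o1
  have p1 := hB.par.eq F j M o1 i1.1
  have z := (hB.par.cell F j _).1 (p1 ▸ c1)
  rw [nz_two j hj] at z
  set χ : MvPolynomial (Fin 3 × Fin 9) K →ₐ[K] F := aeval fun x : Fin 3 × Fin 9 => M x.1 x.2 with hχ
  let σ : MvPolynomial T ℂ →+* F := χ.toRingHom.comp (aeval
    ((X : Fin 3 × Fin 9 → MvPolynomial (Fin 3 × Fin 9) K) ∘ sec j) :
      MvPolynomial T ℂ →ₐ[ℂ] _).toRingHom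
  have hσ : ∀ f, χ (aeval ((X : Fin 3 × Fin 9 → MvPolynomial (Fin 3 × Fin 9) K) ∘ sec j) f) = σ f :=
    fun _ => rfl
  have q : (par j cut).map σ = M := by
    rw [hB.par.map, p1]
    congr 1
    funext x
    rw [Function.comp_apply, cut]
    split_ifs with k
    · rw [← hσ, aeval_X, Function.comp_apply, hχ, aeval_X]
      rfl
    · rw [map_zero]
      exact (z x (not_le.1 k)).symm
  refine ⟨⟨RingHom.ker_isPrime _, fun y => ?_, fun k => ?_⟩, fun s => ?_⟩
  · rw [RingHom.mem_ker, map_sub, hσ, hχ, aeval_X, ← q, map_apply, sub_self]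
  · rw [RingHom.mem_ker, map_one, map_one] at k
    exact one_ne_zero k
  · rw [RingHom.mem_ker, map_sum, ← ((hB.eq.iso F j M o1).1 i1).2 s]
    exact Finset.sum_congr rfl fun i _ => by rw [map_mul, hσ, AlgHom.commutes, hB.eq.map, q]

theorem half (hB : Base) {F F' : Type} [Field F] [Algebra K F] [Field F'] [Algebra K F']
    {N : Matrix (Fin 3) (Fin 9) F} {N' : Matrix (Fin 3) (Fin 9) F'} {j : Fin 4} (hj : 2 ≤ j.val)
    (h1 : Iso N) (h1' : Iso N') (hd : mn j N ≠ 0) (hd' : mn j N' ≠ 0)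
    (h2 : cellOf N = j) (h2' : cellOf N' = j) : (pt N).2 ≤ (pt N').2 ∧ Alg (pt N) := by
  obtain ⟨n, hn⟩ := Cardinal.lt_aleph0.1
    (trdeg_lt_aleph0_of_finiteType (R := K) (S := MvPolynomial (Fin 3 × Fin 9) K ⧸ (pt N).2))
  have a := key hB hj h1 hd h2
  have b := key hB hj h1' hd' h2'
  have c : Fintype.card T = 10 := by decide
  have d := dim_build (m := mm j (par j cut)) (p := pv j) (h₀ := 1) (sec := sec j)
    (ρ := fun y => par j cut y.1 y.2) (S := {(pt N).2, (pt N').2}) (hB.eq.inj j)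
    MvPolynomial.adjoin_range_X (by rw [pdet, hB.eq.one _ _ j (hB.par.one _ j _), det_one])
    (by rintro _ (rfl | rfl); exacts [a.1, b.1]) (by rintro _ (rfl | rfl); exacts [a.2, b.2])
    (Or.inl rfl) hn
  rw [c, hB.eq.card.1] at d
  obtain rfl : n = 0 := by omega
  exact ⟨d.2 rfl _ (Or.inr rfl), hn.trans Nat.cast_zero⟩

end TwoL

theorem two_s (hB : Base) : TwoS := by
  intro j F F' _ _ _ _ N N' hj h1 r h1' r' h2 h2'
  have hd : mn j N ≠ 0 := h2 ▸ hB.ech F N h1 r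
  have hd' : mn j N' ≠ 0 := h2' ▸ hB.ech F' N' h1' r'
  exact ⟨Prod.ext (h2.trans h2'.symm)
    (le_antisymm (TwoL.half hB hj h1 h1' hd hd' h2 h2').1 (TwoL.half hB hj h1' h1 hd' hd h2' h2).1),
    (TwoL.half hB hj h1 h1' hd hd' h2 h2').2⟩

end Pool.Agent.MP_b834b3_ag.G18
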