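import Pool.Agent.MP_b834b3_ag.h.SpecA

/-! Genus eighteen: uniqueness at the parametrized points. -/

namespace Pool.Agent.MP_b834b3_ag.G18

open Matrix

namespace UniL

section
variable {F : Type} [Field F] {h : Matrix (Fin 16) (Fin 16) F} {ρ : Matrix (Fin 9) (Fin 9) F}

theorem inj (s : IsUnit h) {ξ ξ' : Fin 16 → F} (e : ξ ᵥ* h = ξ' ᵥ* h) : ξ = ξ' :=
  vecMul_injective_iff_isUnit.2 s e

theorem zero_iff (s : IsUnit h) {ξ : Fin 16 → F} : ξ ᵥ* h = 0 ↔ ξ = 0 :=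
  ⟨fun e => inj s (by rw [e, zero_vecMul]), fun e => by rw [e, zero_vecMul]⟩

theorem comm (s : Sp h ρ) (ξ : Fin 16 → F) (x : Fin 9 → F) :
    ξ ᵥ* h ᵥ* gam x = ξ ᵥ* gam (x ᵥ* ρ) ᵥ* h := by
  rw [vecMul_vecMul, vecMul_vecMul, s.2.2]

theorem zd_iff (s : Sp h ρ) (ψ ξ : Fin 16 → F) (M : Matrix (Fin 3) (Fin 9) F) :
    ZD (h *ᵥ ψ) (M * ρ) ξ ↔ ZD ψ M (ξ ᵥ* h) := by
  refine and_congr (zero_iff s.1).not.symm (and_congr (forall_congr' fun a => ?_) ?_)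
  · rw [comm s, zero_iff s.1]
    exact Iff.rfl
  · constructor
    · intro k x
      rw [comm s, ← dotProduct_mulVec]
      exact k _
    · intro k y
      obtain ⟨x, rfl⟩ := vecMul_surjective_iff_isUnit.2 s.2.1 y
      have := k x
      rwa [comm s, ← dotProduct_mulVec] at this

theorem an_mul {M : Matrix (Fin 3) (Fin 9) F} {ξ : Fin 16 → F} (k : An M ξ)
    (g : Matrix (Fin 3) (Fin 3) F) : An (g * M) ξ := fun a => by
  have e : gam ((g * M) a) = ∑ b, g a b • gam (M b) := gam_vecMul (g a) M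
  rw [e, vecMul_sum]
  exact Finset.sum_eq_zero fun b _ => by rw [vecMul_smul, k, smul_zero]

end

theorem aS_map {R S : Type} [CommRing R] [CommRing S] (σ : R →+* S) (a : Fin 18 → R)
    (l : List (Fin 18)) : (aS a l).map σ = aS (σ ∘ a) l := by
  induction l with
  | nil => simp [aS]
  | cons j l ih =>
    have e : ∀ (T : Type) [CommRing T] (b : Fin 18 → T), aS b (j :: l) =
        e1 (fun i => b j * su j i) (fun i => sv j i) * aS b l := fun T _ b => by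
      simp only [aS, List.map_cons, List.prod_cons]
    rw [e, e, Matrix.map_mul, ih, e1, e1, Matrix.map_add _ (map_add σ), Matrix.map_mul, gam_map,
      gam_map, Matrix.map_one _ (map_zero σ) (map_one σ)]
    have e2 : (σ ∘ fun i => a j * (su j i : R)) = fun i => (σ ∘ a) j * (su j i : S) :=
      funext fun i => by simp
    have e3 : (σ ∘ fun i => (sv j i : R)) = fun i => (sv j i : S) := funext fun i => by simp
    rw [e2, e3]

variable {F : Type} [Field F] [Algebra K F]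

/-- The element of the group. -/
def hh {R : Type} [CommRing R] (t : Fin 12 → R) (u : Tu → R) : Matrix (Fin 16) (Fin 16) R :=
  nS t * aS (u ∘ .inl) (List.finRange 18)

omit [Algebra K F] in
theorem sp (hG : GrpS) (t : Fin 12 → F) (u : Tu → F) :
    ∃ (ρ : Matrix (Fin 9) (Fin 9) F) (g : Matrix (Fin 3) (Fin 3) F),
      Sp (hh t u) ρ ∧ IsUnit g ∧ U0 F * ρ = g * Nn t := by
  obtain ⟨ρ, g, s, ug, e⟩ := hG.spa F (u ∘ .inl) (List.finRange 18)
  refine ⟨ρ * nV t, g, hG.mul F _ _ _ _ (hG.spn F t) s, ug, ?_⟩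
  rw [← Matrix.mul_assoc, e, Nn, Matrix.mul_assoc]

theorem psi_eq {t : Fin 12 → F} {u : Tu → F} (e : psi F = nS t * Rr u) :
    psi F = hh t u * (pat (u ∘ .inr ∘ .inl) * mx u) := by
  rw [e, Rr, hh, Matrix.mul_assoc, Matrix.mul_assoc]

theorem iso (hG : GrpS) (hN : NfS) {t : Fin 12 → F} {u : Tu → F} (e : psi F = nS t * Rr u) :
    Iso (Nn t) := by
  obtain ⟨ρ, g, s, ug, eg⟩ := sp hG t u
  obtain ⟨⟨t0, a0, -⟩, -⟩ := hN F (u ∘ .inr ∘ .inl)
  have tt : Tot (Nn t) := fun c => by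
    rw [Nn, ← vecMul_vecMul, hG.qf F _ _ _ (hG.spn F t)]
    exact t0 c
  refine (iso_iff _).2 ⟨tt, ?_⟩
  have k : am (U0 F * ρ) * psi F = 0 := by
    rw [psi_eq e, ← Matrix.mul_assoc, ← hG.am F _ _ _ s, Matrix.mul_assoc,
      ← Matrix.mul_assoc (am _), a0, Matrix.zero_mul, Matrix.mul_zero]
  rw [eg, am_mul tt, Matrix.smul_mul] at k
  exact (smul_eq_zero.1 k).resolve_left ((isUnit_iff_isUnit_det g).1 ug).ne_zero

theorem core (hG : GrpS) (hN : NfS) {t : Fin 12 → F} {u : Tu → F} (e : psi F = nS t * Rr u)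
    (hD : Dl u ≠ 0) {w : Fin 5 → F} {ξ : Fin 16 → F} (hw : mx u *ᵥ w = Pi.single 0 1)
    (hξ : ξ ᵥ* hh t u = Pi.single 15 1) :
    ZD (psi F *ᵥ w) (Nn t) ξ ∧ ∀ (M' : Matrix (Fin 3) (Fin 9) F) (ξ' : Fin 16 → F), Iso M' →
      Rk M' → ZD (psi F *ᵥ w) M' ξ' →
      (∃ g : Matrix (Fin 3) (Fin 3) F, M' = g * Nn t) ∧ ∃ a : F, ξ' = a • ξ := by
  obtain ⟨ρ, g, s, ug, eg⟩ := sp hG t u
  obtain ⟨⟨-, -, z0⟩, un⟩ := hN F (u ∘ .inr ∘ .inl)
  have ew : psi F *ᵥ w = hh t u *ᵥ (pat (u ∘ .inr ∘ .inl) *ᵥ Pi.single 0 1) := by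
    rw [psi_eq e, ← mulVec_mulVec, ← mulVec_mulVec, hw]
  have dg := (isUnit_iff_isUnit_det g).1 ug
  have dρ := (isUnit_iff_isUnit_det ρ).1 s.2.1
  have dh := (isUnit_iff_isUnit_det _).1 s.1
  have dm : IsUnit (mx u).det := (right_ne_zero_of_mul hD).isUnit
  rw [ew]
  constructor
  · have z := (zd_iff s _ ξ (U0 F)).2 (by rw [hξ]; exact z0)
    refine ⟨z.1, ?_, z.2.2⟩
    have := an_mul z.2.1 g⁻¹
    rwa [eg, nonsing_inv_mul_cancel_left _ _ dg] at this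
  · intro M' ξ' i' r' z'
    obtain ⟨M, rfl⟩ : ∃ M, M' = M * ρ := ⟨M' * ρ⁻¹, (nonsing_inv_mul_cancel_right _ _ dρ).symm⟩
    have tM : Tot M := fun c => by
      rw [← hG.qf F _ _ _ s, vecMul_vecMul]
      exact i'.1 c
    have rM : Rk M := fun c hc => r' c (by rw [← vecMul_vecMul, hc, zero_vecMul])
    have aM : am M * pat (u ∘ .inr ∘ .inl) = 0 := by
      have k := ((iso_iff _).1 i').2
      rw [psi_eq e, ← Matrix.mul_assoc, ← hG.am F _ _ _ s, Matrix.mul_assoc,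
        ← Matrix.mul_assoc (am _)] at k
      have k2 := congrArg (fun A => (hh t u)⁻¹ * A * (mx u)⁻¹) k
      simpa only [nonsing_inv_mul_cancel_left _ _ dh, mul_nonsing_inv_cancel_right _ _ dm,
        Matrix.mul_zero, Matrix.zero_mul] using k2
    obtain ⟨⟨g0, e0⟩, a, ea⟩ := un M (ξ' ᵥ* hh t u) (left_ne_zero_of_mul hD) tM rM aM
      ((zd_iff s _ _ _).1 z')
    refine ⟨⟨g0 * g, by rw [e0, Matrix.mul_assoc, eg, Matrix.mul_assoc]⟩, a, inj s.1 ?_⟩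
    rw [ea, smul_vecMul, hξ, ← Pi.single_smul', smul_eq_mul, mul_one]

end UniL

theorem uni (hG : GrpS) (hN : NfS) : UniS := by
  intro E _ _ t u e
  refine ⟨UniL.iso hG hN e, fun hD => ?_⟩
  obtain ⟨ρ, g, s, -, -⟩ := UniL.sp hG t u
  have dm : IsUnit (mx u) := (isUnit_iff_isUnit_det _).2 (right_ne_zero_of_mul hD).isUnit
  obtain ⟨w, hw⟩ := mulVec_surjective_iff_isUnit.2 dm (Pi.single 0 1)
  obtain ⟨ξ, hξ⟩ := vecMul_surjective_iff_isUnit.2 s.1 (Pi.single 15 1)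
  refine ⟨w, ξ, (UniL.core hG hN e hD hw hξ).1, fun F _ _ σ M' ξ' i' r' z' => ?_⟩
  obtain ⟨m1, -, m3, -⟩ := hG.map E F (σ : E →+* F) t t
  obtain ⟨m4, m5⟩ := hG.mapu E F (σ : E →+* F) u
  have e' : psi F = nS ((σ : E →+* F) ∘ t) * Rr ((σ : E →+* F) ∘ u) := by
    rw [← m1, ← m4, ← Matrix.map_mul, ← e]
    exact (psi_map σ).symm
  have hD' : Dl ((σ : E →+* F) ∘ u) ≠ 0 := by
    rw [← m5]
    exact (map_ne_zero _).2 hD
  have hw' : mx ((σ : E →+* F) ∘ u) *ᵥ ((σ : E →+* F) ∘ w) = Pi.single 0 1 := funext fun i => by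
    have k := (σ : E →+* F).map_mulVec (mx u) w i
    rw [show mx u *ᵥ w = Pi.single 0 1 from hw] at k
    refine Eq.trans k.symm ?_
    simp [Pi.single_apply]
  have hξ' : ((σ : E →+* F) ∘ ξ) ᵥ* UniL.hh ((σ : E →+* F) ∘ t) ((σ : E →+* F) ∘ u) =
      Pi.single 15 1 := funext fun i => by
    have k := (σ : E →+* F).map_vecMul (UniL.hh t u) ξ i
    rw [show ξ ᵥ* UniL.hh t u = Pi.single 15 1 from hξ, UniL.hh, Matrix.map_mul, m1,
      UniL.aS_map] at k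
    refine Eq.trans k.symm ?_
    simp [Pi.single_apply]
  have c := (UniL.core hG hN e' hD' hw' hξ').2 M' ξ' i' r' z'
  rw [← m3] at c
  exact c

end Pool.Agent.MP_b834b3_ag.G18
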