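import Pool.Agent.MP_b834b3_ag.h.SpecA

/-! Genus eighteen: a square linear system has one closed point. -/

namespace Pool.Agent.MP_b834b3_ag.G18

open Algebra MvPolynomial

namespace UnqL

variable {τ r : Type} [Fintype τ] [Fintype r] [DecidableEq r]
  {m : r → Ix → MvPolynomial τ ℂ} {p : r → Ix}

omit [Fintype τ] in
theorem key {F : Type} [Field F] [Algebra K F] [Algebra ℂ F] [IsScalarTower ℂ K F] (v : τ → F)
    (hdet : aeval v (pdet m p) ≠ 0)
    (h : ∀ s, ∑ i, algebraMap K F (cf ℂ K i) * aeval v (m s i) = 0) :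
    RingHom.ker (aeval v : MvPolynomial τ K →ₐ[K] F) ∈
      St (X : τ → MvPolynomial τ K) id X (pdet m p) ∧
    ∀ s, ∑ i, algebraMap K (MvPolynomial τ K) (cf ℂ K i) *
      aeval ((X : τ → MvPolynomial τ K) ∘ id) (m s i) ∈
        RingHom.ker (aeval v : MvPolynomial τ K →ₐ[K] F) := by
  let χ : MvPolynomial τ K →ₐ[K] F := aeval v
  have hχ : ∀ f : MvPolynomial τ ℂ, χ (aeval ((X : τ → MvPolynomial τ K) ∘ id) f) = aeval v f :=
    fun f => AlgHom.congr_fun (algHom_ext (f := (χ.restrictScalars ℂ).comp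
      (aeval ((X : τ → MvPolynomial τ K) ∘ id))) (g := aeval v) fun x => by simp [χ]) f
  change RingHom.ker χ ∈ _ ∧ ∀ s, _ ∈ RingHom.ker χ
  refine ⟨⟨RingHom.ker_isPrime _, fun x => by simp, fun h0 => hdet (by
    rwa [RingHom.mem_ker, hχ] at h0)⟩, fun s => ?_⟩
  rw [RingHom.mem_ker, map_sum, ← h s]
  exact Finset.sum_congr rfl fun i _ => by rw [map_mul, hχ, AlgHom.commutes]

theorem half {F F' : Type} [Field F] [Algebra K F] [Algebra ℂ F] [IsScalarTower ℂ K F]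
    [Field F'] [Algebra K F'] [Algebra ℂ F'] [IsScalarTower ℂ K F'] (v : τ → F) (v' : τ → F')
    (hp : Function.Injective p) (hc : Fintype.card τ ≤ Fintype.card r)
    (hdet : aeval v (pdet m p) ≠ 0) (hdet' : aeval v' (pdet m p) ≠ 0)
    (h : ∀ s, ∑ i, algebraMap K F (cf ℂ K i) * aeval v (m s i) = 0)
    (h' : ∀ s, ∑ i, algebraMap K F' (cf ℂ K i) * aeval v' (m s i) = 0) :
    RingHom.ker (aeval v : MvPolynomial τ K →ₐ[K] F) ≤
      RingHom.ker (aeval v' : MvPolynomial τ K →ₐ[K] F') ∧ ∀ x, IsAlgebraic K (v x) := by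
  obtain ⟨n, hn⟩ := Cardinal.lt_aleph0.1 (trdeg_lt_aleph0_of_finiteType (R := K)
    (S := MvPolynomial τ K ⧸ RingHom.ker (aeval v : MvPolynomial τ K →ₐ[K] F)))
  have a := key v hdet h
  have b := key v' hdet' h'
  have d := dim_build (m := m) (p := p) (h₀ := pdet m p) (sec := id) (ρ := X)
    (e := (X : τ → MvPolynomial τ K))
    (S := {RingHom.ker (aeval v : MvPolynomial τ K →ₐ[K] F),
      RingHom.ker (aeval v' : MvPolynomial τ K →ₐ[K] F')}) hp MvPolynomial.adjoin_range_X dvd_rfl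
    (by rintro _ (rfl | rfl); exacts [a.1, b.1]) (by rintro _ (rfl | rfl); exacts [a.2, b.2])
    (Or.inl rfl) hn
  obtain rfl : n = 0 := by omega
  refine ⟨d.2 (by omega) _ (Or.inr rfl), fun x => ?_⟩
  have := a.1.1
  have alg : Algebra.IsAlgebraic K
      (MvPolynomial τ K ⧸ RingHom.ker (aeval v : MvPolynomial τ K →ₐ[K] F)) :=
    trdeg_eq_zero_iff.1 (hn.trans Nat.cast_zero)
  have e := (alg.isAlgebraic (Ideal.Quotient.mk _ (X x))).algHom
    (Ideal.Quotient.liftₐ _ (aeval v : MvPolynomial τ K →ₐ[K] F) fun _ k => k)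
  rwa [Ideal.Quotient.liftₐ_apply, Ideal.Quotient.lift_mk, RingHom.coe_coe, aeval_X] at e

end UnqL

theorem unq : UnqS := fun _ _ _ _ _ _ _ _ _ _ _ _ _ _ _ _ _ v v' hp hc hd hd' h h' =>
  ⟨fun _ => ⟨fun k => (UnqL.half v v' hp hc hd hd' h h').1 k,
    fun k => (UnqL.half v' v hp hc hd' hd h' h).1 k⟩, (UnqL.half v v' hp hc hd hd' h h').2⟩

end Pool.Agent.MP_b834b3_ag.G18
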