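import Pool.Agent.MP_b834b3_ag.g.Vrel
import Pool.Agent.MP_b834b3_ag.h.SpecA

/-! The divisor of the norm of a function, with signs. -/

namespace Pool.Agent.MP_b834b3_ag.G18

open AlgebraicGeometry CategoryTheory Algebra IsLocalRing Limits

open G20.Vrel in
theorem vrel : VrelS := by
  intro k _ Y t _ _ F _ _ ξ φ hξt hξ hF hφ
  classical
  obtain ⟨W, _, i, ε, hi, hε⟩ := exists_image ξ
  have hln : IsLocallyNoetherian W := LocallyOfFiniteType.isLocallyNoetherian (i ≫ t)
  have hcs : CompactSpace W := i.isClosedEmbedding.compactSpace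
  have hno : IsNoetherian W := {}
  have hii : Function.Injective i := i.isClosedEmbedding.injective
  have hgen : i (genericPoint W) = ξ (closedPoint F) := by
    rw [← hε, Scheme.Hom.comp_apply, Scheme.Hom.comp_apply]
    congr 1
    rw [Subsingleton.elim (α := PrimeSpectrum W.functionField) (sp ε (closedPoint F))
      (closedPoint W.functionField)]
    exact Scheme.fromSpecStalk_closedPoint.symm
  have hW : Order.height (genericPoint W) = (2 + 1 : ℕ) := by
    rw [← height_closed i, hgen, hξ]; rfl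
  let _ := ε.toAlgebra
  have halg : Algebra.IsAlgebraic W.functionField F := by
    let κ := Spec.preimage (W.fromSpecStalk (genericPoint W) ≫ i ≫ t)
    let _ : Algebra k W.functionField := κ.hom.toAlgebra
    have h1 : sp (ε.comp κ.hom) = sp (algebraMap k F) := by
      rw [sp_comp, ← hξt, ← hε, Category.assoc, Category.assoc]
      congr 1
      exact Spec.map_preimage _
    have : IsScalarTower k W.functionField F :=
      .of_algebraMap_eq fun c => (RingHom.congr_fun (sp_inj h1) c).symm
    obtain ⟨n, hn⟩ := dl_nat (i ≫ t) (genericPoint W)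
    have h2 : n = 3 := by exact_mod_cast (height_eq _ hn).symm.trans hW
    have h3 : trdeg k W.functionField = dl (i ≫ t) (genericPoint W) := by
      let _ := (Spec.preimage (W.fromSpecResidueField (genericPoint W) ≫ i ≫ t)).hom.toAlgebra
      have h4 : κ ≫ W.residue _ =
          Spec.preimage (W.fromSpecResidueField (genericPoint W) ≫ i ≫ t) := by
        apply Spec.map_injective
        rw [Spec.map_comp, Spec.map_preimage, Spec.map_preimage, Scheme.fromSpecResidueField,
          Category.assoc]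
      exact (AlgEquiv.ofBijective (R := k) (A₁ := W.functionField)
        (A₂ := W.residueField (genericPoint W))
        ⟨(W.residue _).hom, fun c => congrArg (fun g => g.hom c) h4⟩
        ⟨RingHom.injective (R := W.functionField) _, W.residue_surjective _⟩).trdeg_eq
    rw [← trdeg_add_eq k W.functionField (A := F), h3, hn, h2] at hF
    rw [← trdeg_eq_zero_iff]
    by_contra h5
    have h6 := (add_le_add_right (Cardinal.one_le_iff_ne_zero.2 h5) _).trans hF
    norm_cast at h6
  obtain ⟨ψ, hψ0, hψ⟩ := nrm hφ (halg.isAlgebraic φ).isIntegral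
  let c : Y →₀ ℚ := Finsupp.mapDomain i (Finsupp.ofSupportFinite (fun z => (W.ord ψ z : ℚ))
    ((ord_finite W ψ).subset fun z hz => by simpa using hz))
  have hc : ∀ z, c (i z) = W.ord ψ z := fun z => by
    simp only [c]
    rw [Finsupp.mapDomain_apply hii, Finsupp.ofSupportFinite_coe]
  have hc' : ∀ y, y ∉ Set.range i → c y = 0 := fun y hy =>
    Finsupp.mapDomain_of_notMem_range _ _ hy
  have key : ∀ z : W, Order.coheight z = 1 → ((∀ O, Ctr ξ O (i z) → φ ∈ O) →
      0 ≤ W.ord ψ z ∧ (W.ord ψ z = 0 → ∀ O, Ctr ξ O (i z) → φ⁻¹ ∈ O)) ∧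
      ((∀ O, Ctr ξ O (i z) → φ⁻¹ ∈ O) → W.ord ψ z ≤ 0) := by
    intro z hz
    let _ : Algebra (W.presheaf.stalk z) F := (ε.comp (algebraMap _ W.functionField)).toAlgebra
    have : IsScalarTower (W.presheaf.stalk z) W.functionField F := .of_algebraMap_eq fun _ => rfl
    have hD := ctr_iff i ξ z (by
      rw [← hε]
      refine (congrArg (· ≫ fs W z ≫ i) (sp_comp _ ε)).trans ?_
      rw [Category.assoc]
      congr 1
      rw [← Category.assoc]
      congr 1
      exact Scheme.SpecMap_stalkSpecializes_fromSpecStalk (genericPoint_specializes z))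
    have : Ring.KrullDimLE 1 (W.presheaf.stalk z) := krullDimLE_of_coheight_le hz.le
    have hm : ∀ x y : W.functionField, x ≠ 0 → y ≠ 0 → W.ord (x * y) z = W.ord x z + W.ord y z :=
      fun x y hx hy => Scheme.ord_mul hx hy
    have ho := @ord_int (W.presheaf.stalk z) W.functionField _ _ _ _ _ _ _ (W.ord · z) hm
      fun u h0 => by
        have hn := mem_nonZeroDivisors_of_ne_zero h0
        obtain ⟨m, hm⟩ := ENat.ne_top_iff_exists.1 (Ring.ord_ne_top hn)
        refine ⟨m, hm.symm, ?_⟩
        rw [Scheme.ord_eq_iff hz ((map_ne_zero_iff _ (IsFractionRing.injective _ _)).2 h0)]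
        change Ring.ordFrac _ _ = _
        rw [Ring.ordFrac_eq_ord _ h0]
        exact Ring.ordMonoidWithZeroHom_eq_coe _ hn hm.symm
    obtain ⟨a1, a2⟩ := hψ (W.presheaf.stalk z)
    refine ⟨fun h1 => ?_, fun e => ?_⟩
    · obtain ⟨a3, a4⟩ := a1 (int_of_val fun O hO => h1 O ((hD O).2 hO))
      refine ⟨(ho hψ0 a3).1, fun e O hO => mem_of_int ?_ O ((hD O).1 hO).1⟩
      have a5 := (((ho hψ0 a3).2 e).algebraMap (B := F)).mul a4
      rwa [← mul_assoc, ← map_mul, inv_mul_cancel₀ hψ0, map_one, one_mul] at a5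
    · have a5 := (ho (inv_ne_zero hψ0) (a2 (int_of_val fun O hO => e O ((hD O).2 hO)))).1
      have a7 := hm ψ ψ⁻¹ hψ0 (inv_ne_zero hψ0)
      have a8 := hm 1 1 one_ne_zero one_ne_zero
      rw [mul_inv_cancel₀ hψ0] at a7
      rw [mul_one] at a8
      omega
  have sup : ∀ y, c y ≠ 0 → ∃ z, i z = y ∧ Order.coheight z = 1 := by
    intro y hy
    obtain ⟨z, rfl⟩ : y ∈ Set.range i := by
      by_contra h
      exact hy (hc' y h)
    refine ⟨z, rfl, ?_⟩
    by_contra h
    exact hy (by rw [hc, Scheme.ord_eq_zero_of_coheight_neq_one h]; rfl)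
  refine ⟨c, ⟨W, inferInstance, hln, i, ψ, hi, ?_, hψ0, hc, hc'⟩, fun y hy => ?_, fun y hy => ?_,
    fun y hy => ?_, ?_⟩
  · rw [dim_top, hW]; rfl
  · obtain ⟨z, rfl, h1⟩ := sup y hy
    rw [height_closed]
    exact (coheight_one (i ≫ t) hW z).1 h1
  · obtain ⟨z, rfl, h1⟩ := sup y hy.ne'
    by_contra h
    push Not at h
    rw [hc] at hy
    exact absurd ((key z h1).2 h) (not_le.2 (by exact_mod_cast hy))
  · obtain ⟨z, rfl, h1⟩ := sup y hy.ne
    by_contra h
    push Not at h
    rw [hc] at hy
    exact absurd ((key z h1).1 h).1 (not_le.2 (by exact_mod_cast hy))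
  · rintro z hz h1 ⟨O, ⟨μ, h2, h3⟩, h4⟩
    obtain ⟨z, rfl⟩ : z ∈ Set.range i := by
      have h5 : ξ (closedPoint F) ⤳ z := by
        rw [← h2, ← h3, Scheme.Hom.comp_apply]
        exact (specializes_closedPoint _).map μ.continuous
      exact h5.mem_closed i.isClosedEmbedding.isClosed_range ⟨_, hgen⟩
    obtain ⟨a1, a2⟩ :=
      (key z ((coheight_one (i ≫ t) hW z).2 (by rw [← height_closed i, hz]; rfl))).1 h1
    rw [hc]
    exact_mod_cast lt_of_le_of_ne a1 fun e => h4 (a2 e.symm O ⟨μ, h2, h3⟩)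

end Pool.Agent.MP_b834b3_ag.G18
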