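import Pool.Agent.MP_b834b3_ag.h.SpecA

/-! Genus eighteen: statements on charts, points and places. -/

namespace Pool.Agent.MP_b834b3_ag.G18

open AlgebraicGeometry CategoryTheory Algebra IsLocalRing Limits MvPolynomial Matrix
open scoped TensorProduct

/-- The pivot columns of the four charts. -/
def ff : Fin 4 → Fin 3 → Fin 9 := ![![0, 1, 2], ![0, 1, 3], ![0, 2, 3], ![0, 1, 5]]

/-- The four minors. -/
def mn {R : Type} [CommRing R] (j : Fin 4) (M : Matrix (Fin 3) (Fin 9) R) : R :=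
  (M.submatrix id (ff j)).det

/-- The codimension of the cells. -/
def nz : Fin 4 → ℕ := ![0, 1, 2, 2]

/-- The four charts of the variety of isotropic planes. -/
def par {R : Type} [CommRing R] (j : Fin 4) (v : Fin 12 → R) : Matrix (Fin 3) (Fin 9) R :=
  ![!![1, 0, 0, v 0, v 1, v 2, v 10, v 9, -(v 0 * v 2) - v 1 ^ 2;
       0, 1, 0, v 3, v 4, v 5, v 11, -(v 3 * v 5) - v 4 ^ 2, -v 9 - v 0 * v 5 - 2 * v 1 * v 4 - v 2 * v 3;
       0, 0, 1, v 6, v 7, v 8, -(v 6 * v 8) - v 7 ^ 2, -v 11 - v 3 * v 8 - 2 * v 4 * v 7 - v 5 * v 6, -v 10 - v 0 * v 8 - 2 * v 1 * v 7 - v 2 * v 6],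
    !![1, 0, v 1, 0, v 2, v 10, v 3, v 9, -(v 1 * v 3) - v 2 ^ 2;
       0, 1, v 4, 0, v 5, v 11, v 6, -(v 4 * v 6) - v 5 ^ 2, -v 9 - v 1 * v 6 - 2 * v 2 * v 5 - v 3 * v 4;
       0, 0, v 0, 1, v 7, -(v 0 * v 8) - v 7 ^ 2, v 8, -v 11 - v 4 * v 8 - 2 * v 5 * v 7 - v 6 * v 0, -v 10 - v 1 * v 8 - 2 * v 2 * v 7 - v 3 * v 0],
    !![1, v 2, 0, 0, v 3, v 10, v 9, v 4, -(v 2 * v 4) - v 3 ^ 2;
       0, v 1, 1, 0, v 5, v 11, -(v 1 * v 6) - v 5 ^ 2, v 6, -v 9 - v 2 * v 6 - 2 * v 3 * v 5 - v 4 * v 1;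
       0, v 0, 0, 1, v 7, -(v 0 * v 8) - v 7 ^ 2, -v 11 - v 1 * v 8 - 2 * v 5 * v 7 - v 6 * v 0, v 8, -v 10 - v 2 * v 8 - 2 * v 3 * v 7 - v 4 * v 0],
    !![1, 0, v 2, v 10, v 3, 0, v 4, v 9, -(v 2 * v 4) - v 3 ^ 2;
       0, 1, v 5, v 11, v 6, 0, v 7, -(v 5 * v 7) - v 6 ^ 2, -v 9 - v 2 * v 7 - 2 * v 3 * v 6 - v 4 * v 5;
       0, 0, v 0, -(v 0 * v 8) - v 1 ^ 2, v 1, 1, v 8, -v 11 - v 5 * v 8 - 2 * v 6 * v 1 - v 7 * v 0, -v 10 - v 2 * v 8 - 2 * v 3 * v 1 - v 4 * v 0]] j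

/-- The positions of the coordinates. -/
def sc : Fin 4 → Fin 12 → Fin 3 × Fin 9 :=
  ![![(0, 3), (0, 4), (0, 5), (1, 3), (1, 4), (1, 5), (2, 3), (2, 4), (2, 5), (0, 7), (0, 6), (1, 6)],
    ![(2, 2), (0, 2), (0, 4), (0, 6), (1, 2), (1, 4), (1, 6), (2, 4), (2, 6), (0, 7), (0, 5), (1, 5)],
    ![(2, 1), (1, 1), (0, 1), (0, 4), (0, 7), (1, 4), (1, 7), (2, 4), (2, 7), (0, 6), (0, 5), (1, 5)],
    ![(2, 2), (2, 4), (0, 2), (0, 4), (0, 6), (1, 2), (1, 4), (1, 6), (2, 6), (0, 7), (0, 3), (1, 3)]]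

open Classical in
/-- The first chart that contains the plane. -/
noncomputable def cellOf {F : Type} [Field F] (M : Matrix (Fin 3) (Fin 9) F) : Fin 4 :=
  if mn 0 M ≠ 0 then 0 else if mn 1 M ≠ 0 then 1 else if mn 2 M ≠ 0 then 2 else 3

/-- Names of points. -/
abbrev Pt : Type := Fin 4 × Ideal (MvPolynomial (Fin 3 × Fin 9) K)

/-- The point that belongs to a plane. -/
noncomputable def pt {F : Type} [Field F] [Algebra K F] (M : Matrix (Fin 3) (Fin 9) F) : Pt :=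
  (cellOf M, RingHom.ker (aeval (fun x : Fin 3 × Fin 9 => nm (ff (cellOf M)) M x.1 x.2) :
    MvPolynomial (Fin 3 × Fin 9) K →ₐ[K] F))

/-- A closed point. -/
def Alg (p : Pt) : Prop := trdeg K (MvPolynomial (Fin 3 × Fin 9) K ⧸ p.2) = 0

/-- Properties of the parametrizations. -/
structure ParS : Prop where
  map : ∀ (R S : Type) [CommRing R] [CommRing S] (σ : R →+* S) (j : Fin 4) (v : Fin 12 → R),
    (par j v).map σ = par j (σ ∘ v)
  one : ∀ (R : Type) [CommRing R] (j : Fin 4) (v : Fin 12 → R), (par j v).submatrix id (ff j) = 1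
  iso : ∀ (R : Type) [CommRing R] (j : Fin 4) (v : Fin 12 → R), Tot (par j v)
  sec : ∀ (R : Type) [CommRing R] (j : Fin 4) (v : Fin 12 → R) (x : Fin 12),
    par j v (sc j x).1 (sc j x).2 = v x
  eq : ∀ (R : Type) [CommRing R] (j : Fin 4) (N : Matrix (Fin 3) (Fin 9) R),
    N.submatrix id (ff j) = 1 → Tot N → N = par j fun x => N (sc j x).1 (sc j x).2
  cell : ∀ (F : Type) [Field F] (j : Fin 4) (v : Fin 12 → F),
    cellOf (par j v) = j ↔ ∀ x : Fin 12, x.val < nz j → v x = 0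
  mn0 : ∀ (R : Type) [CommRing R] (j : Fin 4) (v : Fin 12 → R), j ≠ 0 →
    mn 0 (par j v) = v 0 ∨ mn 0 (par j v) = -v 0
  ne0 : ∀ j, ∃ v : Fin 12 → ℂ, mn j (par 0 v) ≠ 0
  ne1 : ∀ j, j ≠ 0 → ∃ v : Fin 12 → ℂ, v 0 = 0 ∧ mn j (par 1 v) ≠ 0
  ne2 : ∀ j, j ≠ 0 → ∃ v : Fin 12 → ℂ, v 0 = 0 ∧ mn 1 (par j v) ≠ 0

/-- The ten equations. -/
abbrev Rw : Type := Fin 5 × Fin 2

/-- The pivot rows of the product of the three rows. -/
def prw : Fin 4 → Fin 2 → Fin 16 := ![![7, 15], ![11, 15], ![13, 15], ![3, 7]]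

/-- The pivot columns. -/
def pcl : Fin 4 → Fin 2 → Fin 16 := ![![0, 8], ![0, 4], ![0, 2], ![8, 12]]

/-- The signs of the pivots. -/
def psg : Fin 4 → Fin 2 → ℤ := ![![1, 1], ![1, -1], ![1, 1], ![1, -1]]

/-- The two covectors of a plane in a chart. -/
def cv {R : Type} [CommRing R] (j : Fin 4) (N : Matrix (Fin 3) (Fin 9) R) :
    Matrix (Fin 2) (Fin 16) R := of fun ρ k => psg j ρ * am N (prw j ρ) k

/-- The coefficients of the equations. -/
def mm {R : Type} [CommRing R] (j : Fin 4) (N : Matrix (Fin 3) (Fin 9) R) (s : Rw) (i : Ix) : R :=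
  if s.1 = i.1 then cv j N s.2 i.2 else 0

/-- The pivots. -/
def pv (j : Fin 4) (s : Rw) : Ix := (s.1, pcl j s.2)

/-- The equations as a linear system. -/
structure EqS : Prop where
  cv_map : ∀ (R S : Type) [CommRing R] [CommRing S] (σ : R →+* S) (j : Fin 4)
    (N : Matrix (Fin 3) (Fin 9) R), (cv j N).map σ = cv j (N.map σ)
  cv_one : ∀ (R : Type) [CommRing R] (j : Fin 4) (N : Matrix (Fin 3) (Fin 9) R),
    N.submatrix id (ff j) = 1 → (cv j N).submatrix id (pcl j) = 1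
  cv_am : ∀ (R : Type) [CommRing R] (j : Fin 4) (N : Matrix (Fin 3) (Fin 9) R),
    N.submatrix id (ff j) = 1 → Tot N → am N = (am N).submatrix id (pcl j) * cv j N
  cv_row : ∀ (R : Type) [CommRing R] (j : Fin 4) (N : Matrix (Fin 3) (Fin 9) R) (c : Fin 2 → R),
    ∃ d, c ᵥ* cv j N = d ᵥ* am N
  cv_an : ∀ (R : Type) [CommRing R] (j : Fin 4) (N : Matrix (Fin 3) (Fin 9) R) (ξ : Fin 16 → R),
    N.submatrix id (ff j) = 1 → Tot N → (An N ξ ↔ ξ = (ξ ∘ pcl j) ᵥ* cv j N)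
  iso : ∀ (R : Type) [CommRing R] [Algebra K R] (j : Fin 4) (N : Matrix (Fin 3) (Fin 9) R),
    N.submatrix id (ff j) = 1 →
    (Iso N ↔ Tot N ∧ ∀ s, ∑ i, algebraMap K R (cf ℂ K i) * mm j N s i = 0)
  iso' : ∀ (R : Type) [CommRing R] [Algebra K R] (j : Fin 4) (N : Matrix (Fin 3) (Fin 9) R),
    N.submatrix id (ff j) = 1 → (Iso N ↔ Tot N ∧ cv j N * psi R = 0)
  map : ∀ (R S : Type) [CommRing R] [CommRing S] (σ : R →+* S) (j : Fin 4)
    (N : Matrix (Fin 3) (Fin 9) R) (s : Rw) (i : Ix), σ (mm j N s i) = mm j (N.map σ) s i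
  inj : ∀ j, Function.Injective (pv j)
  one : ∀ (R : Type) [CommRing R] (N : Matrix (Fin 3) (Fin 9) R) (j : Fin 4),
    N.submatrix id (ff j) = 1 → (Matrix.of fun s s' => mm j N s (pv j s')) = 1
  card : Fintype.card Rw = 10 ∧ Fintype.card Ix = 80
  li : ∀ (F : Type) [Field F] (j : Bool → Fin 4) (N : Bool → Matrix (Fin 3) (Fin 9) F),
    (∀ b, (N b).submatrix id (ff (j b)) = 1) → LI (N false) (N true) →
    ∀ c : Bool × Rw → F, (∀ i, ∑ s, c s * mm (j s.1) (N s.1) s.2 i = 0) → c = 0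
  zd : ∀ (R : Type) [CommRing R] (j : Fin 4) (N : Matrix (Fin 3) (Fin 9) R) (ξ ψ : Fin 16 → R),
    N.submatrix id (ff j) = 1 → Tot N → An N ξ → cv j N *ᵥ ψ = 0 →
    (∀ a, ξ ᵥ* gam (ev R (ff j a).rev) ⬝ᵥ ψ = 0) → ∀ x, ξ ᵥ* gam x ⬝ᵥ ψ = 0
  vac : ∀ (R : Type) [CommRing R] (N : Matrix (Fin 3) (Fin 9) R),
    am N *ᵥ Pi.single 0 1 = 0 → mn 0 N = 0 ∧ mn 1 N = 0 ∧ mn 2 N = 0

/-- Properties of planes, cells and points. -/
structure PtS : Prop where
  nm_one : ∀ (F : Type) [Field F] (f : Fin 3 → Fin 9) (M : Matrix (Fin 3) (Fin 9) F),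
    (M.submatrix id f).det ≠ 0 → (nm f M).submatrix id f = 1 ∧ M = M.submatrix id f * nm f M
  nm_self : ∀ (R : Type) [CommRing R] (f : Fin 3 → Fin 9) (M : Matrix (Fin 3) (Fin 9) R),
    M.submatrix id f = 1 → nm f M = M
  nm_mul : ∀ (F : Type) [Field F] (f : Fin 3 → Fin 9) (g : Matrix (Fin 3) (Fin 3) F)
    (M : Matrix (Fin 3) (Fin 9) F), g.det ≠ 0 → nm f (g * M) = nm f M
  nm_map : ∀ (F F' : Type) [Field F] [Field F'] (σ : F →+* F') (f : Fin 3 → Fin 9)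
    (M : Matrix (Fin 3) (Fin 9) F), nm f (M.map σ) = (nm f M).map σ
  nm_unit : ∀ (R S : Type) [CommRing R] [CommRing S] (σ : R →+* S) (f : Fin 3 → Fin 9)
    (M : Matrix (Fin 3) (Fin 9) R), IsUnit (M.submatrix id f).det → nm f (M.map σ) = (nm f M).map σ
  det_nm : ∀ (F : Type) [Field F] (f f' : Fin 3 → Fin 9) (M : Matrix (Fin 3) (Fin 9) F),
    ((nm f M).submatrix id f').det = (M.submatrix id f').det / (M.submatrix id f).det
  iso_mul : ∀ (R : Type) [CommRing R] [Algebra K R] (g : Matrix (Fin 3) (Fin 3) R)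
    (M : Matrix (Fin 3) (Fin 9) R), Iso M → Iso (g * M)
  iso_map : ∀ (R S : Type) [CommRing R] [Algebra K R] [CommRing S] [Algebra K S] (σ : R →ₐ[K] S)
    (M : Matrix (Fin 3) (Fin 9) R), (Iso M → Iso (M.map σ)) ∧
      (Function.Injective σ → Iso (M.map σ) → Iso M)
  rk_det : ∀ (F : Type) [Field F] (M : Matrix (Fin 3) (Fin 9) F),
    Rk M ↔ ∃ f : Fin 3 → Fin 9, (M.submatrix id f).det ≠ 0
  rk_mul : ∀ (F : Type) [Field F] (g : Matrix (Fin 3) (Fin 3) F) (M : Matrix (Fin 3) (Fin 9) F),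
    (g.det ≠ 0 → Rk M → Rk (g * M)) ∧ (Rk (g * M) → g.det ≠ 0 ∧ Rk M)
  rk_map : ∀ (F F' : Type) [Field F] [Field F'] (σ : F →+* F') (M : Matrix (Fin 3) (Fin 9) F),
    Rk (M.map σ) ↔ Rk M
  cell_iff : ∀ (F : Type) [Field F] (M : Matrix (Fin 3) (Fin 9) F) (j : Fin 4), mn j M ≠ 0 →
    cellOf M ≤ j ∧ mn (cellOf M) M ≠ 0 ∧ (cellOf M = j ↔ ∀ i, i < j → mn i M = 0)
  cell_three : ∀ (F : Type) [Field F] (M : Matrix (Fin 3) (Fin 9) F),
    mn 0 M = 0 → mn 1 M = 0 → mn 2 M = 0 → cellOf M = 3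
  cell_two : ∀ (F : Type) [Field F] (M : Matrix (Fin 3) (Fin 9) F) (a b : F),
    mn (cellOf M) M ≠ 0 → (a ≠ 0 ∨ b ≠ 0) → (∀ r, a * M r 0 + b * M r 1 = 0) → cellOf M = 2
  pt_mul : ∀ (F : Type) [Field F] [Algebra K F] (g : Matrix (Fin 3) (Fin 3) F)
    (M : Matrix (Fin 3) (Fin 9) F), g.det ≠ 0 → pt (g * M) = pt M
  pt_map : ∀ (F F' : Type) [Field F] [Algebra K F] [Field F'] [Algebra K F'] (σ : F →ₐ[K] F')
    (M : Matrix (Fin 3) (Fin 9) F), pt (M.map σ) = pt M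
  pt_ker : ∀ (R F F' : Type) [CommRing R] [Algebra K R] [Field F] [Algebra K F] [Field F']
    [Algebra K F'] (β : R →ₐ[K] F) (β' : R →ₐ[K] F') (N : Matrix (Fin 3) (Fin 9) R),
    (∀ r, β r = 0 ↔ β' r = 0) → pt (N.map β) = pt (N.map β')
  alg : ∀ (F : Type) [Field F] [Algebra K F] (M : Matrix (Fin 3) (Fin 9) F),
    Alg (pt M) ↔ ∀ a c, IsAlgebraic K (nm (ff (cellOf M)) M a c)
  zd_mul : ∀ (R : Type) [CommRing R] (g : Matrix (Fin 3) (Fin 3) R) (M : Matrix (Fin 3) (Fin 9) R)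
    (ψ ξ : Fin 16 → R), ZD ψ M ξ → ZD ψ (g * M) ξ
  zp_mul : ∀ (F : Type) [Field F] [Algebra K F] (g : Matrix (Fin 3) (Fin 3) F)
    (M : Matrix (Fin 3) (Fin 9) F), (Zp M → Zp (g * M)) ∧ (Tot M → Yp M → Yp (g * M))
  uq_mul : ∀ (F : Type) [Field F] [Algebra K F] (g : Matrix (Fin 3) (Fin 3) F)
    (M : Matrix (Fin 3) (Fin 9) F), g.det ≠ 0 → UQ M → UQ (g * M)

/-- The four charts cover. -/
def EchS : Prop := ∀ (F : Type) [Field F] [Algebra K F] (M : Matrix (Fin 3) (Fin 9) F),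
  Iso M → Rk M → mn (cellOf M) M ≠ 0

/-- A place of a field over `K`. -/
structure Pl (F : Type) [Field F] [Algebra K F] where
  /-- the valuation ring -/
  O : Subalgebra K F
  /-- the residue field -/
  E : Type
  /-- the field structure -/
  [fld : Field E]
  /-- the algebra structure -/
  [alg : Algebra K E]
  /-- the residue map -/
  π : O →ₐ[K] E
  val : ∀ x : F, x ∈ O ∨ x⁻¹ ∈ O
  loc : ∀ a : O, π a ≠ 0 → (a : F)⁻¹ ∈ O
  surj : Function.Surjective π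

attribute [instance] Pl.fld Pl.alg

/-- `N` is an integral basis of the plane `M`. -/
def Cen {F : Type} [Field F] [Algebra K F] (p : Pl F) (M : Matrix (Fin 3) (Fin 9) F)
    (N : Matrix (Fin 3) (Fin 9) p.O) : Prop :=
  (∃ g : Matrix (Fin 3) (Fin 3) F, g.det ≠ 0 ∧ N.map p.O.val = g * M) ∧ Rk (N.map p.π)

/-- Properties of places. -/
structure PlS : Prop where
  ex : ∀ (F R : Type) [Field F] [Algebra K F] [CommRing R] [Algebra K R] (χ : R →ₐ[K] F)
    (P : Ideal R), P.IsPrime → RingHom.ker χ ≤ P → ∃ (p : Pl F) (α : R →ₐ[K] p.O),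
      (∀ r, (α r : F) = χ r) ∧ ∀ r, p.π (α r) = 0 ↔ r ∈ P
  ofVal : ∀ (F F' : Type) [Field F] [Algebra K F] [Field F'] [Algebra K F'] (f : F →ₐ[K] F')
    (V : ValuationSubring F'), (∀ c, algebraMap K F' c ∈ V) → ∃ p : Pl F,
      (∀ x, x ∈ p.O ↔ f x ∈ V) ∧ ∀ a : p.O, p.π a = 0 ↔ V.valuation (f a) < 1
  ofHom : ∀ (F F' : Type) [Field F] [Algebra K F] [Field F'] (f : F →+* F')
    (V : ValuationSubring F'), (∀ c, f (algebraMap K F c) ∈ V) → ∃ p : Pl F,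
      (∀ x, x ∈ p.O ↔ f x ∈ V) ∧ ∀ a : p.O, p.π a = 0 ↔ V.valuation (f a) < 1
  zero : ∀ (F : Type) [Field F] [Algebra K F] (p : Pl F) (x : F),
    (x ∉ p.O ↔ x ≠ 0 ∧ ∃ h : x⁻¹ ∈ p.O, p.π ⟨_, h⟩ = 0)
  alg_mem : ∀ (F : Type) [Field F] [Algebra K F] (p : Pl F) (x : F), IsAlgebraic K x → x ∈ p.O
  alg : ∀ (F : Type) [Field F] [Algebra K F] (p : Pl F) (x : F), trdeg K F ≤ 1 → x ∉ p.O →
    Algebra.IsAlgebraic K p.E
  prim : ∀ (F ι : Type) [Field F] [Algebra K F] [Fintype ι] (p : Pl F) (x : ι → F), x ≠ 0 →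
    ∃ (a : F) (y : ι → p.O), a ≠ 0 ∧ (∀ i, (y i : F) = a * x i) ∧ ∃ i, y i = 1
  iso : ∀ (F : Type) [Field F] [Algebra K F] (p : Pl F) (M : Matrix (Fin 3) (Fin 9) F)
    (N : Matrix (Fin 3) (Fin 9) p.O), Iso M → Cen p M N → Iso (N.map p.π)
  cen : ∀ (F : Type) [Field F] [Algebra K F] (p : Pl F) (M : Matrix (Fin 3) (Fin 9) F)
    (N : Matrix (Fin 3) (Fin 9) p.O) (f : Fin 3 → Fin 9), Cen p M N →
    ((N.map p.π).submatrix id f).det ≠ 0 → (M.submatrix id f).det ≠ 0 ∧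
      (nm f N).map p.O.val = nm f M ∧ (nm f N).map p.π = nm f (N.map p.π)
  prop : ∀ (F : Type) [Field F] [Algebra K F] (p : Pl F) (M : Matrix (Fin 3) (Fin 9) F),
    Rk M → ∃ N, Cen p M N

/-- The basic facts together. -/
structure Base : Prop where
  cliff : CliffS
  lin : LinS
  par : ParS
  pt : PtS
  eq : EqS
  ech : EchS
  pl : PlS
  add : AddS

/-- Covectors specialize. -/
def SpecS : Prop := ∀ (F : Type) [Field F] [Algebra K F] (p : Pl F) (M : Matrix (Fin 3) (Fin 9) F)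
  (N : Matrix (Fin 3) (Fin 9) p.O) (ψ : Fin 16 → p.O) (ξ : Fin 16 → F), Cen p M N →
  (ZD (p.O.val ∘ ψ) M ξ → ∃ ξ', ZD (p.π ∘ ψ) (N.map p.π) ξ') ∧
  (Tot M → am M *ᵥ (p.O.val ∘ ψ) = 0 → am (N.map p.π) *ᵥ (p.π ∘ ψ) = 0) ∧
  ∀ y : Fin 9 → p.O, (∀ a, bf (M a) (p.O.val ∘ y) = 0) → ∀ a, bf (N.map p.π a) (p.π ∘ y) = 0

/-- The hypotheses of the relation: the function `φ` on the curve of planes `M` has a zero at
`x`, no pole at `x`, all poles in `P` and all other zeros in `Q`. -/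
def VRH (P Q : Set Pt) {F : Type} [Field F] [Algebra K F] (M : Matrix (Fin 3) (Fin 9) F) (φ : F)
    (x : Pt) : Prop :=
  trdeg K F ≤ 1 ∧ Iso M ∧ Rk M ∧ φ ≠ 0 ∧ Alg x ∧
    (∀ (p : Pl F) N, Cen p M N → φ ∉ p.O → pt (N.map p.π) ∈ P ∧ pt (N.map p.π) ≠ x) ∧
    (∀ (p : Pl F) N, Cen p M N → φ⁻¹ ∉ p.O → pt (N.map p.π) = x ∨ pt (N.map p.π) ∈ Q) ∧
    ∃ (p : Pl F) (N : Matrix (Fin 3) (Fin 9) p.O), Cen p M N ∧ φ⁻¹ ∉ p.O ∧ pt (N.map p.π) = x

/-- `P` is closed under rational equivalence with signs. -/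
def VR (P Q : Set Pt) : Prop := ∀ (F : Type) [Field F] [Algebra K F] (M : Matrix (Fin 3) (Fin 9) F)
  (φ : F) (x : Pt), VRH P Q M φ x → x ∈ P

/-- The curve is not contracted. -/
def NcS : Prop := ∀ (P Q : Set Pt) (F : Type) [Field F] [Algebra K F]
  (M : Matrix (Fin 3) (Fin 9) F) (φ : F) (x : Pt), VRH P Q M φ x → ¬ Alg (pt M)

/-- `G` contains the points of the cell `j`. -/
def CellIn (G : Set Pt) (j : Fin 4) : Prop := ∀ (F : Type) [Field F] [Algebra K F]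
  (N : Matrix (Fin 3) (Fin 9) F), Iso N → Rk N → cellOf N = j → pt N ∈ G

/-- `G` contains the degeneracy locus. -/
def ZIn (G : Set Pt) : Prop := ∀ (F : Type) [Field F] [Algebra K F]
  (N : Matrix (Fin 3) (Fin 9) F), Iso N → Rk N → Zp N → pt N ∈ G

/-- `G` contains the zero locus. -/
def YIn (G : Set Pt) : Prop := ∀ (F : Type) [Field F] [Algebra K F]
  (N : Matrix (Fin 3) (Fin 9) F), Iso N → Rk N → Yp N → pt N ∈ G

/-- `G` contains the closed points of total ramification. -/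
def CcIn (G : Set Pt) : Prop := ∀ (E : Type) [Field E] [Algebra K E] [Algebra.IsAlgebraic K E]
  (N : Matrix (Fin 3) (Fin 9) E), Iso N → Rk N → UQ N → pt N ∈ G

/-- The last two cells have at most one point each, which is closed. -/
def TwoS : Prop := ∀ (j : Fin 4) (F F' : Type) [Field F] [Algebra K F] [Field F'] [Algebra K F']
  (N : Matrix (Fin 3) (Fin 9) F) (N' : Matrix (Fin 3) (Fin 9) F'), 2 ≤ j.val → Iso N → Rk N →
  Iso N' → Rk N' → cellOf N = j → cellOf N' = j → pt N = pt N' ∧ Alg (pt N)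

/-- The degeneracy locus has at most one point, which is closed. -/
def ZuS : Prop := ∀ (F F' : Type) [Field F] [Algebra K F] [Field F'] [Algebra K F']
  (N : Matrix (Fin 3) (Fin 9) F) (N' : Matrix (Fin 3) (Fin 9) F'), Iso N → Rk N →
  Iso N' → Rk N' → Zp N → Zp N' → pt N = pt N' ∧ Alg (pt N)

/-- The zero locus has at most one point, which is closed. -/
def YuS : Prop := ∀ (F F' : Type) [Field F] [Algebra K F] [Field F'] [Algebra K F']
  (N : Matrix (Fin 3) (Fin 9) F) (N' : Matrix (Fin 3) (Fin 9) F'), Iso N → Rk N →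
  Iso N' → Rk N' → Yp N → Yp N' → pt N = pt N' ∧ Alg (pt N)

/-- A curve through a point of a chart: the plane `M`, further coordinates `y`, and `n`
further equations `G`, fewer than two more than the further coordinates. -/
def CurS : Prop := ∀ (E τ ι : Type) [Field E] [Algebra K E] [Fintype τ] [Fintype ι] (j : Fin 4)
  (v : Fin 12 → E) (y : τ → E) (G : ι → MvPolynomial (Fin 12 ⊕ τ) E),
  Fintype.card ι < Fintype.card τ + 2 → Iso (par j v) → (∀ i, aeval (Sum.elim v y) (G i) = 0) →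
  ∃ (F : Type) (_ : Field F) (_ : Algebra K F) (_ : Algebra E F) (_ : IsScalarTower K E F)
    (V : Fin 12 → F) (Y : τ → F), trdeg E F = 1 ∧ Iso (par j V) ∧
    (∀ i, aeval (Sum.elim V Y) (G i) = 0) ∧
    (¬ ∀ x, IsAlgebraic E (Sum.elim V Y x)) ∧
    ∃ (p : Pl F) (N : Matrix (Fin 3) (Fin 9) p.O), Cen p (par j V) N ∧
      pt (N.map p.π) = pt (par j v) ∧
      ∀ x, Y x - algebraMap E F (y x) ≠ 0 → (Y x - algebraMap E F (y x))⁻¹ ∉ p.O

/-- A closed point comes from an algebraic extension. -/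
def DescS : Prop := ∀ (F : Type) [Field F] [Algebra K F] (N : Matrix (Fin 3) (Fin 9) F),
  Iso N → Rk N → Alg (pt N) → ∃ (E : Type) (_ : Field E) (_ : Algebra K E)
    (_ : Algebra.IsAlgebraic K E) (σ : E →ₐ[K] F) (v : Fin 12 → E) (g : Matrix (Fin 3) (Fin 3) F),
    g.det ≠ 0 ∧ Iso (par (cellOf N) v) ∧ (par (cellOf N) v).map σ = g * N ∧
      pt (par (cellOf N) v) = pt N

/-- Points of total ramification lie in `P`. -/
def CgS : Prop := ∀ P Q : Set Pt, VR P Q → ZIn P → CcIn P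

/-- The relation between the third cell and the two loci. -/
def R1S : Prop := ∀ P Q : Set Pt, VR P Q → ZIn P → YIn P → CellIn P 2

/-- The relation between the zero locus and the last cell. -/
def R2S : Prop := ∀ P Q : Set Pt, VR P Q → CellIn P 3 → YIn P

/-- The unipotent radical moves every plane into the first chart. -/
def MovS : Prop := ∀ (F : Type) [Field F] [Algebra K F] (N : Matrix (Fin 3) (Fin 9) F),
  Iso N → Rk N → ∃ t : Fin 12 → F, mn 0 (N * nV t) ≠ 0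

/-- The places with centre on the hyperplane section are good. -/
def TrkS : Prop := ∀ (F : Type) [Field F] [Algebra K F] [Algebra ℂ F] [IsScalarTower ℂ K F]
  [Algebra (MvPolynomial Th ℂ) F] [IsFractionRing (MvPolynomial Th ℂ) F]
  [IsScalarTower ℂ (MvPolynomial Th ℂ) F] (θ : Th → F), θ = cf ℂ F →
  psi F = nS (θ ∘ .inl) * Rr (θ ∘ .inr) →
  ∀ (p : Pl F) (N : Matrix (Fin 3) (Fin 9) p.O), Cen p (Nn (θ ∘ .inl)) N → mn 0 (N.map p.π) = 0 →
    (∀ i, θ i ∈ p.O) ∧ (Dl (θ ∘ .inr))⁻¹ ∈ p.O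

/-- A curve of points of total ramification. -/
def ExcS : Prop := ∃ (F : Type) (_ : Field F) (_ : Algebra K F) (N : Matrix (Fin 3) (Fin 9) F),
  trdeg K F = 1 ∧ Iso N ∧ N.submatrix id ![0, 1, 2] = 1 ∧ (∃ a c, Transcendental K (N a c)) ∧
    ∀ (p : Pl F) (N' : Matrix (Fin 3) (Fin 9) p.O), Cen p N N' → mn 0 (N'.map p.π) = 0 →
      UQ (N'.map p.π)

section Charts

variable {L : Type} [Field L] [Algebra K L] (M : Matrix (Fin 3) (Fin 9) L)

/-- The generic plane over a chart ring. -/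
noncomputable def el (f : Fin 3 → Fin 9) : Matrix (Fin 3) (Fin 9) (chart M f) :=
  of fun a c => ⟨nm f M a c, Algebra.subset_adjoin ⟨(a, c), rfl⟩⟩

/-- The four chart rings. -/
abbrev Ach (j : Fin 4) : Type := chart M (ff j)

/-- The transition between two charts. -/
def LocAt (f f' : Fin 3 → Fin 9) : Prop := ∀ b : chart M f', ∃ (n : ℕ) (a : chart M f),
  (a : L) = ((M.submatrix id f').det / (M.submatrix id f).det) ^ n * b ∧
  ∀ (F : Type) [Field F] [Algebra K F] (χ : chart M f →ₐ[K] F) (χ' : chart M f' →ₐ[K] F),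
    (((el M f).map χ).submatrix id f').det ≠ 0 → (el M f').map χ' = nm f' ((el M f).map χ) →
    χ a = (((el M f).map χ).submatrix id f').det ^ n * χ' b

/-- Relations in the field hold at all points of the intersection of two charts. -/
def RelAt (f f' : Fin 3 → Fin 9) : Prop :=
  ∀ (F : Type) [Field F] [Algebra K F] (χ : chart M f →ₐ[K] F) (χ' : chart M f' →ₐ[K] F),
    (((el M f).map χ).submatrix id f').det ≠ 0 → (el M f').map χ' = nm f' ((el M f).map χ) →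
    ∀ (a a' : chart M f) (b b' : chart M f'), (a : L) * b = a' * b' → χ a * χ' b = χ a' * χ' b'

/-- Properties of the chart rings. -/
structure ChAt : Prop where
  ne : ∀ j, mn j M ≠ 0
  gen : ∀ f, adjoin K (ent (el M f)) = ⊤
  ft : ∀ f, FiniteType K (chart M f)
  val : ∀ f, (el M f).map (chart M f).val = nm f M
  one : ∀ f, (M.submatrix id f).det ≠ 0 → (el M f).submatrix id f = 1
  iso : ∀ f, (M.submatrix id f).det ≠ 0 → Iso (el M f)
  det : ∀ f f', ((((el M f).submatrix id f').det : chart M f) : L) =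
    (M.submatrix id f').det / (M.submatrix id f).det
  frac : ∀ f, (M.submatrix id f).det ≠ 0 → ∀ z : L,
    ∃ a ∈ chart M f, ∃ b ∈ chart M f, b ≠ 0 ∧ z * b = a
  dim : ∀ j, trdeg K (Ach M j) = 2
  univ : ∀ j (F : Type) [Field F] [Algebra K F] (N : Matrix (Fin 3) (Fin 9) F), Iso N →
    mn j N ≠ 0 → ∃ χ : Ach M j →ₐ[K] F, (el M (ff j)).map χ = nm (ff j) N
  loc : ∀ f f', (M.submatrix id f).det ≠ 0 → (M.submatrix id f').det ≠ 0 →
    LocAt M f f' ∧ RelAt M f f'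
  place : ∀ p : Pl L, ∃ (j : Fin 4) (α : Ach M j →ₐ[K] p.O), (∀ b, (α b : L) = b) ∧
    cellOf ((el M (ff j)).map (p.π.comp α)) = j

/-- Divisors on the charts. -/
structure DivAt : Prop where
  prime : ∀ j, j ≠ 0 → (Ideal.span {mn 0 (el M (ff j))}).IsPrime
  notMem : ∀ j, j ≠ 0 → mn j (el M (ff 1)) ∉ Ideal.span {mn 0 (el M (ff 1))}
  princ : ∀ P : Ideal (Ach M 0), P.IsPrime → trdeg K (Ach M 0 ⧸ P) = 1 →
    ∃ g ∈ P, ∀ Q : Ideal (Ach M 0), Q.IsPrime → g ∈ Q → P ≤ Q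

/-- The generic point of the hyperplane section. -/
def HypAt : Prop := ∃ (F : Type) (_ : Field F) (_ : Algebra K F) (N : Matrix (Fin 3) (Fin 9) F),
  trdeg K F ≤ 1 ∧ Iso N ∧ mn 0 N = 0 ∧ ∀ j, j ≠ 0 → mn j N ≠ 0 ∧ ∃ χ : Ach M j →ₐ[K] F,
    (el M (ff j)).map χ = nm (ff j) N ∧ RingHom.ker χ = Ideal.span {mn 0 (el M (ff j))}

/-- Functions on the first chart have a pole along the hyperplane section. -/
def PoleAt : Prop := ∀ g : Ach M 0, g ≠ 0 → ¬ IsUnit g → ∃ m : ℕ, 0 < m ∧ ∀ j, j ≠ 0 →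
  ∃ g' : Ach M j, (g' : L) = g * (mn 0 M / mn j M) ^ m ∧ g' ∉ Ideal.span {mn 0 (el M (ff j))}

/-- The equation of the ramification curve. -/
def LimAt (G : Set Pt) : Prop := ∃ g : Ach M 0, g ≠ 0 ∧ ¬ IsUnit g ∧ ∀ j, j ≠ 0 →
  ∀ (m : ℕ) (g' : Ach M j), (g' : L) = g * (mn 0 M / mn j M) ^ m →
    g' ∉ Ideal.span {mn 0 (el M (ff j))} → ∀ (F : Type) [Field F] [Algebra K F]
    (β : Ach M j →ₐ[K] F), β (mn 0 (el M (ff j))) = 0 → β g' = 0 → pt ((el M (ff j)).map β) ∈ G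

end Charts

/-- The generic field exists. -/
def GenS : Prop := ∃ (L : Type) (_ : Field L) (_ : Algebra K L) (M : Matrix (Fin 3) (Fin 9) L),
  IsGenField M

/-- The transition statement for all fields. -/
def LocS : Prop := ∀ (L : Type) [Field L] [Algebra K L] (M : Matrix (Fin 3) (Fin 9) L)
  (f f' : Fin 3 → Fin 9), (M.submatrix id f).det ≠ 0 → (M.submatrix id f').det ≠ 0 →
  LocAt M f f' ∧ RelAt M f f'

/-- The chart statement. -/
def ChS : Prop := ∀ (L : Type) [Field L] [Algebra K L] (M : Matrix (Fin 3) (Fin 9) L),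
  IsGenField M → ChAt M

/-- The divisor statement. -/
def DivS : Prop := ∀ (L : Type) [Field L] [Algebra K L] (M : Matrix (Fin 3) (Fin 9) L),
  IsGenField M → ChAt M → DivAt M

/-- The statement on the hyperplane section. -/
def HypS : Prop := ∀ (L : Type) [Field L] [Algebra K L] (M : Matrix (Fin 3) (Fin 9) L),
  ChAt M → DivAt M → HypAt M

/-- The statement on poles. -/
def PoleS : Prop := ∀ (L : Type) [Field L] [Algebra K L] (M : Matrix (Fin 3) (Fin 9) L),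
  ChAt M → DivAt M → HypAt M → PoleAt M

/-- The statement on limits of ramification points. -/
def LimS : Prop := ∀ (L : Type) [Field L] [Algebra K L] (M : Matrix (Fin 3) (Fin 9) L)
  (G : Set Pt), ChAt M → DivAt M → CcIn G → LimAt M G

/-- The relation on the hyperplane section. -/
def HrelS : Prop := ∀ (L : Type) [Field L] [Algebra K L] (M : Matrix (Fin 3) (Fin 9) L)
  (P Q : Set Pt), ChAt M → HypAt M → PoleAt M → LimAt M P → VR P Q → CellIn Q 2 → CellIn P 3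

end Pool.Agent.MP_b834b3_ag.G18
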