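import Mathlib.Data.Matrix.ColumnRowPartitioned
import Pool.Agent.MP_b834b3_ag.h.SpecB

/-! Genus eighteen: the zero locus has at most one point, which is closed. -/

namespace Pool.Agent.MP_b834b3_ag.G18

open Algebra MvPolynomial Matrix

namespace YuL

section Ring

variable {R S : Type} [CommRing R] [CommRing S]

/-- The two covectors multiplied by the last basis vector. -/
def cw (j : Fin 4) (N : Matrix (Fin 3) (Fin 9) R) : Matrix (Fin 2) (Fin 16) R :=
  cv j N * gam (ev R 8)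

theorem cw_map (hB : Base) (σ : R →+* S) (j : Fin 4) (N : Matrix (Fin 3) (Fin 9) R) :
    (cw j N).map σ = cw j (N.map σ) := by
  have e : σ ∘ ev R 8 = ev S 8 := funext fun i => by
    simp [ev, Pi.single_apply, apply_ite σ]
  rw [cw, Matrix.map_mul, hB.eq.cv_map, gam_map, e, cw]

/-- The twelve equations. -/
def m4 (N : Matrix (Fin 3) (Fin 9) R) : Rw ⊕ Fin 2 → Ix → R :=
  Sum.elim (mm 0 N) fun ρ i => if i.1 = 0 then cw 0 N ρ i.2 else 0

/-- The twelve pivots. -/
def p4 : Rw ⊕ Fin 2 → Ix := Sum.elim (pv 0) fun ρ => (0, ![1, 9] ρ)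

theorem p4_inj : Function.Injective p4 := by decide

theorem m4_map (hB : Base) (σ : R →+* S) (N : Matrix (Fin 3) (Fin 9) R) (s : Rw ⊕ Fin 2) (i : Ix) :
    σ (m4 N s i) = m4 (N.map σ) s i := by
  rcases s with s | s
  · exact hB.eq.map _ _ σ 0 N s i
  · simp only [m4, Sum.elim_inr, ← cw_map hB, map_apply, apply_ite σ, map_zero]

theorem cw_apply (j : Fin 4) (N : Matrix (Fin 3) (Fin 9) R) (ρ : Fin 2) :
    cw j N ρ 0 = 0 ∧ cw j N ρ 8 = 0 ∧ cw j N ρ 1 = cv j N ρ 0 ∧ cw j N ρ 9 = cv j N ρ 8 := by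
  have e : cw j N ρ = cv j N ρ ᵥ* gam (ev R 8) := rfl
  rw [e, vecMul_gam]
  simp [ev]

theorem m4_det (hB : Base) (N : Matrix (Fin 3) (Fin 9) R) (h : N.submatrix id (ff 0) = 1) :
    (Matrix.of fun s s' => m4 N s (p4 s')).det = 1 := by
  have e : (Matrix.of fun s s' => m4 N s (p4 s')) =
      fromBlocks 1 (Matrix.of fun s ρ => mm 0 N s (0, ![1, 9] ρ)) 0 1 := by
    ext (s | s) (s' | s')
    · exact congrFun (congrFun (hB.eq.one R N 0 h) s) s'
    · rfl
    · obtain ⟨a, b⟩ := s'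
      have := cw_apply 0 N s
      change (if a = 0 then cw 0 N s (pcl 0 b) else 0) = 0
      split_ifs
      · fin_cases b
        exacts [this.1, this.2.1]
      · rfl
    · have := cw_apply 0 N s
      refine Eq.trans ?_ (congrFun (congrFun (hB.eq.cv_one R 0 N h) s) s')
      fin_cases s'
      exacts [this.2.2.1, this.2.2.2]
  rw [e, det_fromBlocks_zero₂₁, det_one, det_one, one_mul]

end Ring

variable {F : Type} [Field F] [Algebra K F]

theorem cw_p0 (j : Fin 4) {N : Matrix (Fin 3) (Fin 9) F} (h : Yp N) : cw j N *ᵥ p0 F = 0 := by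
  rw [cw, ← mulVec_mulVec]
  funext ρ
  have := congrFun h (prw j ρ)
  simp only [mulVec, dotProduct, cv, of_apply, mul_assoc, ← Finset.mul_sum, Pi.zero_apply] at this ⊢
  rw [this, mul_zero]

omit [Algebra K F] in
theorem rk2 (hB : Base) {j : Fin 4} {N : Matrix (Fin 3) (Fin 9) F}
    (h : N.submatrix id (ff j) = 1) : Rk (cv j N) := fun c hc => by
  rw [← vecMul_one c, ← hB.eq.cv_one F j N h]
  funext ρ
  exact congrFun hc (pcl j ρ)

omit [Algebra K F] in
theorem rk4 (hB : Base) {j : Fin 4} {N : Matrix (Fin 3) (Fin 9) F}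
    (h : N.submatrix id (ff j) = 1) (ht : Tot N) : Rk (fromRows (cv j N) (cw j N)) := fun c hc => by
  have an : ∀ d : Fin 2 → F, d ᵥ* cv j N ᵥ* gam (N 0) = 0 := fun d => by
    obtain ⟨e, he⟩ := hB.eq.cv_row F j N d
    rw [he]
    exact hB.cliff.an_row F N e ht 0
  have f0 : ∀ j, ff j 0 = 0 := by decide
  have b : bf (ev F 8) (N 0) = 1 := by
    have := congrFun (congrFun h 0) 0
    rw [submatrix_apply, f0, one_apply_eq] at this
    rw [bf_comm]
    exact (bf_ev (N 0) 0 (by decide)).trans this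
  rw [vecMul_fromRows, cw, ← vecMul_vecMul] at hc
  have h2 := congrArg (fun ξ => ξ ᵥ* gam (N 0)) hc
  simp only [add_vecMul, zero_vecMul] at h2
  rw [an, zero_add, vecMul_vecMul, gam_swap, b, one_smul, vecMul_sub, vecMul_one, ← vecMul_vecMul,
    an, zero_vecMul, sub_zero] at h2
  rw [h2, zero_vecMul, add_zero] at hc
  funext s
  rcases s with s | s
  exacts [congrFun (rk2 hB h _ hc) s, congrFun (rk2 hB h _ h2) s]

theorem ne0 (hB : Base) (hN : CntS) {j : Fin 4} {v : Fin 12 → F} (h1 : Iso (par j v))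
    (h2 : Yp (par j v)) : v 0 ≠ 0 := by
  classical
  have o := hB.par.one F j v
  have z := ((hB.eq.iso' F j _ o).1 h1).2
  let S := Subfield.closure (Set.range fun x : {x // v x ≠ 0} => v x)
  have hv : ∀ x, v x ∈ S := fun x => by
    by_cases k : v x = 0
    · rw [k]
      exact zero_mem S
    · exact Subfield.subset_closure ⟨⟨x, k⟩, rfl⟩
  have e : par j v = (par j fun x => (⟨v x, hv x⟩ : S)).map S.subtype :=
    (hB.par.map _ _ S.subtype j fun x => (⟨v x, hv x⟩ : S)).symm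
  have a : ∀ s k, cv j (par j v) s k ∈ S := fun s k => by
    rw [e, ← hB.eq.cv_map]
    exact Subtype.prop _
  have b : ∀ s k, cw j (par j v) s k ∈ S := fun s k => by
    rw [e, ← cw_map hB]
    exact Subtype.prop _
  have c := hN F (Fin 2 ⊕ Fin 2) (Fin 2) {x // v x ≠ 0} Empty _ _ (fun x => v x) Empty.elim
    (rk4 hB o h1.1) (rk2 hB o) (by
      rw [fromRows_mulVec, cw_p0 j h2]
      funext s
      rcases s with s | s
      exacts [congrFun (congrFun z s) 0, rfl]) z
    (by rintro (s | s) k; exacts [a s k, b s k]) a algebraicIndependent_empty_type fun d => d.elim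
  intro k
  have d := Fintype.card_subtype_lt (p := fun x => v x ≠ 0) (x := 0) (not_not.2 k)
  simp only [Fintype.card_sum, Fintype.card_fin] at c d
  omega

theorem red (hB : Base) (hN : CntS) {N : Matrix (Fin 3) (Fin 9) F} (h1 : Iso N) (r : Rk N)
    (h2 : Yp N) : ∃ v : Fin 12 → F, Iso (par 0 v) ∧ Yp (par 0 v) ∧ pt N = pt (par 0 v) := by
  obtain ⟨j, hj⟩ : ∃ j, cellOf N = j := ⟨_, rfl⟩
  have hd : mn j N ≠ 0 := hj ▸ hB.ech F N h1 r
  have hg : ((N.submatrix id (ff j))⁻¹).det ≠ 0 :=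
    (isUnit_nonsing_inv_det _ (isUnit_iff_ne_zero.2 hd)).ne_zero
  have i1 : Iso (nm (ff j) N) := hB.pt.iso_mul F _ N h1
  have y1 : Yp (nm (ff j) N) := (hB.pt.zp_mul F _ N).2 h1.1 h2
  have q1 : pt (nm (ff j) N) = pt N := hB.pt.pt_mul F _ N hg
  have c1 : cellOf (nm (ff j) N) = j := (congrArg Prod.fst q1).trans hj
  obtain ⟨v, hv⟩ : ∃ v, nm (ff j) N = par j v :=
    ⟨_, hB.par.eq F j _ (hB.pt.nm_one F (ff j) N hd).1 i1.1⟩
  rw [hv] at i1 y1 q1 c1
  have n : ∀ j, j ≠ 0 → 0 < nz j := by decide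
  obtain rfl : j = 0 := by_contra fun k =>
    ne0 hB hN i1 y1 ((hB.par.cell F j v).1 c1 0 (n j k))
  exact ⟨v, i1, y1, q1.symm⟩

theorem eqn (hB : Base) [Algebra ℂ F] {v : Fin 12 → F} (h1 : Iso (par 0 v)) (h2 : Yp (par 0 v))
    (s : Rw ⊕ Fin 2) : ∑ i, algebraMap K F (cf ℂ K i) *
      aeval v (m4 (par 0 (X : Fin 12 → MvPolynomial (Fin 12) ℂ)) s i) = 0 := by
  have e : ∀ i, aeval v (m4 (par 0 (X : Fin 12 → MvPolynomial (Fin 12) ℂ)) s i) =
      m4 (par 0 v) s i := fun i => by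
    refine (m4_map hB (aeval v : MvPolynomial (Fin 12) ℂ →ₐ[ℂ] F).toRingHom _ s i).trans ?_
    rw [hB.par.map]
    congr 2
    funext x
    exact aeval_X v x
  simp only [e]
  rcases s with s | s
  · exact ((hB.eq.iso F 0 _ (hB.par.one F 0 v)).1 h1).2 s
  · refine Eq.trans ?_ (congrFun (cw_p0 0 h2) s)
    simp only [m4, Sum.elim_inr, Fintype.sum_prod_type, mul_ite, mul_zero]
    rw [Finset.sum_comm]
    simp only [Finset.sum_ite_eq', Finset.mem_univ, if_true]
    exact Finset.sum_congr rfl fun k _ => mul_comm _ _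

theorem par_ev (hB : Base) (v : Fin 12 → F) : (par 0 (X : Fin 12 → MvPolynomial (Fin 12) K)).map
    (aeval v : MvPolynomial (Fin 12) K →ₐ[K] F) = par 0 v := by
  refine (hB.par.map _ _ (aeval v : MvPolynomial (Fin 12) K →ₐ[K] F).toRingHom 0 X).trans ?_
  congr 1
  funext x
  exact aeval_X v x

end YuL

open YuL in
theorem yu (hB : Base) (hN : CntS) (hU : UnqS) : YuS := by
  intro F F' _ _ _ _ N N' h1 r h1' r' h2 h2'
  obtain ⟨v, a1, a2, a3⟩ := red hB hN h1 r h2
  obtain ⟨v', b1, b2, b3⟩ := red hB hN h1' r' h2'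
  let _ : Algebra ℂ F := ((algebraMap K F).comp (algebraMap ℂ K)).toAlgebra
  let _ : Algebra ℂ F' := ((algebraMap K F').comp (algebraMap ℂ K)).toAlgebra
  have : IsScalarTower ℂ K F := IsScalarTower.of_algebraMap_eq' rfl
  have : IsScalarTower ℂ K F' := IsScalarTower.of_algebraMap_eq' rfl
  have d : pdet (m4 (par 0 (X : Fin 12 → MvPolynomial (Fin 12) ℂ))) p4 = 1 :=
    m4_det hB _ (hB.par.one _ 0 _)
  obtain ⟨u1, u2⟩ := hU (Fin 12) (Rw ⊕ Fin 2) (m4 (par 0 X)) p4 F F' v v' p4_inj (by decide)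
    (by rw [d, map_one]; exact one_ne_zero) (by rw [d, map_one]; exact one_ne_zero)
    (eqn hB a1 a2) (eqn hB b1 b2)
  rw [a3, b3]
  refine ⟨?_, (hB.pt.alg F _).2 fun a c => ?_⟩
  · rw [← par_ev hB v, ← par_ev hB v']
    exact hB.pt.pt_ker _ F F' _ _ _ u1
  · rw [(hB.par.cell F 0 v).2 fun x hx => absurd hx (Nat.not_lt_zero _),
      hB.pt.nm_self F _ _ (hB.par.one F 0 v)]
    have e : par 0 v = (par 0 fun x => (⟨v x, mem_algebraicClosure_iff.2 (u2 x)⟩ :
        algebraicClosure K F)).map (algebraicClosure K F).val.toRingHom :=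
      (hB.par.map _ _ (algebraicClosure K F).val.toRingHom 0 fun x =>
        (⟨v x, mem_algebraicClosure_iff.2 (u2 x)⟩ : algebraicClosure K F)).symm
    rw [e]
    exact mem_algebraicClosure_iff.1 (Subtype.prop _)

end Pool.Agent.MP_b834b3_ag.G18
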