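import Pool.Agent.MP_b834b3_ag.h.SpecA

/-! Genus eighteen: planes orthogonal to the vector of the first spinor. -/

namespace Pool.Agent.MP_b834b3_ag.G18

open Matrix

namespace ZaL

variable {F : Type} [Field F] [Algebra K F] {N : Matrix (Fin 3) (Fin 9) F} {a : Fin 9 → F} {ν : F}

theorem p0_ne : p0 F ≠ 0 := fun h => by
  have h1 : algebraMap K F (cf ℂ K ((0, 0) : Ix)) = 0 := congrFun h 0
  exact cf_indep.ne_zero (0, 0) ((map_eq_zero _).1 h1)

theorem eig (hC : CliffS) (hI : Iso N) (hR : Rk N) (hν : ν ≠ 0) (ha : gam a *ᵥ p0 F = ν • p0 F)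
    {ξ : Fin 16 → F} (h0 : ξ ≠ 0) (hA : An N ξ) (he : ξ ᵥ* gam a = ν • ξ) : Zp N := by
  refine ⟨ξ, h0, hA, fun x => ?_⟩
  obtain ⟨c, hc⟩ := hC.row_an F N ξ hR hA
  have h1 : am N *ᵥ p0 F = 0 := funext fun i => congrFun (congrFun hI.2 i) 0
  have h2 : ξ ⬝ᵥ p0 F = 0 := by rw [hc, ← dotProduct_mulVec, h1, dotProduct_zero]
  have h3 : ν * (ξ ᵥ* gam x ⬝ᵥ p0 F) = -(ν * (ξ ᵥ* gam x ⬝ᵥ p0 F)) := by
    conv_lhs => rw [← smul_eq_mul, ← smul_dotProduct, ← smul_vecMul, ← he, vecMul_vecMul, gam_swap,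
      vecMul_sub, sub_dotProduct, vecMul_smul, vecMul_one, smul_dotProduct, h2, smul_zero, zero_sub,
      ← vecMul_vecMul, ← dotProduct_mulVec, ha, dotProduct_smul, smul_eq_mul]
  have h4 : (2 * ν) * (ξ ᵥ* gam x ⬝ᵥ p0 F) = 0 := by linear_combination h3
  exact (mul_eq_zero.1 h4).resolve_left (mul_ne_zero (hC.two_ne F) hν)

theorem ex_y (hC : CliffS) (N : Matrix (Fin 3) (Fin 9) F) (a : Fin 9 → F) {ξ : Fin 16 → F}
    (h0 : ξ ≠ 0) : ∃ y, (∀ b, bf (N b) y = 0) ∧ bf y a = 0 ∧ ξ ᵥ* gam y ≠ 0 := by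
  by_contra h
  let A : Matrix (Option (Fin 3)) (Fin 9) F := of fun o => du (o.elim a fun b => N b)
  have k : ∀ y ∈ LinearMap.ker A.mulVecLin, ξ ᵥ* gam y = 0 := fun y hy => by
    by_contra q
    have e : A *ᵥ y = 0 := hy
    refine h ⟨y, fun b => ?_, ?_, q⟩
    · rw [bf_comm, bf, dotProduct_comm]; exact congrFun e (some b)
    · rw [bf, dotProduct_comm]; exact congrFun e none
  have h1 := hC.iso4 F _ fun x hx y hy => (hC.ann F ξ x y h0 (k x hx) (k y hy)).2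
  have h2 := LinearMap.finrank_range_add_finrank_ker A.mulVecLin
  have h3 := Submodule.finrank_le (LinearMap.range A.mulVecLin)
  simp only [Module.finrank_fintype_fun_eq_card, Fintype.card_option, Fintype.card_fin] at h2 h3
  omega

end ZaL

open ZaL in
theorem za (hC : CliffS) : ZaS := by
  intro F _ _ N a ν hI hR hν ha hb
  have hq : qf a = ν * ν := by
    have h1 : gam a *ᵥ (gam a *ᵥ p0 F) = (ν * ν) • p0 F := by
      rw [ha, mulVec_smul, ha, smul_smul]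
    rw [mulVec_mulVec, gam_sq, smul_mulVec, one_mulVec] at h1
    exact smul_left_injective F p0_ne h1
  obtain ⟨p, hp⟩ := hC.two F N hI.1 hR
  set ξ : Fin 16 → F := Pi.single (p 0) 1 ᵥ* am N with hξ
  have hA : An N ξ := hC.an_row F N _ hI.1
  have h0 : ξ ≠ 0 := fun h => by
    have h1 := hp (Pi.single 0 1) (by
      rw [← h, hξ, single_one_vecMul, single_one_vecMul]; rfl)
    simpa using congrFun h1 0
  by_cases h1 : ξ ᵥ* gam a + ν • ξ = 0
  · obtain ⟨y, y1, y2, y3⟩ := ex_y hC N a h0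
    refine eig hC hI hR hν ha y3 (hC.perp F _ N y ξ y1 hA) ?_
    rw [vecMul_vecMul, gam_swap, y2, zero_smul, zero_sub, vecMul_neg, ← vecMul_vecMul,
      eq_neg_of_add_eq_zero_left h1, neg_vecMul, neg_neg, smul_vecMul]
  · refine eig hC hI hR hν ha h1 (fun b => ?_) ?_
    · rw [add_vecMul, hC.perp F _ N a ξ hb hA b, smul_vecMul, hA b, smul_zero, add_zero]
    · rw [add_vecMul, vecMul_vecMul, gam_sq, vecMul_smul, vecMul_one, hq, smul_vecMul, smul_add,
        smul_smul, add_comm]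

end Pool.Agent.MP_b834b3_ag.G18
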