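import Pool.Agent.MP_b834b3_ag.h.SpecB

/-! Genus eighteen: the degeneracy locus has at most one point. -/

namespace Pool.Agent.MP_b834b3_ag.G18

open MvPolynomial Matrix

namespace ZuL

variable {F : Type} [Field F] [Algebra K F]

theorem norm (hB : Base) {N : Matrix (Fin 3) (Fin 9) F} (h1 : Iso N) (h2 : Rk N) (h3 : Zp N) :
    ∃ (j : Fin 4) (v : Fin 12 → F), pt (par j v) = pt N ∧ Iso (par j v) ∧ Zp (par j v) ∧
      cellOf (par j v) = j := by
  have hd : (N.submatrix id (ff (cellOf N))).det ≠ 0 := hB.ech F N h1 h2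
  have hg : (N.submatrix id (ff (cellOf N)))⁻¹.det ≠ 0 :=
    (isUnit_nonsing_inv_det _ (isUnit_iff_ne_zero.2 hd)).ne_zero
  have a1 : Iso (nm (ff (cellOf N)) N) := hB.pt.iso_mul F _ N h1
  have a2 : Zp (nm (ff (cellOf N)) N) := (hB.pt.zp_mul F _ N).1 h3
  have a3 : pt (nm (ff (cellOf N)) N) = pt N := hB.pt.pt_mul F _ N hg
  have a4 : cellOf (nm (ff (cellOf N)) N) = cellOf N := congrArg Prod.fst a3
  have e := hB.par.eq F (cellOf N) _ (hB.pt.nm_one F _ N hd).1 a1.1
  refine ⟨cellOf N, fun x => nm (ff (cellOf N)) N (sc (cellOf N) x).1 (sc (cellOf N) x).2, ?_⟩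
  rw [← e]
  exact ⟨a3, a1, a2, a4⟩

theorem ff_ne : ∀ j a, ff j a ≠ 4 := by decide

omit [Algebra K F] in
theorem vm_mem {m n : Type} [Fintype m] (L : Subfield F) {c : m → F} {A : Matrix m n F}
    (hc : ∀ i, c i ∈ L) (hA : ∀ i k, A i k ∈ L) (k : n) : (c ᵥ* A) k ∈ L :=
  L.sum_mem (f := fun i => c i * A i k) fun i _ => L.mul_mem (hc i) (hA i k)

omit [Algebra K F] in
theorem vm_sum {m m' n : Type} [Fintype m] [Fintype m'] (A : Matrix m n F) (B : Matrix m' n F)
    (d : m ⊕ m' → F) : d ᵥ* of (Sum.elim A B) = (d ∘ Sum.inl) ᵥ* A + (d ∘ Sum.inr) ᵥ* B := by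
  ext k
  simp only [vecMul, dotProduct, Fintype.sum_sum_type, Pi.add_apply]
  rfl

theorem cnt (hB : Base) (hN : CntS) {j : Fin 4} {v : Fin 12 → F} (h1 : Iso (par j v))
    {c : Fin 2 → F} (h2 : ZD (p0 F) (par j v) (c ᵥ* cv j (par j v))) (p : Fin 12 → F)
    (h3 : ∀ x, v x ∈ Subfield.closure (Set.range p))
    (h4 : ∀ ρ, c ρ ∈ Subfield.closure (Set.range p)) : False := by
  set L := Subfield.closure (Set.range p) with hL
  set M := par j v with hM
  set ξ := c ᵥ* cv j M with hξ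
  have one : M.submatrix id (ff j) = 1 := hB.par.one F j v
  have r' : Rk (cv j M) := fun d hd => by
    funext k
    have : (d ᵥ* cv j M) (pcl j k) = (d ᵥ* (cv j M).submatrix id (pcl j)) k := rfl
    rw [hd, hB.eq.cv_one F j M one, vecMul_one] at this
    exact this.symm
  have z' : cv j M * psi F = 0 := ((hB.eq.iso' F j M one).1 h1).2
  have m' : ∀ s k, cv j M s k ∈ L := fun s k => by
    let v0 : Fin 12 → L := fun x => ⟨v x, h3 x⟩
    have e : M = (par j v0).map L.subtype := (hB.par.map L F L.subtype j v0).symm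
    rw [e, ← hB.eq.cv_map]
    exact (cv j (par j v0) s k).2
  have mξ : ∀ k, ξ k ∈ L := vm_mem L h4 m'
  have mg : ∀ i k, (ξ ᵥ* gam (ev F i)) k ∈ L := fun i k => by
    have e : ev F i = L.subtype ∘ ev L i := by
      funext a
      simp only [ev, Function.comp_apply, Pi.single_apply]
      split_ifs <;> simp
    refine vm_mem L mξ (fun s k => ?_) k
    rw [e, ← gam_map]
    exact (gam (ev L i) s k).2
  let C : Matrix (Fin 2 ⊕ Fin 3) (Fin 16) F :=
    of (Sum.elim (cv j M) (of fun a => ξ ᵥ* gam (ev F (ff j a).rev)))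
  have r : Rk C := fun d hd => by
    rw [vm_sum] at hd
    have k2 : d ∘ Sum.inr = 0 := by
      funext b
      have e := congrArg (· ᵥ* gam (M b)) hd
      obtain ⟨d', hd'⟩ := hB.eq.cv_row F j M (d ∘ Sum.inl)
      have e1 : ∀ a, (of fun a => ξ ᵥ* gam (ev F (ff j a).rev)) a ᵥ* gam (M b) =
          (1 : Matrix (Fin 3) (Fin 3) F) b a • ξ := fun a => by
        change ξ ᵥ* gam (ev F (ff j a).rev) ᵥ* gam (M b) = _
        rw [vecMul_vecMul, gam_swap, bf_comm, bf_ev _ _ (ff_ne j a), vecMul_sub, vecMul_smul,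
          vecMul_one, ← vecMul_vecMul, h2.2.1 b, zero_vecMul, sub_zero, ← one]
        rfl
      simp only [add_vecMul, hd', hB.cliff.an_row F M d' h1.1 b, zero_add, zero_vecMul] at e
      rw [vecMul_eq_sum (d ∘ Sum.inr), sum_vecMul] at e
      simp only [smul_vecMul, e1, smul_smul, ← Finset.sum_smul] at e
      have e2 := (smul_eq_zero.1 e).resolve_right h2.1
      simpa [one_apply] using e2
    rw [k2, zero_vecMul, add_zero] at hd
    rw [← Sum.elim_comp_inl_inr d, r' _ hd, k2]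
    exact Sum.elim_zero_zero
  have z : C *ᵥ p0 F = 0 := by
    funext s
    rcases s with s | a
    · exact congrFun (congrFun z' s) 0
    · exact h2.2.2 _
  have m : ∀ s k, C s k ∈ L := fun s k => by
    rcases s with s | a
    · exact m' s k
    · exact mg _ k
  have := hN F _ _ _ Empty C (cv j M) p Empty.elim r r' z z' m m' algebraicIndependent_empty_type
    fun d => d.elim
  simp at this

omit [Algebra K F] in
theorem zd_smul {ψ ξ : Fin 16 → F} {M : Matrix (Fin 3) (Fin 9) F} (h : ZD ψ M ξ) {a : F}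
    (ha : a ≠ 0) : ZD ψ M (a • ξ) :=
  ⟨smul_ne_zero ha h.1, fun b => by rw [smul_vecMul, h.2.1 b, smul_zero],
    fun x => by rw [smul_vecMul, smul_dotProduct, h.2.2 x, smul_zero]⟩

theorem nf (hB : Base) (hN : CntS) {N : Matrix (Fin 3) (Fin 9) F} (h1 : Iso N) (h2 : Rk N)
    (h3 : Zp N) : ∃ w : Option (Fin 12) → F, pt (par 0 (w ∘ some)) = pt N ∧
      Iso (par 0 (w ∘ some)) ∧ cellOf (par 0 (w ∘ some)) = 0 ∧
      ZD (p0 F) (par 0 (w ∘ some)) (![1, w none] ᵥ* cv 0 (par 0 (w ∘ some))) := by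
  obtain ⟨j, v, a1, a2, ⟨ξ, a3⟩, a4⟩ := norm hB h1 h2 h3
  have e := (hB.eq.cv_an F j _ ξ (hB.par.one F j v) a2.1).1 a3.2.1
  set c := ξ ∘ pcl j with hc
  clear_value c
  subst e
  have c0 : c 0 ≠ 0 := fun c0 => by
    have c1 : c 1 ≠ 0 := fun c1 => a3.1 (by
      have : c = 0 := by
        funext ρ
        fin_cases ρ
        exacts [c0, c1]
      rw [this, zero_vecMul])
    have b := zd_smul a3 (inv_ne_zero c1)
    rw [← smul_vecMul] at b
    refine cnt hB hN a2 b v (fun x => Subfield.subset_closure ⟨x, rfl⟩) fun ρ => ?_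
    fin_cases ρ
    · simp [c0]
    · simp [c1]
  have b := zd_smul a3 (inv_ne_zero c0)
  have e : (c 0)⁻¹ • c = ![1, (c 0)⁻¹ * c 1] := by
    funext ρ
    fin_cases ρ
    · simp [c0]
    · simp
  rw [← smul_vecMul, e] at b
  have v0 : v 0 ≠ 0 := fun v0 => by
    refine cnt hB hN a2 b (Function.update v 0 ((c 0)⁻¹ * c 1)) (fun x => ?_) fun ρ => ?_
    · by_cases hx : x = 0
      · rw [hx, v0]
        exact zero_mem _
      · exact Subfield.subset_closure ⟨x, Function.update_of_ne hx _ _⟩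
    · fin_cases ρ
      · exact one_mem _
      · exact Subfield.subset_closure ⟨0, Function.update_self _ _ _⟩
  have j0 : j = 0 := by
    by_contra j0
    refine v0 ((hB.par.cell F j v).1 a4 0 ?_)
    revert j0
    fin_cases j <;> decide
  subst j0
  exact ⟨fun o => o.elim ((c 0)⁻¹ * c 1) v, a1, a2, a4, b⟩

/-- The coefficients of the thirteen equations. -/
def mq {R : Type} [CommRing R] (w : Option (Fin 12) → R) : Rw ⊕ Fin 3 → Ix → R
  | .inl s, i => mm 0 (par 0 (w ∘ some)) s i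
  | .inr a, i => if i.1 = 0 then
      (![1, w none] ᵥ* cv 0 (par 0 (w ∘ some)) ᵥ* gam (ev R (ff 0 a).rev)) i.2 else 0

/-- The thirteen pivots. -/
def pq : Rw ⊕ Fin 3 → Ix := Sum.elim (pv 0) fun a => (0, ![1, 2, 4] a)

theorem pq_inj : Function.Injective pq := by decide +kernel

theorem mq_map (hB : Base) {R S : Type} [CommRing R] [CommRing S] (σ : R →+* S)
    (w : Option (Fin 12) → R) (s : Rw ⊕ Fin 3) (i : Ix) : σ (mq w s i) = mq (σ ∘ w) s i := by
  rcases s with s | a
  · rw [mq, mq, hB.eq.map, hB.par.map]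
    rfl
  · rw [mq, mq]
    split_ifs
    · have e1 : σ ∘ ev R (ff 0 a).rev = ev S (ff 0 a).rev := by
        funext b
        simp only [ev, Function.comp_apply, Pi.single_apply]
        split_ifs <;> simp
      have e2 : σ ∘ (![1, w none] ᵥ* cv 0 (par 0 (w ∘ some))) =
          ![1, (σ ∘ w) none] ᵥ* cv 0 (par 0 ((σ ∘ w) ∘ some)) := by
        funext k
        rw [Function.comp_apply, RingHom.map_vecMul, hB.eq.cv_map, hB.par.map]
        congr 1
        funext ρ
        fin_cases ρ <;> simp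
      rw [RingHom.map_vecMul, gam_map, e1, e2]
    · exact map_zero σ

theorem piv {R : Type} [CommRing R] (s : Fin 16 → R) (h : s 0 = 1) (a : Fin 3) :
    (∀ ρ, (s ᵥ* gam (ev R (ff 0 a).rev)) (pcl 0 ρ) = 0) ∧
      ∀ b, (s ᵥ* gam (ev R (ff 0 a).rev)) (![1, 2, 4] b) = (1 : Matrix (Fin 3) (Fin 3) R) a b := by
  rw [vecMul_gam]
  refine ⟨fun ρ => ?_, fun b => ?_⟩
  · fin_cases a <;> fin_cases ρ <;> simp [ev, ff, pcl, Fin.rev]
  · fin_cases a <;> fin_cases b <;> simp [ev, ff, h, Fin.rev]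

theorem det_eq (hB : Base) {R : Type} [CommRing R] (w : Option (Fin 12) → R) :
    (of fun s s' => mq w s (pq s')).det = 1 := by
  have one := hB.par.one R 0 (w ∘ some)
  have h0 : (![1, w none] ᵥ* cv 0 (par 0 (w ∘ some))) 0 = 1 := by
    have : (![1, w none] ᵥ* cv 0 (par 0 (w ∘ some))) (pcl 0 0) =
      (![1, w none] ᵥ* (cv 0 (par 0 (w ∘ some))).submatrix id (pcl 0)) 0 := rfl
    rw [hB.eq.cv_one R 0 _ one, vecMul_one] at this
    exact this
  have e : (of fun s s' => mq w s (pq s')) =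
      fromBlocks 1 (of fun s a => mq w (.inl s) (pq (.inr a))) 0 1 := by
    ext s s'
    rcases s with s | a <;> rcases s' with s' | b
    · exact congrFun (congrFun (hB.eq.one R _ 0 one) s) s'
    · rfl
    · change (if s'.1 = 0 then _ else 0) = (0 : R)
      split_ifs
      · exact (piv _ h0 a).1 s'.2
      · rfl
    · rw [of_apply, mq, if_pos (show (pq (Sum.inr b)).1 = 0 from rfl), fromBlocks_apply₂₂]
      exact (piv _ h0 a).2 b
  rw [e, det_fromBlocks_zero₂₁, Matrix.det_one, Matrix.det_one, mul_one]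

theorem eqn (hB : Base) {w : Option (Fin 12) → F} (h1 : Iso (par 0 (w ∘ some)))
    (h2 : ZD (p0 F) (par 0 (w ∘ some)) (![1, w none] ᵥ* cv 0 (par 0 (w ∘ some))))
    (s : Rw ⊕ Fin 3) : ∑ i, algebraMap K F (cf ℂ K i) * mq w s i = 0 := by
  rcases s with s | a
  · exact ((hB.eq.iso F 0 _ (hB.par.one F 0 _)).1 h1).2 s
  · rw [← h2.2.2 (ev F (ff 0 a).rev), dotProduct, Fintype.sum_prod_type, Finset.sum_eq_single 0]
    · refine Finset.sum_congr rfl fun k _ => ?_
      rw [mq, if_pos rfl, mul_comm]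
      rfl
    · intro b _ hb
      refine Finset.sum_eq_zero fun k _ => ?_
      rw [mq, if_neg hb, mul_zero]
    · simp

omit [Algebra K F] in
theorem par_mem (hB : Base) (S : Subring F) {j : Fin 4} {v : Fin 12 → F} (h : ∀ x, v x ∈ S)
    (a : Fin 3) (c : Fin 9) : par j v a c ∈ S := by
  have e := hB.par.map S F S.subtype j fun x => ⟨v x, h x⟩
  have e2 : (S.subtype ∘ fun x => (⟨v x, h x⟩ : S)) = v := rfl
  rw [e2] at e
  rw [← e, map_apply]
  exact Subtype.property _

end ZuL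

open ZuL

theorem zu (hB : Base) (hN : CntS) (hU : UnqS) : ZuS := by
  intro F F' _ _ _ _ N N' i1 r1 i2 r2 z1 z2
  obtain ⟨w, a1, a2, a3, a4⟩ := nf hB hN i1 r1 z1
  obtain ⟨w', b1, b2, -, b4⟩ := nf hB hN i2 r2 z2
  let _ : Algebra ℂ F := ((algebraMap K F).comp (algebraMap ℂ K)).toAlgebra
  let _ : Algebra ℂ F' := ((algebraMap K F').comp (algebraMap ℂ K)).toAlgebra
  have : IsScalarTower ℂ K F := IsScalarTower.of_algebraMap_eq fun _ => rfl
  have : IsScalarTower ℂ K F' := IsScalarTower.of_algebraMap_eq fun _ => rfl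
  have hd : pdet (mq (X : Option (Fin 12) → MvPolynomial (Option (Fin 12)) ℂ)) pq = 1 :=
    det_eq hB _
  have hm : ∀ (T : Type) [CommRing T] [Algebra ℂ T] (u : Option (Fin 12) → T) s i,
      aeval u (mq (X : Option (Fin 12) → MvPolynomial (Option (Fin 12)) ℂ) s i) = mq u s i :=
    fun T _ _ u s i => (mq_map hB (aeval u : _ →ₐ[ℂ] T).toRingHom X s i).trans (by
      congr 1
      funext x
      exact aeval_X u x)
  obtain ⟨k1, k2⟩ := hU (Option (Fin 12)) (Rw ⊕ Fin 3) (mq X) pq F F' w w' pq_inj (by simp)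
    (by rw [hd, map_one]; exact one_ne_zero) (by rw [hd, map_one]; exact one_ne_zero)
    (fun s => by simp only [hm]; exact eqn hB a2 a4 s)
    (fun s => by simp only [hm]; exact eqn hB b2 b4 s)
  have hp : ∀ (T : Type) [CommRing T] [Algebra K T] (u : Option (Fin 12) → T),
      (par 0 ((X : Option (Fin 12) → MvPolynomial (Option (Fin 12)) K) ∘ some)).map
        (aeval u : _ →ₐ[K] T) = par 0 (u ∘ some) :=
    fun T _ _ u => (hB.par.map _ _ (aeval u : _ →ₐ[K] T).toRingHom 0 _).trans (by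
      congr 1
      funext x
      exact aeval_X u (some x))
  have k3 := hB.pt.pt_ker _ F F' (aeval w) (aeval w') (par 0 (X ∘ some)) k1
  rw [hp, hp] at k3
  refine ⟨a1.symm.trans (k3.trans b1), ?_⟩
  rw [← a1, hB.pt.alg, a3, hB.pt.nm_self F _ _ (hB.par.one F 0 _)]
  intro a c
  exact mem_algebraicClosure_iff.1 (par_mem hB (algebraicClosure K F).toSubalgebra.toSubring
    (v := w ∘ some) (fun x => mem_algebraicClosure_iff.2 (k2 (some x))) a c)

end Pool.Agent.MP_b834b3_ag.G18
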