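import Pool.Agent.MP_b834b3_ag.g.Cmp
import Pool.Agent.MP_b834b3_ag.g.Geo
import Pool.Agent.MP_b834b3_ag.g.Geo2
import Pool.Agent.MP_b834b3_ag.g.Jac
import Pool.Agent.MP_b834b3_ag.g.Lin
import Pool.Agent.MP_b834b3_ag.g.Vb
import Pool.Agent.MP_b834b3_ag.h.Main
import Pool.Agent.MP_b834b3_ag.h.Atlas
import Pool.Agent.MP_b834b3_ag.h.Bf
import Pool.Agent.MP_b834b3_ag.h.Cg
import Pool.Agent.MP_b834b3_ag.h.Ch
import Pool.Agent.MP_b834b3_ag.h.Cliff
import Pool.Agent.MP_b834b3_ag.h.Cnt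
import Pool.Agent.MP_b834b3_ag.h.Cur
import Pool.Agent.MP_b834b3_ag.h.Div
import Pool.Agent.MP_b834b3_ag.h.Ech
import Pool.Agent.MP_b834b3_ag.h.EchG
import Pool.Agent.MP_b834b3_ag.h.Eq
import Pool.Agent.MP_b834b3_ag.h.Exc
import Pool.Agent.MP_b834b3_ag.h.Fz
import Pool.Agent.MP_b834b3_ag.h.Gen
import Pool.Agent.MP_b834b3_ag.h.Grp
import Pool.Agent.MP_b834b3_ag.h.Hrel
import Pool.Agent.MP_b834b3_ag.h.Hyp
import Pool.Agent.MP_b834b3_ag.h.Jc
import Pool.Agent.MP_b834b3_ag.h.Lim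
import Pool.Agent.MP_b834b3_ag.h.Loc
import Pool.Agent.MP_b834b3_ag.h.Mov
import Pool.Agent.MP_b834b3_ag.h.Nc
import Pool.Agent.MP_b834b3_ag.h.Nf
import Pool.Agent.MP_b834b3_ag.h.One
import Pool.Agent.MP_b834b3_ag.h.Par
import Pool.Agent.MP_b834b3_ag.h.Pl
import Pool.Agent.MP_b834b3_ag.h.Pt
import Pool.Agent.MP_b834b3_ag.h.R1
import Pool.Agent.MP_b834b3_ag.h.R2
import Pool.Agent.MP_b834b3_ag.h.Spc
import Pool.Agent.MP_b834b3_ag.h.Str1
import Pool.Agent.MP_b834b3_ag.h.Str2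
import Pool.Agent.MP_b834b3_ag.h.Thr
import Pool.Agent.MP_b834b3_ag.h.Three
import Pool.Agent.MP_b834b3_ag.h.Trk
import Pool.Agent.MP_b834b3_ag.h.Two
import Pool.Agent.MP_b834b3_ag.h.Uni
import Pool.Agent.MP_b834b3_ag.h.Unq
import Pool.Agent.MP_b834b3_ag.h.Vrel
import Pool.Agent.MP_b834b3_ag.h.Yu
import Pool.Agent.MP_b834b3_ag.h.Za
import Pool.Agent.MP_b834b3_ag.h.Zu

/-! Genus eighteen: assembly. -/

namespace Pool.Agent.MP_b834b3_ag.G18

open AlgebraicGeometry CategoryTheory Limits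

theorem base : Base :=
  ⟨cliff, G20.lin, par_s, pt_s cliff G20.lin, eq_s cliff,
    ech cliff (pt_s cliff G20.lin) (ech_g G20.lin) (cnt G20.lin), pl_s (pt_s cliff G20.lin),
    G20.add⟩

theorem ch' : ChS := ch_s base (loc_s base.pt)

theorem exc' : ExcS :=
  exc base grp (uni grp (nf cliff)) (jc G20.jac) (mov base grp)
    (trk base grp (mov base grp) G20.cmp (uni grp (nf cliff)))

theorem exists_model' : ExistS := exist_s base (gen_s base exc') ch'

theorem rank_le_four {X : Scheme.{0}} {s : X ⟶ Spec (CommRingCat.of K)} (hs : IsGeneric s) :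
    rankCH2 (pullback s s) ≤ 4 := by
  obtain ⟨h0, L, _, _, M, hM, hG⟩ := hs
  have h := ch' L M hM
  obtain ⟨𝒜⟩ := atl_s base L M X s h h0 hG
  have h1 := str1 base G20.vb
  have h2 := str2 base (bf_s cliff G20.lin (thr cliff G20.lin) (ech_g G20.lin) (cnt G20.lin))
  have hd := div_s base L M hM h
  have hh := hyp_s base L M h hd
  refine count 𝒜 base h1 h2 h fun b => ?_
  have ho := one_s base G20.geo2 L M X s 𝒜 b h (closed 𝒜 base h1 h2 G20.geo1 hM h)
  exact cells 𝒜 b ho (zu base (cnt G20.lin) unq) (two_s base) (cg base (spec_s base) (cur base))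
    (r1_s base (spec_s base) (cur base) (desc base) (two_s base) fz (za cliff))
    (r2_s base (spec_s base) (cur base) (desc base) (yu base (cnt G20.lin) unq))
    (fun V ω hR => vrp 𝒜 vrel (nc base) (ctr_s base) (three_s base G20.cmp) h b ho hR ω)
    fun P Q hP => hrel base (two_s base) L M P Q h hh (pole_s base L M h hd hh)
      (lim_s base exc' L M P h hd hP)

end Pool.Agent.MP_b834b3_ag.G18
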