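import Pool.Agent.MP_b834b3_ag.h.Defs

/-! Genus eighteen: the matrix of Clifford multiplication. -/

namespace Pool.Agent.MP_b834b3_ag.G18

open Matrix

theorem cre_cast (R : Type) [CommRing R] (m : ℕ) (I J : Fin 16) : cre R m I J = (cre ℤ m I J : ℤ) := by
  simp only [cre, of_apply]
  split_ifs <;> simp

/-- The variable and the sign of an entry. -/
def tb : Matrix (Fin 16) (Fin 16) (Fin 9 × ℤ) :=
  !![(4, 1), (8, 1), (7, 1), (0, 0), (6, 1), (0, 0), (0, 0), (0, 0), (5, 1), (0, 0), (0, 0), (0, 0), (0, 0), (0, 0), (0, 0), (0, 0);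
     (0, 1), (4, -1), (0, 0), (7, -1), (0, 0), (6, -1), (0, 0), (0, 0), (0, 0), (5, -1), (0, 0), (0, 0), (0, 0), (0, 0), (0, 0), (0, 0);
     (1, 1), (0, 0), (4, -1), (8, 1), (0, 0), (0, 0), (6, -1), (0, 0), (0, 0), (0, 0), (5, -1), (0, 0), (0, 0), (0, 0), (0, 0), (0, 0);
     (0, 0), (1, -1), (0, 1), (4, 1), (0, 0), (0, 0), (0, 0), (6, 1), (0, 0), (0, 0), (0, 0), (5, 1), (0, 0), (0, 0), (0, 0), (0, 0);
     (2, 1), (0, 0), (0, 0), (0, 0), (4, -1), (8, 1), (7, 1), (0, 0), (0, 0), (0, 0), (0, 0), (0, 0), (5, -1), (0, 0), (0, 0), (0, 0);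
     (0, 0), (2, -1), (0, 0), (0, 0), (0, 1), (4, 1), (0, 0), (7, -1), (0, 0), (0, 0), (0, 0), (0, 0), (0, 0), (5, 1), (0, 0), (0, 0);
     (0, 0), (0, 0), (2, -1), (0, 0), (1, 1), (0, 0), (4, 1), (8, 1), (0, 0), (0, 0), (0, 0), (0, 0), (0, 0), (0, 0), (5, 1), (0, 0);
     (0, 0), (0, 0), (0, 0), (2, 1), (0, 0), (1, -1), (0, 1), (4, -1), (0, 0), (0, 0), (0, 0), (0, 0), (0, 0), (0, 0), (0, 0), (5, -1);
     (3, 1), (0, 0), (0, 0), (0, 0), (0, 0), (0, 0), (0, 0), (0, 0), (4, -1), (8, 1), (7, 1), (0, 0), (6, 1), (0, 0), (0, 0), (0, 0);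
     (0, 0), (3, -1), (0, 0), (0, 0), (0, 0), (0, 0), (0, 0), (0, 0), (0, 1), (4, 1), (0, 0), (7, -1), (0, 0), (6, -1), (0, 0), (0, 0);
     (0, 0), (0, 0), (3, -1), (0, 0), (0, 0), (0, 0), (0, 0), (0, 0), (1, 1), (0, 0), (4, 1), (8, 1), (0, 0), (0, 0), (6, -1), (0, 0);
     (0, 0), (0, 0), (0, 0), (3, 1), (0, 0), (0, 0), (0, 0), (0, 0), (0, 0), (1, -1), (0, 1), (4, -1), (0, 0), (0, 0), (0, 0), (6, 1);
     (0, 0), (0, 0), (0, 0), (0, 0), (3, -1), (0, 0), (0, 0), (0, 0), (2, 1), (0, 0), (0, 0), (0, 0), (4, 1), (8, 1), (7, 1), (0, 0);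
     (0, 0), (0, 0), (0, 0), (0, 0), (0, 0), (3, 1), (0, 0), (0, 0), (0, 0), (2, -1), (0, 0), (0, 0), (0, 1), (4, -1), (0, 0), (7, -1);
     (0, 0), (0, 0), (0, 0), (0, 0), (0, 0), (0, 0), (3, 1), (0, 0), (0, 0), (0, 0), (2, -1), (0, 0), (1, 1), (0, 0), (4, -1), (8, 1);
     (0, 0), (0, 0), (0, 0), (0, 0), (0, 0), (0, 0), (0, 0), (3, -1), (0, 0), (0, 0), (0, 0), (2, 1), (0, 0), (1, -1), (0, 1), (4, 1)]

theorem tb_eq : ∀ I J : Fin 16, ∀ i : Fin 9,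
    ![cre ℤ 0 I J, cre ℤ 1 I J, cre ℤ 2 I J, cre ℤ 3 I J, if I = J then sg 4 I else 0,
      cre ℤ 3 J I, cre ℤ 2 J I, cre ℤ 1 J I, cre ℤ 0 J I] i =
    if i = (tb I J).1 then (tb I J).2 else 0 := by decide +kernel

theorem gam_apply {R : Type} [CommRing R] (x : Fin 9 → R) (I J : Fin 16) :
    gam x I J = (tb I J).2 * x (tb I J).1 := by
  have h : gam x I J = ∑ i : Fin 9, x i * ((![cre ℤ 0 I J, cre ℤ 1 I J, cre ℤ 2 I J, cre ℤ 3 I J,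
      if I = J then sg 4 I else 0, cre ℤ 3 J I, cre ℤ 2 J I, cre ℤ 1 J I, cre ℤ 0 J I] i : ℤ) : R) := by
    simp [gam, Fin.sum_univ_succ, cre_cast R, diagonal_apply, Fin.rev]
    ring
  rw [h]
  simp [tb_eq, mul_comm]

theorem gam_eq {R : Type} [CommRing R] (x : Fin 9 → R) : gam x =
    !![x 4, x 8, x 7, 0, x 6, 0, 0, 0, x 5, 0, 0, 0, 0, 0, 0, 0;
     x 0, -x 4, 0, -x 7, 0, -x 6, 0, 0, 0, -x 5, 0, 0, 0, 0, 0, 0;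
     x 1, 0, -x 4, x 8, 0, 0, -x 6, 0, 0, 0, -x 5, 0, 0, 0, 0, 0;
     0, -x 1, x 0, x 4, 0, 0, 0, x 6, 0, 0, 0, x 5, 0, 0, 0, 0;
     x 2, 0, 0, 0, -x 4, x 8, x 7, 0, 0, 0, 0, 0, -x 5, 0, 0, 0;
     0, -x 2, 0, 0, x 0, x 4, 0, -x 7, 0, 0, 0, 0, 0, x 5, 0, 0;
     0, 0, -x 2, 0, x 1, 0, x 4, x 8, 0, 0, 0, 0, 0, 0, x 5, 0;
     0, 0, 0, x 2, 0, -x 1, x 0, -x 4, 0, 0, 0, 0, 0, 0, 0, -x 5;
     x 3, 0, 0, 0, 0, 0, 0, 0, -x 4, x 8, x 7, 0, x 6, 0, 0, 0;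
     0, -x 3, 0, 0, 0, 0, 0, 0, x 0, x 4, 0, -x 7, 0, -x 6, 0, 0;
     0, 0, -x 3, 0, 0, 0, 0, 0, x 1, 0, x 4, x 8, 0, 0, -x 6, 0;
     0, 0, 0, x 3, 0, 0, 0, 0, 0, -x 1, x 0, -x 4, 0, 0, 0, x 6;
     0, 0, 0, 0, -x 3, 0, 0, 0, x 2, 0, 0, 0, x 4, x 8, x 7, 0;
     0, 0, 0, 0, 0, x 3, 0, 0, 0, -x 2, 0, 0, x 0, -x 4, 0, -x 7;
     0, 0, 0, 0, 0, 0, x 3, 0, 0, 0, -x 2, 0, x 1, 0, -x 4, x 8;
     0, 0, 0, 0, 0, 0, 0, -x 3, 0, 0, 0, x 2, 0, -x 1, x 0, x 4] := by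
  ext I J
  rw [gam_apply]
  fin_cases I <;> fin_cases J <;> simp [tb]

end Pool.Agent.MP_b834b3_ag.G18
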