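import Pool.Agent.MP_b834b3_ag.g.SpecA
import Pool.Agent.MP_b834b3_ag.h.Lit

/-! Genus eighteen: the Clifford relations. -/

namespace Pool.Agent.MP_b834b3_ag.G18

open Matrix

variable {R S : Type} [CommRing R] [CommRing S]

/-- The vector that represents the pairing with `x`. -/
def du (x : Fin 9 → R) : Fin 9 → R := ![x 8, x 7, x 6, x 5, 2 * x 4, x 3, x 2, x 1, x 0]

/-- The bilinear form. -/
def bf (x y : Fin 9 → R) : R := x ⬝ᵥ du y

/-- The basis vectors. -/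
def ev (R : Type) [CommRing R] (i : Fin 9) : Fin 9 → R := Pi.single i 1

theorem bf_eq (x y : Fin 9 → R) : bf x y = x 0 * y 8 + x 1 * y 7 + x 2 * y 6 + x 3 * y 5 +
    2 * x 4 * y 4 + x 5 * y 3 + x 6 * y 2 + x 7 * y 1 + x 8 * y 0 := by
  simp [bf, du, dotProduct, Fin.sum_univ_succ]
  ring

theorem bf_comm (x y : Fin 9 → R) : bf x y = bf y x := by rw [bf_eq, bf_eq]; ring

theorem bf_self (x : Fin 9 → R) : bf x x = 2 * qf x := by rw [bf_eq, qf]; ring

theorem qf_add (x y : Fin 9 → R) : qf (x + y) = qf x + qf y + bf x y := by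
  simp only [bf_eq, qf, Pi.add_apply]; ring

theorem qf_smul (a : R) (x : Fin 9 → R) : qf (a • x) = a ^ 2 * qf x := by
  simp only [qf, Pi.smul_apply, smul_eq_mul]; ring

theorem qf_map (σ : R →+* S) (x : Fin 9 → R) : σ (qf x) = qf (σ ∘ x) := by simp [qf]

theorem bf_map (σ : R →+* S) (x y : Fin 9 → R) : σ (bf x y) = bf (σ ∘ x) (σ ∘ y) := by
  simp [bf_eq, map_ofNat]

theorem bf_add (x y z : Fin 9 → R) : bf (x + y) z = bf x z + bf y z := add_dotProduct _ _ _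

theorem bf_sub (x y z : Fin 9 → R) : bf (x - y) z = bf x z - bf y z := sub_dotProduct _ _ _

theorem bf_smul (a : R) (x y : Fin 9 → R) : bf (a • x) y = a * bf x y := smul_dotProduct _ _ _

theorem bf_vecMul {m : Type} [Fintype m] (c : m → R) (M : Matrix m (Fin 9) R) (y : Fin 9 → R) :
    bf (c ᵥ* M) y = ∑ a, c a * bf (M a) y := by
  rw [bf, ← dotProduct_mulVec]; rfl

theorem bf_ev (x : Fin 9 → R) (c : Fin 9) (h : c ≠ 4) : bf x (ev R c.rev) = x c := by
  fin_cases c <;> simp [bf_eq, ev, Fin.rev] at h ⊢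

theorem gam_mulVec (x : Fin 9 → R) (s : Fin 16 → R) : gam x *ᵥ s =
    ![x 4 * s 0 + x 8 * s 1 + x 7 * s 2 + x 6 * s 4 + x 5 * s 8,
    x 0 * s 0 - x 4 * s 1 - x 7 * s 3 - x 6 * s 5 - x 5 * s 9,
    x 1 * s 0 - x 4 * s 2 + x 8 * s 3 - x 6 * s 6 - x 5 * s 10,
    -(x 1 * s 1) + x 0 * s 2 + x 4 * s 3 + x 6 * s 7 + x 5 * s 11,
    x 2 * s 0 - x 4 * s 4 + x 8 * s 5 + x 7 * s 6 - x 5 * s 12,
    -(x 2 * s 1) + x 0 * s 4 + x 4 * s 5 - x 7 * s 7 + x 5 * s 13,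
    -(x 2 * s 2) + x 1 * s 4 + x 4 * s 6 + x 8 * s 7 + x 5 * s 14,
    x 2 * s 3 - x 1 * s 5 + x 0 * s 6 - x 4 * s 7 - x 5 * s 15,
    x 3 * s 0 - x 4 * s 8 + x 8 * s 9 + x 7 * s 10 + x 6 * s 12,
    -(x 3 * s 1) + x 0 * s 8 + x 4 * s 9 - x 7 * s 11 - x 6 * s 13,
    -(x 3 * s 2) + x 1 * s 8 + x 4 * s 10 + x 8 * s 11 - x 6 * s 14,
    x 3 * s 3 - x 1 * s 9 + x 0 * s 10 - x 4 * s 11 + x 6 * s 15,
    -(x 3 * s 4) + x 2 * s 8 + x 4 * s 12 + x 8 * s 13 + x 7 * s 14,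
    x 3 * s 5 - x 2 * s 9 + x 0 * s 12 - x 4 * s 13 - x 7 * s 15,
    x 3 * s 6 - x 2 * s 10 + x 1 * s 12 - x 4 * s 14 + x 8 * s 15,
    -(x 3 * s 7) + x 2 * s 11 - x 1 * s 13 + x 0 * s 14 + x 4 * s 15] := by
  ext i
  fin_cases i <;> simp [gam_eq, mulVec, dotProduct, Fin.sum_univ_succ] <;> ring

theorem vecMul_gam (s : Fin 16 → R) (x : Fin 9 → R) : s ᵥ* gam x =
    ![s 0 * x 4 + s 1 * x 0 + s 2 * x 1 + s 4 * x 2 + s 8 * x 3,
    s 0 * x 8 - s 1 * x 4 - s 3 * x 1 - s 5 * x 2 - s 9 * x 3,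
    s 0 * x 7 - s 2 * x 4 + s 3 * x 0 - s 6 * x 2 - s 10 * x 3,
    -(s 1 * x 7) + s 2 * x 8 + s 3 * x 4 + s 7 * x 2 + s 11 * x 3,
    s 0 * x 6 - s 4 * x 4 + s 5 * x 0 + s 6 * x 1 - s 12 * x 3,
    -(s 1 * x 6) + s 4 * x 8 + s 5 * x 4 - s 7 * x 1 + s 13 * x 3,
    -(s 2 * x 6) + s 4 * x 7 + s 6 * x 4 + s 7 * x 0 + s 14 * x 3,
    s 3 * x 6 - s 5 * x 7 + s 6 * x 8 - s 7 * x 4 - s 15 * x 3,
    s 0 * x 5 - s 8 * x 4 + s 9 * x 0 + s 10 * x 1 + s 12 * x 2,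
    -(s 1 * x 5) + s 8 * x 8 + s 9 * x 4 - s 11 * x 1 - s 13 * x 2,
    -(s 2 * x 5) + s 8 * x 7 + s 10 * x 4 + s 11 * x 0 - s 14 * x 2,
    s 3 * x 5 - s 9 * x 7 + s 10 * x 8 - s 11 * x 4 + s 15 * x 2,
    -(s 4 * x 5) + s 8 * x 6 + s 12 * x 4 + s 13 * x 0 + s 14 * x 1,
    s 5 * x 5 - s 9 * x 6 + s 12 * x 8 - s 13 * x 4 - s 15 * x 1,
    s 6 * x 5 - s 10 * x 6 + s 12 * x 7 - s 14 * x 4 + s 15 * x 0,
    -(s 7 * x 5) + s 11 * x 6 - s 13 * x 7 + s 14 * x 8 + s 15 * x 4] := by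
  ext i
  fin_cases i <;> simp [gam_eq, vecMul, dotProduct, Fin.sum_univ_succ] <;> ring

theorem mat_ext {A B : Matrix (Fin 16) (Fin 16) R} (h : ∀ s, A *ᵥ s = B *ᵥ s) : A = B := by
  ext i j
  simpa using congrFun (h (Pi.single j 1)) i

theorem gam_add (x y : Fin 9 → R) : gam (x + y) = gam x + gam y := mat_ext fun s => by
  rw [add_mulVec, gam_mulVec, gam_mulVec, gam_mulVec]
  ext i
  fin_cases i <;> simp <;> ring

theorem gam_smul (a : R) (x : Fin 9 → R) : gam (a • x) = a • gam x := mat_ext fun s => by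
  rw [smul_mulVec, gam_mulVec, gam_mulVec]
  ext i
  fin_cases i <;> simp <;> ring

/-- Clifford multiplication as a linear map. -/
def gamL (R : Type) [CommRing R] : (Fin 9 → R) →ₗ[R] Matrix (Fin 16) (Fin 16) R :=
  ⟨⟨gam, gam_add⟩, gam_smul⟩

theorem gam_zero : gam (0 : Fin 9 → R) = 0 := (gamL R).map_zero

theorem gam_neg (x : Fin 9 → R) : gam (-x) = -gam x := (gamL R).map_neg x

theorem gam_sub (x y : Fin 9 → R) : gam (x - y) = gam x - gam y := (gamL R).map_sub x y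

theorem gam_vecMul {m : Type} [Fintype m] (c : m → R) (M : Matrix m (Fin 9) R) :
    gam (c ᵥ* M) = ∑ a, c a • gam (M a) := by
  rw [vecMul_eq_sum]
  exact (map_sum (gamL R) _ _).trans (Finset.sum_congr rfl fun a _ => gam_smul _ _)

theorem gam_map (σ : R →+* S) (x : Fin 9 → R) : (gam x).map σ = gam (σ ∘ x) := by
  ext i j
  have h : ∀ (T : Type) [CommRing T] (y : Fin 9 → T), gam y i j = (gam y *ᵥ Pi.single j 1) i :=
    fun T _ y => by simp
  rw [map_apply, h, h, gam_mulVec, gam_mulVec]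
  fin_cases i <;> simp [Pi.single_apply, apply_ite σ]

theorem gam_sq (x : Fin 9 → R) : gam x * gam x = qf x • (1 : Matrix (Fin 16) (Fin 16) R) :=
  mat_ext fun s => by
    rw [← mulVec_mulVec, smul_mulVec, one_mulVec, gam_mulVec x s, gam_mulVec]
    ext i
    fin_cases i <;> simp [qf] <;> ring

theorem gam_anti (x y : Fin 9 → R) :
    gam x * gam y + gam y * gam x = bf x y • (1 : Matrix (Fin 16) (Fin 16) R) := by
  have h := gam_sq (x + y)
  rw [gam_add, qf_add, add_mul, mul_add, mul_add, gam_sq, gam_sq, add_smul, add_smul] at h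
  linear_combination (norm := module) h

theorem gam_swap (x y : Fin 9 → R) :
    gam x * gam y = bf x y • (1 : Matrix (Fin 16) (Fin 16) R) - gam y * gam x :=
  eq_sub_of_add_eq (gam_anti x y)

/-- The row space is isotropic. -/
def Tot {m : Type} [Fintype m] (M : Matrix m (Fin 9) R) : Prop := ∀ c, qf (c ᵥ* M) = 0

theorem Tot.bf {m : Type} [Fintype m] {M : Matrix m (Fin 9) R} (h : Tot M) (c d : m → R) :
    bf (c ᵥ* M) (d ᵥ* M) = 0 := by
  have := qf_add (c ᵥ* M) (d ᵥ* M)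
  rwa [← add_vecMul, h, h, h, zero_add, zero_add, eq_comm] at this

theorem tot_iff {m : Type} [Fintype m] (M : Matrix m (Fin 9) R) :
    Tot M ↔ (∀ a, qf (M a) = 0) ∧ ∀ a b, bf (M a) (M b) = 0 := by
  classical
  refine ⟨fun h => ⟨fun a => ?_, fun a b => ?_⟩, fun h c => ?_⟩
  · simpa [Matrix.row] using h (Pi.single a 1)
  · simpa [Matrix.row] using h.bf (Pi.single a 1) (Pi.single b 1)
  · have key : ∀ T : Finset m, qf (∑ a ∈ T, c a • M a) = 0 ∧
        ∀ b, bf (∑ a ∈ T, c a • M a) (M b) = 0 := fun T => by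
      induction T using Finset.induction_on with
      | empty => simp [qf, bf_eq]
      | insert a T ha ih =>
        rw [Finset.sum_insert ha]
        refine ⟨?_, fun b => ?_⟩
        · rw [qf_add, qf_smul, h.1, ih.1, bf_smul, bf_comm, ih.2]; ring
        · rw [bf_add, bf_smul, h.2, ih.2]; ring
    rw [vecMul_eq_sum]
    exact (key _).1

theorem Tot.mul {m n : Type} [Fintype m] [Fintype n] {M : Matrix m (Fin 9) R} (h : Tot M)
    (g : Matrix n m R) : Tot (g * M) := fun c => by rw [← vecMul_vecMul]; exact h _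

theorem Tot.map {m : Type} [Fintype m] {M : Matrix m (Fin 9) R} (h : Tot M) (σ : R →+* S) :
    Tot (M.map σ) := by
  rw [tot_iff] at h ⊢
  exact ⟨fun a => (qf_map σ _).symm.trans (by rw [h.1, map_zero]),
    fun a b => (bf_map σ _ _).symm.trans (by rw [h.2, map_zero])⟩

/-- The product of the three rows. -/
def am (M : Matrix (Fin 3) (Fin 9) R) : Matrix (Fin 16) (Fin 16) R :=
  gam (M 0) * gam (M 1) * gam (M 2)

theorem am_map (σ : R →+* S) (M : Matrix (Fin 3) (Fin 9) R) : (am M).map σ = am (M.map σ) := by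
  rw [am, Matrix.map_mul, Matrix.map_mul, gam_map, gam_map, gam_map]; rfl

theorem am_mul {M : Matrix (Fin 3) (Fin 9) R} (h : Tot M) (g : Matrix (Fin 3) (Fin 3) R) :
    am (g * M) = g.det • am M := by
  obtain ⟨h1, h2⟩ := (tot_iff M).1 h
  have s : ∀ a, gam (M a) * gam (M a) = 0 := fun a => by rw [gam_sq, h1, zero_smul]
  have t : ∀ a b, gam (M a) * gam (M b) = -(gam (M b) * gam (M a)) := fun a b => by
    rw [gam_swap, h2, zero_smul, zero_sub]
  have s' : ∀ a (X : Matrix (Fin 16) (Fin 16) R), gam (M a) * (gam (M a) * X) = 0 := fun a X => by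
    rw [← Matrix.mul_assoc, s, Matrix.zero_mul]
  have t' : ∀ a b (X : Matrix (Fin 16) (Fin 16) R),
      gam (M a) * (gam (M b) * X) = -(gam (M b) * (gam (M a) * X)) := fun a b X => by
    rw [← Matrix.mul_assoc, t, neg_mul, Matrix.mul_assoc]
  have e : ∀ a, gam ((g * M) a) = ∑ b, g a b • gam (M b) := fun a => gam_vecMul (g a) M
  simp only [am, e, Fin.sum_univ_three, det_fin_three, mul_add, add_mul, smul_mul_assoc,
    mul_smul_comm, Matrix.mul_assoc, s, s', t 1 0, t 2 0, t 2 1, t' 1 0,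
    mul_neg, neg_mul, smul_neg, zero_mul, mul_zero, smul_zero, neg_zero, neg_neg]
  module

theorem psi_map [Algebra K R] [Algebra K S] (σ : R →ₐ[K] S) : (psi R).map σ = psi S := by
  ext k i
  simp [psi]

theorem psi_apply [Algebra K R] (k : Fin 16) (i : Fin 5) :
    psi R k i = algebraMap K R (cf ℂ K (i, k)) := rfl

theorem iso_iff [Algebra K R] (M : Matrix (Fin 3) (Fin 9) R) :
    Iso M ↔ Tot M ∧ am M * psi R = 0 := Iff.rfl

theorem cf_indep : AlgebraicIndependent ℂ (cf ℂ K : Ix → K) :=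
  (MvPolynomial.algebraicIndependent_X Ix ℂ).map' (f := IsScalarTower.toAlgHom ℂ _ K)
    (IsFractionRing.injective _ _)

end Pool.Agent.MP_b834b3_ag.G18
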