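import Pool.Agent.MP_b834b3_ag.h.SpecC

/-! Genus eighteen: the points of the square with dependent conditions. -/

namespace Pool.Agent.MP_b834b3_ag.G18

open AlgebraicGeometry CategoryTheory Algebra IsLocalRing Limits Matrix
open scoped TensorProduct

namespace Str2L

theorem sub_map {R S : Type} [CommRing R] [CommRing S] [Algebra K R] [Algebra K S]
    (σ : R →ₐ[K] S) {M : Matrix (Fin 3) (Fin 9) R} {f : Fin 3 → Fin 9}
    (h : M.submatrix id f = 1) : (M.map σ).submatrix id f = 1 := by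
  rw [submatrix_map, h]
  exact Matrix.map_one _ (map_zero σ) (map_one σ)

variable {L : Type} [Field L] [Algebra K L] {M : Matrix (Fin 3) (Fin 9) L} {X : Scheme.{0}}
  {s : X ⟶ Spec (CommRingCat.of K)}

theorem gen2 (h : ChAt M) (j : Bool → Fin 4) :
    adjoin K (ent (el2 M j false) ∪ ent (el2 M j true)) = ⊤ := by
  have h1 : ∀ b a, inc K (Ach M) j b a ∈ adjoin K (ent (el2 M j false) ∪ ent (el2 M j true)) := by
    intro b a
    have h2 : (⊤ : Subalgebra K (Ach M (j b))) ≤
        (adjoin K (ent (el2 M j false) ∪ ent (el2 M j true))).comap (inc K (Ach M) j b) := by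
      rw [← h.gen (ff (j b))]
      refine adjoin_le ?_
      rintro _ ⟨x, rfl⟩
      refine subset_adjoin ?_
      cases b
      exacts [Or.inl ⟨x, rfl⟩, Or.inr ⟨x, rfl⟩]
    exact h2 Algebra.mem_top
  refine top_unique ?_
  rw [← inc_gen j false]
  refine adjoin_le ?_
  rintro _ (⟨a, rfl⟩ | ⟨a, rfl⟩)
  exacts [h1 _ a, h1 _ a]

theorem height_le (𝒜 : Atl M s) (h : ChAt M) (j : Bool → Fin 4)
    (P : Spec (CommRingCat.of (Bq M j))) (m : ℕ) (hm : trdeg K (Bq M j ⧸ P.asIdeal) ≤ m) :
    Order.height (𝒜.J j P) ≤ m := by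
  have := 𝒜.lft h
  obtain ⟨n, hn⟩ := Cardinal.lt_aleph0.1 (hm.trans_lt (Cardinal.natCast_lt_aleph0 (n := m)))
  rw [(height_chart (pullback.fst s s ≫ s) (𝒜.J j) (𝒜.hJ j) P n).2 hn]
  rw [hn] at hm
  exact_mod_cast hm

/-- The generic point of the diagonal. -/
noncomputable def diag (M : Matrix (Fin 3) (Fin 9) L) (i : Fin 4) :
    Spec (CommRingCat.of (Bq M fun _ => i)) :=
  ⟨RingHom.ker (Algebra.TensorProduct.lmul' K (S := Ach M i)), RingHom.ker_isPrime _⟩

theorem on_diag (hB : Base) (𝒜 : Atl M s) (h : ChAt M) (i : Fin 4)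
    (P : Spec (CommRingCat.of (Bq M fun _ => i))) (hc : cellOf (red M _ P false) = i)
    (he : red M _ P true = red M _ P false) :
    Order.height (𝒜.J _ P) ≤ 2 ∧ (Order.height (𝒜.J _ P) = 2 → 𝒜.J _ P = 𝒜.J _ (diag M 0)) := by
  let β := IsScalarTower.toAlgHom K (Bq M fun _ => i) P.asIdeal.ResidueField
  let γ : Ach M i →ₐ[K] P.asIdeal.ResidueField := β.comp (inc K (Ach M) (fun _ => i) false)
  let μ : (Bq M fun _ => i) →ₐ[K] Ach M i := Algebra.TensorProduct.lmul' K (S := Ach M i)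
  have e1 : β.comp (inc K (Ach M) (fun _ => i) true) = γ := by
    refine AlgHom.ext_of_adjoin_eq_top (h.gen (ff i)) ?_
    rintro _ ⟨x, rfl⟩
    exact congrFun (congrFun he x.1) x.2
  have e2 : β = γ.comp μ := by
    refine Algebra.TensorProduct.ext' fun a a' => ?_
    have h1 : (a ⊗ₜ[K] a' : Bq M fun _ => i) =
        inc K (Ach M) (fun _ => i) false a * inc K (Ach M) (fun _ => i) true a' := by simp [inc]
    have h2 : μ (a ⊗ₜ[K] a') = a * a' := Algebra.TensorProduct.lmul'_apply_tmul a a'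
    rw [AlgHom.comp_apply, h2, map_mul, h1, map_mul]
    exact congrArg _ (DFunLike.congr_fun e1 a')
  have e3 : P.asIdeal = (RingHom.ker γ).comap μ := by
    ext x
    refine Ideal.algebraMap_residueField_eq_zero.symm.trans ?_
    change β x = 0 ↔ γ (μ x) = 0
    rw [e2]
    rfl
  have hμ : Function.Surjective μ := fun a => ⟨a ⊗ₜ[K] 1, by
    rw [show μ (a ⊗ₜ[K] 1) = a * 1 from Algebra.TensorProduct.lmul'_apply_tmul a 1, mul_one]⟩
  have e4 : trdeg K ((Bq M fun _ => i) ⧸ P.asIdeal) = trdeg K (Ach M i ⧸ RingHom.ker γ) := by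
    exact (congrArg (fun I : Ideal (Bq M fun _ => i) => trdeg K ((Bq M fun _ => i) ⧸ I)) e3).trans
      (trdeg_comap μ hμ _)
  refine ⟨height_le 𝒜 h _ P 2 ?_, fun h2 => ?_⟩
  · rw [e4]
    exact (trdeg_le_of_surjective (Ideal.Quotient.mkₐ K _) Ideal.Quotient.mk_surjective).trans
      (h.dim i).le
  have hγ : ∀ a, γ a = 0 → a = 0 := by
    intro a ha
    by_contra h0
    have := RingHom.ker_isPrime γ
    have h3 := trdeg_quot_lt (k := K) (n := 2) (h.dim i) (RingHom.ker γ) ha h0
    have h4 := height_le 𝒜 h _ P 1 (by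
      rw [e4]
      exact Cardinal.lt_natCast_add_one_iff.1 (h3.trans_eq (Nat.cast_succ 1)))
    rw [h2] at h4
    exact absurd h4 (by decide)
  have hm : mn 0 (red M _ P false) ≠ 0 := by
    intro h0
    have h1 : γ (mn 0 (el M (ff i))) = 0 := by
      rw [← h0]
      exact γ.map_det _
    have h3 := h.det (ff i) (ff 0)
    rw [show ((el M (ff i)).submatrix id (ff 0)).det = 0 from hγ _ h1] at h3
    exact div_ne_zero (h.ne 0) (h.ne i) h3.symm
  have hi : i = 0 := by
    have := (hB.pt.cell_iff _ _ 0 hm).1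
    rw [hc] at this
    exact le_antisymm this (Fin.zero_le _)
  subst hi
  refine congrArg _ (PrimeSpectrum.ext ?_)
  rw [e3]
  ext x
  change γ (μ x) = 0 ↔ μ x = 0
  exact ⟨hγ _, fun h0 => by rw [h0, map_zero]⟩

end Str2L

/-- The points with dependent conditions have dimension at most two, and only the diagonal has
dimension two. -/
theorem str2 (hB : Base) (hF : BfS) : Str2S := by
  intro L _ _ M X s 𝒜 h
  refine ⟨𝒜.J _ (Str2L.diag M 0), fun j P hc hL => ?_⟩
  have h1 : ∀ b, (el2 M j b).submatrix id (ff (j b)) = 1 := fun b =>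
    Str2L.sub_map _ (h.one _ (h.ne (j b)))
  have h2 : ∀ b, (red M j P b).submatrix id (ff (j b)) = 1 := fun b => Str2L.sub_map _ (h1 b)
  have hI : ∀ b, Iso (red M j P b) := fun b =>
    (hB.pt.iso_map _ _ _ _).1 ((hB.pt.iso_map _ _ _ _).1 (h.iso _ (h.ne (j b))))
  rcases hF _ _ (IsScalarTower.toAlgHom K (Bq M j) P.asIdeal.ResidueField) (el2 M j false)
    (el2 M j true) _ _ (Str2L.gen2 h j) (h1 false) (h1 true) (hI false) (hI true) hL with
    ⟨g, hg⟩ | ht
  · replace hg : red M j P true = g * red M j P false := hg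
    have hR : Rk (red M j P true) :=
      (hB.pt.rk_det _ _).2 ⟨ff (j true), by rw [h2, det_one]; exact one_ne_zero⟩
    have hg0 : g.det ≠ 0 := ((hB.pt.rk_mul _ g _).2 (hg ▸ hR)).1
    have hj : j true = j false := by
      refine (hc true).symm.trans (Eq.trans ?_ (hc false))
      rw [hg]
      exact congrArg Prod.fst (hB.pt.pt_mul _ g _ hg0)
    obtain ⟨i, rfl⟩ : ∃ i, j = fun _ => i := ⟨j false, funext fun b => by cases b; exacts [rfl, hj]⟩
    have he : red M _ P true = red M _ P false := by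
      refine (hB.pt.nm_self _ _ _ (h2 true)).symm.trans (Eq.trans ?_
        (hB.pt.nm_self _ _ _ (h2 false)))
      rw [hg]
      exact hB.pt.nm_mul _ _ g _ hg0
    exact Str2L.on_diag hB 𝒜 h i P (hc false) he
  · have h3 := Str2L.height_le 𝒜 h j P 1 (by
      refine (congrArg (fun I : Ideal (Bq M j) => trdeg K (Bq M j ⧸ I))
        (Ideal.ker_algebraMap_residueField P.asIdeal)).symm.trans_le ?_
      exact ht.trans_eq Nat.cast_one.symm)
    refine ⟨h3.trans (by decide), fun h4 => ?_⟩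
    rw [h4] at h3
    exact absurd h3 (by decide)

end Pool.Agent.MP_b834b3_ag.G18
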